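import Pool.Agent.P.MP_c9b50d_al.Inv

/-!
Automorphisms of W(2,1), p = 3, are induced by automorphisms of O(2).
-/

namespace Pool.Agent.W23

open MvPolynomial

variable {k : Type*} [Field k]

/-- The substitution x to X, y to Y. -/
noncomputable def sub (X Y : O k) (hX : X ^ 3 = 0) (hY : Y ^ 3 = 0) : O k →ₐ[k] O k :=
  Ideal.Quotient.liftₐ (cubes k) (aeval ![X, Y]) (by
    intro g hg
    unfold cubes at hg
    induction hg using Submodule.span_induction with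
    | mem g hg =>
      obtain ⟨i, rfl⟩ := hg
      fin_cases i
      · simpa using hX
      · simpa using hY
    | zero => simp
    | add a b _ _ ha hb => rw [map_add, ha, hb, add_zero]
    | smul a b _ hb => rw [smul_eq_mul, map_mul, hb, mul_zero])

@[simp] theorem sub_x (X Y : O k) (hX : X ^ 3 = 0) (hY : Y ^ 3 = 0) : sub X Y hX hY x = X := by
  simp [sub, x]

@[simp] theorem sub_y (X Y : O k) (hX : X ^ 3 = 0) (hY : Y ^ 3 = 0) : sub X Y hX hY y = Y := by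
  simp [sub, y]

theorem hom_mk (φ : O k →ₐ[k] O k) (a00 a10 a01 a20 a11 a02 a21 a12 a22 : k) :
    φ (mk a00 a10 a01 a20 a11 a02 a21 a12 a22) =
      a00 • (1 : O k) + a10 • φ x + a01 • φ y + a20 • (φ x * φ x) + a11 • (φ x * φ y)
      + a02 • (φ y * φ y) + a21 • (φ x * φ x * φ y) + a12 • (φ x * (φ y * φ y))
      + a22 • (φ x * φ x * (φ y * φ y)) := by
  simp only [mk, map_add, map_smul, map_mul, map_one, pow_two]

/-- Transport of a derivation along an automorphism. -/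
noncomputable def cj (φ : O k ≃ₐ[k] O k) (E : W k) : W k :=
  Derivation.mk' (φ.toLinearMap ∘ₗ (E : O k →ₗ[k] O k) ∘ₗ φ.symm.toLinearMap) (by
    intro a b
    simp [Derivation.leibniz])

theorem cj_apply (φ : O k ≃ₐ[k] O k) (E : W k) (f : O k) : cj φ E f = φ (E (φ.symm f)) := rfl

/-- The Lie algebra automorphism induced by an automorphism of O(2). -/
noncomputable def cjL (φ : O k ≃ₐ[k] O k) : W k ≃ₗ⁅k⁆ W k where
  toFun := cj φ
  invFun := cj φ.symm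
  map_add' E F := by ext f; simp [cj_apply]
  map_smul' c E := by ext f; simp [cj_apply]
  map_lie' {E F} := by ext f; simp [cj_apply, Derivation.commutator_apply]
  left_inv E := by ext f; simp [cj_apply]
  right_inv E := by ext f; simp [cj_apply]

theorem cjL_apply (φ : O k ≃ₐ[k] O k) (E : W k) (f : O k) : cjL φ E f = φ (E (φ.symm f)) := rfl

theorem cjL_symm_apply (φ : O k ≃ₐ[k] O k) (E : W k) (f : O k) :
    (cjL φ).symm E f = φ.symm (E (φ f)) := rfl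

theorem mul_top_ne {f : O k} (hf : f ≠ 0) : ∃ g : O k, f * g = mk 0 0 0 0 0 0 0 0 1 := by
  obtain ⟨a00, a10, a01, a20, a11, a02, a21, a12, a22, rfl⟩ := mk_surj f
  by_cases h : a00 = 0
  swap
  · exact ⟨mk 0 0 0 0 0 0 0 0 a00⁻¹, by simp [mk_mul, h]⟩
  subst h
  by_cases h : a10 = 0
  swap
  · exact ⟨mk 0 0 0 0 0 0 0 a10⁻¹ 0, by simp [mk_mul, h]⟩
  subst h
  by_cases h : a01 = 0
  swap
  · exact ⟨mk 0 0 0 0 0 0 a01⁻¹ 0 0, by simp [mk_mul, h]⟩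
  subst h
  by_cases h : a20 = 0
  swap
  · exact ⟨mk 0 0 0 0 0 a20⁻¹ 0 0 0, by simp [mk_mul, h]⟩
  subst h
  by_cases h : a11 = 0
  swap
  · exact ⟨mk 0 0 0 0 a11⁻¹ 0 0 0 0, by simp [mk_mul, h]⟩
  subst h
  by_cases h : a02 = 0
  swap
  · exact ⟨mk 0 0 0 a02⁻¹ 0 0 0 0 0, by simp [mk_mul, h]⟩
  subst h
  by_cases h : a21 = 0
  swap
  · exact ⟨mk 0 0 a21⁻¹ 0 0 0 0 0 0, by simp [mk_mul, h]⟩
  subst h
  by_cases h : a12 = 0
  swap
  · exact ⟨mk 0 a12⁻¹ 0 0 0 0 0 0 0, by simp [mk_mul, h]⟩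
  subst h
  by_cases h : a22 = 0
  swap
  · exact ⟨mk a22⁻¹ 0 0 0 0 0 0 0 0, by simp [mk_mul, h]⟩
  subst h
  exact absurd zero_eq.symm hf

theorem top_nondeg {f : O k} (h : ∀ g, top (f * g) = 0) : f = 0 := by
  by_contra hf
  obtain ⟨g, hg⟩ := mul_top_ne hf
  have := h g
  rw [hg, top_coord] at this
  exact one_ne_zero this

variable [CharP k 3]

theorem cube_mk (a00 a10 a01 a20 a11 a02 a21 a12 a22 : k) :
    mk a00 a10 a01 a20 a11 a02 a21 a12 a22 ^ 3 = algebraMap k (O k) (a00 ^ 3) := by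
  rw [pow_three, mk_mul, mk_mul, alg_eq, mk_inj]
  refine ⟨?_, ?_, ?_, ?_, ?_, ?_, ?_, ?_, ?_⟩ <;> grind

theorem cube0 (a10 a01 a20 a11 a02 a21 a12 a22 : k) :
    mk 0 a10 a01 a20 a11 a02 a21 a12 a22 ^ 3 = 0 := by
  rw [cube_mk]; simp

theorem chain (E : W k) (f : O k) : E f = pd 0 f * E x + pd 1 f * E y := by
  conv_lhs => rw [← der_eq E]
  simp only [der, Derivation.add_apply, Derivation.smul_apply, smul_eq_mul]
  ring

theorem pd0_x : pd 0 (x : O k) = 1 := by simpa [x] using pd_X (k := k) 0 0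
theorem pd0_y : pd 0 (y : O k) = 0 := by simpa [y] using pd_X (k := k) 0 1
theorem pd1_x : pd 1 (x : O k) = 0 := by simpa [x] using pd_X (k := k) 1 0
theorem pd1_y : pd 1 (y : O k) = 1 := by simpa [y] using pd_X (k := k) 1 1

theorem pd0_mk (a00 a10 a01 a20 a11 a02 a21 a12 a22 : k) :
    pd 0 (mk a00 a10 a01 a20 a11 a02 a21 a12 a22) =
      mk a10 (2 * a20) a11 0 (2 * a21) a12 0 (2 * a22) 0 := by
  rw [der_mk, pd0_x, pd0_y]; simp

theorem pd1_mk (a00 a10 a01 a20 a11 a02 a21 a12 a22 : k) :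
    pd 1 (mk a00 a10 a01 a20 a11 a02 a21 a12 a22) =
      mk a01 a11 (2 * a02) a21 (2 * a12) 0 (2 * a22) 0 0 := by
  rw [der_mk, pd1_x, pd1_y]; simp

/-- The Jacobian determinant. -/
noncomputable def jac (X Y : O k) : O k := pd 0 X * pd 1 Y - pd 1 X * pd 0 Y

section
variable (u10 u01 u20 u11 u02 u21 u12 u22 v10 v01 v20 v11 v02 v21 v12 v22 : k)

theorem jac_cube : jac (mk 0 u10 u01 u20 u11 u02 u21 u12 u22) (mk 0 v10 v01 v20 v11 v02 v21 v12 v22)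
    ^ 3 = algebraMap k (O k) ((u10 * v01 - u01 * v10) ^ 3) := by
  simp only [jac, pd0_mk, pd1_mk, mk_mul, mk_sub, cube_mk]

theorem change_var (φ : O k →ₐ[k] O k) (hx : φ x = mk 0 u10 u01 u20 u11 u02 u21 u12 u22)
    (hy : φ y = mk 0 v10 v01 v20 v11 v02 v21 v12 v22) (h : O k) :
    top (φ h * jac (φ x) (φ y)) = (u10 * v01 - u01 * v10) ^ 3 * top h := by
  obtain ⟨a00, a10, a01, a20, a11, a02, a21, a12, a22, rfl⟩ := mk_surj h
  rw [hom_mk, hx, hy, one_eq]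
  simp only [jac, pd0_mk, pd1_mk, mk_mul, mk_sub, mk_smul, mk_add, top_coord, mul_zero, zero_mul,
    add_zero, zero_add]
  clear hx hy
  grind

theorem hom_bij (φ : O k →ₐ[k] O k) (hx : φ x = mk 0 u10 u01 u20 u11 u02 u21 u12 u22)
    (hy : φ y = mk 0 v10 v01 v20 v11 v02 v21 v12 v22) (hc : u10 * v01 - u01 * v10 ≠ 0) :
    Function.Bijective φ := by
  have hinj : Function.Injective φ := by
    rw [injective_iff_map_eq_zero]
    intro f hf
    by_contra h0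
    obtain ⟨g, hg⟩ := mul_top_ne h0
    have h1 := congrArg φ hg
    rw [map_mul, hf, zero_mul] at h1
    have h2 := change_var _ _ _ _ _ _ _ _ _ _ _ _ _ _ _ _ φ hx hy (mk 0 0 0 0 0 0 0 0 1)
    rw [← h1, zero_mul, top_coord, zero_eq, top_coord, mul_one] at h2
    exact hc (pow_eq_zero_iff (by norm_num) |>.mp h2.symm)
  exact ⟨hinj, (LinearMap.injective_iff_surjective (f := φ.toLinearMap)).mp hinj⟩

end

theorem pd0_eq : (pd 0 : W k) = dm 1 0 0 0 0 0 0 0 0 0 0 0 0 0 0 0 0 0 :=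
  W_ext (by simp [dm, pd0_x, ← one_eq]) (by simp [dm, pd0_y, ← zero_eq])

theorem pd1_eq : (pd 1 : W k) = dm 0 0 0 0 0 0 0 0 0 1 0 0 0 0 0 0 0 0 :=
  W_ext (by simp [dm, pd1_x, ← zero_eq]) (by simp [dm, pd1_y, ← one_eq])

omit [CharP k 3] in
theorem smul_br (A B : W k) (f : O k) : ⁅A, f • B⁆ = A f • B + f • ⁅A, B⁆ := by
  ext g
  simp only [Derivation.commutator_apply, Derivation.add_apply, Derivation.smul_apply,
    Derivation.leibniz, smul_eq_mul]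
  ring

/-- The images of the two partial derivatives are independent at the origin. -/
theorem det_unit (σ : W k ≃ₗ⁅k⁆ W k) :
    IsUnit (σ (pd 0) x * σ (pd 1) y - σ (pd 0) y * σ (pd 1) x) := by
  obtain ⟨p00, p10, p01, p20, p11, p02, p21, p12, p22, q00, q10, q01, q20, q11, q02, q21, q12,
    q22, h0⟩ := dm_surj (σ (pd 0))
  obtain ⟨r00, r10, r01, r20, r11, r02, r21, r12, r22, s00, s10, s01, s20, s11, s02, s21, s12,
    s22, h1⟩ := dm_surj (σ (pd 1))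
  have key : ∀ a b : k, a * p00 + b * r00 = 0 → a * q00 + b * s00 = 0 → a = 0 ∧ b = 0 := by
    intro a b e1 e2
    have hn : Nz (a • σ (pd 0) + b • σ (pd 1)) := by
      rw [h0, h1, dm_smul, dm_smul, dm_add, nz_iff]
      exact ⟨e1, e2⟩
    have := hn.map σ.symm
    rw [map_add, map_smul, map_smul, σ.symm_apply_apply, σ.symm_apply_apply, pd0_eq, pd1_eq,
      dm_smul, dm_smul, dm_add, nz_iff] at this
    simpa using this
  have hd : p00 * s00 - q00 * r00 ≠ 0 := by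
    intro hd
    have k1 := key s00 (-q00) (by linear_combination hd) (by ring)
    have k2 := key r00 (-p00) (by ring) (by linear_combination -hd)
    have k3 := key 1 0 (by simpa using k2.2) (by simpa using k1.2)
    exact one_ne_zero k3.1
  rw [h0, h1]
  simp only [dm, der_x, der_y, mk_mul, mk_sub]
  rw [← isUnit_pow_iff (n := 3) (by norm_num), cube_mk]
  exact (IsUnit.mk0 _ (pow_ne_zero 3 hd)).map _

theorem dual_coord (σ : W k ≃ₗ⁅k⁆ W k) (A : W k) (e0 e1 : k) (i : Fin 2)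
    (h0 : ⁅(pd 0 : W k), A⁆ = e0 • pd i) (h1 : ⁅(pd 1 : W k), A⁆ = e1 • pd i) :
    ∃ a10 a01 a20 a11 a02 a21 a12 a22 : k,
      σ (pd 0) (mk 0 a10 a01 a20 a11 a02 a21 a12 a22) = algebraMap k _ e0 ∧
      σ (pd 1) (mk 0 a10 a01 a20 a11 a02 a21 a12 a22) = algebraMap k _ e1 := by
  obtain ⟨w, hw⟩ := (det_unit σ).exists_right_inv
  set d0 := σ (pd 0) with hd0
  set d1 := σ (pd 1) with hd1
  have hc : ⁅(pd 0 : W k), (pd 1 : W k)⁆ = 0 := by
    rw [pd0_eq, pd1_eq, br_dm, dm_zero, dm_inj]; simp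
  have c01 : ⁅d0, d1⁆ = 0 := by rw [hd0, hd1, ← σ.map_lie, hc]; exact map_zero σ
  have hc' : ⁅(pd 1 : W k), (pd 0 : W k)⁆ = 0 := by
    rw [pd0_eq, pd1_eq, br_dm, dm_zero, dm_inj]; simp
  have c10 : ⁅d1, d0⁆ = 0 := by rw [hd0, hd1, ← σ.map_lie, hc']; exact map_zero σ
  have c00 : ⁅d0, d0⁆ = 0 := lie_self d0
  have c11 : ⁅d1, d1⁆ = 0 := lie_self d1
  set a := (σ A x * d1 y - σ A y * d1 x) * w with ha
  set b := (σ A y * d0 x - σ A x * d0 y) * w with hb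
  have hA : σ A = a • d0 + b • d1 := by
    apply W_ext
    · simp only [Derivation.add_apply, Derivation.smul_apply, smul_eq_mul, ha, hb]
      linear_combination (-σ A x) * hw
    · simp only [Derivation.add_apply, Derivation.smul_apply, smul_eq_mul, ha, hb]
      linear_combination (-σ A y) * hw
  have indep : ∀ f g f' g' : O k, (∀ z, f * d0 z + g * d1 z = f' * d0 z + g' * d1 z) →
      f = f' ∧ g = g' := by
    intro f g f' g' h
    have hx := h x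
    have hy := h y
    constructor
    · linear_combination (f' - f) * hw + (d1 y * w) * hx - (d1 x * w) * hy
    · linear_combination (g' - g) * hw - (d0 y * w) * hx + (d0 x * w) * hy
  have g0 := congrArg σ h0
  have g1 := congrArg σ h1
  rw [σ.map_lie, map_smul, hA, ← hd0, br_add, smul_br, smul_br, c00, c01, smul_zero, smul_zero,
    add_zero, add_zero] at g0
  rw [σ.map_lie, map_smul, hA, ← hd1, br_add, smul_br, smul_br, c10, c11, smul_zero, smul_zero,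
    add_zero, add_zero] at g1
  have fin : ∀ f : O k, d0 f = algebraMap k _ e0 → d1 f = algebraMap k _ e1 →
      ∃ a10 a01 a20 a11 a02 a21 a12 a22 : k,
      d0 (mk 0 a10 a01 a20 a11 a02 a21 a12 a22) = algebraMap k _ e0 ∧
      d1 (mk 0 a10 a01 a20 a11 a02 a21 a12 a22) = algebraMap k _ e1 := by
    intro f f0 f1
    obtain ⟨a00, a10, a01, a20, a11, a02, a21, a12, a22, rfl⟩ := mk_surj f
    exact ⟨a10, a01, a20, a11, a02, a21, a12, a22, by rw [← f0, der_mk, der_mk],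
      by rw [← f1, der_mk, der_mk]⟩
  have g0' := fun z => congrArg (fun E : W k => E z) g0
  have g1' := fun z => congrArg (fun E : W k => E z) g1
  simp only [Derivation.add_apply, Derivation.smul_apply, smul_eq_mul] at g0' g1'
  simp only [sm] at g0' g1'
  fin_cases i
  · simp only [Fin.zero_eta, ← hd0] at g0' g1'
    have i0 := indep (d0 a) (d0 b) (algebraMap k _ e0) 0 (fun z => by rw [g0', zero_mul, add_zero])
    have i1 := indep (d1 a) (d1 b) (algebraMap k _ e1) 0 (fun z => by rw [g1', zero_mul, add_zero])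
    exact fin a i0.1 i1.1
  · simp only [Fin.mk_one, ← hd1] at g0' g1'
    have i0 := indep (d0 a) (d0 b) 0 (algebraMap k _ e0) (fun z => by rw [g0', zero_mul, zero_add])
    have i1 := indep (d1 a) (d1 b) 0 (algebraMap k _ e1) (fun z => by rw [g1', zero_mul, zero_add])
    exact fin b i0.2 i1.2

theorem fix_step (τ : W k ≃ₗ⁅k⁆ W k) (h0 : τ (pd 0) = pd 0) (h1 : τ (pd 1) = pd 1)
    (p00 p10 p01 p20 p11 p02 p21 p12 p22 q00 q10 q01 q20 q11 q02 q21 q12 q22 : k)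
    (g0 : τ (dm p10 (-p20) p11 0 (-p21) p12 0 (-p22) 0 q10 (-q20) q11 0 (-q21) q12 0 (-q22) 0) =
      dm p10 (-p20) p11 0 (-p21) p12 0 (-p22) 0 q10 (-q20) q11 0 (-q21) q12 0 (-q22) 0)
    (g1 : τ (dm p01 p11 (-p02) p21 (-p12) 0 (-p22) 0 0 q01 q11 (-q02) q21 (-q12) 0 (-q22) 0 0) =
      dm p01 p11 (-p02) p21 (-p12) 0 (-p22) 0 0 q01 q11 (-q02) q21 (-q12) 0 (-q22) 0 0) :
    τ (dm p00 p10 p01 p20 p11 p02 p21 p12 p22 q00 q10 q01 q20 q11 q02 q21 q12 q22) =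
      dm p00 p10 p01 p20 p11 p02 p21 p12 p22 q00 q10 q01 q20 q11 q02 q21 q12 q22 := by
  have hsplit : dm p00 p10 p01 p20 p11 p02 p21 p12 p22 q00 q10 q01 q20 q11 q02 q21 q12 q22 =
      p00 • pd 0 + q00 • pd 1 +
      dm 0 p10 p01 p20 p11 p02 p21 p12 p22 0 q10 q01 q20 q11 q02 q21 q12 q22 := by
    rw [pd0_eq, pd1_eq, dm_smul, dm_smul, dm_add, dm_add, dm_inj]; simp
  rw [hsplit, map_add, map_add, map_smul, map_smul, h0, h1]
  refine congrArg (fun T => p00 • (pd 0 : W k) + q00 • (pd 1 : W k) + T) ?_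
  have hn : Nz (dm 0 p10 p01 p20 p11 p02 p21 p12 p22 0 q10 q01 q20 q11 q02 q21 q12 q22) :=
    (nz_iff ..).mpr ⟨rfl, rfl⟩
  have b0 : ⁅(pd 0 : W k), dm 0 p10 p01 p20 p11 p02 p21 p12 p22 0 q10 q01 q20 q11 q02 q21 q12 q22⁆ =
      dm p10 (-p20) p11 0 (-p21) p12 0 (-p22) 0 q10 (-q20) q11 0 (-q21) q12 0 (-q22) 0 := by
    rw [pd0_eq, br_dm, dm_inj]; simp
  have b1 : ⁅(pd 1 : W k), dm 0 p10 p01 p20 p11 p02 p21 p12 p22 0 q10 q01 q20 q11 q02 q21 q12 q22⁆ =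
      dm p01 p11 (-p02) p21 (-p12) 0 (-p22) 0 0 q01 q11 (-q02) q21 (-q12) 0 (-q22) 0 0 := by
    rw [pd1_eq, br_dm, dm_inj]; simp
  have c0 := congrArg τ b0
  have c1 := congrArg τ b1
  rw [τ.map_lie, h0, g0] at c0
  rw [τ.map_lie, h1, g1] at c1
  have hn' := hn.map τ
  obtain ⟨r00, r10, r01, r20, r11, r02, r21, r12, r22, s00, s10, s01, s20, s11, s02, s21, s12,
    s22, hF⟩ := dm_surj (τ (dm 0 p10 p01 p20 p11 p02 p21 p12 p22 0 q10 q01 q20 q11 q02 q21 q12 q22))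
  rw [hF] at c0 c1 hn' ⊢
  rw [nz_iff] at hn'
  rw [pd0_eq, br_dm, dm_inj] at c0
  rw [pd1_eq, br_dm, dm_inj] at c1
  simp at c0 c1
  rw [dm_inj]
  tauto

theorem fix_id (τ : W k ≃ₗ⁅k⁆ W k) (h0 : τ (pd 0) = pd 0) (h1 : τ (pd 1) = pd 1) (E : W k) :
    τ E = E := by
  have z : τ (dm 0 0 0 0 0 0 0 0 0 0 0 0 0 0 0 0 0 0) = dm 0 0 0 0 0 0 0 0 0 0 0 0 0 0 0 0 0 0 := by
    rw [← dm_zero]; exact map_zero τ
  have a0 : ∀ p00 q00 : k, τ (dm p00 0 0 0 0 0 0 0 0 q00 0 0 0 0 0 0 0 0) =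
      dm p00 0 0 0 0 0 0 0 0 q00 0 0 0 0 0 0 0 0 := fun _ _ =>
    fix_step τ h0 h1 _ _ _ _ _ _ _ _ _ _ _ _ _ _ _ _ _ _ (by simpa using z) (by simpa using z)
  have a1 : ∀ p00 p10 p01 q00 q10 q01 : k, τ (dm p00 p10 p01 0 0 0 0 0 0 q00 q10 q01 0 0 0 0 0 0) =
      dm p00 p10 p01 0 0 0 0 0 0 q00 q10 q01 0 0 0 0 0 0 := fun _ _ _ _ _ _ =>
    fix_step τ h0 h1 _ _ _ _ _ _ _ _ _ _ _ _ _ _ _ _ _ _ (by simpa using a0 _ _)
      (by simpa using a0 _ _)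
  have a2 : ∀ p00 p10 p01 p20 p11 p02 q00 q10 q01 q20 q11 q02 : k,
      τ (dm p00 p10 p01 p20 p11 p02 0 0 0 q00 q10 q01 q20 q11 q02 0 0 0) =
      dm p00 p10 p01 p20 p11 p02 0 0 0 q00 q10 q01 q20 q11 q02 0 0 0 :=
    fun _ _ _ _ _ _ _ _ _ _ _ _ =>
    fix_step τ h0 h1 _ _ _ _ _ _ _ _ _ _ _ _ _ _ _ _ _ _ (by simpa using a1 _ _ _ _ _ _)
      (by simpa using a1 _ _ _ _ _ _)
  have a3 : ∀ p00 p10 p01 p20 p11 p02 p21 p12 q00 q10 q01 q20 q11 q02 q21 q12 : k,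
      τ (dm p00 p10 p01 p20 p11 p02 p21 p12 0 q00 q10 q01 q20 q11 q02 q21 q12 0) =
      dm p00 p10 p01 p20 p11 p02 p21 p12 0 q00 q10 q01 q20 q11 q02 q21 q12 0 :=
    fun _ _ _ _ _ _ _ _ _ _ _ _ _ _ _ _ =>
    fix_step τ h0 h1 _ _ _ _ _ _ _ _ _ _ _ _ _ _ _ _ _ _ (by simpa using a2 _ _ _ _ _ _ _ _ _ _ _ _)
      (by simpa using a2 _ _ _ _ _ _ _ _ _ _ _ _)
  obtain ⟨p00, p10, p01, p20, p11, p02, p21, p12, p22, q00, q10, q01, q20, q11, q02, q21, q12,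
    q22, rfl⟩ := dm_surj E
  exact fix_step τ h0 h1 _ _ _ _ _ _ _ _ _ _ _ _ _ _ _ _ _ _ (a3 ..) (a3 ..)

theorem aut_eq (σ : W k ≃ₗ⁅k⁆ W k) : ∃ φ : O k ≃ₐ[k] O k,
    (∃ u10 u01 u20 u11 u02 u21 u12 u22 v10 v01 v20 v11 v02 v21 v12 v22 : k,
      φ x = mk 0 u10 u01 u20 u11 u02 u21 u12 u22 ∧ φ y = mk 0 v10 v01 v20 v11 v02 v21 v12 v22 ∧
      u10 * v01 - u01 * v10 ≠ 0) ∧ ∀ E, σ E = cj φ E := by
  obtain ⟨u10, u01, u20, u11, u02, u21, u12, u22, hX0, hX1⟩ :=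
    dual_coord σ (dm 0 1 0 0 0 0 0 0 0 0 0 0 0 0 0 0 0 0) 1 0 0
      (by rw [pd0_eq, br_dm, dm_smul, dm_inj]; simp)
      (by rw [pd0_eq, pd1_eq, br_dm, dm_smul, dm_inj]; simp)
  obtain ⟨v10, v01, v20, v11, v02, v21, v12, v22, hY0, hY1⟩ :=
    dual_coord σ (dm 0 0 0 0 0 0 0 0 0 0 0 1 0 0 0 0 0 0) 0 1 1
      (by rw [pd0_eq, pd1_eq, br_dm, dm_smul, dm_inj]; simp)
      (by rw [pd1_eq, br_dm, dm_smul, dm_inj]; simp)
  rw [map_one] at hX0 hY1
  rw [map_zero] at hX1 hY0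
  have hc : u10 * v01 - u01 * v10 ≠ 0 := by
    intro hc
    have j3 := jac_cube u10 u01 u20 u11 u02 u21 u12 u22 v10 v01 v20 v11 v02 v21 v12 v22
    rw [hc, zero_pow (by norm_num), map_zero] at j3
    rw [chain] at hX0 hX1 hY0 hY1
    have e : jac (mk 0 u10 u01 u20 u11 u02 u21 u12 u22) (mk 0 v10 v01 v20 v11 v02 v21 v12 v22) *
        (σ (pd 0) x * σ (pd 1) y - σ (pd 0) y * σ (pd 1) x) = 1 := by
      unfold jac
      linear_combination (pd 0 (mk 0 v10 v01 v20 v11 v02 v21 v12 v22) * σ (pd 1) x +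
        pd 1 (mk 0 v10 v01 v20 v11 v02 v21 v12 v22) * σ (pd 1) y) * hX0 + hY1 -
        (pd 0 (mk 0 v10 v01 v20 v11 v02 v21 v12 v22) * σ (pd 0) x +
        pd 1 (mk 0 v10 v01 v20 v11 v02 v21 v12 v22) * σ (pd 0) y) * hX1
    have e3 := congrArg (· ^ 3) e
    simp only [mul_pow, j3, zero_mul, one_pow] at e3
    rw [zero_eq, one_eq, mk_inj] at e3
    exact zero_ne_one e3.1
  let φ0 := sub _ _ (cube0 u10 u01 u20 u11 u02 u21 u12 u22) (cube0 v10 v01 v20 v11 v02 v21 v12 v22)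
  have hx : φ0 x = mk 0 u10 u01 u20 u11 u02 u21 u12 u22 := sub_x ..
  have hy : φ0 y = mk 0 v10 v01 v20 v11 v02 v21 v12 v22 := sub_y ..
  let φ := AlgEquiv.ofBijective φ0 (hom_bij _ _ _ _ _ _ _ _ _ _ _ _ _ _ _ _ φ0 hx hy hc)
  have hx' : φ x = mk 0 u10 u01 u20 u11 u02 u21 u12 u22 := hx
  have hy' : φ y = mk 0 v10 v01 v20 v11 v02 v21 v12 v22 := hy
  refine ⟨φ, ⟨_, _, _, _, _, _, _, _, _, _, _, _, _, _, _, _, hx', hy', hc⟩, fun E => ?_⟩
  have := fix_id (σ.trans (cjL φ).symm)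
    (W_ext (by rw [LieEquiv.trans_apply, cjL_symm_apply, hx', hX0, map_one, pd0_x])
      (by rw [LieEquiv.trans_apply, cjL_symm_apply, hy', hY0, map_zero, pd0_y]))
    (W_ext (by rw [LieEquiv.trans_apply, cjL_symm_apply, hx', hX1, map_zero, pd1_x])
      (by rw [LieEquiv.trans_apply, cjL_symm_apply, hy', hY1, map_one, pd1_y])) E
  rw [LieEquiv.trans_apply] at this
  have h2 := congrArg (cjL φ) this
  rw [LieEquiv.apply_symm_apply] at h2
  exact h2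

end Pool.Agent.W23
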