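import Pool.Agent.P.MP_c9b50d_al.Aut

/-!
Conjugacy of characters in coordinates.
-/

namespace Pool.Agent.W23

variable {k : Type*} [Field k]

/-- Conjugacy of characters of W(2,1). -/
def Conj (χ χ' : Module.Dual k (W k)) : Prop :=
  ∃ φ : W k ≃ₗ⁅k⁆ W k, ∀ E, χ' E = χ (φ.symm E)

/-- The eighteen coordinate equations for the substitution (u, v) to carry (p, q) to (P, Q). -/
def Eqs (u10 u01 u20 u11 u02 u21 u12 u22 v10 v01 v20 v11 v02 v21 v12 v22 : k)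
    (p00 p10 p01 p20 p11 p02 p21 p12 p22 q00 q10 q01 q20 q11 q02 q21 q12 q22 P00 P10 P01 P20 P11 P02 P21 P12 P22 Q00 Q10 Q01 Q20 Q11 Q02 Q21 Q12 Q22 : k) : Prop :=
    (p00 + P00*u01*u10*v10 - P00*u10*u10*v01 - Q00*u01*u10*v01 + Q00*u01*u01*v10 = 0) ∧
    (p01*v10 + p10*u10 - P00*u01*u10*v20 - P00*u01*u20*v10 + P00*u10*u11*v10 - P00*u10*u20*v01 - P00*u10*u10*v11
      + P10*u01*u10*v10 - P10*u10*u10*v01 - Q00*u01*u10*v11 - Q00*u01*u11*v10 + Q00*u01*u20*v01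
      - Q00*u01*u01*v20 - Q00*u10*u11*v01 - Q10*u01*u10*v01 + Q10*u01*u01*v10 = 0) ∧
    (p01*v01 + p10*u01 + P00*u01*u10*v11 + P00*u01*u11*v10 - P00*u02*u10*v10 + P00*u10*u11*v01 + P00*u10*u10*v02
      + P01*u01*u10*v10 - P01*u10*u10*v01 + Q00*u01*u02*v10 + Q00*u01*u10*v02 - Q00*u01*u11*v01
      + Q00*u01*u01*v11 + Q00*u02*u10*v01 - Q01*u01*u10*v01 + Q01*u01*u01*v10 = 0) ∧
    (p01*v20 + p10*u20 + p02*v10*v10 + p11*u10*v10 + p20*u10*u10 + P00*u01*u20*v20 - P00*u10*u11*v20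
      - P00*u10*u20*v11 + P00*u10*u21*v10 - P00*u10*u10*v21 - P00*u11*u20*v10 - P00*u20*u20*v01
      - P10*u01*u10*v20 - P10*u01*u20*v10 + P10*u10*u11*v10 - P10*u10*u20*v01 - P10*u10*u10*v11
      + P20*u01*u10*v10 - P20*u10*u10*v01 - Q00*u01*u10*v21 + Q00*u01*u11*v20 + Q00*u01*u20*v11
      - Q00*u01*u21*v10 - Q00*u10*u11*v11 - Q00*u10*u21*v01 + Q00*u11*u20*v01 + Q00*u11*u11*v10
      - Q10*u01*u10*v11 - Q10*u01*u11*v10 + Q10*u01*u20*v01 - Q10*u01*u01*v20 - Q10*u10*u11*v01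
      - Q20*u01*u10*v01 + Q20*u01*u01*v10 = 0) ∧
    (p01*v11 + p10*u11 - p02*v01*v10 + p11*u01*v10 + p11*u10*v01 - p20*u01*u10 - P00*u01*u10*v21 - P00*u01*u11*v20
      - P00*u01*u20*v11 - P00*u01*u21*v10 + P00*u02*u10*v20 + P00*u02*u20*v10 - P00*u10*u11*v11
      - P00*u10*u12*v10 + P00*u10*u20*v02 - P00*u10*u21*v01 + P00*u10*u10*v12 - P00*u11*u20*v01
      + P00*u11*u11*v10 - P01*u01*u10*v20 - P01*u01*u20*v10 + P01*u10*u11*v10 - P01*u10*u20*v01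
      - P01*u10*u10*v11 + P10*u01*u10*v11 + P10*u01*u11*v10 - P10*u02*u10*v10 + P10*u10*u11*v01
      + P10*u10*u10*v02 + P11*u01*u10*v10 - P11*u10*u10*v01 - Q00*u01*u02*v20 + Q00*u01*u10*v12
      + Q00*u01*u11*v11 + Q00*u01*u12*v10 - Q00*u01*u20*v02 + Q00*u01*u21*v01 - Q00*u01*u01*v21
      + Q00*u02*u10*v11 + Q00*u02*u11*v10 - Q00*u02*u20*v01 + Q00*u10*u11*v02 + Q00*u10*u12*v01
      - Q00*u11*u11*v01 - Q01*u01*u10*v11 - Q01*u01*u11*v10 + Q01*u01*u20*v01 - Q01*u01*u01*v20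
      - Q01*u10*u11*v01 + Q10*u01*u02*v10 + Q10*u01*u10*v02 - Q10*u01*u11*v01 + Q10*u01*u01*v11
      + Q10*u02*u10*v01 - Q11*u01*u10*v01 + Q11*u01*u01*v10 = 0) ∧
    (p01*v02 + p10*u02 + p02*v01*v01 + p11*u01*v01 + p20*u01*u01 + P00*u01*u10*v12 + P00*u01*u11*v11
      + P00*u01*u12*v10 - P00*u02*u10*v11 - P00*u02*u11*v10 - P00*u10*u11*v02 + P00*u10*u12*v01
      - P00*u11*u11*v01 + P01*u01*u10*v11 + P01*u01*u11*v10 - P01*u02*u10*v10 + P01*u10*u11*v01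
      + P01*u10*u10*v02 + P02*u01*u10*v10 - P02*u10*u10*v01 + Q00*u01*u02*v11 + Q00*u01*u11*v02
      - Q00*u01*u12*v01 + Q00*u01*u01*v12 - Q00*u02*u10*v02 + Q00*u02*u11*v01 + Q00*u02*u02*v10
      + Q01*u01*u02*v10 + Q01*u01*u10*v02 - Q01*u01*u11*v01 + Q01*u01*u01*v11 + Q01*u02*u10*v01
      - Q02*u01*u10*v01 + Q02*u01*u01*v10 = 0) ∧
    (p01*v21 + p10*u21 - p02*v01*v20 - p02*v10*v11 + p11*u01*v20 + p11*u10*v11 + p11*u11*v10 + p11*u20*v01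
      - p20*u01*u20 - p20*u10*u11 + P00*u01*u20*v21 + P00*u01*u21*v20 - P00*u02*u20*v20 + P00*u10*u12*v20
      + P00*u10*u20*v12 - P00*u10*u22*v10 + P00*u10*u10*v22 + P00*u11*u20*v11 - P00*u11*u11*v20
      + P00*u12*u20*v10 + P00*u20*u21*v01 + P00*u20*u20*v02 + P01*u01*u20*v20 - P01*u10*u11*v20
      - P01*u10*u20*v11 + P01*u10*u21*v10 - P01*u10*u10*v21 - P01*u11*u20*v10 - P01*u20*u20*v01
      - P10*u01*u10*v21 - P10*u01*u11*v20 - P10*u01*u20*v11 - P10*u01*u21*v10 + P10*u02*u10*v20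
      + P10*u02*u20*v10 - P10*u10*u11*v11 - P10*u10*u12*v10 + P10*u10*u20*v02 - P10*u10*u21*v01
      + P10*u10*u10*v12 - P10*u11*u20*v01 + P10*u11*u11*v10 - P11*u01*u10*v20 - P11*u01*u20*v10
      + P11*u10*u11*v10 - P11*u10*u20*v01 - P11*u10*u10*v11 + P20*u01*u10*v11 + P20*u01*u11*v10
      - P20*u02*u10*v10 + P20*u10*u11*v01 + P20*u10*u10*v02 + P21*u01*u10*v10 - P21*u10*u10*v01
      + Q00*u01*u10*v22 - Q00*u01*u12*v20 - Q00*u01*u20*v12 + Q00*u01*u22*v10 + Q00*u02*u10*v21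
      - Q00*u02*u11*v20 - Q00*u02*u20*v11 + Q00*u02*u21*v10 + Q00*u10*u11*v12 + Q00*u10*u12*v11
      + Q00*u10*u21*v02 + Q00*u10*u22*v01 + Q00*u11*u12*v10 - Q00*u11*u20*v02 - Q00*u12*u20*v01
      - Q01*u01*u10*v21 + Q01*u01*u11*v20 + Q01*u01*u20*v11 - Q01*u01*u21*v10 - Q01*u10*u11*v11
      - Q01*u10*u21*v01 + Q01*u11*u20*v01 + Q01*u11*u11*v10 - Q10*u01*u02*v20 + Q10*u01*u10*v12
      + Q10*u01*u11*v11 + Q10*u01*u12*v10 - Q10*u01*u20*v02 + Q10*u01*u21*v01 - Q10*u01*u01*v21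
      + Q10*u02*u10*v11 + Q10*u02*u11*v10 - Q10*u02*u20*v01 + Q10*u10*u11*v02 + Q10*u10*u12*v01
      - Q10*u11*u11*v01 - Q11*u01*u10*v11 - Q11*u01*u11*v10 + Q11*u01*u20*v01 - Q11*u01*u01*v20
      - Q11*u10*u11*v01 + Q20*u01*u02*v10 + Q20*u01*u10*v02 - Q20*u01*u11*v01 + Q20*u01*u01*v11
      + Q20*u02*u10*v01 - Q21*u01*u10*v01 + Q21*u01*u01*v10 + p12*u01*v10*v10 - p12*u10*v01*v10
      - p21*u01*u10*v10 + p21*u10*u10*v01 = 0) ∧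
    (p01*v12 + p10*u12 - p02*v01*v11 - p02*v02*v10 + p11*u01*v11 + p11*u02*v10 + p11*u10*v02 + p11*u11*v01
      - p20*u01*u11 - p20*u02*u10 - P00*u01*u10*v22 - P00*u01*u11*v21 - P00*u01*u12*v20 - P00*u01*u20*v12
      - P00*u01*u21*v11 - P00*u01*u22*v10 + P00*u02*u10*v21 + P00*u02*u11*v20 + P00*u02*u20*v11
      + P00*u02*u21*v10 + P00*u10*u21*v02 - P00*u10*u22*v01 + P00*u11*u20*v02 - P00*u11*u21*v01
      - P00*u12*u20*v01 - P01*u01*u10*v21 - P01*u01*u11*v20 - P01*u01*u20*v11 - P01*u01*u21*v10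
      + P01*u02*u10*v20 + P01*u02*u20*v10 - P01*u10*u11*v11 - P01*u10*u12*v10 + P01*u10*u20*v02
      - P01*u10*u21*v01 + P01*u10*u10*v12 - P01*u11*u20*v01 + P01*u11*u11*v10 - P02*u01*u10*v20
      - P02*u01*u20*v10 + P02*u10*u11*v10 - P02*u10*u20*v01 - P02*u10*u10*v11 + P10*u01*u10*v12
      + P10*u01*u11*v11 + P10*u01*u12*v10 - P10*u02*u10*v11 - P10*u02*u11*v10 - P10*u10*u11*v02
      + P10*u10*u12*v01 - P10*u11*u11*v01 + P11*u01*u10*v11 + P11*u01*u11*v10 - P11*u02*u10*v10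
      + P11*u10*u11*v01 + P11*u10*u10*v02 + P12*u01*u10*v10 - P12*u10*u10*v01 - Q00*u01*u02*v21
      - Q00*u01*u21*v02 + Q00*u01*u22*v01 - Q00*u01*u01*v22 - Q00*u02*u10*v12 - Q00*u02*u11*v11
      - Q00*u02*u12*v10 + Q00*u02*u20*v02 - Q00*u02*u21*v01 - Q00*u02*u02*v20 - Q00*u10*u12*v02
      + Q00*u11*u11*v02 - Q01*u01*u02*v20 + Q01*u01*u10*v12 + Q01*u01*u11*v11 + Q01*u01*u12*v10
      - Q01*u01*u20*v02 + Q01*u01*u21*v01 - Q01*u01*u01*v21 + Q01*u02*u10*v11 + Q01*u02*u11*v10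
      - Q01*u02*u20*v01 + Q01*u10*u11*v02 + Q01*u10*u12*v01 - Q01*u11*u11*v01 - Q02*u01*u10*v11
      - Q02*u01*u11*v10 + Q02*u01*u20*v01 - Q02*u01*u01*v20 - Q02*u10*u11*v01 + Q10*u01*u02*v11
      + Q10*u01*u11*v02 - Q10*u01*u12*v01 + Q10*u01*u01*v12 - Q10*u02*u10*v02 + Q10*u02*u11*v01
      + Q10*u02*u02*v10 + Q11*u01*u02*v10 + Q11*u01*u10*v02 - Q11*u01*u11*v01 + Q11*u01*u01*v11
      + Q11*u02*u10*v01 - Q12*u01*u10*v01 + Q12*u01*u01*v10 - p12*u01*v01*v10 + p12*u10*v01*v01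
      - p21*u01*u10*v01 + p21*u01*u01*v10 = 0) ∧
    (p01*v22 + p10*u22 - p02*v01*v21 - p02*v02*v20 - p02*v10*v12 + p02*v11*v11 + p11*u01*v21 + p11*u02*v20
      + p11*u10*v12 + p11*u11*v11 + p11*u12*v10 + p11*u20*v02 + p11*u21*v01 - p20*u01*u21 - p20*u02*u20
      - p20*u10*u12 + p20*u11*u11 + P00*u01*u20*v22 + P00*u01*u21*v21 + P00*u01*u22*v20 - P00*u02*u20*v21
      - P00*u02*u21*v20 + P00*u10*u11*v22 - P00*u10*u12*v21 - P00*u10*u21*v12 + P00*u10*u22*v11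
      - P00*u11*u21*v11 + P00*u11*u22*v10 + P00*u11*u11*v21 - P00*u12*u21*v10 - P00*u20*u21*v02
      + P00*u20*u22*v01 - P00*u21*u21*v01 + P01*u01*u20*v21 + P01*u01*u21*v20 - P01*u02*u20*v20
      + P01*u10*u12*v20 + P01*u10*u20*v12 - P01*u10*u22*v10 + P01*u10*u10*v22 + P01*u11*u20*v11
      - P01*u11*u11*v20 + P01*u12*u20*v10 + P01*u20*u21*v01 + P01*u20*u20*v02 + P02*u01*u20*v20
      - P02*u10*u11*v20 - P02*u10*u20*v11 + P02*u10*u21*v10 - P02*u10*u10*v21 - P02*u11*u20*v10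
      - P02*u20*u20*v01 - P10*u01*u10*v22 - P10*u01*u11*v21 - P10*u01*u12*v20 - P10*u01*u20*v12
      - P10*u01*u21*v11 - P10*u01*u22*v10 + P10*u02*u10*v21 + P10*u02*u11*v20 + P10*u02*u20*v11
      + P10*u02*u21*v10 + P10*u10*u21*v02 - P10*u10*u22*v01 + P10*u11*u20*v02 - P10*u11*u21*v01
      - P10*u12*u20*v01 - P11*u01*u10*v21 - P11*u01*u11*v20 - P11*u01*u20*v11 - P11*u01*u21*v10
      + P11*u02*u10*v20 + P11*u02*u20*v10 - P11*u10*u11*v11 - P11*u10*u12*v10 + P11*u10*u20*v02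
      - P11*u10*u21*v01 + P11*u10*u10*v12 - P11*u11*u20*v01 + P11*u11*u11*v10 - P12*u01*u10*v20
      - P12*u01*u20*v10 + P12*u10*u11*v10 - P12*u10*u20*v01 - P12*u10*u10*v11 + P20*u01*u10*v12
      + P20*u01*u11*v11 + P20*u01*u12*v10 - P20*u02*u10*v11 - P20*u02*u11*v10 - P20*u10*u11*v02
      + P20*u10*u12*v01 - P20*u11*u11*v01 + P21*u01*u10*v11 + P21*u01*u11*v10 - P21*u02*u10*v10
      + P21*u10*u11*v01 + P21*u10*u10*v02 + P22*u01*u10*v10 - P22*u10*u10*v01 - Q00*u01*u11*v22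
      + Q00*u01*u12*v21 + Q00*u01*u21*v12 - Q00*u01*u22*v11 - Q00*u02*u10*v22 + Q00*u02*u12*v20
      + Q00*u02*u20*v12 - Q00*u02*u22*v10 - Q00*u10*u12*v12 - Q00*u10*u22*v02 + Q00*u11*u12*v11
      - Q00*u11*u22*v01 - Q00*u11*u11*v12 + Q00*u12*u20*v02 + Q00*u12*u21*v01 + Q00*u12*u12*v10
      + Q01*u01*u10*v22 - Q01*u01*u12*v20 - Q01*u01*u20*v12 + Q01*u01*u22*v10 + Q01*u02*u10*v21
      - Q01*u02*u11*v20 - Q01*u02*u20*v11 + Q01*u02*u21*v10 + Q01*u10*u11*v12 + Q01*u10*u12*v11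
      + Q01*u10*u21*v02 + Q01*u10*u22*v01 + Q01*u11*u12*v10 - Q01*u11*u20*v02 - Q01*u12*u20*v01
      - Q02*u01*u10*v21 + Q02*u01*u11*v20 + Q02*u01*u20*v11 - Q02*u01*u21*v10 - Q02*u10*u11*v11
      - Q02*u10*u21*v01 + Q02*u11*u20*v01 + Q02*u11*u11*v10 - Q10*u01*u02*v21 - Q10*u01*u21*v02
      + Q10*u01*u22*v01 - Q10*u01*u01*v22 - Q10*u02*u10*v12 - Q10*u02*u11*v11 - Q10*u02*u12*v10
      + Q10*u02*u20*v02 - Q10*u02*u21*v01 - Q10*u02*u02*v20 - Q10*u10*u12*v02 + Q10*u11*u11*v02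
      - Q11*u01*u02*v20 + Q11*u01*u10*v12 + Q11*u01*u11*v11 + Q11*u01*u12*v10 - Q11*u01*u20*v02
      + Q11*u01*u21*v01 - Q11*u01*u01*v21 + Q11*u02*u10*v11 + Q11*u02*u11*v10 - Q11*u02*u20*v01
      + Q11*u10*u11*v02 + Q11*u10*u12*v01 - Q11*u11*u11*v01 - Q12*u01*u10*v11 - Q12*u01*u11*v10
      + Q12*u01*u20*v01 - Q12*u01*u01*v20 - Q12*u10*u11*v01 + Q20*u01*u02*v11 + Q20*u01*u11*v02
      - Q20*u01*u12*v01 + Q20*u01*u01*v12 - Q20*u02*u10*v02 + Q20*u02*u11*v01 + Q20*u02*u02*v10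
      + Q21*u01*u02*v10 + Q21*u01*u10*v02 - Q21*u01*u11*v01 + Q21*u01*u01*v11 + Q21*u02*u10*v01
      - Q22*u01*u10*v01 + Q22*u01*u01*v10 - p12*u01*v01*v20 - p12*u01*v10*v11 + p12*u02*v10*v10
      - p12*u10*v01*v11 - p12*u10*v02*v10 - p12*u11*v01*v10 + p12*u20*v01*v01 - p21*u01*u10*v11
      - p21*u01*u11*v10 - p21*u01*u20*v01 + p21*u01*u01*v20 - p21*u02*u10*v10 - p21*u10*u11*v01
      + p21*u10*u10*v02 + p22*u01*u10*v01*v10 + p22*u01*u01*v10*v10 + p22*u10*u10*v01*v01 = 0) ∧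
    (q00 + P00*u01*v10*v10 - P00*u10*v01*v10 + Q00*u01*v01*v10 - Q00*u10*v01*v01 = 0) ∧
    (q01*v10 + q10*u10 + P00*u01*v10*v20 + P00*u10*v01*v20 - P00*u10*v10*v11 + P00*u11*v10*v10 + P00*u20*v01*v10
      + P10*u01*v10*v10 - P10*u10*v01*v10 - Q00*u01*v01*v20 + Q00*u01*v10*v11 + Q00*u10*v01*v11
      + Q00*u11*v01*v10 + Q00*u20*v01*v01 + Q10*u01*v01*v10 - Q10*u10*v01*v01 = 0) ∧
    (q01*v01 + q10*u01 - P00*u01*v10*v11 - P00*u02*v10*v10 - P00*u10*v01*v11 + P00*u10*v02*v10 - P00*u11*v01*v10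
      + P01*u01*v10*v10 - P01*u10*v01*v10 + Q00*u01*v01*v11 - Q00*u01*v02*v10 - Q00*u02*v01*v10
      - Q00*u10*v01*v02 - Q00*u11*v01*v01 + Q01*u01*v01*v10 - Q01*u10*v01*v01 = 0) ∧
    (q01*v20 + q10*u20 + q02*v10*v10 + q11*u10*v10 + q20*u10*u10 + P00*u01*v20*v20 - P00*u10*v10*v21
      + P00*u10*v11*v20 + P00*u11*v10*v20 - P00*u20*v01*v20 + P00*u20*v10*v11 + P00*u21*v10*v10
      + P10*u01*v10*v20 + P10*u10*v01*v20 - P10*u10*v10*v11 + P10*u11*v10*v10 + P10*u20*v01*v10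
      + P20*u01*v10*v10 - P20*u10*v01*v10 + Q00*u01*v10*v21 - Q00*u01*v11*v20 + Q00*u10*v01*v21
      - Q00*u10*v11*v11 - Q00*u11*v01*v20 + Q00*u11*v10*v11 - Q00*u20*v01*v11 + Q00*u21*v01*v10
      - Q10*u01*v01*v20 + Q10*u01*v10*v11 + Q10*u10*v01*v11 + Q10*u11*v01*v10 + Q10*u20*v01*v01
      + Q20*u01*v01*v10 - Q20*u10*v01*v01 = 0) ∧
    (q01*v11 + q10*u11 - q02*v01*v10 + q11*u01*v10 + q11*u10*v01 - q20*u01*u10 + P00*u01*v10*v21 + P00*u01*v11*v20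
      - P00*u02*v10*v20 + P00*u10*v01*v21 - P00*u10*v02*v20 + P00*u10*v10*v12 - P00*u10*v11*v11
      + P00*u11*v01*v20 + P00*u11*v10*v11 - P00*u12*v10*v10 + P00*u20*v01*v11 - P00*u20*v02*v10
      + P00*u21*v01*v10 + P01*u01*v10*v20 + P01*u10*v01*v20 - P01*u10*v10*v11 + P01*u11*v10*v10
      + P01*u20*v01*v10 - P10*u01*v10*v11 - P10*u02*v10*v10 - P10*u10*v01*v11 + P10*u10*v02*v10
      - P10*u11*v01*v10 + P11*u01*v10*v10 - P11*u10*v01*v10 - Q00*u01*v01*v21 + Q00*u01*v02*v20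
      - Q00*u01*v10*v12 + Q00*u01*v11*v11 + Q00*u02*v01*v20 - Q00*u02*v10*v11 - Q00*u10*v01*v12
      - Q00*u10*v02*v11 - Q00*u11*v01*v11 - Q00*u11*v02*v10 - Q00*u12*v01*v10 + Q00*u20*v01*v02
      + Q00*u21*v01*v01 - Q01*u01*v01*v20 + Q01*u01*v10*v11 + Q01*u10*v01*v11 + Q01*u11*v01*v10
      + Q01*u20*v01*v01 + Q10*u01*v01*v11 - Q10*u01*v02*v10 - Q10*u02*v01*v10 - Q10*u10*v01*v02
      - Q10*u11*v01*v01 + Q11*u01*v01*v10 - Q11*u10*v01*v01 = 0) ∧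
    (q01*v02 + q10*u02 + q02*v01*v01 + q11*u01*v01 + q20*u01*u01 - P00*u01*v10*v12 + P00*u01*v11*v11
      + P00*u02*v10*v11 - P00*u10*v01*v12 + P00*u10*v02*v11 - P00*u11*v01*v11 + P00*u11*v02*v10
      - P00*u12*v01*v10 - P01*u01*v10*v11 - P01*u02*v10*v10 - P01*u10*v01*v11 + P01*u10*v02*v10
      - P01*u11*v01*v10 + P02*u01*v10*v10 - P02*u10*v01*v10 + Q00*u01*v01*v12 - Q00*u01*v02*v11
      - Q00*u02*v01*v11 + Q00*u02*v02*v10 - Q00*u10*v02*v02 - Q00*u11*v01*v02 - Q00*u12*v01*v01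
      + Q01*u01*v01*v11 - Q01*u01*v02*v10 - Q01*u02*v01*v10 - Q01*u10*v01*v02 - Q01*u11*v01*v01
      + Q02*u01*v01*v10 - Q02*u10*v01*v01 = 0) ∧
    (q01*v21 + q10*u21 - q02*v01*v20 - q02*v10*v11 + q11*u01*v20 + q11*u10*v11 + q11*u11*v10 + q11*u20*v01
      - q20*u01*u20 - q20*u10*u11 - P00*u01*v20*v21 - P00*u02*v20*v20 + P00*u10*v10*v22 - P00*u10*v12*v20
      - P00*u11*v11*v20 - P00*u12*v10*v20 - P00*u20*v01*v21 + P00*u20*v02*v20 - P00*u20*v10*v12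
      + P00*u20*v11*v11 - P00*u21*v01*v20 - P00*u22*v10*v10 + P01*u01*v20*v20 - P01*u10*v10*v21
      + P01*u10*v11*v20 + P01*u11*v10*v20 - P01*u20*v01*v20 + P01*u20*v10*v11 + P01*u21*v10*v10
      + P10*u01*v10*v21 + P10*u01*v11*v20 - P10*u02*v10*v20 + P10*u10*v01*v21 - P10*u10*v02*v20
      + P10*u10*v10*v12 - P10*u10*v11*v11 + P10*u11*v01*v20 + P10*u11*v10*v11 - P10*u12*v10*v10
      + P10*u20*v01*v11 - P10*u20*v02*v10 + P10*u21*v01*v10 + P11*u01*v10*v20 + P11*u10*v01*v20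
      - P11*u10*v10*v11 + P11*u11*v10*v10 + P11*u20*v01*v10 - P20*u01*v10*v11 - P20*u02*v10*v10
      - P20*u10*v01*v11 + P20*u10*v02*v10 - P20*u11*v01*v10 + P21*u01*v10*v10 - P21*u10*v01*v10
      - Q00*u01*v10*v22 + Q00*u01*v12*v20 - Q00*u02*v10*v21 + Q00*u02*v11*v20 - Q00*u10*v01*v22
      - Q00*u10*v02*v21 - Q00*u10*v11*v12 + Q00*u11*v02*v20 - Q00*u11*v10*v12 + Q00*u12*v01*v20
      - Q00*u12*v10*v11 + Q00*u20*v01*v12 + Q00*u20*v02*v11 - Q00*u21*v02*v10 - Q00*u22*v01*v10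
      + Q01*u01*v10*v21 - Q01*u01*v11*v20 + Q01*u10*v01*v21 - Q01*u10*v11*v11 - Q01*u11*v01*v20
      + Q01*u11*v10*v11 - Q01*u20*v01*v11 + Q01*u21*v01*v10 - Q10*u01*v01*v21 + Q10*u01*v02*v20
      - Q10*u01*v10*v12 + Q10*u01*v11*v11 + Q10*u02*v01*v20 - Q10*u02*v10*v11 - Q10*u10*v01*v12
      - Q10*u10*v02*v11 - Q10*u11*v01*v11 - Q10*u11*v02*v10 - Q10*u12*v01*v10 + Q10*u20*v01*v02
      + Q10*u21*v01*v01 - Q11*u01*v01*v20 + Q11*u01*v10*v11 + Q11*u10*v01*v11 + Q11*u11*v01*v10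
      + Q11*u20*v01*v01 + Q20*u01*v01*v11 - Q20*u01*v02*v10 - Q20*u02*v01*v10 - Q20*u10*v01*v02
      - Q20*u11*v01*v01 + Q21*u01*v01*v10 - Q21*u10*v01*v01 + q12*u01*v10*v10 - q12*u10*v01*v10
      - q21*u01*u10*v10 + q21*u10*u10*v01 = 0) ∧
    (q01*v12 + q10*u12 - q02*v01*v11 - q02*v02*v10 + q11*u01*v11 + q11*u02*v10 + q11*u10*v02 + q11*u11*v01
      - q20*u01*u11 - q20*u02*u10 + P00*u01*v10*v22 + P00*u01*v11*v21 + P00*u01*v12*v20 - P00*u02*v10*v21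
      - P00*u02*v11*v20 + P00*u10*v01*v22 - P00*u10*v02*v21 + P00*u11*v01*v21 - P00*u11*v02*v20
      + P00*u12*v01*v20 + P00*u20*v01*v12 - P00*u20*v02*v11 + P00*u21*v01*v11 - P00*u21*v02*v10
      + P00*u22*v01*v10 + P01*u01*v10*v21 + P01*u01*v11*v20 - P01*u02*v10*v20 + P01*u10*v01*v21
      - P01*u10*v02*v20 + P01*u10*v10*v12 - P01*u10*v11*v11 + P01*u11*v01*v20 + P01*u11*v10*v11
      - P01*u12*v10*v10 + P01*u20*v01*v11 - P01*u20*v02*v10 + P01*u21*v01*v10 + P02*u01*v10*v20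
      + P02*u10*v01*v20 - P02*u10*v10*v11 + P02*u11*v10*v10 + P02*u20*v01*v10 - P10*u01*v10*v12
      + P10*u01*v11*v11 + P10*u02*v10*v11 - P10*u10*v01*v12 + P10*u10*v02*v11 - P10*u11*v01*v11
      + P10*u11*v02*v10 - P10*u12*v01*v10 - P11*u01*v10*v11 - P11*u02*v10*v10 - P11*u10*v01*v11
      + P11*u10*v02*v10 - P11*u11*v01*v10 + P12*u01*v10*v10 - P12*u10*v01*v10 - Q00*u01*v01*v22
      + Q00*u01*v02*v21 + Q00*u02*v01*v21 - Q00*u02*v02*v20 + Q00*u02*v10*v12 - Q00*u02*v11*v11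
      + Q00*u10*v02*v12 + Q00*u11*v02*v11 + Q00*u12*v02*v10 + Q00*u20*v02*v02 + Q00*u21*v01*v02
      + Q00*u22*v01*v01 - Q01*u01*v01*v21 + Q01*u01*v02*v20 - Q01*u01*v10*v12 + Q01*u01*v11*v11
      + Q01*u02*v01*v20 - Q01*u02*v10*v11 - Q01*u10*v01*v12 - Q01*u10*v02*v11 - Q01*u11*v01*v11
      - Q01*u11*v02*v10 - Q01*u12*v01*v10 + Q01*u20*v01*v02 + Q01*u21*v01*v01 - Q02*u01*v01*v20
      + Q02*u01*v10*v11 + Q02*u10*v01*v11 + Q02*u11*v01*v10 + Q02*u20*v01*v01 + Q10*u01*v01*v12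
      - Q10*u01*v02*v11 - Q10*u02*v01*v11 + Q10*u02*v02*v10 - Q10*u10*v02*v02 - Q10*u11*v01*v02
      - Q10*u12*v01*v01 + Q11*u01*v01*v11 - Q11*u01*v02*v10 - Q11*u02*v01*v10 - Q11*u10*v01*v02
      - Q11*u11*v01*v01 + Q12*u01*v01*v10 - Q12*u10*v01*v01 - q12*u01*v01*v10 + q12*u10*v01*v01
      - q21*u01*u10*v01 + q21*u01*u01*v10 = 0) ∧
    (q01*v22 + q10*u22 - q02*v01*v21 - q02*v02*v20 - q02*v10*v12 + q02*v11*v11 + q11*u01*v21 + q11*u02*v20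
      + q11*u10*v12 + q11*u11*v11 + q11*u12*v10 + q11*u20*v02 + q11*u21*v01 - q20*u01*u21 - q20*u02*u20
      - q20*u10*u12 + q20*u11*u11 - P00*u01*v20*v22 + P00*u01*v21*v21 + P00*u02*v20*v21 - P00*u10*v11*v22
      + P00*u10*v12*v21 - P00*u11*v10*v22 + P00*u11*v11*v21 + P00*u12*v10*v21 - P00*u20*v01*v22
      + P00*u20*v02*v21 - P00*u21*v01*v21 + P00*u21*v02*v20 + P00*u21*v10*v12 - P00*u21*v11*v11
      - P00*u22*v01*v20 - P00*u22*v10*v11 - P01*u01*v20*v21 - P01*u02*v20*v20 + P01*u10*v10*v22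
      - P01*u10*v12*v20 - P01*u11*v11*v20 - P01*u12*v10*v20 - P01*u20*v01*v21 + P01*u20*v02*v20
      - P01*u20*v10*v12 + P01*u20*v11*v11 - P01*u21*v01*v20 - P01*u22*v10*v10 + P02*u01*v20*v20
      - P02*u10*v10*v21 + P02*u10*v11*v20 + P02*u11*v10*v20 - P02*u20*v01*v20 + P02*u20*v10*v11
      + P02*u21*v10*v10 + P10*u01*v10*v22 + P10*u01*v11*v21 + P10*u01*v12*v20 - P10*u02*v10*v21
      - P10*u02*v11*v20 + P10*u10*v01*v22 - P10*u10*v02*v21 + P10*u11*v01*v21 - P10*u11*v02*v20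
      + P10*u12*v01*v20 + P10*u20*v01*v12 - P10*u20*v02*v11 + P10*u21*v01*v11 - P10*u21*v02*v10
      + P10*u22*v01*v10 + P11*u01*v10*v21 + P11*u01*v11*v20 - P11*u02*v10*v20 + P11*u10*v01*v21
      - P11*u10*v02*v20 + P11*u10*v10*v12 - P11*u10*v11*v11 + P11*u11*v01*v20 + P11*u11*v10*v11
      - P11*u12*v10*v10 + P11*u20*v01*v11 - P11*u20*v02*v10 + P11*u21*v01*v10 + P12*u01*v10*v20
      + P12*u10*v01*v20 - P12*u10*v10*v11 + P12*u11*v10*v10 + P12*u20*v01*v10 - P20*u01*v10*v12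
      + P20*u01*v11*v11 + P20*u02*v10*v11 - P20*u10*v01*v12 + P20*u10*v02*v11 - P20*u11*v01*v11
      + P20*u11*v02*v10 - P20*u12*v01*v10 - P21*u01*v10*v11 - P21*u02*v10*v10 - P21*u10*v01*v11
      + P21*u10*v02*v10 - P21*u11*v01*v10 + P22*u01*v10*v10 - P22*u10*v01*v10 + Q00*u01*v11*v22
      - Q00*u01*v12*v21 + Q00*u02*v10*v22 - Q00*u02*v12*v20 + Q00*u10*v02*v22 - Q00*u10*v12*v12
      + Q00*u11*v01*v22 - Q00*u11*v11*v12 - Q00*u12*v01*v21 - Q00*u12*v02*v20 + Q00*u12*v10*v12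
      + Q00*u12*v11*v11 - Q00*u20*v02*v12 - Q00*u21*v01*v12 + Q00*u22*v01*v11 + Q00*u22*v02*v10
      - Q01*u01*v10*v22 + Q01*u01*v12*v20 - Q01*u02*v10*v21 + Q01*u02*v11*v20 - Q01*u10*v01*v22
      - Q01*u10*v02*v21 - Q01*u10*v11*v12 + Q01*u11*v02*v20 - Q01*u11*v10*v12 + Q01*u12*v01*v20
      - Q01*u12*v10*v11 + Q01*u20*v01*v12 + Q01*u20*v02*v11 - Q01*u21*v02*v10 - Q01*u22*v01*v10
      + Q02*u01*v10*v21 - Q02*u01*v11*v20 + Q02*u10*v01*v21 - Q02*u10*v11*v11 - Q02*u11*v01*v20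
      + Q02*u11*v10*v11 - Q02*u20*v01*v11 + Q02*u21*v01*v10 - Q10*u01*v01*v22 + Q10*u01*v02*v21
      + Q10*u02*v01*v21 - Q10*u02*v02*v20 + Q10*u02*v10*v12 - Q10*u02*v11*v11 + Q10*u10*v02*v12
      + Q10*u11*v02*v11 + Q10*u12*v02*v10 + Q10*u20*v02*v02 + Q10*u21*v01*v02 + Q10*u22*v01*v01
      - Q11*u01*v01*v21 + Q11*u01*v02*v20 - Q11*u01*v10*v12 + Q11*u01*v11*v11 + Q11*u02*v01*v20
      - Q11*u02*v10*v11 - Q11*u10*v01*v12 - Q11*u10*v02*v11 - Q11*u11*v01*v11 - Q11*u11*v02*v10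
      - Q11*u12*v01*v10 + Q11*u20*v01*v02 + Q11*u21*v01*v01 - Q12*u01*v01*v20 + Q12*u01*v10*v11
      + Q12*u10*v01*v11 + Q12*u11*v01*v10 + Q12*u20*v01*v01 + Q20*u01*v01*v12 - Q20*u01*v02*v11
      - Q20*u02*v01*v11 + Q20*u02*v02*v10 - Q20*u10*v02*v02 - Q20*u11*v01*v02 - Q20*u12*v01*v01
      + Q21*u01*v01*v11 - Q21*u01*v02*v10 - Q21*u02*v01*v10 - Q21*u10*v01*v02 - Q21*u11*v01*v01
      + Q22*u01*v01*v10 - Q22*u10*v01*v01 - q12*u01*v01*v20 - q12*u01*v10*v11 + q12*u02*v10*v10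
      - q12*u10*v01*v11 - q12*u10*v02*v10 - q12*u11*v01*v10 + q12*u20*v01*v01 - q21*u01*u10*v11
      - q21*u01*u11*v10 - q21*u01*u20*v01 + q21*u01*u01*v20 - q21*u02*u10*v10 - q21*u10*u11*v01
      + q21*u10*u10*v02 + q22*u01*u10*v01*v10 + q22*u01*u01*v10*v10 + q22*u10*u10*v01*v01 = 0)

/-- Conjugacy in coordinates. -/
def Rel (p00 p10 p01 p20 p11 p02 p21 p12 p22 q00 q10 q01 q20 q11 q02 q21 q12 q22 P00 P10 P01 P20 P11 P02 P21 P12 P22 Q00 Q10 Q01 Q20 Q11 Q02 Q21 Q12 Q22 : k) : Prop :=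
  ∃ u10 u01 u20 u11 u02 u21 u12 u22 v10 v01 v20 v11 v02 v21 v12 v22 : k, u10 * v01 - u01 * v10 ≠ 0 ∧
    Eqs u10 u01 u20 u11 u02 u21 u12 u22 v10 v01 v20 v11 v02 v21 v12 v22 p00 p10 p01 p20 p11 p02 p21 p12 p22 q00 q10 q01 q20 q11 q02 q21 q12 q22 P00 P10 P01 P20 P11 P02 P21 P12 P22 Q00 Q10 Q01 Q20 Q11 Q02 Q21 Q12 Q22

variable [CharP k 3]

theorem eqs_iff (u10 u01 u20 u11 u02 u21 u12 u22 v10 v01 v20 v11 v02 v21 v12 v22 p00 p10 p01 p20 p11 p02 p21 p12 p22 q00 q10 q01 q20 q11 q02 q21 q12 q22 P00 P10 P01 P20 P11 P02 P21 P12 P22 Q00 Q10 Q01 Q20 Q11 Q02 Q21 Q12 Q22 : k)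
    (φ : O k →ₐ[k] O k) (hx : φ x = mk 0 u10 u01 u20 u11 u02 u21 u12 u22) (hy : φ y = mk 0 v10 v01 v20 v11 v02 v21 v12 v22) :
    (φ (mk p00 p10 p01 p20 p11 p02 p21 p12 p22) = jac (φ x) (φ y) *
        (mk P00 P10 P01 P20 P11 P02 P21 P12 P22 * pd 0 (φ x) + mk Q00 Q10 Q01 Q20 Q11 Q02 Q21 Q12 Q22 * pd 1 (φ x)) ∧
      φ (mk q00 q10 q01 q20 q11 q02 q21 q12 q22) = jac (φ x) (φ y) *
        (mk P00 P10 P01 P20 P11 P02 P21 P12 P22 * pd 0 (φ y) + mk Q00 Q10 Q01 Q20 Q11 Q02 Q21 Q12 Q22 * pd 1 (φ y))) ↔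
    Eqs u10 u01 u20 u11 u02 u21 u12 u22 v10 v01 v20 v11 v02 v21 v12 v22 p00 p10 p01 p20 p11 p02 p21 p12 p22 q00 q10 q01 q20 q11 q02 q21 q12 q22 P00 P10 P01 P20 P11 P02 P21 P12 P22 Q00 Q10 Q01 Q20 Q11 Q02 Q21 Q12 Q22 := by
  rw [hom_mk, hom_mk, hx, hy, one_eq]
  clear hx hy
  simp only [jac, pd0_mk, pd1_mk, mk_mul, mk_sub, mk_smul, mk_add, mul_zero, zero_mul,
    add_zero, zero_add, mk_inj, Eqs, and_assoc]
  refine and_congr ?_ (and_congr ?_ (and_congr ?_ (and_congr ?_ (and_congr ?_ (and_congr ?_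
    (and_congr ?_ (and_congr ?_ (and_congr ?_ (and_congr ?_ (and_congr ?_ (and_congr ?_
    (and_congr ?_ (and_congr ?_ (and_congr ?_ (and_congr ?_ (and_congr ?_ ?_))))))))))))))))
  all_goals
    rw [← sub_eq_zero]
    refine Eq.congr_left ?_
    grind

omit [CharP k 3] in
theorem Conj.refl (χ : Module.Dual k (W k)) : Conj χ χ := ⟨LieEquiv.refl, fun _ => rfl⟩

omit [CharP k 3] in
theorem Conj.symm {χ χ' : Module.Dual k (W k)} (h : Conj χ χ') : Conj χ' χ := by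
  obtain ⟨σ, h⟩ := h
  exact ⟨σ.symm, fun E => by rw [h, LieEquiv.symm_symm, σ.symm_apply_apply]⟩

omit [CharP k 3] in
theorem Conj.trans {χ χ' χ'' : Module.Dual k (W k)} (h : Conj χ χ') (h' : Conj χ' χ'') :
    Conj χ χ'' := by
  obtain ⟨σ, h⟩ := h
  obtain ⟨τ, h'⟩ := h'
  exact ⟨σ.trans τ, fun E => by rw [h', h]; rfl⟩

omit [CharP k 3] in
theorem character_apply (P Q : O k) (E : W k) :
    character (P, Q) E = top (P * E y - Q * E x) := rfl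

theorem transport (φ : O k ≃ₐ[k] O k) (P Q : O k) (E : W k) :
    φ (P * (cjL φ).symm E y - Q * (cjL φ).symm E x) =
      (φ P * pd 1 (φ y) - φ Q * pd 1 (φ x)) * E y - (φ Q * pd 0 (φ x) - φ P * pd 0 (φ y)) * E x := by
  rw [cjL_symm_apply, cjL_symm_apply, map_sub, map_mul, map_mul, φ.apply_symm_apply,
    φ.apply_symm_apply, chain E (φ x), chain E (φ y)]
  ring

theorem conj_iff (p00 p10 p01 p20 p11 p02 p21 p12 p22 q00 q10 q01 q20 q11 q02 q21 q12 q22 P00 P10 P01 P20 P11 P02 P21 P12 P22 Q00 Q10 Q01 Q20 Q11 Q02 Q21 Q12 Q22 : k) :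
    Conj (character (mk p00 p10 p01 p20 p11 p02 p21 p12 p22, mk q00 q10 q01 q20 q11 q02 q21 q12 q22)) (character (mk P00 P10 P01 P20 P11 P02 P21 P12 P22, mk Q00 Q10 Q01 Q20 Q11 Q02 Q21 Q12 Q22)) ↔
    Rel p00 p10 p01 p20 p11 p02 p21 p12 p22 q00 q10 q01 q20 q11 q02 q21 q12 q22 P00 P10 P01 P20 P11 P02 P21 P12 P22 Q00 Q10 Q01 Q20 Q11 Q02 Q21 Q12 Q22 := by
  constructor
  · rintro ⟨σ, hσ⟩
    obtain ⟨φ, ⟨u10, u01, u20, u11, u02, u21, u12, u22, v10, v01, v20, v11, v02, v21, v12, v22, hx, hy, hc⟩, hφ⟩ := aut_eq σ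
    refine ⟨_, _, _, _, _, _, _, _, _, _, _, _, _, _, _, _, hc, (eqs_iff _ _ _ _ _ _ _ _ _ _ _ _ _ _ _ _ _ _ _ _ _ _ _ _ _ _ _ _ _ _ _ _ _ _ _ _ _ _ _ _ _ _ _ _ _ _ _ _ _ _ _ _ φ hx hy).mp ?_⟩
    have hs : ∀ E, σ.symm E = (cjL φ).symm E := by
      intro E
      apply σ.injective
      have : σ ((cjL φ).symm E) = cjL φ ((cjL φ).symm E) := hφ _
      simp only [LieEquiv.coe_toLieHom]
      rw [this, σ.apply_symm_apply, LieEquiv.apply_symm_apply]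
    have j3 : jac (φ x) (φ y) ^ 3 = algebraMap k _ ((u10 * v01 - u01 * v10) ^ 3) := by
      rw [hx, hy, jac_cube]
    have cv : ∀ h, top (φ h * jac (φ x) (φ y)) = (u10 * v01 - u01 * v10) ^ 3 * top h :=
      change_var _ _ _ _ _ _ _ _ _ _ _ _ _ _ _ _ (φ : O k →ₐ[k] O k) hx hy
    generalize mk p00 p10 p01 p20 p11 p02 p21 p12 p22 = P at *
    generalize mk q00 q10 q01 q20 q11 q02 q21 q12 q22 = Q at *
    generalize mk P00 P10 P01 P20 P11 P02 P21 P12 P22 = P' at *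
    generalize mk Q00 Q10 Q01 Q20 Q11 Q02 Q21 Q12 Q22 = Q' at *
    have key : ∀ a b : O k,
        top (((φ P * pd 1 (φ y) - φ Q * pd 1 (φ x)) * jac (φ x) (φ y) -
          algebraMap k _ ((u10 * v01 - u01 * v10) ^ 3) * P') * b -
          ((φ Q * pd 0 (φ x) - φ P * pd 0 (φ y)) * jac (φ x) (φ y) -
          algebraMap k _ ((u10 * v01 - u01 * v10) ^ 3) * Q') * a) = 0 := by
      intro a b
      have h1 := hσ (der a b)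
      rw [hs, character_apply, character_apply, der_x, der_y] at h1
      have h2 := cv (P * (cjL φ).symm (der a b) y - Q * (cjL φ).symm (der a b) x)
      rw [transport, der_x, der_y, ← h1, ← top_smul, sm] at h2
      have h3 := top_add (((φ P * pd 1 (φ y) - φ Q * pd 1 (φ x)) * jac (φ x) (φ y) -
          algebraMap k _ ((u10 * v01 - u01 * v10) ^ 3) * P') * b -
          ((φ Q * pd 0 (φ x) - φ P * pd 0 (φ y)) * jac (φ x) (φ y) -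
          algebraMap k _ ((u10 * v01 - u01 * v10) ^ 3) * Q') * a)
          (algebraMap k _ ((u10 * v01 - u01 * v10) ^ 3) * (P' * b - Q' * a))
      rw [← h2] at h3
      have h4 : ((φ P * pd 1 (φ y) - φ Q * pd 1 (φ x)) * jac (φ x) (φ y) -
          algebraMap k _ ((u10 * v01 - u01 * v10) ^ 3) * P') * b -
          ((φ Q * pd 0 (φ x) - φ P * pd 0 (φ y)) * jac (φ x) (φ y) -
          algebraMap k _ ((u10 * v01 - u01 * v10) ^ 3) * Q') * a +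
          algebraMap k _ ((u10 * v01 - u01 * v10) ^ 3) * (P' * b - Q' * a) =
          ((φ P * pd 1 (φ y) - φ Q * pd 1 (φ x)) * b -
            (φ Q * pd 0 (φ x) - φ P * pd 0 (φ y)) * a) * jac (φ x) (φ y) := by ring
      rw [h2] at h3
      rw [h4, h2] at h3
      linear_combination -h3
    have k1 := top_nondeg (fun b => by simpa only [mul_zero, sub_zero] using key 0 b)
    have k2 := top_nondeg (f := (φ Q * pd 0 (φ x) - φ P * pd 0 (φ y)) * jac (φ x) (φ y) -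
          algebraMap k _ ((u10 * v01 - u01 * v10) ^ 3) * Q') (fun a => by
      rw [← key (-a) 0]
      exact congrArg top (by ring))
    obtain ⟨w, hw⟩ := ((IsUnit.mk0 _ (pow_ne_zero 3 hc)).map (algebraMap k (O k))).exists_right_inv
    have hj : jac (φ x) (φ y) = pd 0 (φ x) * pd 1 (φ y) - pd 1 (φ x) * pd 0 (φ y) := rfl
    change φ P = jac (φ x) (φ y) * (P' * pd 0 (φ x) + Q' * pd 1 (φ x)) ∧
      φ Q = jac (φ x) (φ y) * (P' * pd 0 (φ y) + Q' * pd 1 (φ y))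
    generalize algebraMap k (O k) ((u10 * v01 - u01 * v10) ^ 3) = C at *
    generalize jac (φ x) (φ y) = J at *
    constructor
    · linear_combination (J * w * pd 0 (φ x)) * k1 + (J * w * pd 1 (φ x)) * k2 -
        (φ P - J * (P' * pd 0 (φ x) + Q' * pd 1 (φ x))) * hw - (w * φ P) * j3 +
        (w * J ^ 2 * φ P) * hj
    · linear_combination (J * w * pd 0 (φ y)) * k1 + (J * w * pd 1 (φ y)) * k2 -
        (φ Q - J * (P' * pd 0 (φ y) + Q' * pd 1 (φ y))) * hw - (w * φ Q) * j3 +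
        (w * J ^ 2 * φ Q) * hj
  · rintro ⟨u10, u01, u20, u11, u02, u21, u12, u22, v10, v01, v20, v11, v02, v21, v12, v22, hc, he⟩
    let φ0 := sub _ _ (cube0 u10 u01 u20 u11 u02 u21 u12 u22) (cube0 v10 v01 v20 v11 v02 v21 v12 v22)
    have hx : φ0 x = mk 0 u10 u01 u20 u11 u02 u21 u12 u22 := sub_x ..
    have hy : φ0 y = mk 0 v10 v01 v20 v11 v02 v21 v12 v22 := sub_y ..
    obtain ⟨e1, e2⟩ := (eqs_iff _ _ _ _ _ _ _ _ _ _ _ _ _ _ _ _ _ _ _ _ _ _ _ _ _ _ _ _ _ _ _ _ _ _ _ _ _ _ _ _ _ _ _ _ _ _ _ _ _ _ _ _ φ0 hx hy).mpr he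
    let φ := AlgEquiv.ofBijective φ0 (hom_bij _ _ _ _ _ _ _ _ _ _ _ _ _ _ _ _ φ0 hx hy hc)
    have j3 : jac (φ x) (φ y) ^ 3 = algebraMap k _ ((u10 * v01 - u01 * v10) ^ 3) := by
      change jac (φ0 x) (φ0 y) ^ 3 = _
      rw [hx, hy, jac_cube]
    have cv : ∀ h, top (φ h * jac (φ x) (φ y)) = (u10 * v01 - u01 * v10) ^ 3 * top h :=
      change_var _ _ _ _ _ _ _ _ _ _ _ _ _ _ _ _ φ0 hx hy
    generalize mk p00 p10 p01 p20 p11 p02 p21 p12 p22 = P at *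
    generalize mk q00 q10 q01 q20 q11 q02 q21 q12 q22 = Q at *
    generalize mk P00 P10 P01 P20 P11 P02 P21 P12 P22 = P' at *
    generalize mk Q00 Q10 Q01 Q20 Q11 Q02 Q21 Q12 Q22 = Q' at *
    change φ P = jac (φ x) (φ y) * (P' * pd 0 (φ x) + Q' * pd 1 (φ x)) at e1
    change φ Q = jac (φ x) (φ y) * (P' * pd 0 (φ y) + Q' * pd 1 (φ y)) at e2
    refine ⟨cjL φ, fun E => ?_⟩
    rw [character_apply, character_apply]
    have h2 := cv (P * (cjL φ).symm E y - Q * (cjL φ).symm E x)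
    rw [transport] at h2
    have hj : jac (φ x) (φ y) = pd 0 (φ x) * pd 1 (φ y) - pd 1 (φ x) * pd 0 (φ y) := rfl
    have h3 : ((φ P * pd 1 (φ y) - φ Q * pd 1 (φ x)) * E y -
        (φ Q * pd 0 (φ x) - φ P * pd 0 (φ y)) * E x) * jac (φ x) (φ y) =
        (u10 * v01 - u01 * v10) ^ 3 • (P' * E y - Q' * E x) := by
      rw [sm, ← j3, e1, e2]
      generalize jac (φ x) (φ y) = J at *
      linear_combination (-J ^ 2 * (P' * E y - Q' * E x)) * hj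
    rw [h3, top_smul] at h2
    exact mul_left_cancel₀ (pow_ne_zero 3 hc) h2

theorem act (u10 u01 u20 u11 u02 u21 u12 u22 v10 v01 v20 v11 v02 v21 v12 v22 : k) (hc : u10 * v01 - u01 * v10 ≠ 0) (p00 p10 p01 p20 p11 p02 p21 p12 p22 q00 q10 q01 q20 q11 q02 q21 q12 q22 : k) :
    ∃ P00 P10 P01 P20 P11 P02 P21 P12 P22 Q00 Q10 Q01 Q20 Q11 Q02 Q21 Q12 Q22 : k,
      Eqs u10 u01 u20 u11 u02 u21 u12 u22 v10 v01 v20 v11 v02 v21 v12 v22 p00 p10 p01 p20 p11 p02 p21 p12 p22 q00 q10 q01 q20 q11 q02 q21 q12 q22 P00 P10 P01 P20 P11 P02 P21 P12 P22 Q00 Q10 Q01 Q20 Q11 Q02 Q21 Q12 Q22 := by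
  let φ0 := sub _ _ (cube0 u10 u01 u20 u11 u02 u21 u12 u22) (cube0 v10 v01 v20 v11 v02 v21 v12 v22)
  have hx : φ0 x = mk 0 u10 u01 u20 u11 u02 u21 u12 u22 := sub_x ..
  have hy : φ0 y = mk 0 v10 v01 v20 v11 v02 v21 v12 v22 := sub_y ..
  have j3 : jac (φ0 x) (φ0 y) ^ 3 = algebraMap k _ ((u10 * v01 - u01 * v10) ^ 3) := by
    rw [hx, hy, jac_cube]
  obtain ⟨w, hw⟩ := ((IsUnit.mk0 _ (pow_ne_zero 3 hc)).map (algebraMap k (O k))).exists_right_inv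
  obtain ⟨P00, P10, P01, P20, P11, P02, P21, P12, P22, hP⟩ := mk_surj (w * jac (φ0 x) (φ0 y) *
    (φ0 (mk p00 p10 p01 p20 p11 p02 p21 p12 p22) * pd 1 (φ0 y) - φ0 (mk q00 q10 q01 q20 q11 q02 q21 q12 q22) * pd 1 (φ0 x)))
  obtain ⟨Q00, Q10, Q01, Q20, Q11, Q02, Q21, Q12, Q22, hQ⟩ := mk_surj (w * jac (φ0 x) (φ0 y) *
    (φ0 (mk q00 q10 q01 q20 q11 q02 q21 q12 q22) * pd 0 (φ0 x) - φ0 (mk p00 p10 p01 p20 p11 p02 p21 p12 p22) * pd 0 (φ0 y)))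
  refine ⟨P00, P10, P01, P20, P11, P02, P21, P12, P22, Q00, Q10, Q01, Q20, Q11, Q02, Q21, Q12, Q22, (eqs_iff _ _ _ _ _ _ _ _ _ _ _ _ _ _ _ _ _ _ _ _ _ _ _ _ _ _ _ _ _ _ _ _ _ _ _ _ _ _ _ _ _ _ _ _ _ _ _ _ _ _ _ _ φ0 hx hy).mp ?_⟩
  rw [← hP, ← hQ]
  have hj : jac (φ0 x) (φ0 y) = pd 0 (φ0 x) * pd 1 (φ0 y) - pd 1 (φ0 x) * pd 0 (φ0 y) := rfl
  generalize algebraMap k (O k) ((u10 * v01 - u01 * v10) ^ 3) = C at *
  generalize jac (φ0 x) (φ0 y) = J at *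
  generalize φ0 (mk p00 p10 p01 p20 p11 p02 p21 p12 p22) = A at *
  generalize φ0 (mk q00 q10 q01 q20 q11 q02 q21 q12 q22) = B at *
  constructor
  · linear_combination (-A) * hw - (w * A) * j3 + (w * J ^ 2 * A) * hj
  · linear_combination (-B) * hw - (w * B) * j3 + (w * J ^ 2 * B) * hj

theorem character_surj (χ : Module.Dual k (W k)) : ∃ p00 p10 p01 p20 p11 p02 p21 p12 p22 q00 q10 q01 q20 q11 q02 q21 q12 q22 : k,
    χ = character (mk p00 p10 p01 p20 p11 p02 p21 p12 p22, mk q00 q10 q01 q20 q11 q02 q21 q12 q22) := by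
  refine ⟨χ (dm 0 0 0 0 0 0 0 0 0 0 0 0 0 0 0 0 0 1), χ (dm 0 0 0 0 0 0 0 0 0 0 0 0 0 0 0 0 1 0),
    χ (dm 0 0 0 0 0 0 0 0 0 0 0 0 0 0 0 1 0 0), χ (dm 0 0 0 0 0 0 0 0 0 0 0 0 0 0 1 0 0 0),
    χ (dm 0 0 0 0 0 0 0 0 0 0 0 0 0 1 0 0 0 0), χ (dm 0 0 0 0 0 0 0 0 0 0 0 0 1 0 0 0 0 0),
    χ (dm 0 0 0 0 0 0 0 0 0 0 0 1 0 0 0 0 0 0), χ (dm 0 0 0 0 0 0 0 0 0 0 1 0 0 0 0 0 0 0),
    χ (dm 0 0 0 0 0 0 0 0 0 1 0 0 0 0 0 0 0 0),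
    -χ (dm 0 0 0 0 0 0 0 0 1 0 0 0 0 0 0 0 0 0), -χ (dm 0 0 0 0 0 0 0 1 0 0 0 0 0 0 0 0 0 0),
    -χ (dm 0 0 0 0 0 0 1 0 0 0 0 0 0 0 0 0 0 0), -χ (dm 0 0 0 0 0 1 0 0 0 0 0 0 0 0 0 0 0 0),
    -χ (dm 0 0 0 0 1 0 0 0 0 0 0 0 0 0 0 0 0 0), -χ (dm 0 0 0 1 0 0 0 0 0 0 0 0 0 0 0 0 0 0),
    -χ (dm 0 0 1 0 0 0 0 0 0 0 0 0 0 0 0 0 0 0), -χ (dm 0 1 0 0 0 0 0 0 0 0 0 0 0 0 0 0 0 0),
    -χ (dm 1 0 0 0 0 0 0 0 0 0 0 0 0 0 0 0 0 0), ?_⟩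
  ext E
  obtain ⟨P00, P10, P01, P20, P11, P02, P21, P12, P22, Q00, Q10, Q01, Q20, Q11, Q02, Q21, Q12, Q22, rfl⟩ := dm_surj E
  have hE : dm P00 P10 P01 P20 P11 P02 P21 P12 P22 Q00 Q10 Q01 Q20 Q11 Q02 Q21 Q12 Q22 =
      P00 • (dm 1 0 0 0 0 0 0 0 0 0 0 0 0 0 0 0 0 0 : W k) + P10 • (dm 0 1 0 0 0 0 0 0 0 0 0 0 0 0 0 0 0 0 : W k) +
      P01 • (dm 0 0 1 0 0 0 0 0 0 0 0 0 0 0 0 0 0 0 : W k) + P20 • (dm 0 0 0 1 0 0 0 0 0 0 0 0 0 0 0 0 0 0 : W k) +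
      P11 • (dm 0 0 0 0 1 0 0 0 0 0 0 0 0 0 0 0 0 0 : W k) + P02 • (dm 0 0 0 0 0 1 0 0 0 0 0 0 0 0 0 0 0 0 : W k) +
      P21 • (dm 0 0 0 0 0 0 1 0 0 0 0 0 0 0 0 0 0 0 : W k) + P12 • (dm 0 0 0 0 0 0 0 1 0 0 0 0 0 0 0 0 0 0 : W k) +
      P22 • (dm 0 0 0 0 0 0 0 0 1 0 0 0 0 0 0 0 0 0 : W k) + Q00 • (dm 0 0 0 0 0 0 0 0 0 1 0 0 0 0 0 0 0 0 : W k) +
      Q10 • (dm 0 0 0 0 0 0 0 0 0 0 1 0 0 0 0 0 0 0 : W k) + Q01 • (dm 0 0 0 0 0 0 0 0 0 0 0 1 0 0 0 0 0 0 : W k) +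
      Q20 • (dm 0 0 0 0 0 0 0 0 0 0 0 0 1 0 0 0 0 0 : W k) + Q11 • (dm 0 0 0 0 0 0 0 0 0 0 0 0 0 1 0 0 0 0 : W k) +
      Q02 • (dm 0 0 0 0 0 0 0 0 0 0 0 0 0 0 1 0 0 0 : W k) + Q21 • (dm 0 0 0 0 0 0 0 0 0 0 0 0 0 0 0 1 0 0 : W k) +
      Q12 • (dm 0 0 0 0 0 0 0 0 0 0 0 0 0 0 0 0 1 0 : W k) + Q22 • (dm 0 0 0 0 0 0 0 0 0 0 0 0 0 0 0 0 0 1 : W k) := by
    simp only [dm_smul, dm_add, dm_inj]
    simp
  rw [character_apply]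
  conv_lhs => rw [hE]
  simp only [map_add, map_smul, smul_eq_mul, dm, der_x, der_y, mk_mul, mk_sub, top_coord]
  ring

theorem Rel.refl (p00 p10 p01 p20 p11 p02 p21 p12 p22 q00 q10 q01 q20 q11 q02 q21 q12 q22 : k) : Rel p00 p10 p01 p20 p11 p02 p21 p12 p22 q00 q10 q01 q20 q11 q02 q21 q12 q22 p00 p10 p01 p20 p11 p02 p21 p12 p22 q00 q10 q01 q20 q11 q02 q21 q12 q22 :=
  (conj_iff ..).mp (Conj.refl _)

theorem Rel.symm {p00 p10 p01 p20 p11 p02 p21 p12 p22 q00 q10 q01 q20 q11 q02 q21 q12 q22 P00 P10 P01 P20 P11 P02 P21 P12 P22 Q00 Q10 Q01 Q20 Q11 Q02 Q21 Q12 Q22 : k} (h : Rel p00 p10 p01 p20 p11 p02 p21 p12 p22 q00 q10 q01 q20 q11 q02 q21 q12 q22 P00 P10 P01 P20 P11 P02 P21 P12 P22 Q00 Q10 Q01 Q20 Q11 Q02 Q21 Q12 Q22) : Rel P00 P10 P01 P20 P11 P02 P21 P12 P22 Q00 Q10 Q01 Q20 Q11 Q02 Q21 Q12 Q22 p00 p10 p01 p20 p11 p02 p21 p12 p22 q00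 q10 q01 q20 q11 q02 q21 q12 q22 :=
  (conj_iff ..).mp ((conj_iff ..).mpr h).symm

end Pool.Agent.W23

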