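import Pool.Agent.P.MP_c9b50d_al.Defs

/-!
Coordinates on O(2) and on W(2,1).
-/

namespace Pool.Agent.W23

open MvPolynomial

variable {k : Type*} [Field k]

theorem x3 : (x : O k) ^ 3 = 0 := by
  unfold x
  rw [← map_pow, Ideal.Quotient.eq_zero_iff_mem]
  exact Ideal.subset_span ⟨0, rfl⟩

theorem y3 : (y : O k) ^ 3 = 0 := by
  unfold y
  rw [← map_pow, Ideal.Quotient.eq_zero_iff_mem]
  exact Ideal.subset_span ⟨1, rfl⟩

theorem sm (c : k) (f : O k) : c • f = algebraMap k (O k) c * f := Algebra.smul_def c f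

/-- The element of O(2) with the given coordinates. -/
noncomputable def mk (a00 a10 a01 a20 a11 a02 a21 a12 a22 : k) : O k :=
  a00 • (1 : O k) + a10 • x + a01 • y + a20 • x ^ 2 + a11 • (x * y) + a02 • y ^ 2
    + a21 • (x ^ 2 * y) + a12 • (x * y ^ 2) + a22 • (x ^ 2 * y ^ 2)

section
variable (a00 a10 a01 a20 a11 a02 a21 a12 a22 b00 b10 b01 b20 b11 b02 b21 b12 b22 c : k)

theorem mk_add : mk a00 a10 a01 a20 a11 a02 a21 a12 a22 + mk b00 b10 b01 b20 b11 b02 b21 b12 b22
    = mk (a00 + b00) (a10 + b10) (a01 + b01) (a20 + b20) (a11 + b11) (a02 + b02) (a21 + b21)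
      (a12 + b12) (a22 + b22) := by
  simp only [mk]; module

theorem mk_sub : mk a00 a10 a01 a20 a11 a02 a21 a12 a22 - mk b00 b10 b01 b20 b11 b02 b21 b12 b22
    = mk (a00 - b00) (a10 - b10) (a01 - b01) (a20 - b20) (a11 - b11) (a02 - b02) (a21 - b21)
      (a12 - b12) (a22 - b22) := by
  simp only [mk]; module

theorem mk_neg : -mk a00 a10 a01 a20 a11 a02 a21 a12 a22
    = mk (-a00) (-a10) (-a01) (-a20) (-a11) (-a02) (-a21) (-a12) (-a22) := by
  simp only [mk]; module

theorem mk_smul : c • mk a00 a10 a01 a20 a11 a02 a21 a12 a22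
    = mk (c * a00) (c * a10) (c * a01) (c * a20) (c * a11) (c * a02) (c * a21) (c * a12)
      (c * a22) := by
  simp only [mk]; module

theorem mk_mul : mk a00 a10 a01 a20 a11 a02 a21 a12 a22 * mk b00 b10 b01 b20 b11 b02 b21 b12 b22
    = mk (a00 * b00) (a00 * b10 + a10 * b00) (a00 * b01 + a01 * b00)
      (a00 * b20 + a10 * b10 + a20 * b00) (a00 * b11 + a10 * b01 + a01 * b10 + a11 * b00)
      (a00 * b02 + a01 * b01 + a02 * b00)
      (a00 * b21 + a10 * b11 + a01 * b20 + a20 * b01 + a11 * b10 + a21 * b00)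
      (a00 * b12 + a10 * b02 + a01 * b11 + a11 * b01 + a02 * b10 + a12 * b00)
      (a00 * b22 + a10 * b12 + a01 * b21 + a20 * b02 + a11 * b11 + a02 * b20 + a21 * b01
        + a12 * b10 + a22 * b00) := by
  have hx := x3 (k := k)
  have hy := y3 (k := k)
  simp only [mk, sm, map_add, map_mul]
  generalize (x : O k) = X at *
  generalize (y : O k) = Y at *
  grind

end

theorem one_eq : (1 : O k) = mk 1 0 0 0 0 0 0 0 0 := by simp [mk]
theorem zero_eq : (0 : O k) = mk 0 0 0 0 0 0 0 0 0 := by simp [mk]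
theorem x_eq : (x : O k) = mk 0 1 0 0 0 0 0 0 0 := by simp [mk]
theorem y_eq : (y : O k) = mk 0 0 1 0 0 0 0 0 0 := by simp [mk]
theorem alg_eq (c : k) : algebraMap k (O k) c = mk c 0 0 0 0 0 0 0 0 := by
  simp [mk, sm]

theorem top_mon (i j : ℕ) : top ((x : O k) ^ i * y ^ j) = if i = 2 ∧ j = 2 then 1 else 0 := by
  unfold x y
  rw [← map_pow, ← map_pow, ← map_mul, top_mk, X_pow_eq_monomial, X_pow_eq_monomial,
    monomial_mul, coeff_monomial]
  simp [Finsupp.ext_iff, Fin.forall_fin_two]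

theorem top_coord (a00 a10 a01 a20 a11 a02 a21 a12 a22 : k) :
    top (mk a00 a10 a01 a20 a11 a02 a21 a12 a22) = a22 := by
  have h00 := top_mon (k := k) 0 0
  have h10 := top_mon (k := k) 1 0
  have h01 := top_mon (k := k) 0 1
  have h20 := top_mon (k := k) 2 0
  have h11 := top_mon (k := k) 1 1
  have h02 := top_mon (k := k) 0 2
  have h21 := top_mon (k := k) 2 1
  have h12 := top_mon (k := k) 1 2
  have h22 := top_mon (k := k) 2 2
  simp at h00 h10 h01 h20 h11 h02 h21 h12 h22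
  simp only [mk, top_add, top_smul, h00, h10, h01, h20, h11, h02, h21, h12, h22]
  ring

theorem mk_inj {a00 a10 a01 a20 a11 a02 a21 a12 a22 b00 b10 b01 b20 b11 b02 b21 b12 b22 : k} :
    mk a00 a10 a01 a20 a11 a02 a21 a12 a22 = mk b00 b10 b01 b20 b11 b02 b21 b12 b22 ↔
    a00 = b00 ∧ a10 = b10 ∧ a01 = b01 ∧ a20 = b20 ∧ a11 = b11 ∧ a02 = b02 ∧ a21 = b21 ∧
      a12 = b12 ∧ a22 = b22 := by
  constructor
  · intro h
    have key : ∀ c00 c10 c01 c20 c11 c02 c21 c12 c22 : k, _ := fun c00 c10 c01 c20 c11 c02 c21 c12 c22 =>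
      congrArg (fun f => top (f * mk c00 c10 c01 c20 c11 c02 c21 c12 c22)) h
    simp only [mk_mul, top_coord] at key
    refine ⟨?_, ?_, ?_, ?_, ?_, ?_, ?_, ?_, ?_⟩
    · simpa using key 0 0 0 0 0 0 0 0 1
    · simpa using key 0 0 0 0 0 0 0 1 0
    · simpa using key 0 0 0 0 0 0 1 0 0
    · simpa using key 0 0 0 0 0 1 0 0 0
    · simpa using key 0 0 0 0 1 0 0 0 0
    · simpa using key 0 0 0 1 0 0 0 0 0
    · simpa using key 0 0 1 0 0 0 0 0 0
    · simpa using key 0 1 0 0 0 0 0 0 0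
    · simpa using key 1 0 0 0 0 0 0 0 0
  · rintro ⟨rfl, rfl, rfl, rfl, rfl, rfl, rfl, rfl, rfl⟩
    rfl

theorem mk_surj (f : O k) : ∃ a00 a10 a01 a20 a11 a02 a21 a12 a22 : k,
    f = mk a00 a10 a01 a20 a11 a02 a21 a12 a22 := by
  obtain ⟨f, rfl⟩ := Ideal.Quotient.mk_surjective f
  induction f using MvPolynomial.induction_on with
  | C a => exact ⟨_, _, _, _, _, _, _, _, _, alg_eq a⟩
  | add p q hp hq =>
    obtain ⟨_, _, _, _, _, _, _, _, _, hp⟩ := hp
    obtain ⟨_, _, _, _, _, _, _, _, _, hq⟩ := hq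
    rw [map_add, hp, hq, mk_add]
    exact ⟨_, _, _, _, _, _, _, _, _, rfl⟩
  | mul_X p i hp =>
    obtain ⟨_, _, _, _, _, _, _, _, _, hp⟩ := hp
    rw [map_mul, hp]
    fin_cases i
    · have : Ideal.Quotient.mk (cubes k) (X 0) = mk 0 1 0 0 0 0 0 0 0 := x_eq
      simp only [Fin.zero_eta, this, mk_mul]
      exact ⟨_, _, _, _, _, _, _, _, _, rfl⟩
    · have : Ideal.Quotient.mk (cubes k) (X 1) = mk 0 0 1 0 0 0 0 0 0 := y_eq
      simp only [Fin.mk_one, this, mk_mul]
      exact ⟨_, _, _, _, _, _, _, _, _, rfl⟩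

instance finiteO : Module.Finite k (O k) := by
  let L : (Fin 9 → k) →ₗ[k] O k :=
    { toFun := fun a => mk (a 0) (a 1) (a 2) (a 3) (a 4) (a 5) (a 6) (a 7) (a 8)
      map_add' := fun a b => by simp [mk_add]
      map_smul' := fun c a => by simp [mk_smul] }
  refine Module.Finite.of_surjective L fun f => ?_
  obtain ⟨a0, a1, a2, a3, a4, a5, a6, a7, a8, rfl⟩ := mk_surj f
  exact ⟨![a0, a1, a2, a3, a4, a5, a6, a7, a8], rfl⟩

/-- A derivation applied to an element given in coordinates (chain rule). -/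
theorem der_mk (E : W k) (a00 a10 a01 a20 a11 a02 a21 a12 a22 : k) :
    E (mk a00 a10 a01 a20 a11 a02 a21 a12 a22) =
      mk a10 (2 * a20) a11 0 (2 * a21) a12 0 (2 * a22) 0 * E x +
      mk a01 a11 (2 * a02) a21 (2 * a12) 0 (2 * a22) 0 0 * E y := by
  simp only [mk, map_add, Derivation.map_smul, Derivation.leibniz, Derivation.leibniz_pow,
    Derivation.map_one_eq_zero]
  simp only [smul_eq_mul, nsmul_eq_mul, Nat.cast_ofNat]
  simp only [sm, map_mul, map_ofNat, map_zero]
  ring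

theorem W_ext {E F : W k} (hx : E x = F x) (hy : E y = F y) : E = F := by
  ext f
  obtain ⟨a0, a1, a2, a3, a4, a5, a6, a7, a8, rfl⟩ := mk_surj f
  rw [der_mk, der_mk, hx, hy]

variable [CharP k 3]

theorem three : (3 : k) = 0 := by exact_mod_cast CharP.cast_eq_zero k 3

theorem pderiv_cubes (i : Fin 2) (g : MvPolynomial (Fin 2) k)
    (hg : Ideal.Quotient.mkₐ k (cubes k) g = 0) :
    Ideal.Quotient.mkₐ k (cubes k) (pderiv i g) = 0 := by
  rw [Ideal.Quotient.mkₐ_eq_mk, Ideal.Quotient.eq_zero_iff_mem] at *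
  unfold cubes at hg
  induction hg using Submodule.span_induction with
  | mem g hg =>
    obtain ⟨j, rfl⟩ := hg
    have h3 : (3 : MvPolynomial (Fin 2) k) = 0 := by
      have : (3 : MvPolynomial (Fin 2) k) = C 3 := rfl
      rw [this, three, map_zero]
    simp only [Derivation.leibniz_pow, nsmul_eq_mul, Nat.cast_ofNat, h3, zero_mul]
    exact zero_mem _
  | zero => simp
  | add a b _ _ ha hb => rw [map_add]; exact add_mem ha hb
  | smul a b hb' hb =>
    rw [smul_eq_mul, Derivation.leibniz]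
    exact add_mem (Ideal.mul_mem_left _ _ hb) (Ideal.mul_mem_right _ _ hb')

/-- The partial derivatives on O(2). -/
noncomputable def pd (i : Fin 2) : W k :=
  Derivation.liftOfSurjective (Ideal.Quotient.mkₐ_surjective k (cubes k))
    (d := pderiv i) (pderiv_cubes i)

theorem pd_X (i j : Fin 2) : pd i (Ideal.Quotient.mk (cubes k) (X j)) =
    if j = i then 1 else 0 := by
  have := Derivation.liftOfSurjective_apply (Ideal.Quotient.mkₐ_surjective k (cubes k))
    (d := pderiv i) (pderiv_cubes i) (X j)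
  rw [Ideal.Quotient.mkₐ_eq_mk] at this
  unfold pd
  rw [this, pderiv_X]
  by_cases h : j = i
  · simp [h]
  · simp [h]

/-- The derivation P d/dx + Q d/dy. -/
noncomputable def der (P Q : O k) : W k := P • pd 0 + Q • pd 1

@[simp] theorem der_x (P Q : O k) : der P Q x = P := by
  have h0 := pd_X (k := k) 0 0
  have h1 := pd_X (k := k) 1 0
  simp at h0 h1
  simp [der, x, h0, h1]

@[simp] theorem der_y (P Q : O k) : der P Q y = Q := by
  have h0 := pd_X (k := k) 0 1
  have h1 := pd_X (k := k) 1 1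
  simp at h0 h1
  simp [der, y, h0, h1]

theorem der_eq (E : W k) : der (E x) (E y) = E := W_ext (by simp) (by simp)

end Pool.Agent.W23
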