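import Mathlib

/-!
Coadjoint orbits of the Jacobson-Witt algebra W(2,1) in characteristic 3: definitions.
-/

namespace Pool.Agent.W23

open MvPolynomial

variable (k : Type*) [Field k]

/-- The ideal generated by the cubes of the two variables. -/
noncomputable def cubes : Ideal (MvPolynomial (Fin 2) k) :=
  Ideal.span (Set.range fun i : Fin 2 => (X i : MvPolynomial (Fin 2) k) ^ 3)

/-- The truncated polynomial algebra O(2) = k[x,y]/(x^3, y^3). -/
abbrev O := MvPolynomial (Fin 2) k ⧸ cubes k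

/-- The Jacobson-Witt algebra W(2,1) = Der O(2), with the commutator bracket. -/
abbrev W := Derivation k (O k) (O k)

/-- The restricted simple Lie algebra of Cartan type W(2,1)^(2): the second derived algebra. -/
noncomputable abbrev G : LieIdeal k (W k) := LieAlgebra.derivedSeries k (W k) 2

variable {k}

/-- The class of the first variable. -/
noncomputable def x : O k := Ideal.Quotient.mk (cubes k) (X 0)

/-- The class of the second variable. -/
noncomputable def y : O k := Ideal.Quotient.mk (cubes k) (X 1)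

/-- The coefficient of x^2 y^2 (read off from any representative polynomial). -/
noncomputable def top (f : O k) : k :=
  coeff (Finsupp.single 0 2 + Finsupp.single 1 2) (Quotient.out f)

theorem coeff_cubes (m : Fin 2 →₀ ℕ) (hm : ∀ i, m i < 3) {g : MvPolynomial (Fin 2) k}
    (hg : g ∈ cubes k) : coeff m g = 0 := by
  have key : ∀ h : MvPolynomial (Fin 2) k, coeff m (h * g) = 0 := by
    unfold cubes at hg
    induction hg using Submodule.span_induction with
    | mem g hg =>
      obtain ⟨i, rfl⟩ := hg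
      intro h
      simp only [X_pow_eq_monomial, coeff_mul_monomial']
      rw [if_neg]
      intro hle
      have := hle i
      have h2 := hm i
      simp at this
      omega
    | zero => simp
    | add a b _ _ ha hb => intro h; rw [mul_add, coeff_add, ha, hb, add_zero]
    | smul a b _ hb => intro h; rw [smul_eq_mul, ← mul_assoc]; exact hb _
  simpa using key 1

theorem coeff_out (m : Fin 2 →₀ ℕ) (hm : ∀ i, m i < 3) (g : MvPolynomial (Fin 2) k) :
    coeff m (Quotient.out (Ideal.Quotient.mk (cubes k) g)) = coeff m g := by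
  have h : Quotient.out (Ideal.Quotient.mk (cubes k) g) - g ∈ cubes k := by
    rw [← Ideal.Quotient.eq]
    exact Ideal.Quotient.mk_out _
  have := coeff_cubes m hm h
  rwa [coeff_sub, sub_eq_zero] at this

theorem top_mk (g : MvPolynomial (Fin 2) k) :
    top (Ideal.Quotient.mk (cubes k) g) = coeff (Finsupp.single 0 2 + Finsupp.single 1 2) g :=
  coeff_out _ (fun i => by fin_cases i <;> simp) g

theorem top_add (f g : O k) : top (f + g) = top f + top g := by
  obtain ⟨f, rfl⟩ := Ideal.Quotient.mk_surjective f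
  obtain ⟨g, rfl⟩ := Ideal.Quotient.mk_surjective g
  rw [← map_add, top_mk, top_mk, top_mk, coeff_add]

theorem top_smul (c : k) (f : O k) : top (c • f) = c * top f := by
  obtain ⟨f, rfl⟩ := Ideal.Quotient.mk_surjective f
  have : c • Ideal.Quotient.mk (cubes k) f = Ideal.Quotient.mk (cubes k) (c • f) := rfl
  rw [this, top_mk, top_mk, coeff_smul, smul_eq_mul]

/-- The character of W(2,1) given by a pair (P, Q) in O(2):
E maps to the coefficient of x^2 y^2 in P E(y) - Q E(x). -/
noncomputable def character (D : O k × O k) : Module.Dual k (W k) where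
  toFun E := top (D.1 * E y - D.2 * E x)
  map_add' E F := by
    rw [← top_add]
    congr 1
    simp only [Derivation.add_apply]
    ring
  map_smul' c E := by
    rw [RingHom.id_apply, smul_eq_mul, ← top_smul]
    congr 1
    simp only [Derivation.smul_apply, smul_sub, mul_smul_comm]

/-- Two characters of a Lie algebra L are conjugate when an automorphism of L carries one to the
other. -/
def Conjugate (L : Type*) [LieRing L] [LieAlgebra k L] (χ χ' : Module.Dual k L) : Prop :=
  ∃ φ : L ≃ₗ⁅k⁆ L, ∀ E, χ' E = χ (φ.symm E)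

/-- The 32 families of normal forms, with their parameters. -/
inductive NF (k : Type*) [Field k] where
  | A1 (b c : k)
  | A2 (b c : k)
  | A3 (b : kˣ)
  | A4 (c : k)
  | A5 (c : k)
  | A6 (c : k)
  | A7
  | B1 (l c : k)
  | B2 (b c : k)
  | B3 (b : k)
  | B4 (d : k)
  | B5
  | B6
  | B7 (c : k)
  | B8 (b : k)
  | B9 (d : k)
  | B10
  | B11 (c e : k)
  | C1 (a b : k)
  | C2 (a : k)
  | C3 (a g : k)
  | C4 (d : kˣ)
  | C5 (g : k)
  | C6 (g : k)
  | C7
  | C8 (d : k)
  | C9
  | C10
  | C11 (d : k)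
  | D1 (a b : k)
  | D2 (a : k)
  | E1

/-- The monomial x^i y^j. -/
noncomputable def m (i j : ℕ) : O k := x ^ i * y ^ j

/-- The first entry P of the pair (P, Q) of each normal form. -/
noncomputable def NF.P : NF k → O k
  | .A1 _ c => 1 + c • m 2 2
  | .A2 b c => 1 + b • m 2 0 + c • m 2 1
  | .A3 _ => 1 + m 2 0
  | .A4 c => 1 + m 2 0 + c • m 2 2
  | .A5 c => 1 + c • m 2 1
  | .A6 c => 1 + c • m 2 1
  | .A7 => 1 + m 2 2
  | .B1 _ c => x + c • m 2 1
  | .B2 _ c => x + m 0 2 + c • m 2 1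
  | .B3 b => x + b • m 2 0
  | .B4 d => x + m 2 0 + d • m 2 2
  | .B5 => x + m 2 2
  | .B6 => x
  | .B7 _ => x + y
  | .B8 _ => y
  | .B9 _ => y
  | .B10 => y
  | .B11 c _ => y + c • m 2 1
  | .C1 a b => a • m 2 0 + (b + 1) • m 1 1
  | .C2 a => a • m 2 0 + m 1 1
  | .C3 a _ => a • m 2 0
  | .C4 d => -m 2 0 + (d : k) • m 2 2
  | .C5 _ => m 1 1
  | .C6 g => m 2 0 + g • m 1 2
  | .C7 => m 1 2
  | .C8 d => d • m 2 1
  | .C9 => m 2 2
  | .C10 => m 2 0 + m 1 2
  | .C11 _ => m 2 0
  | .D1 a _ => a • m 2 1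
  | .D2 a => a • m 2 1 + m 1 2
  | .E1 => m 2 2

/-- The second entry Q of the pair (P, Q) of each normal form. -/
noncomputable def NF.Q : NF k → O k
  | .A1 b _ => m 2 0 + b • m 2 2
  | .A2 _ _ => m 2 1
  | .A3 b => (b : k) • m 2 2
  | .A4 _ => 0
  | .A5 _ => m 2 2
  | .A6 _ => 0
  | .A7 => 0
  | .B1 l _ => l • y
  | .B2 b _ => -y + b • m 2 0
  | .B3 _ => m 0 2
  | .B4 _ => 0
  | .B5 => 0
  | .B6 => y + m 2 1
  | .B7 c => y + c • m 2 1
  | .B8 b => m 2 0 + b • m 1 1
  | .B9 d => m 1 1 + d • m 2 1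
  | .B10 => m 2 1
  | .B11 _ e => e • m 2 2
  | .C1 a b => (a + 1) • m 1 1 + b • m 0 2
  | .C2 a => (a + 1) • m 1 1 + m 0 2
  | .C3 a g => (a + 1) • m 1 1 + g • m 1 2
  | .C4 _ => 0
  | .C5 g => m 2 0 + m 0 2 + g • m 2 1
  | .C6 _ => m 2 0 + m 1 1
  | .C7 => m 2 0
  | .C8 _ => m 2 0
  | .C9 => m 2 0
  | .C10 => m 1 1
  | .C11 d => m 1 1 + d • m 1 2
  | .D1 _ b => (-b) • m 1 2
  | .D2 a => (-a) • m 1 2
  | .E1 => 0

/-- The character of W(2,1)^(2) defined by a normal form. -/
noncomputable def NF.char (n : NF k) : Module.Dual k (G k) :=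
  (character (n.P, n.Q)).comp (G k).incl.toLinearMap

/-- The rule deciding when two normal forms are conjugate: they are equal up to the finite
symmetries written out. -/
def NF.Rule (n n' : NF k) : Prop :=
  match n with
  | .A1 b c => ∃ s : k, s ^ 5 = 1 ∧ n' = .A1 (s * b) (s ^ 3 * c)
  | .A3 b => n' = n ∨ n' = .A3 (-b)
  | .B1 l c => n' = n ∨ (l ≠ 0 ∧ n' = .B1 l⁻¹ (-c))
  | .B2 b c => n' = n ∨ (b ≠ 0 ∧ n' = .B2 b (-c))
  | .B8 b => ∃ t : k, t ^ 4 = 1 ∧ n' = .B8 (t * b)
  | .B9 d => n' = n ∨ n' = .B9 (-d)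
  | .B11 c e => n' = n ∨ n' = .B11 c (-e)
  | .C1 a b => ∃ a' b' : k, n' = .C1 a' b' ∧
      ({a', b', -1 - a' - b'} : Multiset k) = {a, b, -1 - a - b}
  | .C5 g => n' = n ∨ n' = .C5 (-g)
  | .D1 a b => n' = n ∨ n' = .D1 b a
  | _ => n' = n

end Pool.Agent.W23
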