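import Pool.Agent.P.MP_c9b50d_al.Bridge

namespace Pool.Agent.W23

variable {k : Type*} [Field k] [hp : CharP k 3]

theorem S0_of (c0 c1 c2 b0 b1 b2 C0 C1 C2 B0 B1 B2 : k) 
    (h : Rel 1 0 0 c0 0 0 c1 0 c2 0 0 0 b0 0 0 b1 0 b2 1 0 0 C0 0 0 C1 0 C2 0 0 0 B0 0 0 B1 0 B2) :
    (∃ u10 si u01 u02 u11 : k, u10 * si = 1 ∧ B0 = b0*u10^(5:ℕ) ∧ C0 = c0*u10*u10 + b0*u01*u10^(4:ℕ) ∧ B1 = b1*u10*u10*u10 - b0*u10^(4:ℕ)*u11 ∧ C1 = c1 - c0*u10*u11 + b0*u01*u10*u10*u10*u11 - b0*u02*u10^(4:ℕ) ∧ B2 = b2*u10 + b1*u10*u10*u11 + b0*u10*u10*u10*u11*u11 + b0*b0*u01*u01*u01*u10^(7:ℕ) ∧ C2 = -b2*u01 + c0*u11*u11 + c1*si*u11 + c2*si*si + b1*u01*u10*u11 + b1*u02*u10*u10 - b0*u02*u10*u10*u10*u11 - b0*c0*u01*u01*u01*u10^(4:ℕ) - b0*b0*u01^(4:ℕ)*u10^(6:ℕ)) := by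
  obtain ⟨u10, u01, u20, u11, u02, u21, u12, u22, v10, v01, v20, v11, v02, v21, v12, v22, hc, hP00, hP10, hP01, hP20, hP11, hP02, hP21, hP12, hP22, hQ00, hQ10, hQ01, hQ20, hQ11, hQ02, hQ21, hQ12, hQ22⟩ := h

  have e : 0 = v10 := by clear * - hp hc hQ00; grind
  subst e
  obtain ⟨si, hs⟩ : ∃ si, u10 * si = 1 := ⟨u10 * v01, by clear * - hp hP00; grind⟩
  have e : si * si = v01 := by clear * - hp hs hP00; grind
  subst e
  have e : -si*u01*v20 - si*si*si*u20 = v11 := by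
    linear_combination (norm := skip) (si*si) * hP10
    clear * - hp hs; grind
  subst e
  have e : 0 = v20 := by
    linear_combination (norm := skip) (-u10) * hQ10
    clear * - hp hs; grind
  subst e
  have e : -si*si*si*u11 + si^(4:ℕ)*u01*u20 = v02 := by
    linear_combination (norm := skip) (-si*si) * hP01
    clear * - hp hs; grind
  subst e
  have e : 0 = u20 := by
    linear_combination (norm := skip) (-u10^(4:ℕ)) * hQ01
    clear * - hp hs; grind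
  subst e
  have e : c0 - C0*si*si - B0*si*si*si*u01 = v21 := by
    linear_combination (norm := skip) (si*si) * hP20
    clear * - hp hs; grind
  subst e
  have e : b0*u10^(5:ℕ) = B0 := by
    linear_combination (norm := skip) (u10*u10*u10) * hQ20
    clear * - hp hs; grind
  subst e
  have e : -c0*si*u01 - b0*u01*u01*u10 + si*si*si*u21 - C0*si*si*si*u01 = v12 := by
    linear_combination (norm := skip) (-si*si) * hP11
    clear * - hp hs; grind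
  subst e
  have e : c0*u10*u10 + b0*u01*u10^(4:ℕ) = C0 := by
    linear_combination (norm := skip) (u10*u10*u10) * hQ11
    clear * - hp hs; grind
  subst e
  have e : -si*u01*u21 + c0*u01*u01*u10 - b0*u01*u01*u01*u10*u10*u10 = u12 := by
    linear_combination (norm := skip) (-u10) * hP02
    clear * - hp hs; grind
  subst e
  have e : -c0*u01*u10*u10 = u21 := by
    linear_combination (norm := skip) (u10^(4:ℕ)) * hQ02
    clear * - hp hs; grind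
  subst e
  have e : C1*si*si + c0*si*u11 - c1*si*si - b0*u01*u10*u11 - b0*u02*u10*u10 + B1*si*si*si*u01 = v22 := by
    linear_combination (norm := skip) (-si*si) * hP21
    clear * - hp hs; grind
  subst e
  have e : b1*u10*u10*u10 - b0*u10^(4:ℕ)*u11 = B1 := by
    linear_combination (norm := skip) (u10*u10*u10) * hQ21
    clear * - hp hs; grind
  subst e
  have e : -C1*u01 - c0*u02*u10*u10 - b1*u01*u01*u10*u10 - b0*u01*u02*u10^(4:ℕ) + b0*u01*u01*u10*u10*u10*u11 = u22 := by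
    linear_combination (norm := skip) (u10) * hP12
    clear * - hp hs; grind
  subst e
  have e : c1 - c0*u10*u11 + b0*u01*u10*u10*u10*u11 - b0*u02*u10^(4:ℕ) = C1 := by
    linear_combination (norm := skip) (-u10*u10*u10) * hQ12
    clear * - hp hs; grind
  subst e
  have e : -B2*si*u01 + c0*u11*u11 + c1*si*u11 + c2*si*si - b1*u01*u10*u11 + b1*u02*u10*u10 + b0*u01*u10*u10*u11*u11 - b0*u02*u10*u10*u10*u11 - b0*c0*u01*u01*u01*u10^(4:ℕ) = C2 := by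
    linear_combination (norm := skip) (1) * hP22
    clear * - hp hs; grind
  subst e
  have e : b2*u10 + b1*u10*u10*u11 + b0*u10*u10*u10*u11*u11 + b0*b0*u01*u01*u01*u10^(7:ℕ) = B2 := by
    linear_combination (norm := skip) (u10*u10*u10) * hQ22
    clear * - hp hs; grind
  subst e
  refine ⟨u10, si, u01, u02, u11, hs, ?_, ?_, ?_, ?_, ?_, ?_⟩
  all_goals (clear * - hp hs; grind)

theorem S0_to (c0 c1 c2 b0 b1 b2 C0 C1 C2 B0 B1 B2 : k) 
    (h : (∃ u10 si u01 u02 u11 : k, u10 * si = 1 ∧ B0 = b0*u10^(5:ℕ) ∧ C0 = c0*u10*u10 + b0*u01*u10^(4:ℕ) ∧ B1 = b1*u10*u10*u10 - b0*u10^(4:ℕ)*u11 ∧ C1 = c1 - c0*u10*u11 + b0*u01*u10*u10*u10*u11 - b0*u02*u10^(4:ℕ) ∧ B2 = b2*u10 + b1*u10*u10*u11 + b0*u10*u10*u10*u11*u11 + b0*b0*u01*u01*u01*u10^(7:ℕ) ∧ C2 = -b2*u01 + c0*u11*u11 + c1*si*u11 + c2*si*si + b1*u01*u10*u11 + b1*u02*u10*u10 - b0*u02*u10*u10*u10*u11 - b0*c0*u01*u01*u01*u10^(4:ℕ) - b0*b0*u01^(4:ℕ)*u10^(6:ℕ)))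 :
    Rel 1 0 0 c0 0 0 c1 0 c2 0 0 0 b0 0 0 b1 0 b2 1 0 0 C0 0 0 C1 0 C2 0 0 0 B0 0 0 B1 0 B2 := by
  rcases h with ⟨u10, si, u01, u02, u11, hs, rfl, rfl, rfl, rfl, rfl, rfl⟩
  · refine ⟨u10, u01, 0, u11, u02, -c0*u01*u10*u10, -c0*u01*u01*u10 - b0*u01*u01*u01*u10*u10*u10, -c1*u01 + c0*u01*u10*u11 - c0*u02*u10*u10 - b1*u01*u01*u10*u10, 0, si*si, 0, 0, -si*si*si*u11, b0*u01*u10*u10, b0*u01*u01*u10, b1*u01 - b0*u01*u10*u11 + b0*u02*u10*u10, by grind, ?_, ?_, ?_, ?_, ?_, ?_, ?_, ?_, ?_, ?_, ?_, ?_, ?_, ?_, ?_, ?_, ?_, ?_⟩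
    all_goals (clear * - hp hs; grind)


end Pool.Agent.W23

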