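import Pool.Agent.P.MP_c9b50d_al.Ex1
import Pool.Agent.P.MP_c9b50d_al.S0

namespace Pool.Agent.W23

variable {k : Type*} [Field k] [hp : CharP k 3]

variable [IsAlgClosed k]

set_option linter.unusedSectionVars false

theorem h0_s (c0 c1 c2 b0 b1 b2 : k) :
    Has 1 0 0 c0 0 0 c1 0 c2 0 0 0 b0 0 0 b1 0 b2 := by
  by_cases h0 : b0 = 0
  swap
  · obtain ⟨s, hs⟩ := rootn b0 h0 5 (by norm_num)
    exact Has.of_rel (S0_to c0 c1 c2 b0 b1 b2 0 0 _ 1 0 _ ⟨s, b0 * s ^ 4, -c0 * s ^ 3,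
      s * (c1 - c0 * s * (b1 * s ^ 4) + b0 * (-c0 * s ^ 3) * s ^ 3 * (b1 * s ^ 4)), b1 * s ^ 4,
      by grind, by grind, by grind, by grind, by grind, rfl, rfl⟩) (has_A1 ..)
  subst h0
  by_cases h1 : b1 = 0
  swap
  · obtain ⟨s, hs⟩ := rootn b1 h1 3 (by norm_num)
    exact Has.of_rel (S0_to c0 c1 c2 0 b1 b2 _ _ 0 0 1 0 ⟨s, b1 * s ^ 2, 0,
      -s * (c0 * (b2 * s ^ 2) ^ 2 - c1 * (b1 * s ^ 2) * (b2 * s ^ 2) + c2 * (b1 * s ^ 2) ^ 2),
      -b2 * s ^ 2, by grind, by grind, rfl, by grind, rfl, by grind, by grind⟩) (has_A2 ..)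
  subst h1
  by_cases h2 : c0 = 0
  swap
  · obtain ⟨s, hs⟩ := rootn c0 h2 2 (by norm_num)
    have key : ∀ b c : k, Has 1 0 0 1 0 0 0 0 c 0 0 0 0 0 0 0 0 b := by
      intro b c
      by_cases hb : b = 0
      · subst hb
        exact has_A4 c
      · exact Has.of_rel (S0_to 1 0 c 0 0 b 1 0 0 0 0 b ⟨1, 1, c * b⁻¹, 0, 0, by simp, by simp,
          by simp, by simp, by simp, by simp, by field_simp; ring⟩) (has_A3 (Units.mk0 b hb))
    exact Has.of_rel (S0_to c0 c1 c2 0 0 b2 1 0 _ 0 0 _ ⟨s, c0 * s, 0, 0, c1 * s, by grind,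
      by grind, by grind, by grind, by grind, rfl, rfl⟩) (key _ _)
  subst h2
  by_cases h3 : b2 = 0
  swap
  · exact Has.of_rel (S0_to 0 c1 c2 0 0 b2 0 c1 0 0 0 1 ⟨b2⁻¹, b2, c2 * b2, 0, 0,
      inv_mul_cancel₀ h3, by simp, by simp, by simp, by simp, by simp [h3], by ring⟩) (has_A5 c1)
  subst h3
  by_cases h4 : c1 = 0
  swap
  · exact Has.of_rel (S0_to 0 c1 c2 0 0 0 0 c1 0 0 0 0 ⟨1, 1, 0, 0, -c2 * c1⁻¹, by simp, by simp,
      by simp, by simp, by simp, by simp, by field_simp; ring⟩) (has_A6 c1)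
  subst h4
  by_cases h5 : c2 = 0
  · subst h5
    exact has_A6 0
  · obtain ⟨s, hs⟩ := rootn c2 h5 2 (by norm_num)
    exact Has.of_rel (S0_to 0 0 c2 0 0 0 0 0 1 0 0 0 ⟨c2 * s, s, 0, 0, 0, by grind, by simp,
      by simp, by simp, by simp, by simp, by grind⟩) has_A7

theorem h0_4 (p20 p21 p22 q20 q21 q22 : k) :
    Has 1 0 0 p20 0 0 p21 0 p22 0 0 0 q20 0 0 q21 0 q22 := by
  exact h0_s ..

theorem h0_3 (p20 p21 p12 p22 q20 q21 q12 q22 : k) :
    Has 1 0 0 p20 0 0 p21 p12 p22 0 0 0 q20 0 0 q21 q12 q22 := by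
  have hc : (1) * (1) - (0) * (0) ≠ (0 : k) := by simp
  obtain ⟨P00, P10, P01, P20, P11, P02, P21, P12, P22, Q00, Q10, Q01, Q20, Q11, Q02, Q21, Q12, Q22, he⟩ := act 1 0 0 0 0 0 0 p12 0 1 0 0 0 0 0 (-q12) hc 1 0 0 p20 0 0 p21 p12 p22 0 0 0 q20 0 0 q21 q12 q22
  obtain ⟨hP00, hP10, hP01, hP20, hP11, hP02, hP21, hP12, hP22, hQ00, hQ10, hQ01, hQ20, hQ11, hQ02, hQ21, hQ12, hQ22⟩ := id he
  have e0 : (1 : k) = P00 := by
    linear_combination (norm := skip) (1) * hP00
    clear * - hp ; grind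
  subst e0
  have e0 : (0 : k) = Q00 := by
    linear_combination (norm := skip) (1) * hQ00
    clear * - hp ; grind
  subst e0
  have e0 : (0 : k) = P10 := by
    linear_combination (norm := skip) (1) * hP10
    clear * - hp ; grind
  subst e0
  have e0 : (0 : k) = P01 := by
    linear_combination (norm := skip) (1) * hP01
    clear * - hp ; grind
  subst e0
  have e0 : (0 : k) = Q10 := by
    linear_combination (norm := skip) (1) * hQ10
    clear * - hp ; grind
  subst e0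
  have e0 : (0 : k) = Q01 := by
    linear_combination (norm := skip) (1) * hQ01
    clear * - hp ; grind
  subst e0
  have e0 : (p20 : k) = P20 := by
    linear_combination (norm := skip) (1) * hP20
    clear * - hp ; grind
  subst e0
  have e0 : (0 : k) = P11 := by
    linear_combination (norm := skip) (1) * hP11
    clear * - hp ; grind
  subst e0
  have e0 : (0 : k) = P02 := by
    linear_combination (norm := skip) (1) * hP02
    clear * - hp ; grind
  subst e0
  have e0 : (q20 : k) = Q20 := by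
    linear_combination (norm := skip) (1) * hQ20
    clear * - hp ; grind
  subst e0
  have e0 : (0 : k) = Q11 := by
    linear_combination (norm := skip) (1) * hQ11
    clear * - hp ; grind
  subst e0
  have e0 : (0 : k) = Q02 := by
    linear_combination (norm := skip) (1) * hQ02
    clear * - hp ; grind
  subst e0
  have e0 : (0 : k) = P12 := by
    linear_combination (norm := skip) (1) * hP12
    clear * - hp ; grind
  subst e0
  have e0 : (0 : k) = Q12 := by
    linear_combination (norm := skip) (1) * hQ12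
    clear * - hp ; grind
  subst e0
  exact Has.of_rel ⟨_, _, _, _, _, _, _, _, _, _, _, _, _, _, _, _, hc, he⟩ (h0_4 _ _ _ _ _ _)

theorem h0_2 (p20 p11 p02 p21 p12 p22 q20 q11 q02 q21 q12 q22 : k) :
    Has 1 0 0 p20 p11 p02 p21 p12 p22 0 0 0 q20 q11 q02 q21 q12 q22 := by
  have hc : (1) * (1) - (0) * (0) ≠ (0 : k) := by simp
  obtain ⟨P00, P10, P01, P20, P11, P02, P21, P12, P22, Q00, Q10, Q01, Q20, Q11, Q02, Q21, Q12, Q22, he⟩ := act 1 0 0 0 0 (p11 + q02) (-p02) 0 0 1 0 0 0 (-q11) q02 0 hc 1 0 0 p20 p11 p02 p21 p12 p22 0 0 0 q20 q11 q02 q21 q12 q22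
  obtain ⟨hP00, hP10, hP01, hP20, hP11, hP02, hP21, hP12, hP22, hQ00, hQ10, hQ01, hQ20, hQ11, hQ02, hQ21, hQ12, hQ22⟩ := id he
  have e0 : (1 : k) = P00 := by
    linear_combination (norm := skip) (1) * hP00
    clear * - hp ; grind
  subst e0
  have e0 : (0 : k) = Q00 := by
    linear_combination (norm := skip) (1) * hQ00
    clear * - hp ; grind
  subst e0
  have e0 : (0 : k) = P10 := by
    linear_combination (norm := skip) (1) * hP10
    clear * - hp ; grind
  subst e0
  have e0 : (0 : k) = P01 := by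
    linear_combination (norm := skip) (1) * hP01
    clear * - hp ; grind
  subst e0
  have e0 : (0 : k) = Q10 := by
    linear_combination (norm := skip) (1) * hQ10
    clear * - hp ; grind
  subst e0
  have e0 : (0 : k) = Q01 := by
    linear_combination (norm := skip) (1) * hQ01
    clear * - hp ; grind
  subst e0
  have e0 : (0 : k) = P11 := by
    linear_combination (norm := skip) (1) * hP11
    clear * - hp ; grind
  subst e0
  have e0 : (0 : k) = P02 := by
    linear_combination (norm := skip) (1) * hP02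
    clear * - hp ; grind
  subst e0
  have e0 : (0 : k) = Q11 := by
    linear_combination (norm := skip) (1) * hQ11
    clear * - hp ; grind
  subst e0
  have e0 : (0 : k) = Q02 := by
    linear_combination (norm := skip) (1) * hQ02
    clear * - hp ; grind
  subst e0
  exact Has.of_rel ⟨_, _, _, _, _, _, _, _, _, _, _, _, _, _, _, _, hc, he⟩ (h0_3 _ _ _ _ _ _ _ _)

theorem h0_1 (p10 p01 p20 p11 p02 p21 p12 p22 q10 q01 q20 q11 q02 q21 q12 q22 : k) :
    Has 1 p10 p01 p20 p11 p02 p21 p12 p22 0 q10 q01 q20 q11 q02 q21 q12 q22 := by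
  have hc : (1) * (1) - (0) * (0) ≠ (0 : k) := by simp
  obtain ⟨P00, P10, P01, P20, P11, P02, P21, P12, P22, Q00, Q10, Q01, Q20, Q11, Q02, Q21, Q12, Q22, he⟩ := act 1 0 (p10 - q01) (-p01) 0 0 0 0 0 1 (-q10) q01 0 0 0 0 hc 1 p10 p01 p20 p11 p02 p21 p12 p22 0 q10 q01 q20 q11 q02 q21 q12 q22
  obtain ⟨hP00, hP10, hP01, hP20, hP11, hP02, hP21, hP12, hP22, hQ00, hQ10, hQ01, hQ20, hQ11, hQ02, hQ21, hQ12, hQ22⟩ := id he
  have e0 : (1 : k) = P00 := by
    linear_combination (norm := skip) (1) * hP00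
    clear * - hp ; grind
  subst e0
  have e0 : (0 : k) = Q00 := by
    linear_combination (norm := skip) (1) * hQ00
    clear * - hp ; grind
  subst e0
  have e0 : (0 : k) = P10 := by
    linear_combination (norm := skip) (1) * hP10
    clear * - hp ; grind
  subst e0
  have e0 : (0 : k) = P01 := by
    linear_combination (norm := skip) (1) * hP01
    clear * - hp ; grind
  subst e0
  have e0 : (0 : k) = Q10 := by
    linear_combination (norm := skip) (1) * hQ10
    clear * - hp ; grind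
  subst e0
  have e0 : (0 : k) = Q01 := by
    linear_combination (norm := skip) (1) * hQ01
    clear * - hp ; grind
  subst e0
  exact Has.of_rel ⟨_, _, _, _, _, _, _, _, _, _, _, _, _, _, _, _, hc, he⟩ (h0_2 _ _ _ _ _ _ _ _ _ _ _ _)

theorem has_all (p00 p10 p01 p20 p11 p02 p21 p12 p22 q00 q10 q01 q20 q11 q02 q21 q12 q22 : k) :
    Has p00 p10 p01 p20 p11 p02 p21 p12 p22 q00 q10 q01 q20 q11 q02 q21 q12 q22 := by
  by_cases h : p00 = 0
  · subst h
    by_cases h : q00 = 0
    · subst h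
      exact h1_all ..
    · obtain ⟨w, hw⟩ : ∃ w, q00 * w = 1 := ⟨(q00)⁻¹, mul_inv_cancel₀ h⟩
      have hc : (0) * (0) - (-w) * (q00) ≠ (0 : k) := by
        clear * - hp hw; grind
      obtain ⟨P00, P10, P01, P20, P11, P02, P21, P12, P22, Q00, Q10, Q01, Q20, Q11, Q02, Q21, Q12, Q22, he⟩ := act 0 (-w) 0 0 0 0 0 0 q00 0 0 0 0 0 0 0 hc 0 p10 p01 p20 p11 p02 p21 p12 p22 q00 q10 q01 q20 q11 q02 q21 q12 q22
      obtain ⟨hP00, hP10, hP01, hP20, hP11, hP02, hP21, hP12, hP22, hQ00, hQ10, hQ01, hQ20, hQ11, hQ02, hQ21, hQ12, hQ22⟩ := id he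
      have e0 : (1 : k) = P00 := by
        linear_combination (norm := skip) (w) * hQ00
        clear * - hp hw; grind
      subst e0
      have e0 : (0 : k) = Q00 := by
        linear_combination (norm := skip) (-q00) * hP00
        clear * - hp hw; grind
      subst e0
      exact Has.of_rel ⟨_, _, _, _, _, _, _, _, _, _, _, _, _, _, _, _, hc, he⟩ (h0_1 ..)
  · obtain ⟨w, hw⟩ : ∃ w, p00 * w = 1 := ⟨(p00)⁻¹, mul_inv_cancel₀ h⟩
    have hc : (p00) * (w) - (0) * (q00) ≠ (0 : k) := by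
      clear * - hp hw; grind
    obtain ⟨P00, P10, P01, P20, P11, P02, P21, P12, P22, Q00, Q10, Q01, Q20, Q11, Q02, Q21, Q12, Q22, he⟩ := act p00 0 0 0 0 0 0 0 q00 w 0 0 0 0 0 0 hc p00 p10 p01 p20 p11 p02 p21 p12 p22 q00 q10 q01 q20 q11 q02 q21 q12 q22
    obtain ⟨hP00, hP10, hP01, hP20, hP11, hP02, hP21, hP12, hP22, hQ00, hQ10, hQ01, hQ20, hQ11, hQ02, hQ21, hQ12, hQ22⟩ := id he
    have e0 : (1 : k) = P00 := by
      linear_combination (norm := skip) (w) * hP00
      clear * - hp hw; grind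
    subst e0
    have e0 : (0 : k) = Q00 := by
      linear_combination (norm := skip) (p00) * hQ00
      clear * - hp hw; grind
    subst e0
    exact Has.of_rel ⟨_, _, _, _, _, _, _, _, _, _, _, _, _, _, _, _, hc, he⟩ (h0_1 ..)


end Pool.Agent.W23
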