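import Pool.Agent.P.MP_c9b50d_al.Forms

namespace Pool.Agent.W23

variable {k : Type*} [Field k] [hp : CharP k 3]

variable [IsAlgClosed k]

set_option linter.unusedSectionVars false

omit hp in
theorem rootn (a : k) (ha : a ≠ 0) (n : ℕ) (hn : 0 < n) : ∃ s : k, a * s ^ n = 1 := by
  obtain ⟨s, hs⟩ := IsAlgClosed.exists_pow_nat_eq a⁻¹ hn
  exact ⟨s, by rw [hs, mul_inv_cancel₀ ha]⟩

omit hp in
theorem root2 (a b c : k) (ha : a ≠ 0) : ∃ r : k, a * r ^ 2 + b * r + c = 0 := by
  obtain ⟨r, hr⟩ := IsAlgClosed.exists_root
    (Polynomial.C a * Polynomial.X ^ 2 + Polynomial.C b * Polynomial.X + Polynomial.C c)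
    (by rw [Polynomial.degree_quadratic ha]; decide)
  exact ⟨r, by simpa using hr⟩

omit hp in
theorem root3 (a b c d : k) (ha : a ≠ 0) : ∃ r : k, a * r ^ 3 + b * r ^ 2 + c * r + d = 0 := by
  obtain ⟨r, hr⟩ := IsAlgClosed.exists_root
    (Polynomial.C a * Polynomial.X ^ 3 + Polynomial.C b * Polynomial.X ^ 2 +
      Polynomial.C c * Polynomial.X + Polynomial.C d)
    (by rw [Polynomial.degree_cubic ha]; decide)
  exact ⟨r, by simpa using hr⟩

theorem h4 (p22 q22 : k) :
    Has 0 0 0 0 0 0 0 0 p22 0 0 0 0 0 0 0 0 q22 := by
  by_cases h : p22 = 0
  · subst h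
    by_cases h : q22 = 0
    · subst h
      simpa using has_D1 (0 : k) 0
    · obtain ⟨w, hw⟩ : ∃ w, q22 * w = 1 := ⟨(q22)⁻¹, mul_inv_cancel₀ h⟩
      have hc : (0) * (0) - (-w) * (q22) ≠ (0 : k) := by
        clear * - hp hw; grind
      obtain ⟨P00, P10, P01, P20, P11, P02, P21, P12, P22, Q00, Q10, Q01, Q20, Q11, Q02, Q21, Q12, Q22, he⟩ := act 0 (-w) 0 0 0 0 0 0 q22 0 0 0 0 0 0 0 hc 0 0 0 0 0 0 0 0 0 0 0 0 0 0 0 0 0 q22
      obtain ⟨hP00, hP10, hP01, hP20, hP11, hP02, hP21, hP12, hP22, hQ00, hQ10, hQ01, hQ20, hQ11, hQ02, hQ21, hQ12, hQ22⟩ := id he
      have e0 : (0 : k) = P00 := by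
        linear_combination (norm := skip) (w) * hQ00
        clear * - hp hw; grind
      subst e0
      have e0 : (0 : k) = Q00 := by
        linear_combination (norm := skip) (-q22) * hP00
        clear * - hp hw; grind
      subst e0
      have e0 : (0 : k) = P10 := by
        linear_combination (norm := skip) (w) * hQ10
        clear * - hp hw; grind
      subst e0
      have e0 : (0 : k) = P01 := by
        linear_combination (norm := skip) (w) * hQ01
        clear * - hp hw; grind
      subst e0
      have e0 : (0 : k) = Q10 := by
        linear_combination (norm := skip) (-q22) * hP10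
        clear * - hp hw; grind
      subst e0
      have e0 : (0 : k) = Q01 := by
        linear_combination (norm := skip) (-q22) * hP01
        clear * - hp hw; grind
      subst e0
      have e0 : (0 : k) = P20 := by
        linear_combination (norm := skip) (w) * hQ20
        clear * - hp hw; grind
      subst e0
      have e0 : (0 : k) = P11 := by
        linear_combination (norm := skip) (w) * hQ11
        clear * - hp hw; grind
      subst e0
      have e0 : (0 : k) = P02 := by
        linear_combination (norm := skip) (w) * hQ02
        clear * - hp hw; grind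
      subst e0
      have e0 : (0 : k) = Q20 := by
        linear_combination (norm := skip) (-q22) * hP20
        clear * - hp hw; grind
      subst e0
      have e0 : (0 : k) = Q11 := by
        linear_combination (norm := skip) (-q22) * hP11
        clear * - hp hw; grind
      subst e0
      have e0 : (0 : k) = Q02 := by
        linear_combination (norm := skip) (-q22) * hP02
        clear * - hp hw; grind
      subst e0
      have e0 : (0 : k) = P21 := by
        linear_combination (norm := skip) (w) * hQ21
        clear * - hp hw; grind
      subst e0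
      have e0 : (0 : k) = P12 := by
        linear_combination (norm := skip) (w) * hQ12
        clear * - hp hw; grind
      subst e0
      have e0 : (0 : k) = Q21 := by
        linear_combination (norm := skip) (-q22) * hP21
        clear * - hp hw; grind
      subst e0
      have e0 : (0 : k) = Q12 := by
        linear_combination (norm := skip) (-q22) * hP12
        clear * - hp hw; grind
      subst e0
      have e0 : (1 : k) = P22 := by
        linear_combination (norm := skip) (w) * hQ22
        clear * - hp hw; grind
      subst e0
      have e0 : (0 : k) = Q22 := by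
        linear_combination (norm := skip) (-q22) * hP22
        clear * - hp hw; grind
      subst e0
      exact Has.of_rel ⟨_, _, _, _, _, _, _, _, _, _, _, _, _, _, _, _, hc, he⟩ (has_E1)
  · obtain ⟨w, hw⟩ : ∃ w, p22 * w = 1 := ⟨(p22)⁻¹, mul_inv_cancel₀ h⟩
    have hc : (p22) * (w) - (0) * (q22) ≠ (0 : k) := by
      clear * - hp hw; grind
    obtain ⟨P00, P10, P01, P20, P11, P02, P21, P12, P22, Q00, Q10, Q01, Q20, Q11, Q02, Q21, Q12, Q22, he⟩ := act p22 0 0 0 0 0 0 0 q22 w 0 0 0 0 0 0 hc 0 0 0 0 0 0 0 0 p22 0 0 0 0 0 0 0 0 q22
    obtain ⟨hP00, hP10, hP01, hP20, hP11, hP02, hP21, hP12, hP22, hQ00, hQ10, hQ01, hQ20, hQ11, hQ02, hQ21, hQ12, hQ22⟩ := id he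
    have e0 : (0 : k) = P00 := by
      linear_combination (norm := skip) (w) * hP00
      clear * - hp hw; grind
    subst e0
    have e0 : (0 : k) = Q00 := by
      linear_combination (norm := skip) (p22) * hQ00
      clear * - hp hw; grind
    subst e0
    have e0 : (0 : k) = P10 := by
      linear_combination (norm := skip) (w) * hP10
      clear * - hp hw; grind
    subst e0
    have e0 : (0 : k) = P01 := by
      linear_combination (norm := skip) (w) * hP01
      clear * - hp hw; grind
    subst e0
    have e0 : (0 : k) = Q10 := by
      linear_combination (norm := skip) (p22) * hQ10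
      clear * - hp hw; grind
    subst e0
    have e0 : (0 : k) = Q01 := by
      linear_combination (norm := skip) (p22) * hQ01
      clear * - hp hw; grind
    subst e0
    have e0 : (0 : k) = P20 := by
      linear_combination (norm := skip) (w) * hP20
      clear * - hp hw; grind
    subst e0
    have e0 : (0 : k) = P11 := by
      linear_combination (norm := skip) (w) * hP11
      clear * - hp hw; grind
    subst e0
    have e0 : (0 : k) = P02 := by
      linear_combination (norm := skip) (w) * hP02
      clear * - hp hw; grind
    subst e0
    have e0 : (0 : k) = Q20 := by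
      linear_combination (norm := skip) (p22) * hQ20
      clear * - hp hw; grind
    subst e0
    have e0 : (0 : k) = Q11 := by
      linear_combination (norm := skip) (p22) * hQ11
      clear * - hp hw; grind
    subst e0
    have e0 : (0 : k) = Q02 := by
      linear_combination (norm := skip) (p22) * hQ02
      clear * - hp hw; grind
    subst e0
    have e0 : (0 : k) = P21 := by
      linear_combination (norm := skip) (w) * hP21
      clear * - hp hw; grind
    subst e0
    have e0 : (0 : k) = P12 := by
      linear_combination (norm := skip) (w) * hP12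
      clear * - hp hw; grind
    subst e0
    have e0 : (0 : k) = Q21 := by
      linear_combination (norm := skip) (p22) * hQ21
      clear * - hp hw; grind
    subst e0
    have e0 : (0 : k) = Q12 := by
      linear_combination (norm := skip) (p22) * hQ12
      clear * - hp hw; grind
    subst e0
    have e0 : (1 : k) = P22 := by
      linear_combination (norm := skip) (w) * hP22
      clear * - hp hw; grind
    subst e0
    have e0 : (0 : k) = Q22 := by
      linear_combination (norm := skip) (p22) * hQ22
      clear * - hp hw; grind
    subst e0
    exact Has.of_rel ⟨_, _, _, _, _, _, _, _, _, _, _, _, _, _, _, _, hc, he⟩ (has_E1)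

theorem h3_diag (a p22 b q22 : k) :
    Has 0 0 0 0 0 0 a 0 p22 0 0 0 0 0 0 0 (-b) q22 := by
  by_cases h : a = 0
  · subst h
    by_cases h : b = 0
    · subst h
      simpa using h4 p22 q22
    · obtain ⟨w, hw⟩ : ∃ w, b * w = 1 := ⟨(b)⁻¹, mul_inv_cancel₀ h⟩
      have hc : (1) * (1) - (0) * (0) ≠ (0 : k) := by simp
      obtain ⟨P00, P10, P01, P20, P11, P02, P21, P12, P22, Q00, Q10, Q01, Q20, Q11, Q02, Q21, Q12, Q22, he⟩ := act 1 0 (-q22*w) (-p22*w) 0 0 0 0 0 1 0 0 0 0 0 0 hc 0 0 0 0 0 0 0 0 p22 0 0 0 0 0 0 0 (-b) q22
      obtain ⟨hP00, hP10, hP01, hP20, hP11, hP02, hP21, hP12, hP22, hQ00, hQ10, hQ01, hQ20, hQ11, hQ02, hQ21, hQ12, hQ22⟩ := id he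
      have e0 : (0 : k) = P00 := by
        linear_combination (norm := skip) (1) * hP00
        clear * - hp hw; grind
      subst e0
      have e0 : (0 : k) = Q00 := by
        linear_combination (norm := skip) (1) * hQ00
        clear * - hp hw; grind
      subst e0
      have e0 : (0 : k) = P10 := by
        linear_combination (norm := skip) (1) * hP10
        clear * - hp hw; grind
      subst e0
      have e0 : (0 : k) = P01 := by
        linear_combination (norm := skip) (1) * hP01
        clear * - hp hw; grind
      subst e0
      have e0 : (0 : k) = Q10 := by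
        linear_combination (norm := skip) (1) * hQ10
        clear * - hp hw; grind
      subst e0
      have e0 : (0 : k) = Q01 := by
        linear_combination (norm := skip) (1) * hQ01
        clear * - hp hw; grind
      subst e0
      have e0 : (0 : k) = P20 := by
        linear_combination (norm := skip) (1) * hP20
        clear * - hp hw; grind
      subst e0
      have e0 : (0 : k) = P11 := by
        linear_combination (norm := skip) (1) * hP11
        clear * - hp hw; grind
      subst e0
      have e0 : (0 : k) = P02 := by
        linear_combination (norm := skip) (1) * hP02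
        clear * - hp hw; grind
      subst e0
      have e0 : (0 : k) = Q20 := by
        linear_combination (norm := skip) (1) * hQ20
        clear * - hp hw; grind
      subst e0
      have e0 : (0 : k) = Q11 := by
        linear_combination (norm := skip) (1) * hQ11
        clear * - hp hw; grind
      subst e0
      have e0 : (0 : k) = Q02 := by
        linear_combination (norm := skip) (1) * hQ02
        clear * - hp hw; grind
      subst e0
      have e0 : (0 : k) = P21 := by
        linear_combination (norm := skip) (1) * hP21
        clear * - hp hw; grind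
      subst e0
      have e0 : (0 : k) = P12 := by
        linear_combination (norm := skip) (1) * hP12
        clear * - hp hw; grind
      subst e0
      have e0 : (0 : k) = Q21 := by
        linear_combination (norm := skip) (1) * hQ21
        clear * - hp hw; grind
      subst e0
      have e0 : (-b : k) = Q12 := by
        linear_combination (norm := skip) (1) * hQ12
        clear * - hp hw; grind
      subst e0
      have e0 : (0 : k) = P22 := by
        linear_combination (norm := skip) (1) * hP22
        clear * - hp hw; grind
      subst e0
      have e0 : (0 : k) = Q22 := by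
        linear_combination (norm := skip) (1) * hQ22
        clear * - hp hw; grind
      subst e0
      exact Has.of_rel ⟨_, _, _, _, _, _, _, _, _, _, _, _, _, _, _, _, hc, he⟩ (has_D1 ..)
  · obtain ⟨w, hw⟩ : ∃ w, a * w = 1 := ⟨(a)⁻¹, mul_inv_cancel₀ h⟩
    have hc : (1) * (1) - (0) * (0) ≠ (0 : k) := by simp
    obtain ⟨P00, P10, P01, P20, P11, P02, P21, P12, P22, Q00, Q10, Q01, Q20, Q11, Q02, Q21, Q12, Q22, he⟩ := act 1 0 0 0 0 0 0 0 0 1 0 (q22*w) (p22*w) 0 0 0 hc 0 0 0 0 0 0 a 0 p22 0 0 0 0 0 0 0 (-b) q22
    obtain ⟨hP00, hP10, hP01, hP20, hP11, hP02, hP21, hP12, hP22, hQ00, hQ10, hQ01, hQ20, hQ11, hQ02, hQ21, hQ12, hQ22⟩ := id he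
    have e0 : (0 : k) = P00 := by
      linear_combination (norm := skip) (1) * hP00
      clear * - hp hw; grind
    subst e0
    have e0 : (0 : k) = Q00 := by
      linear_combination (norm := skip) (1) * hQ00
      clear * - hp hw; grind
    subst e0
    have e0 : (0 : k) = P10 := by
      linear_combination (norm := skip) (1) * hP10
      clear * - hp hw; grind
    subst e0
    have e0 : (0 : k) = P01 := by
      linear_combination (norm := skip) (1) * hP01
      clear * - hp hw; grind
    subst e0
    have e0 : (0 : k) = Q10 := by
      linear_combination (norm := skip) (1) * hQ10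
      clear * - hp hw; grind
    subst e0
    have e0 : (0 : k) = Q01 := by
      linear_combination (norm := skip) (1) * hQ01
      clear * - hp hw; grind
    subst e0
    have e0 : (0 : k) = P20 := by
      linear_combination (norm := skip) (1) * hP20
      clear * - hp hw; grind
    subst e0
    have e0 : (0 : k) = P11 := by
      linear_combination (norm := skip) (1) * hP11
      clear * - hp hw; grind
    subst e0
    have e0 : (0 : k) = P02 := by
      linear_combination (norm := skip) (1) * hP02
      clear * - hp hw; grind
    subst e0
    have e0 : (0 : k) = Q20 := by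
      linear_combination (norm := skip) (1) * hQ20
      clear * - hp hw; grind
    subst e0
    have e0 : (0 : k) = Q11 := by
      linear_combination (norm := skip) (1) * hQ11
      clear * - hp hw; grind
    subst e0
    have e0 : (0 : k) = Q02 := by
      linear_combination (norm := skip) (1) * hQ02
      clear * - hp hw; grind
    subst e0
    have e0 : (a : k) = P21 := by
      linear_combination (norm := skip) (1) * hP21
      clear * - hp hw; grind
    subst e0
    have e0 : (0 : k) = P12 := by
      linear_combination (norm := skip) (1) * hP12
      clear * - hp hw; grind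
    subst e0
    have e0 : (0 : k) = Q21 := by
      linear_combination (norm := skip) (1) * hQ21
      clear * - hp hw; grind
    subst e0
    have e0 : (-b : k) = Q12 := by
      linear_combination (norm := skip) (1) * hQ12
      clear * - hp hw; grind
    subst e0
    have e0 : (0 : k) = P22 := by
      linear_combination (norm := skip) (1) * hP22
      clear * - hp hw; grind
    subst e0
    have e0 : (0 : k) = Q22 := by
      linear_combination (norm := skip) (1) * hQ22
      clear * - hp hw; grind
    subst e0
    exact Has.of_rel ⟨_, _, _, _, _, _, _, _, _, _, _, _, _, _, _, _, hc, he⟩ (has_D1 ..)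

theorem h3_jor (a p22 q22 : k) :
    Has 0 0 0 0 0 0 a 1 p22 0 0 0 0 0 0 0 (-a) q22 := by
  have hc : (1) * (1) - (0) * (0) ≠ (0 : k) := by simp
  obtain ⟨P00, P10, P01, P20, P11, P02, P21, P12, P22, Q00, Q10, Q01, Q20, Q11, Q02, Q21, Q12, Q22, he⟩ := act 1 0 0 0 0 0 0 0 0 1 (-q22 - a*p22) (-p22) 0 0 0 0 hc 0 0 0 0 0 0 a 1 p22 0 0 0 0 0 0 0 (-a) q22
  obtain ⟨hP00, hP10, hP01, hP20, hP11, hP02, hP21, hP12, hP22, hQ00, hQ10, hQ01, hQ20, hQ11, hQ02, hQ21, hQ12, hQ22⟩ := id he
  have e0 : (0 : k) = P00 := by
    linear_combination (norm := skip) (1) * hP00
    clear * - hp ; grind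
  subst e0
  have e0 : (0 : k) = Q00 := by
    linear_combination (norm := skip) (1) * hQ00
    clear * - hp ; grind
  subst e0
  have e0 : (0 : k) = P10 := by
    linear_combination (norm := skip) (1) * hP10
    clear * - hp ; grind
  subst e0
  have e0 : (0 : k) = P01 := by
    linear_combination (norm := skip) (1) * hP01
    clear * - hp ; grind
  subst e0
  have e0 : (0 : k) = Q10 := by
    linear_combination (norm := skip) (1) * hQ10
    clear * - hp ; grind
  subst e0
  have e0 : (0 : k) = Q01 := by
    linear_combination (norm := skip) (1) * hQ01
    clear * - hp ; grind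
  subst e0
  have e0 : (0 : k) = P20 := by
    linear_combination (norm := skip) (1) * hP20
    clear * - hp ; grind
  subst e0
  have e0 : (0 : k) = P11 := by
    linear_combination (norm := skip) (1) * hP11
    clear * - hp ; grind
  subst e0
  have e0 : (0 : k) = P02 := by
    linear_combination (norm := skip) (1) * hP02
    clear * - hp ; grind
  subst e0
  have e0 : (0 : k) = Q20 := by
    linear_combination (norm := skip) (1) * hQ20
    clear * - hp ; grind
  subst e0
  have e0 : (0 : k) = Q11 := by
    linear_combination (norm := skip) (1) * hQ11
    clear * - hp ; grind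
  subst e0
  have e0 : (0 : k) = Q02 := by
    linear_combination (norm := skip) (1) * hQ02
    clear * - hp ; grind
  subst e0
  have e0 : (a : k) = P21 := by
    linear_combination (norm := skip) (1) * hP21
    clear * - hp ; grind
  subst e0
  have e0 : (1 : k) = P12 := by
    linear_combination (norm := skip) (1) * hP12
    clear * - hp ; grind
  subst e0
  have e0 : (0 : k) = Q21 := by
    linear_combination (norm := skip) (1) * hQ21
    clear * - hp ; grind
  subst e0
  have e0 : (-a : k) = Q12 := by
    linear_combination (norm := skip) (1) * hQ12
    clear * - hp ; grind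
  subst e0
  have e0 : (0 : k) = P22 := by
    linear_combination (norm := skip) (1) * hP22
    clear * - hp ; grind
  subst e0
  have e0 : (0 : k) = Q22 := by
    linear_combination (norm := skip) (1) * hQ22
    clear * - hp ; grind
  subst e0
  exact Has.of_rel ⟨_, _, _, _, _, _, _, _, _, _, _, _, _, _, _, _, hc, he⟩ (has_D2 ..)

theorem h3_tri (a c p22 b q22 : k) :
    Has 0 0 0 0 0 0 a c p22 0 0 0 0 0 0 0 (-b) q22 := by
  by_cases h : a - b = 0
  · have e : a = b := sub_eq_zero.mp h
    subst e
    by_cases h : c = 0
    · subst h
      exact h3_diag ..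
    · obtain ⟨w, hw⟩ : ∃ w, c * w = 1 := ⟨(c)⁻¹, mul_inv_cancel₀ h⟩
      have hc : (c) * (1) - (0) * (0) ≠ (0 : k) := by
        clear * - hp hw; grind
      obtain ⟨P00, P10, P01, P20, P11, P02, P21, P12, P22, Q00, Q10, Q01, Q20, Q11, Q02, Q21, Q12, Q22, he⟩ := act c 0 0 0 0 0 0 0 0 1 0 0 0 0 0 0 hc 0 0 0 0 0 0 a c p22 0 0 0 0 0 0 0 (-a) q22
      obtain ⟨hP00, hP10, hP01, hP20, hP11, hP02, hP21, hP12, hP22, hQ00, hQ10, hQ01, hQ20, hQ11, hQ02, hQ21, hQ12, hQ22⟩ := id he
      have e0 : (0 : k) = P00 := by
        linear_combination (norm := skip) (w*w) * hP00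
        clear * - hp hw; grind
      subst e0
      have e0 : (0 : k) = Q00 := by
        linear_combination (norm := skip) (w) * hQ00
        clear * - hp hw; grind
      subst e0
      have e0 : (0 : k) = P10 := by
        linear_combination (norm := skip) (w*w) * hP10
        clear * - hp hw; grind
      subst e0
      have e0 : (0 : k) = P01 := by
        linear_combination (norm := skip) (w*w) * hP01
        clear * - hp hw; grind
      subst e0
      have e0 : (0 : k) = Q10 := by
        linear_combination (norm := skip) (w) * hQ10
        clear * - hp hw; grind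
      subst e0
      have e0 : (0 : k) = Q01 := by
        linear_combination (norm := skip) (w) * hQ01
        clear * - hp hw; grind
      subst e0
      have e0 : (0 : k) = P20 := by
        linear_combination (norm := skip) (w*w) * hP20
        clear * - hp hw; grind
      subst e0
      have e0 : (0 : k) = P11 := by
        linear_combination (norm := skip) (w*w) * hP11
        clear * - hp hw; grind
      subst e0
      have e0 : (0 : k) = P02 := by
        linear_combination (norm := skip) (w*w) * hP02
        clear * - hp hw; grind
      subst e0
      have e0 : (0 : k) = Q20 := by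
        linear_combination (norm := skip) (w) * hQ20
        clear * - hp hw; grind
      subst e0
      have e0 : (0 : k) = Q11 := by
        linear_combination (norm := skip) (w) * hQ11
        clear * - hp hw; grind
      subst e0
      have e0 : (0 : k) = Q02 := by
        linear_combination (norm := skip) (w) * hQ02
        clear * - hp hw; grind
      subst e0
      have e0 : (a : k) = P21 := by
        linear_combination (norm := skip) (w*w) * hP21
        clear * - hp hw; grind
      subst e0
      have e0 : (1 : k) = P12 := by
        linear_combination (norm := skip) (w*w) * hP12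
        clear * - hp hw; grind
      subst e0
      have e0 : (0 : k) = Q21 := by
        linear_combination (norm := skip) (w) * hQ21
        clear * - hp hw; grind
      subst e0
      have e0 : (-a : k) = Q12 := by
        linear_combination (norm := skip) (w) * hQ12
        clear * - hp hw; grind
      subst e0
      exact Has.of_rel ⟨_, _, _, _, _, _, _, _, _, _, _, _, _, _, _, _, hc, he⟩ (h3_jor ..)
  · obtain ⟨w, hw⟩ : ∃ w, (a - b) * w = 1 := ⟨((a - b))⁻¹, mul_inv_cancel₀ h⟩
    have hc : (1) * (1) - (c*w) * (0) ≠ (0 : k) := by
      clear * - hp hw; grind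
    obtain ⟨P00, P10, P01, P20, P11, P02, P21, P12, P22, Q00, Q10, Q01, Q20, Q11, Q02, Q21, Q12, Q22, he⟩ := act 1 (c*w) 0 0 0 0 0 0 0 1 0 0 0 0 0 0 hc 0 0 0 0 0 0 a c p22 0 0 0 0 0 0 0 (-b) q22
    obtain ⟨hP00, hP10, hP01, hP20, hP11, hP02, hP21, hP12, hP22, hQ00, hQ10, hQ01, hQ20, hQ11, hQ02, hQ21, hQ12, hQ22⟩ := id he
    have e0 : (0 : k) = Q00 := by
      linear_combination (norm := skip) (1) * hQ00
      clear * - hp hw; grind
    subst e0
    have e0 : (0 : k) = P00 := by
      linear_combination (norm := skip) (1) * hP00
      clear * - hp hw; grind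
    subst e0
    have e0 : (0 : k) = Q10 := by
      linear_combination (norm := skip) (1) * hQ10
      clear * - hp hw; grind
    subst e0
    have e0 : (0 : k) = P10 := by
      linear_combination (norm := skip) (1) * hP10
      clear * - hp hw; grind
    subst e0
    have e0 : (0 : k) = Q01 := by
      linear_combination (norm := skip) (1) * hQ01
      clear * - hp hw; grind
    subst e0
    have e0 : (0 : k) = P01 := by
      linear_combination (norm := skip) (1) * hP01
      clear * - hp hw; grind
    subst e0
    have e0 : (0 : k) = Q20 := by
      linear_combination (norm := skip) (1) * hQ20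
      clear * - hp hw; grind
    subst e0
    have e0 : (0 : k) = P20 := by
      linear_combination (norm := skip) (1) * hP20
      clear * - hp hw; grind
    subst e0
    have e0 : (0 : k) = Q11 := by
      linear_combination (norm := skip) (1) * hQ11
      clear * - hp hw; grind
    subst e0
    have e0 : (0 : k) = P11 := by
      linear_combination (norm := skip) (1) * hP11
      clear * - hp hw; grind
    subst e0
    have e0 : (0 : k) = Q02 := by
      linear_combination (norm := skip) (1) * hQ02
      clear * - hp hw; grind
    subst e0
    have e0 : (0 : k) = P02 := by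
      linear_combination (norm := skip) (1) * hP02
      clear * - hp hw; grind
    subst e0
    have e0 : (0 : k) = Q21 := by
      linear_combination (norm := skip) (1) * hQ21
      clear * - hp hw; grind
    subst e0
    have e0 : (a : k) = P21 := by
      linear_combination (norm := skip) (1) * hP21
      clear * - hp hw; grind
    subst e0
    have e0 : (-b : k) = Q12 := by
      linear_combination (norm := skip) (1) * hQ12
      clear * - hp hw; grind
    subst e0
    have e0 : (0 : k) = P12 := by
      linear_combination (norm := skip) (1) * hP12
      clear * - hp hw; grind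
    subst e0
    exact Has.of_rel ⟨_, _, _, _, _, _, _, _, _, _, _, _, _, _, _, _, hc, he⟩ (h3_diag ..)

theorem h3_tri2 (p21 p12 p22 q12 q22 : k) :
    Has 0 0 0 0 0 0 p21 p12 p22 0 0 0 0 0 0 0 q12 q22 := by
  simpa using h3_tri p21 p12 p22 (-q12) q22

theorem h3_all (p21 p12 p22 q21 q12 q22 : k) :
    Has 0 0 0 0 0 0 p21 p12 p22 0 0 0 0 0 0 q21 q12 q22 := by
  by_cases h : p12 = 0
  · subst h
    have hc : (0) * (0) - (1) * (1) ≠ (0 : k) := by
      clear * - hp ; grind
    obtain ⟨P00, P10, P01, P20, P11, P02, P21, P12, P22, Q00, Q10, Q01, Q20, Q11, Q02, Q21, Q12, Q22, he⟩ := act 0 1 0 0 0 0 0 0 1 0 0 0 0 0 0 0 hc 0 0 0 0 0 0 p21 0 p22 0 0 0 0 0 0 q21 q12 q22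
    obtain ⟨hP00, hP10, hP01, hP20, hP11, hP02, hP21, hP12, hP22, hQ00, hQ10, hQ01, hQ20, hQ11, hQ02, hQ21, hQ12, hQ22⟩ := id he
    have e0 : (0 : k) = P00 := by
      linear_combination (norm := skip) (-1) * hQ00
      clear * - hp ; grind
    subst e0
    have e0 : (0 : k) = Q00 := by
      linear_combination (norm := skip) (-1) * hP00
      clear * - hp ; grind
    subst e0
    have e0 : (0 : k) = P10 := by
      linear_combination (norm := skip) (-1) * hQ10
      clear * - hp ; grind
    subst e0
    have e0 : (0 : k) = P01 := by
      linear_combination (norm := skip) (-1) * hQ01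
      clear * - hp ; grind
    subst e0
    have e0 : (0 : k) = Q10 := by
      linear_combination (norm := skip) (-1) * hP10
      clear * - hp ; grind
    subst e0
    have e0 : (0 : k) = Q01 := by
      linear_combination (norm := skip) (-1) * hP01
      clear * - hp ; grind
    subst e0
    have e0 : (0 : k) = P20 := by
      linear_combination (norm := skip) (-1) * hQ20
      clear * - hp ; grind
    subst e0
    have e0 : (0 : k) = P11 := by
      linear_combination (norm := skip) (-1) * hQ11
      clear * - hp ; grind
    subst e0
    have e0 : (0 : k) = P02 := by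
      linear_combination (norm := skip) (-1) * hQ02
      clear * - hp ; grind
    subst e0
    have e0 : (0 : k) = Q20 := by
      linear_combination (norm := skip) (-1) * hP20
      clear * - hp ; grind
    subst e0
    have e0 : (0 : k) = Q11 := by
      linear_combination (norm := skip) (-1) * hP11
      clear * - hp ; grind
    subst e0
    have e0 : (0 : k) = Q02 := by
      linear_combination (norm := skip) (-1) * hP02
      clear * - hp ; grind
    subst e0
    have e0 : (0 : k) = Q21 := by
      linear_combination (norm := skip) (-1) * hP21
      clear * - hp ; grind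
    subst e0
    exact Has.of_rel ⟨_, _, _, _, _, _, _, _, _, _, _, _, _, _, _, _, hc, he⟩ (h3_tri2 ..)
  · obtain ⟨r, hr⟩ := root2 p12 (-q12 - p21) q21 h
    have hc : (1) * (1) - (0) * (r) ≠ (0 : k) := by
      clear * - hp hr; grind
    obtain ⟨P00, P10, P01, P20, P11, P02, P21, P12, P22, Q00, Q10, Q01, Q20, Q11, Q02, Q21, Q12, Q22, he⟩ := act 1 0 0 0 0 0 0 0 r 1 0 0 0 0 0 0 hc 0 0 0 0 0 0 p21 p12 p22 0 0 0 0 0 0 q21 q12 q22
    obtain ⟨hP00, hP10, hP01, hP20, hP11, hP02, hP21, hP12, hP22, hQ00, hQ10, hQ01, hQ20, hQ11, hQ02, hQ21, hQ12, hQ22⟩ := id he
    have e0 : (0 : k) = P00 := by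
      linear_combination (norm := skip) (1) * hP00
      clear * - hp hr; grind
    subst e0
    have e0 : (0 : k) = Q00 := by
      linear_combination (norm := skip) (1) * hQ00
      clear * - hp hr; grind
    subst e0
    have e0 : (0 : k) = P10 := by
      linear_combination (norm := skip) (1) * hP10
      clear * - hp hr; grind
    subst e0
    have e0 : (0 : k) = P01 := by
      linear_combination (norm := skip) (1) * hP01
      clear * - hp hr; grind
    subst e0
    have e0 : (0 : k) = Q10 := by
      linear_combination (norm := skip) (1) * hQ10
      clear * - hp hr; grind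
    subst e0
    have e0 : (0 : k) = Q01 := by
      linear_combination (norm := skip) (1) * hQ01
      clear * - hp hr; grind
    subst e0
    have e0 : (0 : k) = P20 := by
      linear_combination (norm := skip) (1) * hP20
      clear * - hp hr; grind
    subst e0
    have e0 : (0 : k) = P11 := by
      linear_combination (norm := skip) (1) * hP11
      clear * - hp hr; grind
    subst e0
    have e0 : (0 : k) = P02 := by
      linear_combination (norm := skip) (1) * hP02
      clear * - hp hr; grind
    subst e0
    have e0 : (0 : k) = Q20 := by
      linear_combination (norm := skip) (1) * hQ20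
      clear * - hp hr; grind
    subst e0
    have e0 : (0 : k) = Q11 := by
      linear_combination (norm := skip) (1) * hQ11
      clear * - hp hr; grind
    subst e0
    have e0 : (0 : k) = Q02 := by
      linear_combination (norm := skip) (1) * hQ02
      clear * - hp hr; grind
    subst e0
    have e0 : (p21 - p12*r : k) = P21 := by
      linear_combination (norm := skip) (1) * hP21
      clear * - hp hr; grind
    subst e0
    have e0 : (0 : k) = Q21 := by
      linear_combination (norm := skip) (1) * hQ21
      clear * - hp hr; grind
    subst e0
    exact Has.of_rel ⟨_, _, _, _, _, _, _, _, _, _, _, _, _, _, _, _, hc, he⟩ (h3_tri2 ..)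


end Pool.Agent.W23
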