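import Pool.Agent.P.MP_c9b50d_al.Bridge

namespace Pool.Agent.W23

variable {k : Type*} [Field k] [hp : CharP k 3]

theorem S1g_of (c l C L : k) (li lmi lpi : k) (hl : l * li = 1) (hm : (l - 1) * lmi = 1) (hq : (l + 1) * lpi = 1)
    (h : Rel 0 1 0 0 0 0 c 0 0 0 0 l 0 0 0 0 0 0 0 1 0 0 0 0 C 0 0 0 0 L 0 0 0 0 0 0) :
    (∃ u10 si : k, u10 * si = 1 ∧ L = l ∧ C = c) ∨
    (∃ u01 si : k, u01 * si = 1 ∧ L = li ∧ C = -c) := by
  obtain ⟨u10, u01, u20, u11, u02, u21, u12, u22, v10, v01, v20, v11, v02, v21, v12, v22, hc, hP00, hP10, hP01, hP20, hP11, hP02, hP21, hP12, hP22, hQ00, hQ10, hQ01, hQ20, hQ11, hQ02, hQ21, hQ12, hQ22⟩ := h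
  rcases ne_or_eq 0 u10 with h0 | h0
  · have hJ : u10 * v01 - u01 * v10 = 1 := by clear * - hp h0 hP10; grind
    have e : 0 = v10 := by clear * - hp hJ hQ10 hm; grind
    subst e
    have hs : u10 * v01 = 1 := by clear * - hp hJ; grind
    have e : 0 = u01 := by clear * - hp hs hP01 hQ01 hm; grind
    subst e
    obtain ⟨si, rfl⟩ : ∃ si, si = v01 := ⟨_, rfl⟩
    have e : l = L := by
      linear_combination (norm := skip) (u10) * hQ01
      clear * - hp hs hl hm hq; grind
    subst e
    have e : 0 = v11 := by
      linear_combination (norm := skip) (si*si) * hP20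
      clear * - hp hs hl hm hq; grind
    subst e
    have e : 0 = v20 := by
      linear_combination (norm := skip) (-lpi) * hQ20
      clear * - hp hs hl hm hq; grind
    subst e
    have e : si*si*u11 + l*si*si*u11 = v02 := by
      linear_combination (norm := skip) (-si*si) * hP11
      clear * - hp hs hl hm hq; grind
    subst e
    have e : 0 = u20 := by
      linear_combination (norm := skip) (-li*u10*u10) * hQ11
      clear * - hp hs hl hm hq; grind
    subst e
    have e : 0 = u02 := by
      linear_combination (norm := skip) (-lpi) * hP02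
      clear * - hp hs hl hm hq; grind
    subst e
    have e : 0 = u11 := by
      linear_combination (norm := skip) (li*u10*u10) * hQ02
      clear * - hp hs hl hm hq; grind
    subst e
    have e : C*si - c*si + l*si*si*u21 = v12 := by
      linear_combination (norm := skip) (-si*si) * hP21
      clear * - hp hs hl hm hq; grind
    subst e
    have e : 0 = v21 := by
      linear_combination (norm := skip) (lmi) * hQ21
      clear * - hp hs hl hm hq; grind
    subst e
    have e : 0 = u12 := by
      linear_combination (norm := skip) (-lmi) * hP12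
      clear * - hp hs hl hm hq; grind
    subst e
    have e : c = C := by
      linear_combination (norm := skip) (u10) * hQ12
      clear * - hp hs hl hm hq; grind
    subst e
    have e : 0 = u22 := by
      linear_combination (norm := skip) (-li) * hP22
      clear * - hp hs hl hm hq; grind
    subst e
    have e : 0 = v22 := by
      linear_combination (norm := skip) (-1) * hQ22
      clear * - hp hs hl hm hq; grind
    subst e
    refine Or.inl ⟨u10, si, hs, ?_, ?_⟩
    all_goals (clear * - hp hs hl hm hq; grind)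
  · subst h0
    have h1 : u01 ≠ 0 := by clear * - hp hc; grind
    have h2 : v10 ≠ 0 := by clear * - hp hc; grind
    obtain ⟨si, hs⟩ : ∃ si, u01 * si = 1 := ⟨u01⁻¹, mul_inv_cancel₀ h1⟩
    have e : -l * si = v10 := by clear * - hp hs h2 hQ10; grind
    subst e
    have e : 0 = v01 := by clear * - hp hs hP01 hQ01 hm hl; grind
    subst e
    have e : li = L := by
      linear_combination (norm := skip) (li*si) * hP01
      clear * - hp hs hl hm hq; grind
    subst e
    have e : 0 = u20 := by
      linear_combination (norm := skip) (-lpi) * hP20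
      clear * - hp hs hl hm hq; grind
    subst e
    have e : 0 = u11 := by
      linear_combination (norm := skip) (-li*li*u01*u01) * hQ20
      clear * - hp hs hl hm hq; grind
    subst e
    have e : 0 = v20 := by
      linear_combination (norm := skip) (l*si*si) * hP11
      clear * - hp hs hl hm hq; grind
    subst e
    have e : -li*u01*u01*v11 - li*li*u01*u01*v11 = u02 := by
      linear_combination (norm := skip) (li*li*u01*u01) * hQ11
      clear * - hp hs hl hm hq; grind
    subst e
    have e : 0 = v11 := by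
      linear_combination (norm := skip) (-l*si*si) * hP02
      clear * - hp hs hl hm hq; grind
    subst e
    have e : 0 = v02 := by
      linear_combination (norm := skip) (-lpi) * hQ02
      clear * - hp hs hl hm hq; grind
    subst e
    have e : 0 = u21 := by
      linear_combination (norm := skip) (-lmi) * hP21
      clear * - hp hs hl hm hq; grind
    subst e
    have e : C*u01 - li*li*u01*u01*v21 = u12 := by
      linear_combination (norm := skip) (li*li*u01*u01) * hQ21
      clear * - hp hs hl hm hq; grind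
    subst e
    have e : -c = C := by
      linear_combination (norm := skip) (li*si) * hP12
      clear * - hp hs hl hm hq; grind
    subst e
    have e : 0 = v12 := by
      linear_combination (norm := skip) (lmi) * hQ12
      clear * - hp hs hl hm hq; grind
    subst e
    have e : 0 = u22 := by
      linear_combination (norm := skip) (-li) * hP22
      clear * - hp hs hl hm hq; grind
    subst e
    have e : 0 = v22 := by
      linear_combination (norm := skip) (-1) * hQ22
      clear * - hp hs hl hm hq; grind
    subst e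
    refine Or.inr (⟨u01, si, hs, ?_, ?_⟩)
    all_goals (clear * - hp hs hl hm hq; grind)

theorem S1g_to (c l C L : k) (li lmi lpi : k) (hl : l * li = 1) (hm : (l - 1) * lmi = 1) (hq : (l + 1) * lpi = 1)
    (h : (∃ u10 si : k, u10 * si = 1 ∧ L = l ∧ C = c) ∨
    (∃ u01 si : k, u01 * si = 1 ∧ L = li ∧ C = -c)) :
    Rel 0 1 0 0 0 0 c 0 0 0 0 l 0 0 0 0 0 0 0 1 0 0 0 0 C 0 0 0 0 L 0 0 0 0 0 0 := by
  rcases h with ⟨u10, si, hs, rfl, rfl⟩ | ⟨u01, si, hs, rfl, rfl⟩
  · refine ⟨u10, 0, 0, 0, 0, 0, 0, 0, 0, si, 0, 0, 0, 0, 0, 0, by grind, ?_, ?_, ?_, ?_, ?_, ?_, ?_, ?_, ?_, ?_, ?_, ?_, ?_, ?_, ?_, ?_, ?_, ?_⟩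
    all_goals (clear * - hp hs hl hm hq; grind)
  · refine ⟨0, u01, 0, 0, 0, 0, -c*u01, 0, -l*si, 0, 0, 0, 0, 0, 0, 0, by grind, ?_, ?_, ?_, ?_, ?_, ?_, ?_, ?_, ?_, ?_, ?_, ?_, ?_, ?_, ?_, ?_, ?_, ?_⟩
    all_goals (clear * - hp hs hl hm hq; grind)

theorem S1m_of (a c b A C B : k) 
    (h : Rel 0 1 0 0 0 a c 0 0 0 0 (-1) b 0 0 0 0 0 0 1 0 0 0 A C 0 0 0 0 (-1) B 0 0 0 0 0) :
    (∃ u10 si : k, u10 * si = 1 ∧ A = a*si*si*si ∧ B = b*u10*u10*u10 ∧ C = c) ∨
    (∃ u01 si : k, u01 * si = 1 ∧ A = -b*u01*u01*u01 ∧ B = -a*si*si*si ∧ C = -c) := by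
  obtain ⟨u10, u01, u20, u11, u02, u21, u12, u22, v10, v01, v20, v11, v02, v21, v12, v22, hc, hP00, hP10, hP01, hP20, hP11, hP02, hP21, hP12, hP22, hQ00, hQ10, hQ01, hQ20, hQ11, hQ02, hQ21, hQ12, hQ22⟩ := h
  rcases ne_or_eq 0 u10 with h0 | h0
  · have hJ : u10 * v01 - u01 * v10 = 1 := by clear * - hp h0 hP10; grind
    have e : 0 = v10 := by clear * - hp hJ hQ10; grind
    subst e
    have hs : u10 * v01 = 1 := by clear * - hp hJ; grind
    have e : 0 = u01 := by clear * - hp hs hP01; grind
    subst e
    obtain ⟨si, rfl⟩ : ∃ si, si = v01 := ⟨_, rfl⟩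
    have e : 0 = v11 := by
      linear_combination (norm := skip) (si*si) * hP20
      clear * - hp hs; grind
    subst e
    have e : b*u10*u10*u10 = B := by
      linear_combination (norm := skip) (u10) * hQ20
      clear * - hp hs; grind
    subst e
    have e : 0 = v02 := by
      linear_combination (norm := skip) (-si*si) * hP11
      clear * - hp hs; grind
    subst e
    have e : 0 = u20 := by
      linear_combination (norm := skip) (u10*u10) * hQ11
      clear * - hp hs; grind
    subst e
    have e : a*si*si*si = A := by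
      linear_combination (norm := skip) (si) * hP02
      clear * - hp hs; grind
    subst e
    have e : 0 = u11 := by
      linear_combination (norm := skip) (-u10*u10) * hQ02
      clear * - hp hs; grind
    subst e
    have e : C*si - c*si - b*u02*u10 - si*u02*v20 - si*si*u21 + a*si*si*si*v20 = v12 := by
      linear_combination (norm := skip) (-si*si) * hP21
      clear * - hp hs; grind
    subst e
    have e : 0 = v21 := by
      linear_combination (norm := skip) (1) * hQ21
      clear * - hp hs; grind
    subst e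
    have e : 0 = u12 := by
      linear_combination (norm := skip) (-1) * hP12
      clear * - hp hs; grind
    subst e
    have e : c = C := by
      linear_combination (norm := skip) (u10) * hQ12
      clear * - hp hs; grind
    subst e
    have e : 0 = u22 := by
      linear_combination (norm := skip) (1) * hP22
      clear * - hp hs; grind
    subst e
    have e : 0 = v22 := by
      linear_combination (norm := skip) (-1) * hQ22
      clear * - hp hs; grind
    subst e
    refine Or.inl ⟨u10, si, hs, ?_, ?_, ?_⟩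
    all_goals (clear * - hp hs; grind)
  · subst h0
    have h2 : v10 ≠ 0 := by clear * - hp hc; grind
    have hs : u01 * v10 = 1 := by clear * - hp h2 hQ10; grind
    have e : 0 = v01 := by clear * - hp hs hQ01; grind
    subst e
    obtain ⟨si, rfl⟩ : ∃ si, si = v10 := ⟨_, rfl⟩
    have e : -a*si*si*si = B := by
      linear_combination (norm := skip) (-si) * hP20
      clear * - hp hs; grind
    subst e
    have e : 0 = u11 := by
      linear_combination (norm := skip) (-u01*u01) * hQ20
      clear * - hp hs; grind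
    subst e
    have e : 0 = v20 := by
      linear_combination (norm := skip) (-si*si) * hP11
      clear * - hp hs; grind
    subst e
    have e : 0 = u02 := by
      linear_combination (norm := skip) (u01*u01) * hQ11
      clear * - hp hs; grind
    subst e
    have e : 0 = v11 := by
      linear_combination (norm := skip) (si*si) * hP02
      clear * - hp hs; grind
    subst e
    have e : -b*u01*u01*u01 = A := by
      linear_combination (norm := skip) (-u01) * hQ02
      clear * - hp hs; grind
    subst e
    have e : 0 = u21 := by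
      linear_combination (norm := skip) (-1) * hP21
      clear * - hp hs; grind
    subst e
    have e : C*u01 + a*si*v02 - u01*u20*v02 - u01*u01*v21 - b*u01*u01*u01*u20 = u12 := by
      linear_combination (norm := skip) (u01*u01) * hQ21
      clear * - hp hs; grind
    subst e
    have e : -c = C := by
      linear_combination (norm := skip) (-si) * hP12
      clear * - hp hs; grind
    subst e
    have e : 0 = v12 := by
      linear_combination (norm := skip) (1) * hQ12
      clear * - hp hs; grind
    subst e
    have e : 0 = u22 := by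
      linear_combination (norm := skip) (1) * hP22
      clear * - hp hs; grind
    subst e
    have e : 0 = v22 := by
      linear_combination (norm := skip) (-1) * hQ22
      clear * - hp hs; grind
    subst e
    refine Or.inr (⟨u01, si, hs, ?_, ?_, ?_⟩)
    all_goals (clear * - hp hs; grind)

theorem S1m_to (a c b A C B : k) 
    (h : (∃ u10 si : k, u10 * si = 1 ∧ A = a*si*si*si ∧ B = b*u10*u10*u10 ∧ C = c) ∨
    (∃ u01 si : k, u01 * si = 1 ∧ A = -b*u01*u01*u01 ∧ B = -a*si*si*si ∧ C = -c)) :
    Rel 0 1 0 0 0 a c 0 0 0 0 (-1) b 0 0 0 0 0 0 1 0 0 0 A C 0 0 0 0 (-1) B 0 0 0 0 0 := by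
  rcases h with ⟨u10, si, hs, rfl, rfl, rfl⟩ | ⟨u01, si, hs, rfl, rfl, rfl⟩
  · refine ⟨u10, 0, 0, 0, 0, 0, 0, 0, 0, si, 0, 0, 0, 0, 0, 0, by grind, ?_, ?_, ?_, ?_, ?_, ?_, ?_, ?_, ?_, ?_, ?_, ?_, ?_, ?_, ?_, ?_, ?_, ?_⟩
    all_goals (clear * - hp hs; grind)
  · refine ⟨0, u01, 0, 0, 0, 0, -c*u01, 0, si, 0, 0, 0, 0, 0, 0, 0, by grind, ?_, ?_, ?_, ?_, ?_, ?_, ?_, ?_, ?_, ?_, ?_, ?_, ?_, ?_, ?_, ?_, ?_, ?_⟩
    all_goals (clear * - hp hs; grind)

theorem S1z_of (b c d a B C D A : k) 
    (h : Rel 0 1 0 b 0 0 c 0 d 0 0 0 0 0 a 0 0 0 0 1 0 B 0 0 C 0 D 0 0 0 0 0 A 0 0 0) :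
    (∃ u10 si u21 u11 u20 : k, u10 * si = 1 ∧ A = a*si ∧ B = b*u10 ∧ C = c + b*u11 + a*si*si*u20 ∧ D = d*si - c*si*u11 - a*si*si*u21 + b*si*u11*u11 + a*si*si*si*u11*u20) := by
  obtain ⟨u10, u01, u20, u11, u02, u21, u12, u22, v10, v01, v20, v11, v02, v21, v12, v22, hc, hP00, hP10, hP01, hP20, hP11, hP02, hP21, hP12, hP22, hQ00, hQ10, hQ01, hQ20, hQ11, hQ02, hQ21, hQ12, hQ22⟩ := h

  have e : 0 = v10 := by clear * - hp hc hQ10; grind
  subst e
  have e : 0 = u01 := by clear * - hp hP01; grind
  subst e
  have hs : u10 * v01 = 1 := by clear * - hp hc hP10; grind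
  obtain ⟨si, rfl⟩ : ∃ si, si = v01 := ⟨_, rfl⟩
  have e : b - B*si = v11 := by
    linear_combination (norm := skip) (si*si) * hP20
    clear * - hp hs; grind
  subst e
  have e : 0 = v20 := by
    linear_combination (norm := skip) (-1) * hQ20
    clear * - hp hs; grind
  subst e
  have e : si*si*u11 = v02 := by
    linear_combination (norm := skip) (-si*si) * hP11
    clear * - hp hs; grind
  subst e
  have e : b*u10 = B := by
    linear_combination (norm := skip) (-u10) * hQ11
    clear * - hp hs; grind
  subst e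
  have e : 0 = u02 := by
    linear_combination (norm := skip) (-1) * hP02
    clear * - hp hs; grind
  subst e
  have e : a*si = A := by
    linear_combination (norm := skip) (u10) * hQ02
    clear * - hp hs; grind
  subst e
  have e : C*si - c*si - b*si*u11 = v12 := by
    linear_combination (norm := skip) (-si*si) * hP21
    clear * - hp hs; grind
  subst e
  have e : 0 = v21 := by
    linear_combination (norm := skip) (-1) * hQ21
    clear * - hp hs; grind
  subst e
  have e : -a*si*u11 + si*u11*u11 = u12 := by
    linear_combination (norm := skip) (1) * hP12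
    clear * - hp hs; grind
  subst e
  have e : c + b*u11 + a*si*si*u20 = C := by
    linear_combination (norm := skip) (u10) * hQ12
    clear * - hp hs; grind
  subst e
  have e : d*si - c*si*u11 - a*si*si*u21 + b*si*u11*u11 + a*si*si*si*u11*u20 = D := by
    linear_combination (norm := skip) (si) * hP22
    clear * - hp hs; grind
  subst e
  have e : a*b*si*si*u20 - a*si^(4:ℕ)*u20*u20 = v22 := by
    linear_combination (norm := skip) (-1) * hQ22
    clear * - hp hs; grind
  subst e
  refine ⟨u10, si, u21, u11, u20, hs, ?_, ?_, ?_, ?_⟩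
  all_goals (clear * - hp hs; grind)

theorem S1z_to (b c d a B C D A : k) 
    (h : (∃ u10 si u21 u11 u20 : k, u10 * si = 1 ∧ A = a*si ∧ B = b*u10 ∧ C = c + b*u11 + a*si*si*u20 ∧ D = d*si - c*si*u11 - a*si*si*u21 + b*si*u11*u11 + a*si*si*si*u11*u20)) :
    Rel 0 1 0 b 0 0 c 0 d 0 0 0 0 0 a 0 0 0 0 1 0 B 0 0 C 0 D 0 0 0 0 0 A 0 0 0 := by
  rcases h with ⟨u10, si, u21, u11, u20, hs, rfl, rfl, rfl, rfl⟩
  · refine ⟨u10, 0, u20, u11, 0, u21, -a*si*u11 + si*u11*u11, 0, 0, si, 0, 0, si*si*u11, 0, a*si*si*si*u20, a*b*si*si*u20 - a*si^(4:ℕ)*u20*u20, by grind, ?_, ?_, ?_, ?_, ?_, ?_, ?_, ?_, ?_, ?_, ?_, ?_, ?_, ?_, ?_, ?_, ?_, ?_⟩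
    all_goals (clear * - hp hs; grind)

theorem S1o_of (b a c B A C : k) 
    (h : Rel 0 1 0 0 0 0 b a 0 0 0 1 0 0 0 c 0 0 0 1 0 0 0 0 B A 0 0 0 1 0 0 0 C 0 0) :
    (∃ u10 si u01 v10 : k, u10 * si = 1 ∧ A = a*si*si - b*si*u01 + c*u01*u01 - a*si*si*u01*v10 - b*si*u01*u01*v10 + a*si*si*u01*u01*v10*v10 ∧ B = b + a*si*v10 - b*u01*v10 + c*u01*u10 + a*si*u01*v10*v10 ∧ C = a*v10*v10 - b*u10*v10 + c*u10*u10) ∨
    (∃ u01 si v01 : k, u01 * si = 1 ∧ A = a*v01*v01 - b*u01*v01 + c*u01*u01 ∧ B = -b - a*si*v01 ∧ C = a*si*si) := by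
  obtain ⟨u10, u01, u20, u11, u02, u21, u12, u22, v10, v01, v20, v11, v02, v21, v12, v22, hc, hP00, hP10, hP01, hP20, hP11, hP02, hP21, hP12, hP22, hQ00, hQ10, hQ01, hQ20, hQ11, hQ02, hQ21, hQ12, hQ22⟩ := h
  rcases ne_or_eq 0 u10 with h0 | h0
  · have hJ : u10 * v01 - u01 * v10 = 1 := by clear * - hp h0 hP10; grind
    obtain ⟨si, hs⟩ : ∃ si, u10 * si = 1 := ⟨u10⁻¹, mul_inv_cancel₀ h0.symm⟩
    have e : si + si * u01 * v10 = v01 := by clear * - hp hJ hs; grind
    subst e
    have e : -si*u01*v20 + si*u11*v10 + si*si*u01*u20*v10 = v11 := by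
      linear_combination (norm := skip) (si*si) * hP20
      clear * - hp hs; grind
    subst e
    have e : si*u20*v10 = v20 := by
      linear_combination (norm := skip) (1) * hQ20
      clear * - hp hs; grind
    subst e
    have e : si*u02*v10 - si*si*u11 - si*si*si*u01*u20 = v02 := by
      linear_combination (norm := skip) (-si*si) * hP11
      clear * - hp hs; grind
    subst e
    have e : 0 = u20 := by
      linear_combination (norm := skip) (-u10*u10) * hQ11
      clear * - hp hs; grind
    subst e
    have e : si*u01*u11 = u02 := by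
      linear_combination (norm := skip) (1) * hP02
      clear * - hp hs; grind
    subst e
    have e : 0 = u11 := by
      linear_combination (norm := skip) (u10*u10) * hQ02
      clear * - hp hs; grind
    subst e
    have e : B*si - b*si - si*u01*v21 + si*u12*v10 + si*si*u21 + C*si*si*u01 + a*si*si*v10 + si*si*u01*u21*v10 = v12 := by
      linear_combination (norm := skip) (-si*si) * hP21
      clear * - hp hs; grind
    subst e
    have e : a*v10*v10 - b*u10*v10 + c*u10*u10 = C := by
      linear_combination (norm := skip) (u10) * hQ21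
      clear * - hp hs; grind
    subst e
    have e : -B*si*u01 + a*si*si - c*u01*u01 + b*si*u01*u01*v10 - a*si*si*u01*u01*v10*v10 = A := by
      linear_combination (norm := skip) (si) * hP12
      clear * - hp hs; grind
    subst e
    have e : b + a*si*v10 - b*u01*v10 + c*u01*u10 + a*si*u01*v10*v10 = B := by
      linear_combination (norm := skip) (u10) * hQ12
      clear * - hp hs; grind
    subst e
    have e : 0 = u22 := by
      linear_combination (norm := skip) (-1) * hP22
      clear * - hp hs; grind
    subst e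
    have e : 0 = v22 := by
      linear_combination (norm := skip) (-1) * hQ22
      clear * - hp hs; grind
    subst e
    refine Or.inl ⟨u10, si, u01, v10, hs, ?_, ?_, ?_⟩
    all_goals (clear * - hp hs; grind)
  · subst h0
    have h1 : u01 ≠ 0 := by clear * - hp hc; grind
    obtain ⟨si, hs⟩ : ∃ si, u01 * si = 1 := ⟨u01⁻¹, mul_inv_cancel₀ h1⟩
    have e : -si = v10 := by clear * - hp hs hP01; grind
    subst e
    have e : 0 = u20 := by
      linear_combination (norm := skip) (1) * hP20
      clear * - hp hs; grind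
    subst e
    have e : 0 = u11 := by
      linear_combination (norm := skip) (-u01*u01) * hQ20
      clear * - hp hs; grind
    subst e
    have e : 0 = v20 := by
      linear_combination (norm := skip) (si*si) * hP11
      clear * - hp hs; grind
    subst e
    have e : u01*u01*v11 = u02 := by
      linear_combination (norm := skip) (u01*u01) * hQ11
      clear * - hp hs; grind
    subst e
    have e : 0 = v11 := by
      linear_combination (norm := skip) (-si*si) * hP02
      clear * - hp hs; grind
    subst e
    have e : 0 = v02 := by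
      linear_combination (norm := skip) (1) * hQ02
      clear * - hp hs; grind
    subst e
    have e : a*si*si = C := by
      linear_combination (norm := skip) (si) * hP21
      clear * - hp hs; grind
    subst e
    have e : B*u01 - a*v01 + u01*u21*v01 - u01*u01*v21 = u12 := by
      linear_combination (norm := skip) (u01*u01) * hQ21
      clear * - hp hs; grind
    subst e
    have e : -b - a*si*v01 = B := by
      linear_combination (norm := skip) (si) * hP12
      clear * - hp hs; grind
    subst e
    have e : a*v01*v01 - b*u01*v01 + c*u01*u01 = A := by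
      linear_combination (norm := skip) (-u01) * hQ12
      clear * - hp hs; grind
    subst e
    have e : 0 = u22 := by
      linear_combination (norm := skip) (-1) * hP22
      clear * - hp hs; grind
    subst e
    have e : 0 = v22 := by
      linear_combination (norm := skip) (-1) * hQ22
      clear * - hp hs; grind
    subst e
    refine Or.inr (⟨u01, si, v01, hs, ?_, ?_, ?_⟩)
    all_goals (clear * - hp hs; grind)

theorem S1o_to (b a c B A C : k) 
    (h : (∃ u10 si u01 v10 : k, u10 * si = 1 ∧ A = a*si*si - b*si*u01 + c*u01*u01 - a*si*si*u01*v10 - b*si*u01*u01*v10 + a*si*si*u01*u01*v10*v10 ∧ B = b + a*si*v10 - b*u01*v10 + c*u01*u10 + a*si*u01*v10*v10 ∧ C = a*v10*v10 - b*u10*v10 + c*u10*u10) ∨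
    (∃ u01 si v01 : k, u01 * si = 1 ∧ A = a*v01*v01 - b*u01*v01 + c*u01*u01 ∧ B = -b - a*si*v01 ∧ C = a*si*si)) :
    Rel 0 1 0 0 0 0 b a 0 0 0 1 0 0 0 c 0 0 0 1 0 0 0 0 B A 0 0 0 1 0 0 0 C 0 0 := by
  rcases h with ⟨u10, si, u01, v10, hs, rfl, rfl, rfl⟩ | ⟨u01, si, v01, hs, rfl, rfl, rfl⟩
  · refine ⟨u10, u01, 0, 0, 0, 0, 0, 0, v10, si + si*u01*v10, 0, 0, 0, 0, -c*u01 - a*si*si*v10 + b*si*u01*v10 - a*si*si*u01*v10*v10, 0, by grind, ?_, ?_, ?_, ?_, ?_, ?_, ?_, ?_, ?_, ?_, ?_, ?_, ?_, ?_, ?_, ?_, ?_, ?_⟩
    all_goals (clear * - hp hs; grind)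
  · refine ⟨0, u01, 0, 0, 0, 0, a*v01 - b*u01, 0, -si, v01, 0, 0, 0, 0, 0, 0, by grind, ?_, ?_, ?_, ?_, ?_, ?_, ?_, ?_, ?_, ?_, ?_, ?_, ?_, ?_, ?_, ?_, ?_, ?_⟩
    all_goals (clear * - hp hs; grind)

theorem S1j_of (c C : k) 
    (h : Rel 0 1 1 0 0 0 0 0 0 0 0 1 0 0 0 c 0 0 0 1 1 0 0 0 0 0 0 0 0 1 0 0 0 C 0 0) :
    (∃ u10 u01 : k, u10 * u10 = 1 ∧ C = c) := by
  obtain ⟨u10, u01, u20, u11, u02, u21, u12, u22, v10, v01, v20, v11, v02, v21, v12, v22, hc, hP00, hP10, hP01, hP20, hP11, hP02, hP21, hP12, hP22, hQ00, hQ10, hQ01, hQ20, hQ11, hQ02, hQ21, hQ12, hQ22⟩ := h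

  have e : 0 = v10 := by clear * - hp hP10 hQ10; grind
  subst e
  have hJ : u10 * v01 = 1 := by clear * - hp hc hP10; grind
  have e : u10 = v01 := by clear * - hp hJ hP01; grind
  subst e
  have hs := hJ
  have e : v20 - u01*u10*v20 = v11 := by
    linear_combination (norm := skip) (1) * hP20
    clear * - hp hs; grind
  subst e
  have e : 0 = v20 := by
    linear_combination (norm := skip) (1) * hQ20
    clear * - hp hs; grind
  subst e
  have e : -u11 + u20 - u01*u10*u20 = v02 := by
    linear_combination (norm := skip) (-1) * hP11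
    clear * - hp hs; grind
  subst e
  have e : 0 = u20 := by
    linear_combination (norm := skip) (-1) * hQ11
    clear * - hp hs; grind
  subst e
  have e : -u11 + u01*u10*u11 = u02 := by
    linear_combination (norm := skip) (1) * hP02
    clear * - hp hs; grind
  subst e
  have e : 0 = u11 := by
    linear_combination (norm := skip) (1) * hQ02
    clear * - hp hs; grind
  subst e
  have e : u21 + C*u01 - u01*u10*v21 = v12 := by
    linear_combination (norm := skip) (-1) * hP21
    clear * - hp hs; grind
  subst e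
  have e : c = C := by
    linear_combination (norm := skip) (u10) * hQ21
    clear * - hp hs; grind
  subst e
  have e : c*u01 + c*u01*u01*u10 = u21 := by
    linear_combination (norm := skip) (-1) * hP12
    clear * - hp hs; grind
  subst e
  have e : -c*u01 = v21 := by
    linear_combination (norm := skip) (-1) * hQ12
    clear * - hp hs; grind
  subst e
  have e : v22 = u22 := by
    linear_combination (norm := skip) (-1) * hP22
    clear * - hp hs; grind
  subst e
  have e : 0 = v22 := by
    linear_combination (norm := skip) (-1) * hQ22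
    clear * - hp hs; grind
  subst e
  refine ⟨u10, u01, hs, ?_⟩
  all_goals (clear * - hp hs; grind)


end Pool.Agent.W23
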