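import Pool.Agent.P.MP_c9b50d_al.Forms
import Pool.Agent.P.MP_c9b50d_al.Ex3
import Pool.Agent.P.MP_c9b50d_al.S1

namespace Pool.Agent.W23

variable {k : Type*} [Field k] [hp : CharP k 3]

variable [IsAlgClosed k]

set_option linter.unusedSectionVars false

theorem hG_4 (p21 p22 l q22 li lmi lpi : k) (hl : l * li = 1) (hm : (l - 1) * lmi = 1) (hq : (l + 1) * lpi = 1) :
    Has 0 1 0 0 0 0 p21 0 p22 0 0 l 0 0 0 0 0 q22 := by
  have hc : (1) * (1) - (0) * (0) ≠ (0 : k) := by simp
  obtain ⟨P00, P10, P01, P20, P11, P02, P21, P12, P22, Q00, Q10, Q01, Q20, Q11, Q02, Q21, Q12, Q22, he⟩ := act 1 0 0 0 0 0 0 (-li*p22) 0 1 0 0 0 0 0 (-q22) hc 0 1 0 0 0 0 p21 0 p22 0 0 l 0 0 0 0 0 q22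
  obtain ⟨hP00, hP10, hP01, hP20, hP11, hP02, hP21, hP12, hP22, hQ00, hQ10, hQ01, hQ20, hQ11, hQ02, hQ21, hQ12, hQ22⟩ := id he
  have e0 : (0 : k) = P00 := by
    linear_combination (norm := skip) (1) * hP00
    clear * - hp hl hm hq; grind
  subst e0
  have e0 : (0 : k) = Q00 := by
    linear_combination (norm := skip) (1) * hQ00
    clear * - hp hl hm hq; grind
  subst e0
  have e0 : (1 : k) = P10 := by
    linear_combination (norm := skip) (1) * hP10
    clear * - hp hl hm hq; grind
  subst e0
  have e0 : (0 : k) = P01 := by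
    linear_combination (norm := skip) (1) * hP01
    clear * - hp hl hm hq; grind
  subst e0
  have e0 : (0 : k) = Q10 := by
    linear_combination (norm := skip) (1) * hQ10
    clear * - hp hl hm hq; grind
  subst e0
  have e0 : (l : k) = Q01 := by
    linear_combination (norm := skip) (1) * hQ01
    clear * - hp hl hm hq; grind
  subst e0
  have e0 : (0 : k) = P20 := by
    linear_combination (norm := skip) (1) * hP20
    clear * - hp hl hm hq; grind
  subst e0
  have e0 : (0 : k) = P11 := by
    linear_combination (norm := skip) (1) * hP11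
    clear * - hp hl hm hq; grind
  subst e0
  have e0 : (0 : k) = P02 := by
    linear_combination (norm := skip) (1) * hP02
    clear * - hp hl hm hq; grind
  subst e0
  have e0 : (0 : k) = Q20 := by
    linear_combination (norm := skip) (1) * hQ20
    clear * - hp hl hm hq; grind
  subst e0
  have e0 : (0 : k) = Q11 := by
    linear_combination (norm := skip) (1) * hQ11
    clear * - hp hl hm hq; grind
  subst e0
  have e0 : (0 : k) = Q02 := by
    linear_combination (norm := skip) (1) * hQ02
    clear * - hp hl hm hq; grind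
  subst e0
  have e0 : (p21 : k) = P21 := by
    linear_combination (norm := skip) (1) * hP21
    clear * - hp hl hm hq; grind
  subst e0
  have e0 : (0 : k) = P12 := by
    linear_combination (norm := skip) (1) * hP12
    clear * - hp hl hm hq; grind
  subst e0
  have e0 : (0 : k) = Q21 := by
    linear_combination (norm := skip) (1) * hQ21
    clear * - hp hl hm hq; grind
  subst e0
  have e0 : (0 : k) = Q12 := by
    linear_combination (norm := skip) (1) * hQ12
    clear * - hp hl hm hq; grind
  subst e0
  have e0 : (0 : k) = P22 := by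
    linear_combination (norm := skip) (1) * hP22
    clear * - hp hl hm hq; grind
  subst e0
  have e0 : (0 : k) = Q22 := by
    linear_combination (norm := skip) (1) * hQ22
    clear * - hp hl hm hq; grind
  subst e0
  exact Has.of_rel ⟨_, _, _, _, _, _, _, _, _, _, _, _, _, _, _, _, hc, he⟩ (has_B1 ..)

theorem hG_3 (p21 p12 p22 l q21 q12 q22 li lmi lpi : k) (hl : l * li = 1) (hm : (l - 1) * lmi = 1) (hq : (l + 1) * lpi = 1) :
    Has 0 1 0 0 0 0 p21 p12 p22 0 0 l 0 0 0 q21 q12 q22 := by
  have hc : (1) * (1) - (0) * (0) ≠ (0 : k) := by simp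
  obtain ⟨P00, P10, P01, P20, P11, P02, P21, P12, P22, Q00, Q10, Q01, Q20, Q11, Q02, Q21, Q12, Q22, he⟩ := act 1 0 0 0 0 (-li*q12) (-lmi*p12) 0 0 1 0 0 0 (lmi*q21) 0 0 hc 0 1 0 0 0 0 p21 p12 p22 0 0 l 0 0 0 q21 q12 q22
  obtain ⟨hP00, hP10, hP01, hP20, hP11, hP02, hP21, hP12, hP22, hQ00, hQ10, hQ01, hQ20, hQ11, hQ02, hQ21, hQ12, hQ22⟩ := id he
  have e0 : (0 : k) = P00 := by
    linear_combination (norm := skip) (1) * hP00
    clear * - hp hl hm hq; grind
  subst e0
  have e0 : (0 : k) = Q00 := by
    linear_combination (norm := skip) (1) * hQ00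
    clear * - hp hl hm hq; grind
  subst e0
  have e0 : (1 : k) = P10 := by
    linear_combination (norm := skip) (1) * hP10
    clear * - hp hl hm hq; grind
  subst e0
  have e0 : (0 : k) = P01 := by
    linear_combination (norm := skip) (1) * hP01
    clear * - hp hl hm hq; grind
  subst e0
  have e0 : (0 : k) = Q10 := by
    linear_combination (norm := skip) (1) * hQ10
    clear * - hp hl hm hq; grind
  subst e0
  have e0 : (l : k) = Q01 := by
    linear_combination (norm := skip) (1) * hQ01
    clear * - hp hl hm hq; grind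
  subst e0
  have e0 : (0 : k) = P20 := by
    linear_combination (norm := skip) (1) * hP20
    clear * - hp hl hm hq; grind
  subst e0
  have e0 : (0 : k) = P11 := by
    linear_combination (norm := skip) (1) * hP11
    clear * - hp hl hm hq; grind
  subst e0
  have e0 : (0 : k) = P02 := by
    linear_combination (norm := skip) (1) * hP02
    clear * - hp hl hm hq; grind
  subst e0
  have e0 : (0 : k) = Q20 := by
    linear_combination (norm := skip) (1) * hQ20
    clear * - hp hl hm hq; grind
  subst e0
  have e0 : (0 : k) = Q11 := by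
    linear_combination (norm := skip) (1) * hQ11
    clear * - hp hl hm hq; grind
  subst e0
  have e0 : (0 : k) = Q02 := by
    linear_combination (norm := skip) (1) * hQ02
    clear * - hp hl hm hq; grind
  subst e0
  have e0 : (0 : k) = P12 := by
    linear_combination (norm := skip) (1) * hP12
    clear * - hp hl hm hq; grind
  subst e0
  have e0 : (0 : k) = Q21 := by
    linear_combination (norm := skip) (1) * hQ21
    clear * - hp hl hm hq; grind
  subst e0
  have e0 : (0 : k) = Q12 := by
    linear_combination (norm := skip) (1) * hQ12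
    clear * - hp hl hm hq; grind
  subst e0
  exact Has.of_rel ⟨_, _, _, _, _, _, _, _, _, _, _, _, _, _, _, _, hc, he⟩ (hG_4 _ _ _ _ li lmi lpi hl hm hq)

theorem hG_2 (p20 p11 p02 p21 p12 p22 l q20 q11 q02 q21 q12 q22 li lmi lpi : k) (hl : l * li = 1) (hm : (l - 1) * lmi = 1) (hq : (l + 1) * lpi = 1) :
    Has 0 1 0 p20 p11 p02 p21 p12 p22 0 0 l q20 q11 q02 q21 q12 q22 := by
  have hc : (1) * (1) - (0) * (0) ≠ (0 : k) := by simp
  obtain ⟨P00, P10, P01, P20, P11, P02, P21, P12, P22, Q00, Q10, Q01, Q20, Q11, Q02, Q21, Q12, Q22, he⟩ := act 1 0 (p20 + li*p20 - li*q11) (li*q02) (-lpi*p02) 0 0 0 0 1 (-lpi*q20) p20 (-p11 + q02 + li*q02) 0 0 0 hc 0 1 0 p20 p11 p02 p21 p12 p22 0 0 l q20 q11 q02 q21 q12 q22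
  obtain ⟨hP00, hP10, hP01, hP20, hP11, hP02, hP21, hP12, hP22, hQ00, hQ10, hQ01, hQ20, hQ11, hQ02, hQ21, hQ12, hQ22⟩ := id he
  have e0 : (0 : k) = P00 := by
    linear_combination (norm := skip) (1) * hP00
    clear * - hp hl hm hq; grind
  subst e0
  have e0 : (0 : k) = Q00 := by
    linear_combination (norm := skip) (1) * hQ00
    clear * - hp hl hm hq; grind
  subst e0
  have e0 : (1 : k) = P10 := by
    linear_combination (norm := skip) (1) * hP10
    clear * - hp hl hm hq; grind
  subst e0
  have e0 : (0 : k) = P01 := by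
    linear_combination (norm := skip) (1) * hP01
    clear * - hp hl hm hq; grind
  subst e0
  have e0 : (0 : k) = Q10 := by
    linear_combination (norm := skip) (1) * hQ10
    clear * - hp hl hm hq; grind
  subst e0
  have e0 : (l : k) = Q01 := by
    linear_combination (norm := skip) (1) * hQ01
    clear * - hp hl hm hq; grind
  subst e0
  have e0 : (0 : k) = P20 := by
    linear_combination (norm := skip) (1) * hP20
    clear * - hp hl hm hq; grind
  subst e0
  have e0 : (0 : k) = P11 := by
    linear_combination (norm := skip) (1) * hP11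
    clear * - hp hl hm hq; grind
  subst e0
  have e0 : (0 : k) = P02 := by
    linear_combination (norm := skip) (1) * hP02
    clear * - hp hl hm hq; grind
  subst e0
  have e0 : (0 : k) = Q20 := by
    linear_combination (norm := skip) (1) * hQ20
    clear * - hp hl hm hq; grind
  subst e0
  have e0 : (0 : k) = Q11 := by
    linear_combination (norm := skip) (1) * hQ11
    clear * - hp hl hm hq; grind
  subst e0
  have e0 : (0 : k) = Q02 := by
    linear_combination (norm := skip) (1) * hQ02
    clear * - hp hl hm hq; grind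
  subst e0
  exact Has.of_rel ⟨_, _, _, _, _, _, _, _, _, _, _, _, _, _, _, _, hc, he⟩ (hG_3 _ _ _ _ _ _ _ li lmi lpi hl hm hq)

theorem hM_s (a c b : k) :
    Has 0 1 0 0 0 a c 0 0 0 0 (-1) b 0 0 0 0 0 := by
  by_cases ha : a = 0
  · subst ha
    by_cases hb : b = 0
    · subst hb
      exact has_B1 (-1) c
    · obtain ⟨u, hu⟩ := rootn (-b) (neg_ne_zero.mpr hb) 3 (by norm_num)
      exact Has.of_rel (S1m_to 0 c b 1 (-c) 0 (Or.inr ⟨u, -b * u * u, by linear_combination hu,
        by linear_combination -hu, by simp, rfl⟩)) (has_B2 ..)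
  · obtain ⟨u, hu⟩ := rootn a ha 3 (by norm_num)
    exact Has.of_rel (S1m_to a c b 1 c _ (Or.inl ⟨a * u * u, u, by linear_combination hu,
      by linear_combination -hu, rfl, rfl⟩)) (has_B2 ..)

theorem hM_4 (p02 p21 p22 q20 q22 : k) :
    Has 0 1 0 0 0 p02 p21 0 p22 0 0 (-1) q20 0 0 0 0 q22 := by
  have hc : (1) * (1) - (0) * (0) ≠ (0 : k) := by simp
  obtain ⟨P00, P10, P01, P20, P11, P02, P21, P12, P22, Q00, Q10, Q01, Q20, Q11, Q02, Q21, Q12, Q22, he⟩ := act 1 0 0 0 0 0 0 p22 0 1 0 0 0 0 0 (-q22) hc 0 1 0 0 0 p02 p21 0 p22 0 0 (-1) q20 0 0 0 0 q22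
  obtain ⟨hP00, hP10, hP01, hP20, hP11, hP02, hP21, hP12, hP22, hQ00, hQ10, hQ01, hQ20, hQ11, hQ02, hQ21, hQ12, hQ22⟩ := id he
  have e0 : (0 : k) = P00 := by
    linear_combination (norm := skip) (1) * hP00
    clear * - hp ; grind
  subst e0
  have e0 : (0 : k) = Q00 := by
    linear_combination (norm := skip) (1) * hQ00
    clear * - hp ; grind
  subst e0
  have e0 : (1 : k) = P10 := by
    linear_combination (norm := skip) (1) * hP10
    clear * - hp ; grind
  subst e0
  have e0 : (0 : k) = P01 := by
    linear_combination (norm := skip) (1) * hP01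
    clear * - hp ; grind
  subst e0
  have e0 : (0 : k) = Q10 := by
    linear_combination (norm := skip) (1) * hQ10
    clear * - hp ; grind
  subst e0
  have e0 : (-1 : k) = Q01 := by
    linear_combination (norm := skip) (1) * hQ01
    clear * - hp ; grind
  subst e0
  have e0 : (0 : k) = P20 := by
    linear_combination (norm := skip) (1) * hP20
    clear * - hp ; grind
  subst e0
  have e0 : (0 : k) = P11 := by
    linear_combination (norm := skip) (1) * hP11
    clear * - hp ; grind
  subst e0
  have e0 : (p02 : k) = P02 := by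
    linear_combination (norm := skip) (1) * hP02
    clear * - hp ; grind
  subst e0
  have e0 : (q20 : k) = Q20 := by
    linear_combination (norm := skip) (1) * hQ20
    clear * - hp ; grind
  subst e0
  have e0 : (0 : k) = Q11 := by
    linear_combination (norm := skip) (1) * hQ11
    clear * - hp ; grind
  subst e0
  have e0 : (0 : k) = Q02 := by
    linear_combination (norm := skip) (1) * hQ02
    clear * - hp ; grind
  subst e0
  have e0 : (p21 : k) = P21 := by
    linear_combination (norm := skip) (1) * hP21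
    clear * - hp ; grind
  subst e0
  have e0 : (0 : k) = P12 := by
    linear_combination (norm := skip) (1) * hP12
    clear * - hp ; grind
  subst e0
  have e0 : (0 : k) = Q21 := by
    linear_combination (norm := skip) (1) * hQ21
    clear * - hp ; grind
  subst e0
  have e0 : (0 : k) = Q12 := by
    linear_combination (norm := skip) (1) * hQ12
    clear * - hp ; grind
  subst e0
  have e0 : (0 : k) = P22 := by
    linear_combination (norm := skip) (1) * hP22
    clear * - hp ; grind
  subst e0
  have e0 : (0 : k) = Q22 := by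
    linear_combination (norm := skip) (1) * hQ22
    clear * - hp ; grind
  subst e0
  exact Has.of_rel ⟨_, _, _, _, _, _, _, _, _, _, _, _, _, _, _, _, hc, he⟩ (hM_s ..)

theorem hM_3 (p02 p21 p12 p22 q20 q21 q12 q22 : k) :
    Has 0 1 0 0 0 p02 p21 p12 p22 0 0 (-1) q20 0 0 q21 q12 q22 := by
  have hc : (1) * (1) - (0) * (0) ≠ (0 : k) := by simp
  obtain ⟨P00, P10, P01, P20, P11, P02, P21, P12, P22, Q00, Q10, Q01, Q20, Q11, Q02, Q21, Q12, Q22, he⟩ := act 1 0 0 0 0 q12 (-p12) 0 0 1 0 0 0 q21 0 0 hc 0 1 0 0 0 p02 p21 p12 p22 0 0 (-1) q20 0 0 q21 q12 q22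
  obtain ⟨hP00, hP10, hP01, hP20, hP11, hP02, hP21, hP12, hP22, hQ00, hQ10, hQ01, hQ20, hQ11, hQ02, hQ21, hQ12, hQ22⟩ := id he
  have e0 : (0 : k) = P00 := by
    linear_combination (norm := skip) (1) * hP00
    clear * - hp ; grind
  subst e0
  have e0 : (0 : k) = Q00 := by
    linear_combination (norm := skip) (1) * hQ00
    clear * - hp ; grind
  subst e0
  have e0 : (1 : k) = P10 := by
    linear_combination (norm := skip) (1) * hP10
    clear * - hp ; grind
  subst e0
  have e0 : (0 : k) = P01 := by
    linear_combination (norm := skip) (1) * hP01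
    clear * - hp ; grind
  subst e0
  have e0 : (0 : k) = Q10 := by
    linear_combination (norm := skip) (1) * hQ10
    clear * - hp ; grind
  subst e0
  have e0 : (-1 : k) = Q01 := by
    linear_combination (norm := skip) (1) * hQ01
    clear * - hp ; grind
  subst e0
  have e0 : (0 : k) = P20 := by
    linear_combination (norm := skip) (1) * hP20
    clear * - hp ; grind
  subst e0
  have e0 : (0 : k) = P11 := by
    linear_combination (norm := skip) (1) * hP11
    clear * - hp ; grind
  subst e0
  have e0 : (p02 : k) = P02 := by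
    linear_combination (norm := skip) (1) * hP02
    clear * - hp ; grind
  subst e0
  have e0 : (q20 : k) = Q20 := by
    linear_combination (norm := skip) (1) * hQ20
    clear * - hp ; grind
  subst e0
  have e0 : (0 : k) = Q11 := by
    linear_combination (norm := skip) (1) * hQ11
    clear * - hp ; grind
  subst e0
  have e0 : (0 : k) = Q02 := by
    linear_combination (norm := skip) (1) * hQ02
    clear * - hp ; grind
  subst e0
  have e0 : (0 : k) = P12 := by
    linear_combination (norm := skip) (1) * hP12
    clear * - hp ; grind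
  subst e0
  have e0 : (0 : k) = Q21 := by
    linear_combination (norm := skip) (1) * hQ21
    clear * - hp ; grind
  subst e0
  have e0 : (0 : k) = Q12 := by
    linear_combination (norm := skip) (1) * hQ12
    clear * - hp ; grind
  subst e0
  exact Has.of_rel ⟨_, _, _, _, _, _, _, _, _, _, _, _, _, _, _, _, hc, he⟩ (hM_4 _ _ _ _ _)

theorem hM_2 (p20 p11 p02 p21 p12 p22 q20 q11 q02 q21 q12 q22 : k) :
    Has 0 1 0 p20 p11 p02 p21 p12 p22 0 0 (-1) q20 q11 q02 q21 q12 q22 := by
  have hc : (1) * (1) - (0) * (0) ≠ (0 : k) := by simp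
  obtain ⟨P00, P10, P01, P20, P11, P02, P21, P12, P22, Q00, Q10, Q01, Q20, Q11, Q02, Q21, Q12, Q22, he⟩ := act 1 0 q11 (-q02) 0 0 0 0 0 1 0 p20 (-p11) 0 0 0 hc 0 1 0 p20 p11 p02 p21 p12 p22 0 0 (-1) q20 q11 q02 q21 q12 q22
  obtain ⟨hP00, hP10, hP01, hP20, hP11, hP02, hP21, hP12, hP22, hQ00, hQ10, hQ01, hQ20, hQ11, hQ02, hQ21, hQ12, hQ22⟩ := id he
  have e0 : (0 : k) = P00 := by
    linear_combination (norm := skip) (1) * hP00
    clear * - hp ; grind
  subst e0
  have e0 : (0 : k) = Q00 := by
    linear_combination (norm := skip) (1) * hQ00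
    clear * - hp ; grind
  subst e0
  have e0 : (1 : k) = P10 := by
    linear_combination (norm := skip) (1) * hP10
    clear * - hp ; grind
  subst e0
  have e0 : (0 : k) = P01 := by
    linear_combination (norm := skip) (1) * hP01
    clear * - hp ; grind
  subst e0
  have e0 : (0 : k) = Q10 := by
    linear_combination (norm := skip) (1) * hQ10
    clear * - hp ; grind
  subst e0
  have e0 : (-1 : k) = Q01 := by
    linear_combination (norm := skip) (1) * hQ01
    clear * - hp ; grind
  subst e0
  have e0 : (0 : k) = P20 := by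
    linear_combination (norm := skip) (1) * hP20
    clear * - hp ; grind
  subst e0
  have e0 : (0 : k) = P11 := by
    linear_combination (norm := skip) (1) * hP11
    clear * - hp ; grind
  subst e0
  have e0 : (0 : k) = Q11 := by
    linear_combination (norm := skip) (1) * hQ11
    clear * - hp ; grind
  subst e0
  have e0 : (0 : k) = Q02 := by
    linear_combination (norm := skip) (1) * hQ02
    clear * - hp ; grind
  subst e0
  exact Has.of_rel ⟨_, _, _, _, _, _, _, _, _, _, _, _, _, _, _, _, hc, he⟩ (hM_3 _ _ _ _ _ _ _ _)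

theorem hZ_s (b c d a : k) :
    Has 0 1 0 b 0 0 c 0 d 0 0 0 0 0 a 0 0 0 := by
  by_cases ha : a = 0
  · subst ha
    by_cases hb : b = 0
    · subst hb
      by_cases hc : c = 0
      · subst hc
        by_cases hd : d = 0
        · subst hd
          exact has_B1 0 0
        · exact Has.of_rel (S1z_to 0 0 d 0 0 0 1 0 ⟨d, d⁻¹, 0, 0, 0, mul_inv_cancel₀ hd, by simp, by simp,
            by simp, by simp [hd]⟩) has_B5
      · exact Has.of_rel (S1z_to 0 c d 0 0 c 0 0 ⟨1, 1, 0, d * c⁻¹, 0, by simp, by simp, by simp,
          by simp, by field_simp; ring⟩) (has_B1 0 c)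
    · exact Has.of_rel (S1z_to b c d 0 1 0 _ 0 ⟨b⁻¹, b, 0, -c * b⁻¹, 0, inv_mul_cancel₀ hb, by simp,
        (mul_inv_cancel₀ hb).symm, by field_simp; ring, rfl⟩) (has_B4 _)
  · exact Has.of_rel (S1z_to b c d a _ 0 0 1 ⟨a, a⁻¹, d, 0, -c * a, mul_inv_cancel₀ ha,
      (mul_inv_cancel₀ ha).symm, rfl, by field_simp; ring, by field_simp; ring⟩) (has_B3 _)

theorem hZ_4 (p20 p21 p22 q02 q22 : k) :
    Has 0 1 0 p20 0 0 p21 0 p22 0 0 0 0 0 q02 0 0 q22 := by
  have hc : (1) * (1) - (0) * (0) ≠ (0 : k) := by simp
  obtain ⟨P00, P10, P01, P20, P11, P02, P21, P12, P22, Q00, Q10, Q01, Q20, Q11, Q02, Q21, Q12, Q22, he⟩ := act 1 0 0 0 0 0 0 0 0 1 0 0 0 0 0 (-q22) hc 0 1 0 p20 0 0 p21 0 p22 0 0 0 0 0 q02 0 0 q22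
  obtain ⟨hP00, hP10, hP01, hP20, hP11, hP02, hP21, hP12, hP22, hQ00, hQ10, hQ01, hQ20, hQ11, hQ02, hQ21, hQ12, hQ22⟩ := id he
  have e0 : (0 : k) = P00 := by
    linear_combination (norm := skip) (1) * hP00
    clear * - hp ; grind
  subst e0
  have e0 : (0 : k) = Q00 := by
    linear_combination (norm := skip) (1) * hQ00
    clear * - hp ; grind
  subst e0
  have e0 : (1 : k) = P10 := by
    linear_combination (norm := skip) (1) * hP10
    clear * - hp ; grind
  subst e0
  have e0 : (0 : k) = P01 := by
    linear_combination (norm := skip) (1) * hP01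
    clear * - hp ; grind
  subst e0
  have e0 : (0 : k) = Q10 := by
    linear_combination (norm := skip) (1) * hQ10
    clear * - hp ; grind
  subst e0
  have e0 : (0 : k) = Q01 := by
    linear_combination (norm := skip) (1) * hQ01
    clear * - hp ; grind
  subst e0
  have e0 : (p20 : k) = P20 := by
    linear_combination (norm := skip) (1) * hP20
    clear * - hp ; grind
  subst e0
  have e0 : (0 : k) = P11 := by
    linear_combination (norm := skip) (1) * hP11
    clear * - hp ; grind
  subst e0
  have e0 : (0 : k) = P02 := by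
    linear_combination (norm := skip) (1) * hP02
    clear * - hp ; grind
  subst e0
  have e0 : (0 : k) = Q20 := by
    linear_combination (norm := skip) (1) * hQ20
    clear * - hp ; grind
  subst e0
  have e0 : (0 : k) = Q11 := by
    linear_combination (norm := skip) (1) * hQ11
    clear * - hp ; grind
  subst e0
  have e0 : (q02 : k) = Q02 := by
    linear_combination (norm := skip) (1) * hQ02
    clear * - hp ; grind
  subst e0
  have e0 : (p21 : k) = P21 := by
    linear_combination (norm := skip) (1) * hP21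
    clear * - hp ; grind
  subst e0
  have e0 : (0 : k) = P12 := by
    linear_combination (norm := skip) (1) * hP12
    clear * - hp ; grind
  subst e0
  have e0 : (0 : k) = Q21 := by
    linear_combination (norm := skip) (1) * hQ21
    clear * - hp ; grind
  subst e0
  have e0 : (0 : k) = Q12 := by
    linear_combination (norm := skip) (1) * hQ12
    clear * - hp ; grind
  subst e0
  have e0 : (0 : k) = Q22 := by
    linear_combination (norm := skip) (1) * hQ22
    clear * - hp ; grind
  subst e0
  exact Has.of_rel ⟨_, _, _, _, _, _, _, _, _, _, _, _, _, _, _, _, hc, he⟩ (hZ_s ..)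

theorem hZ_3 (p20 p21 p12 p22 q02 q21 q12 q22 : k) :
    Has 0 1 0 p20 0 0 p21 p12 p22 0 0 0 0 0 q02 q21 q12 q22 := by
  have hc : (1) * (1) - (0) * (0) ≠ (0 : k) := by simp
  obtain ⟨P00, P10, P01, P20, P11, P02, P21, P12, P22, Q00, Q10, Q01, Q20, Q11, Q02, Q21, Q12, Q22, he⟩ := act 1 0 0 0 0 0 p12 0 0 1 0 0 0 (-q21) q12 0 hc 0 1 0 p20 0 0 p21 p12 p22 0 0 0 0 0 q02 q21 q12 q22
  obtain ⟨hP00, hP10, hP01, hP20, hP11, hP02, hP21, hP12, hP22, hQ00, hQ10, hQ01, hQ20, hQ11, hQ02, hQ21, hQ12, hQ22⟩ := id he
  have e0 : (0 : k) = P00 := by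
    linear_combination (norm := skip) (1) * hP00
    clear * - hp ; grind
  subst e0
  have e0 : (0 : k) = Q00 := by
    linear_combination (norm := skip) (1) * hQ00
    clear * - hp ; grind
  subst e0
  have e0 : (1 : k) = P10 := by
    linear_combination (norm := skip) (1) * hP10
    clear * - hp ; grind
  subst e0
  have e0 : (0 : k) = P01 := by
    linear_combination (norm := skip) (1) * hP01
    clear * - hp ; grind
  subst e0
  have e0 : (0 : k) = Q10 := by
    linear_combination (norm := skip) (1) * hQ10
    clear * - hp ; grind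
  subst e0
  have e0 : (0 : k) = Q01 := by
    linear_combination (norm := skip) (1) * hQ01
    clear * - hp ; grind
  subst e0
  have e0 : (p20 : k) = P20 := by
    linear_combination (norm := skip) (1) * hP20
    clear * - hp ; grind
  subst e0
  have e0 : (0 : k) = P11 := by
    linear_combination (norm := skip) (1) * hP11
    clear * - hp ; grind
  subst e0
  have e0 : (0 : k) = P02 := by
    linear_combination (norm := skip) (1) * hP02
    clear * - hp ; grind
  subst e0
  have e0 : (0 : k) = Q20 := by
    linear_combination (norm := skip) (1) * hQ20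
    clear * - hp ; grind
  subst e0
  have e0 : (0 : k) = Q11 := by
    linear_combination (norm := skip) (1) * hQ11
    clear * - hp ; grind
  subst e0
  have e0 : (q02 : k) = Q02 := by
    linear_combination (norm := skip) (1) * hQ02
    clear * - hp ; grind
  subst e0
  have e0 : (0 : k) = P12 := by
    linear_combination (norm := skip) (1) * hP12
    clear * - hp ; grind
  subst e0
  have e0 : (0 : k) = Q21 := by
    linear_combination (norm := skip) (1) * hQ21
    clear * - hp ; grind
  subst e0
  have e0 : (0 : k) = Q12 := by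
    linear_combination (norm := skip) (1) * hQ12
    clear * - hp ; grind
  subst e0
  exact Has.of_rel ⟨_, _, _, _, _, _, _, _, _, _, _, _, _, _, _, _, hc, he⟩ (hZ_4 _ _ _ _ _)

theorem hZ_2 (p20 p11 p02 p21 p12 p22 q20 q11 q02 q21 q12 q22 : k) :
    Has 0 1 0 p20 p11 p02 p21 p12 p22 0 0 0 q20 q11 q02 q21 q12 q22 := by
  have hc : (1) * (1) - (0) * (0) ≠ (0 : k) := by simp
  obtain ⟨P00, P10, P01, P20, P11, P02, P21, P12, P22, Q00, Q10, Q01, Q20, Q11, Q02, Q21, Q12, Q22, he⟩ := act 1 0 0 p11 (-p02) 0 0 0 0 1 (-q20) q11 0 0 0 0 hc 0 1 0 p20 p11 p02 p21 p12 p22 0 0 0 q20 q11 q02 q21 q12 q22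
  obtain ⟨hP00, hP10, hP01, hP20, hP11, hP02, hP21, hP12, hP22, hQ00, hQ10, hQ01, hQ20, hQ11, hQ02, hQ21, hQ12, hQ22⟩ := id he
  have e0 : (0 : k) = P00 := by
    linear_combination (norm := skip) (1) * hP00
    clear * - hp ; grind
  subst e0
  have e0 : (0 : k) = Q00 := by
    linear_combination (norm := skip) (1) * hQ00
    clear * - hp ; grind
  subst e0
  have e0 : (1 : k) = P10 := by
    linear_combination (norm := skip) (1) * hP10
    clear * - hp ; grind
  subst e0
  have e0 : (0 : k) = P01 := by
    linear_combination (norm := skip) (1) * hP01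
    clear * - hp ; grind
  subst e0
  have e0 : (0 : k) = Q10 := by
    linear_combination (norm := skip) (1) * hQ10
    clear * - hp ; grind
  subst e0
  have e0 : (0 : k) = Q01 := by
    linear_combination (norm := skip) (1) * hQ01
    clear * - hp ; grind
  subst e0
  have e0 : (0 : k) = P11 := by
    linear_combination (norm := skip) (1) * hP11
    clear * - hp ; grind
  subst e0
  have e0 : (0 : k) = P02 := by
    linear_combination (norm := skip) (1) * hP02
    clear * - hp ; grind
  subst e0
  have e0 : (0 : k) = Q20 := by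
    linear_combination (norm := skip) (1) * hQ20
    clear * - hp ; grind
  subst e0
  have e0 : (0 : k) = Q11 := by
    linear_combination (norm := skip) (1) * hQ11
    clear * - hp ; grind
  subst e0
  exact Has.of_rel ⟨_, _, _, _, _, _, _, _, _, _, _, _, _, _, _, _, hc, he⟩ (hZ_3 _ _ _ _ _ _ _ _)


end Pool.Agent.W23
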