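import Pool.Agent.P.MP_c9b50d_al.Bridge

namespace Pool.Agent.W23

variable {k : Type*} [Field k] [hp : CharP k 3]

theorem S1n_of (c a b d e C A B D E : k) 
    (h : Rel 0 0 1 0 0 0 c 0 0 0 0 0 a b 0 d 0 e 0 0 1 0 0 0 C 0 0 0 0 0 A B 0 D 0 E) :
    (∃ u10 v01 ti u01 u12 u21 u02 u11 : k, u10 * u10 = 1 ∧ v01 * ti = 1 ∧ A = a*ti*ti*u10 ∧ B = b*ti ∧ C = c - d*ti*u01 + a*ti*ti*u02 - b*ti*u10*u11 - a*ti*ti*u01*u10*u11 + b*b*ti*ti*u01*u01 + a*b*ti*ti*ti*u01*u01*u01 ∧ D = d*ti*u10 + a*a*ti^(4:ℕ)*u01*u01*u01*u10 ∧ E = e*u10 + d*ti*u11 + a*ti*ti*u12 - b*ti*u10*u21 - b*c*ti*u01*u10 + a*ti*ti*u01*u10*u21 - a*ti*ti*u10*u11*u11 + b*b*ti*ti*u01*u11 - a*c*ti*ti*u01*u01*u10 - a*b*ti*ti*ti*u01*u02*u10 + a*b*ti*ti*ti*u01*u01*u11 + a*a*ti^(4:ℕ)*u01*u01*u02*u10 - a*a*ti^(4:ℕ)*u01*u01*u01*u11 - b*b*b*ti*ti*ti*u01*u01*u01*u10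 - a*a*a*ti^(6:ℕ)*u01^(6:ℕ)*u10) := by
  obtain ⟨u10, u01, u20, u11, u02, u21, u12, u22, v10, v01, v20, v11, v02, v21, v12, v22, hc, hP00, hP10, hP01, hP20, hP11, hP02, hP21, hP12, hP22, hQ00, hQ10, hQ01, hQ20, hQ11, hQ02, hQ21, hQ12, hQ22⟩ := h

  have e' : 0 = v10 := by clear * - hp hP10; grind
  subst e'
  have h1 : v01 ≠ 0 := by clear * - hp hc; grind
  have hs : u10 * u10 = 1 := by clear * - hp h1 hP01; grind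
  obtain ⟨ti, ht⟩ : ∃ ti, v01 * ti = 1 := ⟨v01⁻¹, mul_inv_cancel₀ h1⟩
  have e' : A*u01*u10*v01 = v20 := by
    linear_combination (norm := skip) (-1) * hP20
    clear * - hp hs ht; grind
  subst e'
  have e' : a*ti*ti*u10 = A := by
    linear_combination (norm := skip) (ti*ti*u10) * hQ20
    clear * - hp hs ht; grind
  subst e'
  have e' : -B*u01 - a*ti*ti*u01*u01 = u20 := by
    linear_combination (norm := skip) (ti*u10) * hP11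
    clear * - hp hs ht; grind
  subst e'
  have e' : b*ti = B := by
    linear_combination (norm := skip) (ti*ti*u10) * hQ11
    clear * - hp hs ht; grind
  subst e'
  have e' : u01*u10*v11 + u10*u11*v01 = v02 := by
    linear_combination (norm := skip) (1) * hP02
    clear * - hp hs ht; grind
  subst e'
  have e' : b*u01*u10 + a*ti*u01*u01*u10 = v11 := by
    linear_combination (norm := skip) (ti*u10) * hQ02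
    clear * - hp hs ht; grind
  subst e'
  have e' : c - D*u01*u10 + a*ti*ti*u02 - b*ti*u10*u11 - a*ti*ti*u01*u10*u11 + b*b*ti*ti*u01*u01 + a*b*ti*ti*ti*u01*u01*u01 + a*a*ti^(4:ℕ)*u01^(4:ℕ) = C := by
    linear_combination (norm := skip) (ti) * hP21
    clear * - hp hs ht; grind
  subst e'
  have e' : d*ti*u10 + a*a*ti^(4:ℕ)*u01*u01*u01*u10 = D := by
    linear_combination (norm := skip) (ti*ti*u10) * hQ21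
    clear * - hp hs ht; grind
  subst e'
  have e' : -b*u01*u11 + b*u02*u10 - u01*u10*v21 - u10*u21*v01 - c*u01*u10*v01 + a*ti*u01*u02*u10 + a*ti*u01*u01*u11 - b*b*ti*u01*u01*u01*u10 - a*b*ti*ti*u01^(4:ℕ)*u10 = v12 := by
    linear_combination (norm := skip) (1) * hP12
    clear * - hp hs ht; grind
  subst e'
  have e' : d*u01 + a*ti*u02 + a*ti*u01*u10*u11 - a*b*ti*ti*u01*u01*u01 - a*a*ti*ti*ti*u01^(4:ℕ) = v21 := by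
    linear_combination (norm := skip) (-ti*u10) * hQ12
    clear * - hp hs ht; grind
  subst e'
  have e' : d*u02 + b*u10*u12 + b*u11*u11 - E*u01*u10*v01 - c*u10*u11*v01 + d*u01*u10*u11 + a*ti*u01*u11*u11 - a*ti*u02*u10*u11 - b*b*ti*u01*u02 + a*c*ti*u01*u01*u01 + b*d*ti*u01*u01*u01 - a*b*ti*ti*u01*u01*u02 - a*d*ti*ti*u01^(4:ℕ) + b*b*b*ti*ti*u01^(4:ℕ) - a*b*b*ti*ti*ti*u01^(5:ℕ) + a*a*ti*ti*ti*u01^(4:ℕ)*u10*u11 - a*a*b*ti^(4:ℕ)*u01^(6:ℕ) + a*a*a*ti^(5:ℕ)*u01^(7:ℕ) = v22 := by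
    linear_combination (norm := skip) (1) * hP22
    clear * - hp hs ht; grind
  subst e'
  have e' : e*u10 + d*ti*u11 + a*ti*ti*u12 - b*ti*u10*u21 - b*c*ti*u01*u10 + a*ti*ti*u01*u10*u21 - a*ti*ti*u10*u11*u11 + b*b*ti*ti*u01*u11 - a*c*ti*ti*u01*u01*u10 - a*b*ti*ti*ti*u01*u02*u10 + a*b*ti*ti*ti*u01*u01*u11 + a*a*ti^(4:ℕ)*u01*u01*u02*u10 - a*a*ti^(4:ℕ)*u01*u01*u01*u11 - b*b*b*ti*ti*ti*u01*u01*u01*u10 - a*a*a*ti^(6:ℕ)*u01^(6:ℕ)*u10 = E := by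
    linear_combination (norm := skip) (ti*ti*u10) * hQ22
    clear * - hp hs ht; grind
  subst e'
  refine ⟨u10, v01, ti, u01, u12, u21, u02, u11, hs, ht, ?_, ?_, ?_, ?_, ?_⟩
  all_goals (clear * - hp hs ht; grind)

theorem S1n_to (c a b d e C A B D E : k) 
    (h : (∃ u10 v01 ti u01 u12 u21 u02 u11 : k, u10 * u10 = 1 ∧ v01 * ti = 1 ∧ A = a*ti*ti*u10 ∧ B = b*ti ∧ C = c - d*ti*u01 + a*ti*ti*u02 - b*ti*u10*u11 - a*ti*ti*u01*u10*u11 + b*b*ti*ti*u01*u01 + a*b*ti*ti*ti*u01*u01*u01 ∧ D = d*ti*u10 + a*a*ti^(4:ℕ)*u01*u01*u01*u10 ∧ E = e*u10 + d*ti*u11 + a*ti*ti*u12 - b*ti*u10*u21 - b*c*ti*u01*u10 + a*ti*ti*u01*u10*u21 - a*ti*ti*u10*u11*u11 + b*b*ti*ti*u01*u11 - a*c*ti*ti*u01*u01*u10 - a*b*ti*ti*ti*u01*u02*u10 + a*b*ti*ti*ti*u01*u01*u11 + a*a*ti^(4:ℕ)*u01*u01*u02*u10 - a*a*ti^(4:ℕ)*u01*u01*u01*u11 - b*b*b*ti*ti*ti*u01*u01*u01*u10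 - a*a*a*ti^(6:ℕ)*u01^(6:ℕ)*u10)) :
    Rel 0 0 1 0 0 0 c 0 0 0 0 0 a b 0 d 0 e 0 0 1 0 0 0 C 0 0 0 0 0 A B 0 D 0 E := by
  rcases h with ⟨u10, v01, ti, u01, u12, u21, u02, u11, hs, ht, rfl, rfl, rfl, rfl, rfl⟩
  · refine ⟨u10, u01, -b*ti*u01 - a*ti*ti*u01*u01, u11, u02, u21, u12, 0, 0, v01, a*ti*u01, b*u01*u10 + a*ti*u01*u01*u10, b*u01*u01 + u10*u11*v01 + a*ti*u01*u01*u01, d*u01 + a*ti*u02 + a*ti*u01*u10*u11 - a*b*ti*ti*u01*u01*u01 - a*a*ti*ti*ti*u01^(4:ℕ), -b*u01*u11 + b*u02*u10 - u10*u21*v01 - c*u01*u10*v01 - d*u01*u01*u10 - b*b*ti*u01*u01*u01*u10 + a*a*ti*ti*ti*u01^(5:ℕ)*u10, d*u02 + b*u01*u21 + b*u10*u12 + b*u11*u11 - e*u01*v01 + b*c*u01*u01 - c*u10*u11*v01 - a*ti*u01*u10*u12 - a*ti*u01*u11*u11 - a*ti*u01*u01*u21 - a*ti*u02*u10*u11 - b*b*ti*u01*u02 - a*c*ti*u01*u01*u01 + b*d*ti*u01*u01*u01 - b*b*ti*u01*u01*u10*u11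 - a*d*ti*ti*u01^(4:ℕ) - a*b*ti*ti*u01*u01*u01*u10*u11 - a*a*ti*ti*ti*u01*u01*u01*u02 - b*b*b*ti*ti*u01^(4:ℕ) - a*b*b*ti*ti*ti*u01^(5:ℕ) - a*a*ti*ti*ti*u01^(4:ℕ)*u10*u11 - a*a*b*ti^(4:ℕ)*u01^(6:ℕ) - a*a*a*ti^(5:ℕ)*u01^(7:ℕ), by grind, ?_, ?_, ?_, ?_, ?_, ?_, ?_, ?_, ?_, ?_, ?_, ?_, ?_, ?_, ?_, ?_, ?_, ?_⟩
    all_goals (clear * - hp hs ht; grind)


end Pool.Agent.W23
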