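import Pool.Agent.P.MP_c9b50d_al.Forms
import Pool.Agent.P.MP_c9b50d_al.Ex3
import Pool.Agent.P.MP_c9b50d_al.S1
import Pool.Agent.P.MP_c9b50d_al.S1n

namespace Pool.Agent.W23

variable {k : Type*} [Field k] [hp : CharP k 3]

variable [IsAlgClosed k]

set_option linter.unusedSectionVars false

theorem hO_s1 (b a : k) :
    Has 0 1 0 0 0 0 b a 0 0 0 1 0 0 0 0 0 0 := by
  by_cases hb : b = 0
  · subst hb
    by_cases ha : a = 0
    · subst ha
      exact has_B1 1 0
    · obtain ⟨u, hu⟩ := rootn a ha 2 (by norm_num)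
      exact Has.of_rel (S1o_to 0 a 0 0 0 1 (Or.inr ⟨a * u, u, 0, by linear_combination hu, by simp,
        by simp, by linear_combination -hu⟩)) has_B6
  · exact Has.of_rel (S1o_to b a 0 b 0 0 (Or.inl ⟨1, 1, a * b⁻¹, 0, by simp, by field_simp; ring,
      by simp, by simp⟩)) (has_B1 1 b)

theorem hO_s (b a c : k) :
    Has 0 1 0 0 0 0 b a 0 0 0 1 0 0 0 c 0 0 := by
  by_cases ha : a = 0
  · subst ha
    by_cases hb : b = 0
    · subst hb
      by_cases hc : c = 0
      · subst hc
        exact has_B1 1 0
      · obtain ⟨u, hu⟩ := rootn c hc 2 (by norm_num)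
        exact Has.of_rel (S1o_to 0 0 c 0 0 1 (Or.inl ⟨u, c * u, 0, 0, by linear_combination hu,
          by simp, by simp, by linear_combination -hu⟩)) has_B6
    · exact Has.of_rel (S1o_to b 0 c _ _ 0 (Or.inl ⟨1, 1, 0, c * b⁻¹, by simp, rfl, rfl,
        by field_simp; ring⟩)) (hO_s1 ..)
  · obtain ⟨u, hu⟩ := root2 a (-b) c ha
    exact Has.of_rel (S1o_to b a c _ _ 0 (Or.inl ⟨1, 1, 0, u, by simp, rfl, rfl,
      by linear_combination -hu⟩)) (hO_s1 ..)

theorem hO_4 (p21 p12 p22 q21 q22 : k) :
    Has 0 1 0 0 0 0 p21 p12 p22 0 0 1 0 0 0 q21 0 q22 := by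
  have hc : (1) * (1) - (0) * (0) ≠ (0 : k) := by simp
  obtain ⟨P00, P10, P01, P20, P11, P02, P21, P12, P22, Q00, Q10, Q01, Q20, Q11, Q02, Q21, Q12, Q22, he⟩ := act 1 0 0 0 0 0 0 (-p22) 0 1 0 0 0 0 0 (-q22) hc 0 1 0 0 0 0 p21 p12 p22 0 0 1 0 0 0 q21 0 q22
  obtain ⟨hP00, hP10, hP01, hP20, hP11, hP02, hP21, hP12, hP22, hQ00, hQ10, hQ01, hQ20, hQ11, hQ02, hQ21, hQ12, hQ22⟩ := id he
  have e0 : (0 : k) = P00 := by
    linear_combination (norm := skip) (1) * hP00
    clear * - hp ; grind
  subst e0
  have e0 : (0 : k) = Q00 := by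
    linear_combination (norm := skip) (1) * hQ00
    clear * - hp ; grind
  subst e0
  have e0 : (1 : k) = P10 := by
    linear_combination (norm := skip) (1) * hP10
    clear * - hp ; grind
  subst e0
  have e0 : (0 : k) = P01 := by
    linear_combination (norm := skip) (1) * hP01
    clear * - hp ; grind
  subst e0
  have e0 : (0 : k) = Q10 := by
    linear_combination (norm := skip) (1) * hQ10
    clear * - hp ; grind
  subst e0
  have e0 : (1 : k) = Q01 := by
    linear_combination (norm := skip) (1) * hQ01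
    clear * - hp ; grind
  subst e0
  have e0 : (0 : k) = P20 := by
    linear_combination (norm := skip) (1) * hP20
    clear * - hp ; grind
  subst e0
  have e0 : (0 : k) = P11 := by
    linear_combination (norm := skip) (1) * hP11
    clear * - hp ; grind
  subst e0
  have e0 : (0 : k) = P02 := by
    linear_combination (norm := skip) (1) * hP02
    clear * - hp ; grind
  subst e0
  have e0 : (0 : k) = Q20 := by
    linear_combination (norm := skip) (1) * hQ20
    clear * - hp ; grind
  subst e0
  have e0 : (0 : k) = Q11 := by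
    linear_combination (norm := skip) (1) * hQ11
    clear * - hp ; grind
  subst e0
  have e0 : (0 : k) = Q02 := by
    linear_combination (norm := skip) (1) * hQ02
    clear * - hp ; grind
  subst e0
  have e0 : (p21 : k) = P21 := by
    linear_combination (norm := skip) (1) * hP21
    clear * - hp ; grind
  subst e0
  have e0 : (p12 : k) = P12 := by
    linear_combination (norm := skip) (1) * hP12
    clear * - hp ; grind
  subst e0
  have e0 : (q21 : k) = Q21 := by
    linear_combination (norm := skip) (1) * hQ21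
    clear * - hp ; grind
  subst e0
  have e0 : (0 : k) = Q12 := by
    linear_combination (norm := skip) (1) * hQ12
    clear * - hp ; grind
  subst e0
  have e0 : (0 : k) = P22 := by
    linear_combination (norm := skip) (1) * hP22
    clear * - hp ; grind
  subst e0
  have e0 : (0 : k) = Q22 := by
    linear_combination (norm := skip) (1) * hQ22
    clear * - hp ; grind
  subst e0
  exact Has.of_rel ⟨_, _, _, _, _, _, _, _, _, _, _, _, _, _, _, _, hc, he⟩ (hO_s ..)

theorem hO_3 (p21 p12 p22 q21 q12 q22 : k) :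
    Has 0 1 0 0 0 0 p21 p12 p22 0 0 1 0 0 0 q21 q12 q22 := by
  have hc : (1) * (1) - (0) * (0) ≠ (0 : k) := by simp
  obtain ⟨P00, P10, P01, P20, P11, P02, P21, P12, P22, Q00, Q10, Q01, Q20, Q11, Q02, Q21, Q12, Q22, he⟩ := act 1 0 0 0 0 (-q12) 0 0 0 1 0 0 0 0 0 0 hc 0 1 0 0 0 0 p21 p12 p22 0 0 1 0 0 0 q21 q12 q22
  obtain ⟨hP00, hP10, hP01, hP20, hP11, hP02, hP21, hP12, hP22, hQ00, hQ10, hQ01, hQ20, hQ11, hQ02, hQ21, hQ12, hQ22⟩ := id he
  have e0 : (0 : k) = P00 := by
    linear_combination (norm := skip) (1) * hP00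
    clear * - hp ; grind
  subst e0
  have e0 : (0 : k) = Q00 := by
    linear_combination (norm := skip) (1) * hQ00
    clear * - hp ; grind
  subst e0
  have e0 : (1 : k) = P10 := by
    linear_combination (norm := skip) (1) * hP10
    clear * - hp ; grind
  subst e0
  have e0 : (0 : k) = P01 := by
    linear_combination (norm := skip) (1) * hP01
    clear * - hp ; grind
  subst e0
  have e0 : (0 : k) = Q10 := by
    linear_combination (norm := skip) (1) * hQ10
    clear * - hp ; grind
  subst e0
  have e0 : (1 : k) = Q01 := by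
    linear_combination (norm := skip) (1) * hQ01
    clear * - hp ; grind
  subst e0
  have e0 : (0 : k) = P20 := by
    linear_combination (norm := skip) (1) * hP20
    clear * - hp ; grind
  subst e0
  have e0 : (0 : k) = P11 := by
    linear_combination (norm := skip) (1) * hP11
    clear * - hp ; grind
  subst e0
  have e0 : (0 : k) = P02 := by
    linear_combination (norm := skip) (1) * hP02
    clear * - hp ; grind
  subst e0
  have e0 : (0 : k) = Q20 := by
    linear_combination (norm := skip) (1) * hQ20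
    clear * - hp ; grind
  subst e0
  have e0 : (0 : k) = Q11 := by
    linear_combination (norm := skip) (1) * hQ11
    clear * - hp ; grind
  subst e0
  have e0 : (0 : k) = Q02 := by
    linear_combination (norm := skip) (1) * hQ02
    clear * - hp ; grind
  subst e0
  have e0 : (0 : k) = Q12 := by
    linear_combination (norm := skip) (1) * hQ12
    clear * - hp ; grind
  subst e0
  exact Has.of_rel ⟨_, _, _, _, _, _, _, _, _, _, _, _, _, _, _, _, hc, he⟩ (hO_4 _ _ _ _ _)

theorem hO_2 (p20 p11 p02 p21 p12 p22 q20 q11 q02 q21 q12 q22 : k) :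
    Has 0 1 0 p20 p11 p02 p21 p12 p22 0 0 1 q20 q11 q02 q21 q12 q22 := by
  have hc : (1) * (1) - (0) * (0) ≠ (0 : k) := by simp
  obtain ⟨P00, P10, P01, P20, P11, P02, P21, P12, P22, Q00, Q10, Q01, Q20, Q11, Q02, Q21, Q12, Q22, he⟩ := act 1 0 (-p20 - q11) q02 p02 0 0 0 0 1 q20 p20 (-p11 - q02) 0 0 0 hc 0 1 0 p20 p11 p02 p21 p12 p22 0 0 1 q20 q11 q02 q21 q12 q22
  obtain ⟨hP00, hP10, hP01, hP20, hP11, hP02, hP21, hP12, hP22, hQ00, hQ10, hQ01, hQ20, hQ11, hQ02, hQ21, hQ12, hQ22⟩ := id he
  have e0 : (0 : k) = P00 := by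
    linear_combination (norm := skip) (1) * hP00
    clear * - hp ; grind
  subst e0
  have e0 : (0 : k) = Q00 := by
    linear_combination (norm := skip) (1) * hQ00
    clear * - hp ; grind
  subst e0
  have e0 : (1 : k) = P10 := by
    linear_combination (norm := skip) (1) * hP10
    clear * - hp ; grind
  subst e0
  have e0 : (0 : k) = P01 := by
    linear_combination (norm := skip) (1) * hP01
    clear * - hp ; grind
  subst e0
  have e0 : (0 : k) = Q10 := by
    linear_combination (norm := skip) (1) * hQ10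
    clear * - hp ; grind
  subst e0
  have e0 : (1 : k) = Q01 := by
    linear_combination (norm := skip) (1) * hQ01
    clear * - hp ; grind
  subst e0
  have e0 : (0 : k) = P20 := by
    linear_combination (norm := skip) (1) * hP20
    clear * - hp ; grind
  subst e0
  have e0 : (0 : k) = P11 := by
    linear_combination (norm := skip) (1) * hP11
    clear * - hp ; grind
  subst e0
  have e0 : (0 : k) = P02 := by
    linear_combination (norm := skip) (1) * hP02
    clear * - hp ; grind
  subst e0
  have e0 : (0 : k) = Q20 := by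
    linear_combination (norm := skip) (1) * hQ20
    clear * - hp ; grind
  subst e0
  have e0 : (0 : k) = Q11 := by
    linear_combination (norm := skip) (1) * hQ11
    clear * - hp ; grind
  subst e0
  have e0 : (0 : k) = Q02 := by
    linear_combination (norm := skip) (1) * hQ02
    clear * - hp ; grind
  subst e0
  exact Has.of_rel ⟨_, _, _, _, _, _, _, _, _, _, _, _, _, _, _, _, hc, he⟩ (hO_3 _ _ _ _ _ _)

theorem hJ_4 (p22 q21 q22 : k) :
    Has 0 1 1 0 0 0 0 0 p22 0 0 1 0 0 0 q21 0 q22 := by
  have hc : (1) * (1) - (0) * (0) ≠ (0 : k) := by simp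
  obtain ⟨P00, P10, P01, P20, P11, P02, P21, P12, P22, Q00, Q10, Q01, Q20, Q11, Q02, Q21, Q12, Q22, he⟩ := act 1 0 0 0 0 0 0 (-p22 - q22) 0 1 0 0 0 0 0 (-q22) hc 0 1 1 0 0 0 0 0 p22 0 0 1 0 0 0 q21 0 q22
  obtain ⟨hP00, hP10, hP01, hP20, hP11, hP02, hP21, hP12, hP22, hQ00, hQ10, hQ01, hQ20, hQ11, hQ02, hQ21, hQ12, hQ22⟩ := id he
  have e0 : (0 : k) = P00 := by
    linear_combination (norm := skip) (1) * hP00
    clear * - hp ; grind
  subst e0
  have e0 : (0 : k) = Q00 := by
    linear_combination (norm := skip) (1) * hQ00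
    clear * - hp ; grind
  subst e0
  have e0 : (1 : k) = P10 := by
    linear_combination (norm := skip) (1) * hP10
    clear * - hp ; grind
  subst e0
  have e0 : (1 : k) = P01 := by
    linear_combination (norm := skip) (1) * hP01
    clear * - hp ; grind
  subst e0
  have e0 : (0 : k) = Q10 := by
    linear_combination (norm := skip) (1) * hQ10
    clear * - hp ; grind
  subst e0
  have e0 : (1 : k) = Q01 := by
    linear_combination (norm := skip) (1) * hQ01
    clear * - hp ; grind
  subst e0
  have e0 : (0 : k) = P20 := by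
    linear_combination (norm := skip) (1) * hP20
    clear * - hp ; grind
  subst e0
  have e0 : (0 : k) = P11 := by
    linear_combination (norm := skip) (1) * hP11
    clear * - hp ; grind
  subst e0
  have e0 : (0 : k) = P02 := by
    linear_combination (norm := skip) (1) * hP02
    clear * - hp ; grind
  subst e0
  have e0 : (0 : k) = Q20 := by
    linear_combination (norm := skip) (1) * hQ20
    clear * - hp ; grind
  subst e0
  have e0 : (0 : k) = Q11 := by
    linear_combination (norm := skip) (1) * hQ11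
    clear * - hp ; grind
  subst e0
  have e0 : (0 : k) = Q02 := by
    linear_combination (norm := skip) (1) * hQ02
    clear * - hp ; grind
  subst e0
  have e0 : (0 : k) = P21 := by
    linear_combination (norm := skip) (1) * hP21
    clear * - hp ; grind
  subst e0
  have e0 : (0 : k) = P12 := by
    linear_combination (norm := skip) (1) * hP12
    clear * - hp ; grind
  subst e0
  have e0 : (q21 : k) = Q21 := by
    linear_combination (norm := skip) (1) * hQ21
    clear * - hp ; grind
  subst e0
  have e0 : (0 : k) = Q12 := by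
    linear_combination (norm := skip) (1) * hQ12
    clear * - hp ; grind
  subst e0
  have e0 : (0 : k) = P22 := by
    linear_combination (norm := skip) (1) * hP22
    clear * - hp ; grind
  subst e0
  have e0 : (0 : k) = Q22 := by
    linear_combination (norm := skip) (1) * hQ22
    clear * - hp ; grind
  subst e0
  exact Has.of_rel ⟨_, _, _, _, _, _, _, _, _, _, _, _, _, _, _, _, hc, he⟩ (has_B7 ..)

theorem hJ_3 (p21 p12 p22 q21 q12 q22 : k) :
    Has 0 1 1 0 0 0 p21 p12 p22 0 0 1 0 0 0 q21 q12 q22 := by
  have hc : (1) * (1) - (0) * (0) ≠ (0 : k) := by simp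
  obtain ⟨P00, P10, P01, P20, P11, P02, P21, P12, P22, Q00, Q10, Q01, Q20, Q11, Q02, Q21, Q12, Q22, he⟩ := act 1 0 0 0 0 (-p12 - p21) 0 0 0 1 0 0 0 (-p21 - q12) (-p12 + p21) 0 hc 0 1 1 0 0 0 p21 p12 p22 0 0 1 0 0 0 q21 q12 q22
  obtain ⟨hP00, hP10, hP01, hP20, hP11, hP02, hP21, hP12, hP22, hQ00, hQ10, hQ01, hQ20, hQ11, hQ02, hQ21, hQ12, hQ22⟩ := id he
  have e0 : (0 : k) = P00 := by
    linear_combination (norm := skip) (1) * hP00
    clear * - hp ; grind
  subst e0
  have e0 : (0 : k) = Q00 := by
    linear_combination (norm := skip) (1) * hQ00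
    clear * - hp ; grind
  subst e0
  have e0 : (1 : k) = P10 := by
    linear_combination (norm := skip) (1) * hP10
    clear * - hp ; grind
  subst e0
  have e0 : (1 : k) = P01 := by
    linear_combination (norm := skip) (1) * hP01
    clear * - hp ; grind
  subst e0
  have e0 : (0 : k) = Q10 := by
    linear_combination (norm := skip) (1) * hQ10
    clear * - hp ; grind
  subst e0
  have e0 : (1 : k) = Q01 := by
    linear_combination (norm := skip) (1) * hQ01
    clear * - hp ; grind
  subst e0
  have e0 : (0 : k) = P20 := by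
    linear_combination (norm := skip) (1) * hP20
    clear * - hp ; grind
  subst e0
  have e0 : (0 : k) = P11 := by
    linear_combination (norm := skip) (1) * hP11
    clear * - hp ; grind
  subst e0
  have e0 : (0 : k) = P02 := by
    linear_combination (norm := skip) (1) * hP02
    clear * - hp ; grind
  subst e0
  have e0 : (0 : k) = Q20 := by
    linear_combination (norm := skip) (1) * hQ20
    clear * - hp ; grind
  subst e0
  have e0 : (0 : k) = Q11 := by
    linear_combination (norm := skip) (1) * hQ11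
    clear * - hp ; grind
  subst e0
  have e0 : (0 : k) = Q02 := by
    linear_combination (norm := skip) (1) * hQ02
    clear * - hp ; grind
  subst e0
  have e0 : (0 : k) = P21 := by
    linear_combination (norm := skip) (1) * hP21
    clear * - hp ; grind
  subst e0
  have e0 : (0 : k) = P12 := by
    linear_combination (norm := skip) (1) * hP12
    clear * - hp ; grind
  subst e0
  have e0 : (0 : k) = Q12 := by
    linear_combination (norm := skip) (1) * hQ12
    clear * - hp ; grind
  subst e0
  exact Has.of_rel ⟨_, _, _, _, _, _, _, _, _, _, _, _, _, _, _, _, hc, he⟩ (hJ_4 _ _ _)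

theorem hJ_2 (p20 p11 p02 p21 p12 p22 q20 q11 q02 q21 q12 q22 : k) :
    Has 0 1 1 p20 p11 p02 p21 p12 p22 0 0 1 q20 q11 q02 q21 q12 q22 := by
  have hc : (1) * (1) - (0) * (0) ≠ (0 : k) := by simp
  obtain ⟨P00, P10, P01, P20, P11, P02, P21, P12, P22, Q00, Q10, Q01, Q20, Q11, Q02, Q21, Q12, Q22, he⟩ := act 1 0 (-p20 - q11 + q20) (-p20 + q02 - q20) (p02 + p11 - p20 - q02 + q11) 0 0 0 0 1 q20 (p20 + q20) (-p11 - q02 - q11 - q20) 0 0 0 hc 0 1 1 p20 p11 p02 p21 p12 p22 0 0 1 q20 q11 q02 q21 q12 q22
  obtain ⟨hP00, hP10, hP01, hP20, hP11, hP02, hP21, hP12, hP22, hQ00, hQ10, hQ01, hQ20, hQ11, hQ02, hQ21, hQ12, hQ22⟩ := id he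
  have e0 : (0 : k) = P00 := by
    linear_combination (norm := skip) (1) * hP00
    clear * - hp ; grind
  subst e0
  have e0 : (0 : k) = Q00 := by
    linear_combination (norm := skip) (1) * hQ00
    clear * - hp ; grind
  subst e0
  have e0 : (1 : k) = P10 := by
    linear_combination (norm := skip) (1) * hP10
    clear * - hp ; grind
  subst e0
  have e0 : (1 : k) = P01 := by
    linear_combination (norm := skip) (1) * hP01
    clear * - hp ; grind
  subst e0
  have e0 : (0 : k) = Q10 := by
    linear_combination (norm := skip) (1) * hQ10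
    clear * - hp ; grind
  subst e0
  have e0 : (1 : k) = Q01 := by
    linear_combination (norm := skip) (1) * hQ01
    clear * - hp ; grind
  subst e0
  have e0 : (0 : k) = P20 := by
    linear_combination (norm := skip) (1) * hP20
    clear * - hp ; grind
  subst e0
  have e0 : (0 : k) = P11 := by
    linear_combination (norm := skip) (1) * hP11
    clear * - hp ; grind
  subst e0
  have e0 : (0 : k) = P02 := by
    linear_combination (norm := skip) (1) * hP02
    clear * - hp ; grind
  subst e0
  have e0 : (0 : k) = Q20 := by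
    linear_combination (norm := skip) (1) * hQ20
    clear * - hp ; grind
  subst e0
  have e0 : (0 : k) = Q11 := by
    linear_combination (norm := skip) (1) * hQ11
    clear * - hp ; grind
  subst e0
  have e0 : (0 : k) = Q02 := by
    linear_combination (norm := skip) (1) * hQ02
    clear * - hp ; grind
  subst e0
  exact Has.of_rel ⟨_, _, _, _, _, _, _, _, _, _, _, _, _, _, _, _, hc, he⟩ (hJ_3 _ _ _ _ _ _)

theorem hN_s (c a b d e : k) :
    Has 0 0 1 0 0 0 c 0 0 0 0 0 a b 0 d 0 e := by
  by_cases ha : a = 0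
  · subst ha
    by_cases hb : b = 0
    · subst hb
      by_cases hd : d = 0
      · subst hd
        exact has_B11 c e
      · exact Has.of_rel (S1n_to c 0 0 d e 0 0 0 1 0 ⟨1, d, d⁻¹, c, 0, 0, 0, -e, by simp,
          mul_inv_cancel₀ hd, by simp, by simp, by field_simp; ring, by simp [hd],
          by field_simp; ring⟩) has_B10
    · have h1 : ∀ d e : k, Has 0 0 1 0 0 0 0 0 0 0 0 0 0 1 0 d 0 e := fun d e =>
        Has.of_rel (S1n_to 0 0 1 d e 0 0 1 d 0 ⟨1, 1, 1, 0, 0, e, 0, 0, by simp, by simp, by simp,
          by simp, by simp, by simp, by simp⟩) (has_B9 d)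
      have h2 : ∀ c d e : k, Has 0 0 1 0 0 0 c 0 0 0 0 0 0 1 0 d 0 e := fun c d e =>
        Has.of_rel (S1n_to c 0 1 d e 0 0 1 _ _ ⟨1, 1, 1, 0, 0, 0, 0, c, by simp, by simp, by simp,
          by simp, by simp, rfl, rfl⟩) (h1 _ _)
      exact Has.of_rel (S1n_to c 0 b d e _ 0 1 _ _ ⟨1, b, b⁻¹, 0, 0, 0, 0, 0, by simp,
        mul_inv_cancel₀ hb, by simp, (mul_inv_cancel₀ hb).symm, rfl, rfl, rfl⟩) (h2 _ _ _)
  · have h1 : ∀ b e : k, Has 0 0 1 0 0 0 0 0 0 0 0 0 1 b 0 0 0 e := fun b e =>
      Has.of_rel (S1n_to 0 1 b 0 e 0 1 b 0 0 ⟨1, 1, 1, 0, -e, 0, 0, 0, by simp, by simp, by simp,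
        by simp, by simp, by simp, by simp⟩) (has_B8 b)
    have h2 : ∀ c b e : k, Has 0 0 1 0 0 0 c 0 0 0 0 0 1 b 0 0 0 e := fun c b e =>
      Has.of_rel (S1n_to c 1 b 0 e 0 1 b 0 _ ⟨1, 1, 1, 0, 0, 0, -c, 0, by simp, by simp, by simp,
        by simp, by simp, by simp, rfl⟩) (h1 _ _)
    obtain ⟨u, hu⟩ := rootn a ha 2 (by norm_num)
    obtain ⟨r, hr⟩ := IsAlgClosed.exists_pow_nat_eq (-d * u) (n := 3) (by norm_num)
    exact Has.of_rel (S1n_to c a b d e _ 1 _ 0 _ ⟨1, a * u, u, r, 0, 0, 0, 0, by simp,
      by linear_combination hu, by linear_combination -hu, rfl, rfl,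
      by linear_combination -hr - (a * u ^ 2 + 1) * r ^ 3 * hu, rfl⟩) (h2 _ _ _)

theorem hN_4 (p21 p22 q20 q11 q21 q22 : k) :
    Has 0 0 1 0 0 0 p21 0 p22 0 0 0 q20 q11 0 q21 0 q22 := by
  have hc : (1) * (1) - (0) * (0) ≠ (0 : k) := by simp
  obtain ⟨P00, P10, P01, P20, P11, P02, P21, P12, P22, Q00, Q10, Q01, Q20, Q11, Q02, Q21, Q12, Q22, he⟩ := act 1 0 0 0 0 0 0 0 0 1 0 0 0 0 0 p22 hc 0 0 1 0 0 0 p21 0 p22 0 0 0 q20 q11 0 q21 0 q22
  obtain ⟨hP00, hP10, hP01, hP20, hP11, hP02, hP21, hP12, hP22, hQ00, hQ10, hQ01, hQ20, hQ11, hQ02, hQ21, hQ12, hQ22⟩ := id he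
  have e0 : (0 : k) = P00 := by
    linear_combination (norm := skip) (1) * hP00
    clear * - hp ; grind
  subst e0
  have e0 : (0 : k) = Q00 := by
    linear_combination (norm := skip) (1) * hQ00
    clear * - hp ; grind
  subst e0
  have e0 : (0 : k) = P10 := by
    linear_combination (norm := skip) (1) * hP10
    clear * - hp ; grind
  subst e0
  have e0 : (1 : k) = P01 := by
    linear_combination (norm := skip) (1) * hP01
    clear * - hp ; grind
  subst e0
  have e0 : (0 : k) = Q10 := by
    linear_combination (norm := skip) (1) * hQ10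
    clear * - hp ; grind
  subst e0
  have e0 : (0 : k) = Q01 := by
    linear_combination (norm := skip) (1) * hQ01
    clear * - hp ; grind
  subst e0
  have e0 : (0 : k) = P20 := by
    linear_combination (norm := skip) (1) * hP20
    clear * - hp ; grind
  subst e0
  have e0 : (0 : k) = P11 := by
    linear_combination (norm := skip) (1) * hP11
    clear * - hp ; grind
  subst e0
  have e0 : (0 : k) = P02 := by
    linear_combination (norm := skip) (1) * hP02
    clear * - hp ; grind
  subst e0
  have e0 : (q20 : k) = Q20 := by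
    linear_combination (norm := skip) (1) * hQ20
    clear * - hp ; grind
  subst e0
  have e0 : (q11 : k) = Q11 := by
    linear_combination (norm := skip) (1) * hQ11
    clear * - hp ; grind
  subst e0
  have e0 : (0 : k) = Q02 := by
    linear_combination (norm := skip) (1) * hQ02
    clear * - hp ; grind
  subst e0
  have e0 : (p21 : k) = P21 := by
    linear_combination (norm := skip) (1) * hP21
    clear * - hp ; grind
  subst e0
  have e0 : (0 : k) = P12 := by
    linear_combination (norm := skip) (1) * hP12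
    clear * - hp ; grind
  subst e0
  have e0 : (q21 : k) = Q21 := by
    linear_combination (norm := skip) (1) * hQ21
    clear * - hp ; grind
  subst e0
  have e0 : (0 : k) = Q12 := by
    linear_combination (norm := skip) (1) * hQ12
    clear * - hp ; grind
  subst e0
  have e0 : (0 : k) = P22 := by
    linear_combination (norm := skip) (1) * hP22
    clear * - hp ; grind
  subst e0
  exact Has.of_rel ⟨_, _, _, _, _, _, _, _, _, _, _, _, _, _, _, _, hc, he⟩ (hN_s ..)

theorem hN_3 (p21 p12 p22 q20 q11 q21 q12 q22 : k) :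
    Has 0 0 1 0 0 0 p21 p12 p22 0 0 0 q20 q11 0 q21 q12 q22 := by
  have hc : (1) * (1) - (0) * (0) ≠ (0 : k) := by simp
  obtain ⟨P00, P10, P01, P20, P11, P02, P21, P12, P22, Q00, Q10, Q01, Q20, Q11, Q02, Q21, Q12, Q22, he⟩ := act 1 0 0 0 0 p12 0 0 0 1 0 0 0 (-q12) 0 0 hc 0 0 1 0 0 0 p21 p12 p22 0 0 0 q20 q11 0 q21 q12 q22
  obtain ⟨hP00, hP10, hP01, hP20, hP11, hP02, hP21, hP12, hP22, hQ00, hQ10, hQ01, hQ20, hQ11, hQ02, hQ21, hQ12, hQ22⟩ := id he
  have e0 : (0 : k) = P00 := by
    linear_combination (norm := skip) (1) * hP00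
    clear * - hp ; grind
  subst e0
  have e0 : (0 : k) = Q00 := by
    linear_combination (norm := skip) (1) * hQ00
    clear * - hp ; grind
  subst e0
  have e0 : (0 : k) = P10 := by
    linear_combination (norm := skip) (1) * hP10
    clear * - hp ; grind
  subst e0
  have e0 : (1 : k) = P01 := by
    linear_combination (norm := skip) (1) * hP01
    clear * - hp ; grind
  subst e0
  have e0 : (0 : k) = Q10 := by
    linear_combination (norm := skip) (1) * hQ10
    clear * - hp ; grind
  subst e0
  have e0 : (0 : k) = Q01 := by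
    linear_combination (norm := skip) (1) * hQ01
    clear * - hp ; grind
  subst e0
  have e0 : (0 : k) = P20 := by
    linear_combination (norm := skip) (1) * hP20
    clear * - hp ; grind
  subst e0
  have e0 : (0 : k) = P11 := by
    linear_combination (norm := skip) (1) * hP11
    clear * - hp ; grind
  subst e0
  have e0 : (0 : k) = P02 := by
    linear_combination (norm := skip) (1) * hP02
    clear * - hp ; grind
  subst e0
  have e0 : (q20 : k) = Q20 := by
    linear_combination (norm := skip) (1) * hQ20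
    clear * - hp ; grind
  subst e0
  have e0 : (q11 : k) = Q11 := by
    linear_combination (norm := skip) (1) * hQ11
    clear * - hp ; grind
  subst e0
  have e0 : (0 : k) = Q02 := by
    linear_combination (norm := skip) (1) * hQ02
    clear * - hp ; grind
  subst e0
  have e0 : (0 : k) = P12 := by
    linear_combination (norm := skip) (1) * hP12
    clear * - hp ; grind
  subst e0
  have e0 : (0 : k) = Q12 := by
    linear_combination (norm := skip) (1) * hQ12
    clear * - hp ; grind
  subst e0
  exact Has.of_rel ⟨_, _, _, _, _, _, _, _, _, _, _, _, _, _, _, _, hc, he⟩ (hN_4 _ _ _ _ _ _)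

theorem hN_2 (p20 p11 p02 p21 p12 p22 q20 q11 q02 q21 q12 q22 : k) :
    Has 0 0 1 p20 p11 p02 p21 p12 p22 0 0 0 q20 q11 q02 q21 q12 q22 := by
  have hc : (1) * (1) - (0) * (0) ≠ (0 : k) := by simp
  obtain ⟨P00, P10, P01, P20, P11, P02, P21, P12, P22, Q00, Q10, Q01, Q20, Q11, Q02, Q21, Q12, Q22, he⟩ := act 1 0 p11 (-p02) 0 0 0 0 0 1 (-p20) q02 0 0 0 0 hc 0 0 1 p20 p11 p02 p21 p12 p22 0 0 0 q20 q11 q02 q21 q12 q22
  obtain ⟨hP00, hP10, hP01, hP20, hP11, hP02, hP21, hP12, hP22, hQ00, hQ10, hQ01, hQ20, hQ11, hQ02, hQ21, hQ12, hQ22⟩ := id he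
  have e0 : (0 : k) = P00 := by
    linear_combination (norm := skip) (1) * hP00
    clear * - hp ; grind
  subst e0
  have e0 : (0 : k) = Q00 := by
    linear_combination (norm := skip) (1) * hQ00
    clear * - hp ; grind
  subst e0
  have e0 : (0 : k) = P10 := by
    linear_combination (norm := skip) (1) * hP10
    clear * - hp ; grind
  subst e0
  have e0 : (1 : k) = P01 := by
    linear_combination (norm := skip) (1) * hP01
    clear * - hp ; grind
  subst e0
  have e0 : (0 : k) = Q10 := by
    linear_combination (norm := skip) (1) * hQ10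
    clear * - hp ; grind
  subst e0
  have e0 : (0 : k) = Q01 := by
    linear_combination (norm := skip) (1) * hQ01
    clear * - hp ; grind
  subst e0
  have e0 : (0 : k) = P20 := by
    linear_combination (norm := skip) (1) * hP20
    clear * - hp ; grind
  subst e0
  have e0 : (0 : k) = P11 := by
    linear_combination (norm := skip) (1) * hP11
    clear * - hp ; grind
  subst e0
  have e0 : (0 : k) = P02 := by
    linear_combination (norm := skip) (1) * hP02
    clear * - hp ; grind
  subst e0
  have e0 : (0 : k) = Q02 := by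
    linear_combination (norm := skip) (1) * hQ02
    clear * - hp ; grind
  subst e0
  exact Has.of_rel ⟨_, _, _, _, _, _, _, _, _, _, _, _, _, _, _, _, hc, he⟩ (hN_3 _ _ _ _ _ _ _ _)


end Pool.Agent.W23
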