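import Pool.Agent.P.MP_c9b50d_al.Ex2
import Pool.Agent.P.MP_c9b50d_al.Ex1a
import Pool.Agent.P.MP_c9b50d_al.Ex1b

namespace Pool.Agent.W23

variable {k : Type*} [Field k] [hp : CharP k 3]

variable [IsAlgClosed k]

set_option linter.unusedSectionVars false

theorem h1_l (p20 p11 p02 p21 p12 p22 l q20 q11 q02 q21 q12 q22 : k) :
    Has 0 1 0 p20 p11 p02 p21 p12 p22 0 0 l q20 q11 q02 q21 q12 q22 := by
  by_cases h0 : l = 0
  · subst h0
    exact hZ_2 ..
  by_cases h1 : l - 1 = 0
  · have e : 1 = l := by linear_combination -h1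
    subst e
    exact hO_2 ..
  by_cases h2 : l + 1 = 0
  · have e : -1 = l := by linear_combination -h2
    subst e
    exact hM_2 ..
  exact hG_2 _ _ _ _ _ _ _ _ _ _ _ _ _ _ _ _ (mul_inv_cancel₀ h0) (mul_inv_cancel₀ h1)
    (mul_inv_cancel₀ h2)

theorem h1_d1 (a p20 p11 p02 p21 p12 p22 b q20 q11 q02 q21 q12 q22 : k) (ha : a ≠ 0) :
    Has 0 a 0 p20 p11 p02 p21 p12 p22 0 0 b q20 q11 q02 q21 q12 q22 := by
  obtain ⟨w, hw⟩ : ∃ w, a * w = 1 := ⟨(a)⁻¹, mul_inv_cancel₀ ha⟩
  have hc : (a) * (1) - (0) * (0) ≠ (0 : k) := by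
    clear * - hp hw; grind
  obtain ⟨P00, P10, P01, P20, P11, P02, P21, P12, P22, Q00, Q10, Q01, Q20, Q11, Q02, Q21, Q12, Q22, he⟩ := act a 0 0 0 0 0 0 0 0 1 0 0 0 0 0 0 hc 0 a 0 p20 p11 p02 p21 p12 p22 0 0 b q20 q11 q02 q21 q12 q22
  obtain ⟨hP00, hP10, hP01, hP20, hP11, hP02, hP21, hP12, hP22, hQ00, hQ10, hQ01, hQ20, hQ11, hQ02, hQ21, hQ12, hQ22⟩ := id he
  have e0 : (0 : k) = P00 := by
    linear_combination (norm := skip) (w*w) * hP00
    clear * - hp hw; grind
  subst e0
  have e0 : (0 : k) = Q00 := by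
    linear_combination (norm := skip) (w) * hQ00
    clear * - hp hw; grind
  subst e0
  have e0 : (1 : k) = P10 := by
    linear_combination (norm := skip) (w*w) * hP10
    clear * - hp hw; grind
  subst e0
  have e0 : (0 : k) = P01 := by
    linear_combination (norm := skip) (w*w) * hP01
    clear * - hp hw; grind
  subst e0
  have e0 : (0 : k) = Q10 := by
    linear_combination (norm := skip) (w) * hQ10
    clear * - hp hw; grind
  subst e0
  have e0 : (b*w : k) = Q01 := by
    linear_combination (norm := skip) (w) * hQ01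
    clear * - hp hw; grind
  subst e0
  exact Has.of_rel ⟨_, _, _, _, _, _, _, _, _, _, _, _, _, _, _, _, hc, he⟩ (h1_l ..)

theorem h1_d (a p20 p11 p02 p21 p12 p22 b q20 q11 q02 q21 q12 q22 : k) :
    Has 0 a 0 p20 p11 p02 p21 p12 p22 0 0 b q20 q11 q02 q21 q12 q22 := by
  by_cases ha : a = 0
  · subst ha
    by_cases hb : b = 0
    · subst hb
      exact h2_all ..
    · have hc : (0) * (0) - (1) * (1) ≠ (0 : k) := by
        clear * - hp ; grind
      obtain ⟨P00, P10, P01, P20, P11, P02, P21, P12, P22, Q00, Q10, Q01, Q20, Q11, Q02, Q21, Q12, Q22, he⟩ := act 0 1 0 0 0 0 0 0 1 0 0 0 0 0 0 0 hc 0 0 0 p20 p11 p02 p21 p12 p22 0 0 b q20 q11 q02 q21 q12 q22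
      obtain ⟨hP00, hP10, hP01, hP20, hP11, hP02, hP21, hP12, hP22, hQ00, hQ10, hQ01, hQ20, hQ11, hQ02, hQ21, hQ12, hQ22⟩ := id he
      have e0 : (0 : k) = P00 := by
        linear_combination (norm := skip) (-1) * hQ00
        clear * - hp ; grind
      subst e0
      have e0 : (0 : k) = Q00 := by
        linear_combination (norm := skip) (-1) * hP00
        clear * - hp ; grind
      subst e0
      have e0 : (-b : k) = P10 := by
        linear_combination (norm := skip) (-1) * hQ10
        clear * - hp ; grind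
      subst e0
      have e0 : (0 : k) = P01 := by
        linear_combination (norm := skip) (-1) * hQ01
        clear * - hp ; grind
      subst e0
      have e0 : (0 : k) = Q10 := by
        linear_combination (norm := skip) (-1) * hP10
        clear * - hp ; grind
      subst e0
      have e0 : (0 : k) = Q01 := by
        linear_combination (norm := skip) (-1) * hP01
        clear * - hp ; grind
      subst e0
      exact Has.of_rel ⟨_, _, _, _, _, _, _, _, _, _, _, _, _, _, _, _, hc, he⟩ (h1_d1 _ _ _ _ _ _ _ _ _ _ _ _ _ _ (neg_ne_zero.mpr hb))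
  · exact h1_d1 _ _ _ _ _ _ _ _ _ _ _ _ _ _ ha

theorem h1_t (a c p20 p11 p02 p21 p12 p22 b q20 q11 q02 q21 q12 q22 : k) :
    Has 0 a c p20 p11 p02 p21 p12 p22 0 0 b q20 q11 q02 q21 q12 q22 := by
  by_cases h : a - b = 0
  · have e : a = b := sub_eq_zero.mp h
    subst e
    by_cases hc0 : c = 0
    · subst hc0
      exact h1_d ..
    · obtain ⟨z, hz⟩ := rootn c hc0 2 (by norm_num)
      obtain ⟨s, hs⟩ : ∃ s, s = c * z := ⟨_, rfl⟩
      have hz1 : s * z = 1 := by rw [hs]; linear_combination hz
      have hz2 : c * z * z = 1 := by linear_combination hz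
      by_cases ha : a = 0
      · subst ha
        have hc : (s) * (1) - (0) * (0) ≠ (0 : k) := by
          clear * - hp hz1 hz2; grind
        obtain ⟨P00, P10, P01, P20, P11, P02, P21, P12, P22, Q00, Q10, Q01, Q20, Q11, Q02, Q21, Q12, Q22, he⟩ := act s 0 0 0 0 0 0 0 0 1 0 0 0 0 0 0 hc 0 0 c p20 p11 p02 p21 p12 p22 0 0 0 q20 q11 q02 q21 q12 q22
        obtain ⟨hP00, hP10, hP01, hP20, hP11, hP02, hP21, hP12, hP22, hQ00, hQ10, hQ01, hQ20, hQ11, hQ02, hQ21, hQ12, hQ22⟩ := id he
        have e0 : (0 : k) = P00 := by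
          linear_combination (norm := skip) (z*z) * hP00
          clear * - hp hz1 hz2; grind
        subst e0
        have e0 : (0 : k) = Q00 := by
          linear_combination (norm := skip) (z) * hQ00
          clear * - hp hz1 hz2; grind
        subst e0
        have e0 : (0 : k) = P10 := by
          linear_combination (norm := skip) (z*z) * hP10
          clear * - hp hz1 hz2; grind
        subst e0
        have e0 : (1 : k) = P01 := by
          linear_combination (norm := skip) (z*z) * hP01
          clear * - hp hz1 hz2; grind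
        subst e0
        have e0 : (0 : k) = Q10 := by
          linear_combination (norm := skip) (z) * hQ10
          clear * - hp hz1 hz2; grind
        subst e0
        have e0 : (0 : k) = Q01 := by
          linear_combination (norm := skip) (z) * hQ01
          clear * - hp hz1 hz2; grind
        subst e0
        exact Has.of_rel ⟨_, _, _, _, _, _, _, _, _, _, _, _, _, _, _, _, hc, he⟩ (hN_2 ..)
      · obtain ⟨w, hw⟩ : ∃ w, a * w = 1 := ⟨(a)⁻¹, mul_inv_cancel₀ ha⟩
        have hc : (s) * (a*z) - (0) * (0) ≠ (0 : k) := by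
          clear * - hp hz1 hz2 hw; grind
        obtain ⟨P00, P10, P01, P20, P11, P02, P21, P12, P22, Q00, Q10, Q01, Q20, Q11, Q02, Q21, Q12, Q22, he⟩ := act s 0 0 0 0 0 0 0 0 (a*z) 0 0 0 0 0 0 hc 0 a c p20 p11 p02 p21 p12 p22 0 0 a q20 q11 q02 q21 q12 q22
        obtain ⟨hP00, hP10, hP01, hP20, hP11, hP02, hP21, hP12, hP22, hQ00, hQ10, hQ01, hQ20, hQ11, hQ02, hQ21, hQ12, hQ22⟩ := id he
        have e0 : (0 : k) = P00 := by
          linear_combination (norm := skip) (w*z) * hP00
          clear * - hp hz1 hz2 hw; grind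
        subst e0
        have e0 : (0 : k) = Q00 := by
          linear_combination (norm := skip) (s*w*w) * hQ00
          clear * - hp hz1 hz2 hw; grind
        subst e0
        have e0 : (1 : k) = P10 := by
          linear_combination (norm := skip) (w*z) * hP10
          clear * - hp hz1 hz2 hw; grind
        subst e0
        have e0 : (1 : k) = P01 := by
          linear_combination (norm := skip) (w*z) * hP01
          clear * - hp hz1 hz2 hw; grind
        subst e0
        have e0 : (0 : k) = Q10 := by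
          linear_combination (norm := skip) (s*w*w) * hQ10
          clear * - hp hz1 hz2 hw; grind
        subst e0
        have e0 : (1 : k) = Q01 := by
          linear_combination (norm := skip) (s*w*w) * hQ01
          clear * - hp hz1 hz2 hw; grind
        subst e0
        exact Has.of_rel ⟨_, _, _, _, _, _, _, _, _, _, _, _, _, _, _, _, hc, he⟩ (hJ_2 ..)
  · obtain ⟨w, hw⟩ : ∃ w, (a - b) * w = 1 := ⟨((a - b))⁻¹, mul_inv_cancel₀ h⟩
    have hc : (1) * (1) - (-c*w) * (0) ≠ (0 : k) := by
      clear * - hp hw; grind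
    obtain ⟨P00, P10, P01, P20, P11, P02, P21, P12, P22, Q00, Q10, Q01, Q20, Q11, Q02, Q21, Q12, Q22, he⟩ := act 1 (-c*w) 0 0 0 0 0 0 0 1 0 0 0 0 0 0 hc 0 a c p20 p11 p02 p21 p12 p22 0 0 b q20 q11 q02 q21 q12 q22
    obtain ⟨hP00, hP10, hP01, hP20, hP11, hP02, hP21, hP12, hP22, hQ00, hQ10, hQ01, hQ20, hQ11, hQ02, hQ21, hQ12, hQ22⟩ := id he
    have e0 : (0 : k) = Q00 := by
      linear_combination (norm := skip) (1) * hQ00
      clear * - hp hw; grind
    subst e0
    have e0 : (0 : k) = P00 := by
      linear_combination (norm := skip) (1) * hP00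
      clear * - hp hw; grind
    subst e0
    have e0 : (0 : k) = Q10 := by
      linear_combination (norm := skip) (1) * hQ10
      clear * - hp hw; grind
    subst e0
    have e0 : (a : k) = P10 := by
      linear_combination (norm := skip) (1) * hP10
      clear * - hp hw; grind
    subst e0
    have e0 : (b : k) = Q01 := by
      linear_combination (norm := skip) (1) * hQ01
      clear * - hp hw; grind
    subst e0
    have e0 : (0 : k) = P01 := by
      linear_combination (norm := skip) (1) * hP01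
      clear * - hp hw; grind
    subst e0
    exact Has.of_rel ⟨_, _, _, _, _, _, _, _, _, _, _, _, _, _, _, _, hc, he⟩ (h1_d ..)

theorem h1_all (p10 p01 p20 p11 p02 p21 p12 p22 q10 q01 q20 q11 q02 q21 q12 q22 : k) :
    Has 0 p10 p01 p20 p11 p02 p21 p12 p22 0 q10 q01 q20 q11 q02 q21 q12 q22 := by
  by_cases h : p01 = 0
  · subst h
    have hc : (0) * (0) - (1) * (1) ≠ (0 : k) := by
      clear * - hp ; grind
    obtain ⟨P00, P10, P01, P20, P11, P02, P21, P12, P22, Q00, Q10, Q01, Q20, Q11, Q02, Q21, Q12, Q22, he⟩ := act 0 1 0 0 0 0 0 0 1 0 0 0 0 0 0 0 hc 0 p10 0 p20 p11 p02 p21 p12 p22 0 q10 q01 q20 q11 q02 q21 q12 q22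
    obtain ⟨hP00, hP10, hP01, hP20, hP11, hP02, hP21, hP12, hP22, hQ00, hQ10, hQ01, hQ20, hQ11, hQ02, hQ21, hQ12, hQ22⟩ := id he
    have e0 : (0 : k) = P00 := by
      linear_combination (norm := skip) (-1) * hQ00
      clear * - hp ; grind
    subst e0
    have e0 : (0 : k) = Q00 := by
      linear_combination (norm := skip) (-1) * hP00
      clear * - hp ; grind
    subst e0
    have e0 : (0 : k) = Q10 := by
      linear_combination (norm := skip) (-1) * hP10
      clear * - hp ; grind
    subst e0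
    exact Has.of_rel ⟨_, _, _, _, _, _, _, _, _, _, _, _, _, _, _, _, hc, he⟩ (h1_t ..)
  · obtain ⟨r, hr⟩ := root2 p01 (p10 - q01) (-q10) h
    have hc : (1) * (1) - (0) * (r) ≠ (0 : k) := by
      clear * - hp hr; grind
    obtain ⟨P00, P10, P01, P20, P11, P02, P21, P12, P22, Q00, Q10, Q01, Q20, Q11, Q02, Q21, Q12, Q22, he⟩ := act 1 0 0 0 0 0 0 0 r 1 0 0 0 0 0 0 hc 0 p10 p01 p20 p11 p02 p21 p12 p22 0 q10 q01 q20 q11 q02 q21 q12 q22
    obtain ⟨hP00, hP10, hP01, hP20, hP11, hP02, hP21, hP12, hP22, hQ00, hQ10, hQ01, hQ20, hQ11, hQ02, hQ21, hQ12, hQ22⟩ := id he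
    have e0 : (0 : k) = P00 := by
      linear_combination (norm := skip) (1) * hP00
      clear * - hp hr; grind
    subst e0
    have e0 : (0 : k) = Q00 := by
      linear_combination (norm := skip) (1) * hQ00
      clear * - hp hr; grind
    subst e0
    have e0 : (p10 + p01*r : k) = P10 := by
      linear_combination (norm := skip) (1) * hP10
      clear * - hp hr; grind
    subst e0
    have e0 : (0 : k) = Q10 := by
      linear_combination (norm := skip) (1) * hQ10
      clear * - hp hr; grind
    subst e0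
    exact Has.of_rel ⟨_, _, _, _, _, _, _, _, _, _, _, _, _, _, _, _, hc, he⟩ (h1_t ..)


end Pool.Agent.W23
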