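import Pool.Agent.P.MP_c9b50d_al.Bridge

namespace Pool.Agent.W23

variable {k : Type*} [Field k] [hp : CharP k 3]

theorem S2c_of (a b p21 p12 p22 q21 q12 q22 A B P21 P12 P22 Q21 Q12 Q22 : k) 
    (h : Rel 0 0 0 a b 0 p21 p12 p22 0 0 0 1 a b q21 q12 q22 0 0 0 A B 0 P21 P12 P22 0 0 0 1 A B Q21 Q12 Q22) :
    (∃ v01 ti v10 : k, v01 * ti = 1 ∧ A = a*ti + b*ti*ti*ti*v10 ∧ B = b*ti*ti) := by
  obtain ⟨u10, u01, u20, u11, u02, u21, u12, u22, v10, v01, v20, v11, v02, v21, v12, v22, hc, hP00, hP10, hP01, hP20, hP11, hP02, hP21, hP12, hP22, hQ00, hQ10, hQ01, hQ20, hQ11, hQ02, hQ21, hQ12, hQ22⟩ := h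

  have e1 : u01 * u01 * u01 = 0 := by clear * - hp hP02 hQ02; grind
  have e' : 0 = u01 := by clear * - hp e1; grind
  subst e'
  have h1 : v01 ≠ 0 := by clear * - hp hc; grind
  obtain ⟨ti, ht⟩ : ∃ ti, v01 * ti = 1 := ⟨v01⁻¹, mul_inv_cancel₀ h1⟩
  have e' : v01 * v01 = u10 := by clear * - hp hc hP20 hQ20; grind
  subst e'
  have e : a*ti + b*ti*ti*ti*v10 = A := by
    linear_combination (norm := skip) (ti^(5:ℕ)) * hP20
    clear * - hp ht; grind
  subst e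
  have e : b*ti*ti = B := by
    linear_combination (norm := skip) (ti^(5:ℕ)) * hP11
    clear * - hp ht; grind
  subst e
  refine ⟨v01, ti, v10, ht, ?_, ?_⟩
  all_goals (clear * - hp ht; grind)

theorem S2c0_of (d g e D G E : k) 
    (h : Rel 0 0 0 0 0 0 d g e 0 0 0 1 0 0 0 0 0 0 0 0 0 0 0 D G E 0 0 0 1 0 0 0 0 0) :
    (∃ v01 ti v10 u11 v11 : k, v01 * ti = 1 ∧ G = g*ti ∧ D = d + g*ti*ti*v10 ∧ E = e*v01 - d*ti*ti*u11 + d*d*ti*v10 + g*ti*ti*v11 + d*g*ti*ti*ti*v10*v10 + g*ti^(4:ℕ)*u11*v10 + g*g*ti^(5:ℕ)*v10*v10*v10) := by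
  obtain ⟨u10, u01, u20, u11, u02, u21, u12, u22, v10, v01, v20, v11, v02, v21, v12, v22, hc, hP00, hP10, hP01, hP20, hP11, hP02, hP21, hP12, hP22, hQ00, hQ10, hQ01, hQ20, hQ11, hQ02, hQ21, hQ12, hQ22⟩ := h

  have e1 : u01 * u01 * u01 = 0 := by clear * - hp hP02 hQ02; grind
  have e' : 0 = u01 := by clear * - hp e1; grind
  subst e'
  have h1 : v01 ≠ 0 := by clear * - hp hc; grind
  obtain ⟨ti, ht⟩ : ∃ ti, v01 * ti = 1 := ⟨v01⁻¹, mul_inv_cancel₀ h1⟩
  have e' : v01 * v01 = u10 := by clear * - hp hc hP20 hQ20; grind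
  subst e'
  have e' : g*v10 + D*v01*v01 - d*v01*v01 = u02 := by
    linear_combination (norm := skip) (-ti*ti*ti) * hP21
    clear * - hp ht; grind
  subst e'
  have e' : D*v10 + d*v10 + ti*u11 - g*ti*ti*v10*v10 = v02 := by
    linear_combination (norm := skip) (ti*ti*ti) * hQ21
    clear * - hp ht; grind
  subst e'
  have e' : g*ti = G := by
    linear_combination (norm := skip) (ti^(5:ℕ)) * hP12
    clear * - hp ht; grind
  subst e'
  have e' : d + g*ti*ti*v10 = D := by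
    linear_combination (norm := skip) (ti^(4:ℕ)) * hQ12
    clear * - hp ht; grind
  subst e'
  have e' : e*v01 - d*ti*ti*u11 + d*d*ti*v10 + g*ti*ti*v11 + d*g*ti*ti*ti*v10*v10 + g*ti^(4:ℕ)*u11*v10 + g*g*ti^(5:ℕ)*v10*v10*v10 = E := by
    linear_combination (norm := skip) (ti^(5:ℕ)) * hP22
    clear * - hp ht; grind
  subst e'
  have e' : -g*v20 + d*v01*v11 - d*ti*u11*v10 + e*v01*v01*v10 - g*ti*v10*v11 + ti*ti*u11*u11 + g*ti*ti*u20*v10 + g*ti*ti*ti*u11*v10*v10 = u12 := by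
    linear_combination (norm := skip) (-ti*ti) * hQ22
    clear * - hp ht; grind
  subst e'
  refine ⟨v01, ti, v10, u11, v11, ht, ?_, ?_, ?_⟩
  all_goals (clear * - hp ht; grind)

theorem S2c0_to (d g e D G E : k) 
    (h : (∃ v01 ti v10 u11 v11 : k, v01 * ti = 1 ∧ G = g*ti ∧ D = d + g*ti*ti*v10 ∧ E = e*v01 - d*ti*ti*u11 + d*d*ti*v10 + g*ti*ti*v11 + d*g*ti*ti*ti*v10*v10 + g*ti^(4:ℕ)*u11*v10 + g*g*ti^(5:ℕ)*v10*v10*v10)) :
    Rel 0 0 0 0 0 0 d g e 0 0 0 1 0 0 0 0 0 0 0 0 0 0 0 D G E 0 0 0 1 0 0 0 0 0 := by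
  rcases h with ⟨v01, ti, v10, u11, v11, ht, rfl, rfl, rfl⟩
  · refine ⟨v01*v01, 0, 0, u11, -g*v10, 0, d*v01*v11 - d*ti*u11*v10 + e*v01*v01*v10 - g*ti*v10*v11 + ti*ti*u11*u11 + g*ti*ti*ti*u11*v10*v10, 0, v10, v01, 0, v11, -d*v10 + ti*u11, 0, 0, 0, by grind, ?_, ?_, ?_, ?_, ?_, ?_, ?_, ?_, ?_, ?_, ?_, ?_, ?_, ?_, ?_, ?_, ?_, ?_⟩
    all_goals (clear * - hp ht; grind)

theorem S2c1_of (g G : k) 
    (h : Rel 0 0 0 0 1 0 0 0 0 0 0 0 1 0 1 g 0 0 0 0 0 0 1 0 0 0 0 0 0 0 1 0 1 G 0 0) :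
    (∃ v01 : k, v01 * v01 = 1 ∧ G = g*v01) := by
  obtain ⟨u10, u01, u20, u11, u02, u21, u12, u22, v10, v01, v20, v11, v02, v21, v12, v22, hc, hP00, hP10, hP01, hP20, hP11, hP02, hP21, hP12, hP22, hQ00, hQ10, hQ01, hQ20, hQ11, hQ02, hQ21, hQ12, hQ22⟩ := h

  have e1 : u01 * u01 * u01 = 0 := by clear * - hp hP02 hQ02; grind
  have e' : 0 = u01 := by clear * - hp e1; grind
  subst e'
  have h1 : v01 ≠ 0 := by clear * - hp hc; grind
  obtain ⟨ti, ht⟩ : ∃ ti, v01 * ti = 1 := ⟨v01⁻¹, mul_inv_cancel₀ h1⟩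
  have e' : v01 * v01 = u10 := by clear * - hp hc hP20 hQ20; grind
  have e : 1 = u10 := by clear * - hp ht hQ02; grind
  subst e
  have hs := e'
  have e : 0 = v10 := by clear * - hp hP20; grind
  subst e
  have e : 0 = u02 := by
    linear_combination (norm := skip) (-v01) * hP21
    clear * - hp hs; grind
  subst e
  have e : g - G*v01 + u11*v01 = v02 := by
    linear_combination (norm := skip) (v01) * hQ21
    clear * - hp hs; grind
  subst e
  have e : g*v01 = G := by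
    linear_combination (norm := skip) (-v01) * hP12
    clear * - hp hs; grind
  subst e
  have e : u20*v01 = v11 := by
    linear_combination (norm := skip) (v01) * hQ12
    clear * - hp hs; grind
  subst e
  have e : -u21*v01 + u11*u20*v01 = v12 := by
    linear_combination (norm := skip) (1) * hP22
    clear * - hp hs; grind
  subst e
  have e : u11*u11 + u20*u20 - v01*v21 - g*u11*v01 - u11*v01*v20 = u12 := by
    linear_combination (norm := skip) (-1) * hQ22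
    clear * - hp hs; grind
  subst e
  refine ⟨v01, hs, ?_⟩
  all_goals (clear * - hp hs; grind)

theorem S2c1_to (g G : k) 
    (h : (∃ v01 : k, v01 * v01 = 1 ∧ G = g*v01)) :
    Rel 0 0 0 0 1 0 0 0 0 0 0 0 1 0 1 g 0 0 0 0 0 0 1 0 0 0 0 0 0 0 1 0 1 G 0 0 := by
  rcases h with ⟨v01, hs, rfl⟩
  · refine ⟨1, 0, 0, 0, 0, 0, 0, 0, 0, v01, 0, 0, 0, 0, 0, 0, by grind, ?_, ?_, ?_, ?_, ?_, ?_, ?_, ?_, ?_, ?_, ?_, ?_, ?_, ?_, ?_, ?_, ?_, ?_⟩
    all_goals (clear * - hp hs; grind)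

theorem S2c2_of (g G : k) 
    (h : Rel 0 0 0 1 0 0 0 g 0 0 0 0 1 1 0 0 0 0 0 0 0 1 0 0 0 G 0 0 0 0 1 1 0 0 0 0) :
    (∃ v10 : k, G = g) := by
  obtain ⟨u10, u01, u20, u11, u02, u21, u12, u22, v10, v01, v20, v11, v02, v21, v12, v22, hc, hP00, hP10, hP01, hP20, hP11, hP02, hP21, hP12, hP22, hQ00, hQ10, hQ01, hQ20, hQ11, hQ02, hQ21, hQ12, hQ22⟩ := h

  have e1 : u01 * u01 * u01 = 0 := by clear * - hp hP02 hQ02; grind
  have e' : 0 = u01 := by clear * - hp e1; grind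
  subst e'
  have h1 : v01 ≠ 0 := by clear * - hp hc; grind
  obtain ⟨ti, ht⟩ : ∃ ti, v01 * ti = 1 := ⟨v01⁻¹, mul_inv_cancel₀ h1⟩
  have e' : v01 * v01 = u10 := by clear * - hp hc hP20 hQ20; grind
  subst e'
  have e : 1 = v01 := by clear * - hp ht hP20; grind
  subst e
  simp only [mul_one] at *
  have e : -u02 + u11 + g*v10 + u02*v10 = v02 := by
    linear_combination (norm := skip) (-1) * hP21
    clear * - hp ; grind
  subst e
  have e : u20 - v11 + g*v10 + u11*v10 - g*v10*v10 = u02 := by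
    linear_combination (norm := skip) (-1) * hQ21
    clear * - hp ; grind
  subst e
  have e : g = G := by
    linear_combination (norm := skip) (1) * hP12
    clear * - hp ; grind
  subst e
  have e : u20 - g*v10 + u11*v10 - g*v10*v10 = v11 := by
    linear_combination (norm := skip) (-1) * hQ12
    clear * - hp ; grind
  subst e
  have e : -g*u20 + u11*u11 + g*u20*v10 + g*g*v10 + g*g*v10*v10 = u12 := by
    linear_combination (norm := skip) (-1) * hP22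
    clear * - hp ; grind
  subst e
  have e : -u21 - g*u20 + g*v20 + u11*u20 + g*u11*v10 - g*u20*v10 + g*v10*v20 + g*g*v10 + u11*u11*v10 + g*u11*v10*v10 - g*g*v10*v10 + g*g*v10*v10*v10 = v12 := by
    linear_combination (norm := skip) (1) * hQ22
    clear * - hp ; grind
  subst e
  refine ⟨v10, ?_⟩
  all_goals (clear * - hp ; grind)

theorem S2d_of (g d G D : k) 
    (h : Rel 0 0 0 1 0 0 0 g 0 0 0 0 0 1 0 0 d 0 0 0 0 1 0 0 0 G 0 0 0 0 0 1 0 0 D 0) :
    (∃ u10 si v10 : k, u10 * si = 1 ∧ G = g*si ∧ D = d - g*si*v10) := by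
  obtain ⟨u10, u01, u20, u11, u02, u21, u12, u22, v10, v01, v20, v11, v02, v21, v12, v22, hc, hP00, hP10, hP01, hP20, hP11, hP02, hP21, hP12, hP22, hQ00, hQ10, hQ01, hQ20, hQ11, hQ02, hQ21, hQ12, hQ22⟩ := h

  have e : 0 = u01 := by clear * - hp hP02; grind
  subst e
  have h1 : u10 ≠ 0 := by clear * - hp hc; grind
  have e : 1 = v01 := by clear * - hp h1 hP20; grind
  subst e
  obtain ⟨si, hs⟩ : ∃ si, u10 * si = 1 := ⟨u10⁻¹, mul_inv_cancel₀ h1⟩
  have e : si*u11 + g*si*v10 + si*u02*v10 = v02 := by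
    linear_combination (norm := skip) (-si*si) * hP21
    clear * - hp hs; grind
  subst e
  have e : d*v10 + si*u20 + si*u11*v10 - g*si*v10*v10 = v11 := by
    linear_combination (norm := skip) (-si) * hQ21
    clear * - hp hs; grind
  subst e
  have e : g*si = G := by
    linear_combination (norm := skip) (si*si) * hP12
    clear * - hp hs; grind
  subst e
  have e : d - g*si*v10 = D := by
    linear_combination (norm := skip) (si) * hQ12
    clear * - hp hs; grind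
  subst e
  have e : d*u11 - d*g*v10 - g*si*u20 - si*u02*u20 + si*u11*u11 - g*si*u11*v10 - g*g*si*v10*v10 = u12 := by
    linear_combination (norm := skip) (-si) * hP22
    clear * - hp hs; grind
  subst e
  have e : -si*u21 - d*si*u20 + g*si*v20 - si*u02*v20 + si*si*u11*u20 + d*g*si*v10*v10 + g*si*si*u20*v10 + si*si*u11*u11*v10 = v12 := by
    linear_combination (norm := skip) (si) * hQ22
    clear * - hp hs; grind
  subst e
  refine ⟨u10, si, v10, hs, ?_, ?_⟩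
  all_goals (clear * - hp hs; grind)

theorem S2d_to (g d G D : k) 
    (h : (∃ u10 si v10 : k, u10 * si = 1 ∧ G = g*si ∧ D = d - g*si*v10)) :
    Rel 0 0 0 1 0 0 0 g 0 0 0 0 0 1 0 0 d 0 0 0 0 1 0 0 0 G 0 0 0 0 0 1 0 0 D 0 := by
  rcases h with ⟨u10, si, v10, hs, rfl, rfl⟩
  · refine ⟨u10, 0, 0, 0, 0, 0, -d*g*v10 - g*g*si*v10*v10, 0, v10, 1, 0, d*v10 - g*si*v10*v10, g*si*v10, 0, d*g*si*v10*v10, 0, by grind, ?_, ?_, ?_, ?_, ?_, ?_, ?_, ?_, ?_, ?_, ?_, ?_, ?_, ?_, ?_, ?_, ?_, ?_⟩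
    all_goals (clear * - hp hs; grind)


end Pool.Agent.W23
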