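import Pool.Agent.P.MP_c9b50d_al.Ex3
import Pool.Agent.P.MP_c9b50d_al.S2c

namespace Pool.Agent.W23

variable {k : Type*} [Field k] [hp : CharP k 3]

variable [IsAlgClosed k]

set_option linter.unusedSectionVars false

theorem hC5_4 (p22 q21 q22 : k) :
    Has 0 0 0 0 1 0 0 0 p22 0 0 0 1 0 1 q21 0 q22 := by
  have hc : (1) * (1) - (0) * (0) ≠ (0 : k) := by simp
  obtain ⟨P00, P10, P01, P20, P11, P02, P21, P12, P22, Q00, Q10, Q01, Q20, Q11, Q02, Q21, Q12, Q22, he⟩ := act 1 0 0 0 0 p22 (-q22) 0 0 1 0 0 0 0 0 0 hc 0 0 0 0 1 0 0 0 p22 0 0 0 1 0 1 q21 0 q22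
  obtain ⟨hP00, hP10, hP01, hP20, hP11, hP02, hP21, hP12, hP22, hQ00, hQ10, hQ01, hQ20, hQ11, hQ02, hQ21, hQ12, hQ22⟩ := id he
  have e0 : (0 : k) = P00 := by
    linear_combination (norm := skip) (1) * hP00
    clear * - hp ; grind
  subst e0
  have e0 : (0 : k) = Q00 := by
    linear_combination (norm := skip) (1) * hQ00
    clear * - hp ; grind
  subst e0
  have e0 : (0 : k) = P10 := by
    linear_combination (norm := skip) (1) * hP10
    clear * - hp ; grind
  subst e0
  have e0 : (0 : k) = P01 := by
    linear_combination (norm := skip) (1) * hP01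
    clear * - hp ; grind
  subst e0
  have e0 : (0 : k) = Q10 := by
    linear_combination (norm := skip) (1) * hQ10
    clear * - hp ; grind
  subst e0
  have e0 : (0 : k) = Q01 := by
    linear_combination (norm := skip) (1) * hQ01
    clear * - hp ; grind
  subst e0
  have e0 : (0 : k) = P20 := by
    linear_combination (norm := skip) (1) * hP20
    clear * - hp ; grind
  subst e0
  have e0 : (1 : k) = P11 := by
    linear_combination (norm := skip) (1) * hP11
    clear * - hp ; grind
  subst e0
  have e0 : (0 : k) = P02 := by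
    linear_combination (norm := skip) (1) * hP02
    clear * - hp ; grind
  subst e0
  have e0 : (1 : k) = Q20 := by
    linear_combination (norm := skip) (1) * hQ20
    clear * - hp ; grind
  subst e0
  have e0 : (0 : k) = Q11 := by
    linear_combination (norm := skip) (1) * hQ11
    clear * - hp ; grind
  subst e0
  have e0 : (1 : k) = Q02 := by
    linear_combination (norm := skip) (1) * hQ02
    clear * - hp ; grind
  subst e0
  have e0 : (0 : k) = P21 := by
    linear_combination (norm := skip) (1) * hP21
    clear * - hp ; grind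
  subst e0
  have e0 : (0 : k) = P12 := by
    linear_combination (norm := skip) (1) * hP12
    clear * - hp ; grind
  subst e0
  have e0 : (q21 : k) = Q21 := by
    linear_combination (norm := skip) (1) * hQ21
    clear * - hp ; grind
  subst e0
  have e0 : (0 : k) = Q12 := by
    linear_combination (norm := skip) (1) * hQ12
    clear * - hp ; grind
  subst e0
  have e0 : (0 : k) = P22 := by
    linear_combination (norm := skip) (1) * hP22
    clear * - hp ; grind
  subst e0
  have e0 : (0 : k) = Q22 := by
    linear_combination (norm := skip) (1) * hQ22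
    clear * - hp ; grind
  subst e0
  exact Has.of_rel ⟨_, _, _, _, _, _, _, _, _, _, _, _, _, _, _, _, hc, he⟩ (has_C5 ..)

theorem hC5_3 (p21 p12 p22 q21 q12 q22 : k) :
    Has 0 0 0 0 1 0 p21 p12 p22 0 0 0 1 0 1 q21 q12 q22 := by
  have hc : (1) * (1) - (0) * (0) ≠ (0 : k) := by simp
  obtain ⟨P00, P10, P01, P20, P11, P02, P21, P12, P22, Q00, Q10, Q01, Q20, Q11, Q02, Q21, Q12, Q22, he⟩ := act 1 0 (-p21 - q12) (-p12) (-p21) 0 0 0 0 1 0 0 0 0 0 0 hc 0 0 0 0 1 0 p21 p12 p22 0 0 0 1 0 1 q21 q12 q22
  obtain ⟨hP00, hP10, hP01, hP20, hP11, hP02, hP21, hP12, hP22, hQ00, hQ10, hQ01, hQ20, hQ11, hQ02, hQ21, hQ12, hQ22⟩ := id he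
  have e0 : (0 : k) = P00 := by
    linear_combination (norm := skip) (1) * hP00
    clear * - hp ; grind
  subst e0
  have e0 : (0 : k) = Q00 := by
    linear_combination (norm := skip) (1) * hQ00
    clear * - hp ; grind
  subst e0
  have e0 : (0 : k) = P10 := by
    linear_combination (norm := skip) (1) * hP10
    clear * - hp ; grind
  subst e0
  have e0 : (0 : k) = P01 := by
    linear_combination (norm := skip) (1) * hP01
    clear * - hp ; grind
  subst e0
  have e0 : (0 : k) = Q10 := by
    linear_combination (norm := skip) (1) * hQ10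
    clear * - hp ; grind
  subst e0
  have e0 : (0 : k) = Q01 := by
    linear_combination (norm := skip) (1) * hQ01
    clear * - hp ; grind
  subst e0
  have e0 : (0 : k) = P20 := by
    linear_combination (norm := skip) (1) * hP20
    clear * - hp ; grind
  subst e0
  have e0 : (1 : k) = P11 := by
    linear_combination (norm := skip) (1) * hP11
    clear * - hp ; grind
  subst e0
  have e0 : (0 : k) = P02 := by
    linear_combination (norm := skip) (1) * hP02
    clear * - hp ; grind
  subst e0
  have e0 : (1 : k) = Q20 := by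
    linear_combination (norm := skip) (1) * hQ20
    clear * - hp ; grind
  subst e0
  have e0 : (0 : k) = Q11 := by
    linear_combination (norm := skip) (1) * hQ11
    clear * - hp ; grind
  subst e0
  have e0 : (1 : k) = Q02 := by
    linear_combination (norm := skip) (1) * hQ02
    clear * - hp ; grind
  subst e0
  have e0 : (0 : k) = P21 := by
    linear_combination (norm := skip) (1) * hP21
    clear * - hp ; grind
  subst e0
  have e0 : (0 : k) = P12 := by
    linear_combination (norm := skip) (1) * hP12
    clear * - hp ; grind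
  subst e0
  have e0 : (0 : k) = Q12 := by
    linear_combination (norm := skip) (1) * hQ12
    clear * - hp ; grind
  subst e0
  exact Has.of_rel ⟨_, _, _, _, _, _, _, _, _, _, _, _, _, _, _, _, hc, he⟩ (hC5_4 _ _ _)

theorem hC6_4 (p12 p22 q22 : k) :
    Has 0 0 0 1 0 0 0 p12 p22 0 0 0 1 1 0 0 0 q22 := by
  have hc : (1) * (1) - (0) * (0) ≠ (0 : k) := by simp
  obtain ⟨P00, P10, P01, P20, P11, P02, P21, P12, P22, Q00, Q10, Q01, Q20, Q11, Q02, Q21, Q12, Q22, he⟩ := act 1 0 0 0 0 (-p22 + q22) (-p22) 0 0 1 0 0 0 0 0 0 hc 0 0 0 1 0 0 0 p12 p22 0 0 0 1 1 0 0 0 q22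
  obtain ⟨hP00, hP10, hP01, hP20, hP11, hP02, hP21, hP12, hP22, hQ00, hQ10, hQ01, hQ20, hQ11, hQ02, hQ21, hQ12, hQ22⟩ := id he
  have e0 : (0 : k) = P00 := by
    linear_combination (norm := skip) (1) * hP00
    clear * - hp ; grind
  subst e0
  have e0 : (0 : k) = Q00 := by
    linear_combination (norm := skip) (1) * hQ00
    clear * - hp ; grind
  subst e0
  have e0 : (0 : k) = P10 := by
    linear_combination (norm := skip) (1) * hP10
    clear * - hp ; grind
  subst e0
  have e0 : (0 : k) = P01 := by
    linear_combination (norm := skip) (1) * hP01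
    clear * - hp ; grind
  subst e0
  have e0 : (0 : k) = Q10 := by
    linear_combination (norm := skip) (1) * hQ10
    clear * - hp ; grind
  subst e0
  have e0 : (0 : k) = Q01 := by
    linear_combination (norm := skip) (1) * hQ01
    clear * - hp ; grind
  subst e0
  have e0 : (1 : k) = P20 := by
    linear_combination (norm := skip) (1) * hP20
    clear * - hp ; grind
  subst e0
  have e0 : (0 : k) = P11 := by
    linear_combination (norm := skip) (1) * hP11
    clear * - hp ; grind
  subst e0
  have e0 : (0 : k) = P02 := by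
    linear_combination (norm := skip) (1) * hP02
    clear * - hp ; grind
  subst e0
  have e0 : (1 : k) = Q20 := by
    linear_combination (norm := skip) (1) * hQ20
    clear * - hp ; grind
  subst e0
  have e0 : (1 : k) = Q11 := by
    linear_combination (norm := skip) (1) * hQ11
    clear * - hp ; grind
  subst e0
  have e0 : (0 : k) = Q02 := by
    linear_combination (norm := skip) (1) * hQ02
    clear * - hp ; grind
  subst e0
  have e0 : (0 : k) = P21 := by
    linear_combination (norm := skip) (1) * hP21
    clear * - hp ; grind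
  subst e0
  have e0 : (p12 : k) = P12 := by
    linear_combination (norm := skip) (1) * hP12
    clear * - hp ; grind
  subst e0
  have e0 : (0 : k) = Q21 := by
    linear_combination (norm := skip) (1) * hQ21
    clear * - hp ; grind
  subst e0
  have e0 : (0 : k) = Q12 := by
    linear_combination (norm := skip) (1) * hQ12
    clear * - hp ; grind
  subst e0
  have e0 : (0 : k) = P22 := by
    linear_combination (norm := skip) (1) * hP22
    clear * - hp ; grind
  subst e0
  have e0 : (0 : k) = Q22 := by
    linear_combination (norm := skip) (1) * hQ22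
    clear * - hp ; grind
  subst e0
  exact Has.of_rel ⟨_, _, _, _, _, _, _, _, _, _, _, _, _, _, _, _, hc, he⟩ (has_C6 ..)

theorem hC6_3 (p21 p12 p22 q21 q12 q22 : k) :
    Has 0 0 0 1 0 0 p21 p12 p22 0 0 0 1 1 0 q21 q12 q22 := by
  have hc : (1) * (1) - (0) * (0) ≠ (0 : k) := by simp
  obtain ⟨P00, P10, P01, P20, P11, P02, P21, P12, P22, Q00, Q10, Q01, Q20, Q11, Q02, Q21, Q12, Q22, he⟩ := act 1 0 (p21 + q12 + q21) (p21 + q12) q12 0 0 0 0 1 0 0 0 0 0 0 hc 0 0 0 1 0 0 p21 p12 p22 0 0 0 1 1 0 q21 q12 q22
  obtain ⟨hP00, hP10, hP01, hP20, hP11, hP02, hP21, hP12, hP22, hQ00, hQ10, hQ01, hQ20, hQ11, hQ02, hQ21, hQ12, hQ22⟩ := id he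
  have e0 : (0 : k) = P00 := by
    linear_combination (norm := skip) (1) * hP00
    clear * - hp ; grind
  subst e0
  have e0 : (0 : k) = Q00 := by
    linear_combination (norm := skip) (1) * hQ00
    clear * - hp ; grind
  subst e0
  have e0 : (0 : k) = P10 := by
    linear_combination (norm := skip) (1) * hP10
    clear * - hp ; grind
  subst e0
  have e0 : (0 : k) = P01 := by
    linear_combination (norm := skip) (1) * hP01
    clear * - hp ; grind
  subst e0
  have e0 : (0 : k) = Q10 := by
    linear_combination (norm := skip) (1) * hQ10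
    clear * - hp ; grind
  subst e0
  have e0 : (0 : k) = Q01 := by
    linear_combination (norm := skip) (1) * hQ01
    clear * - hp ; grind
  subst e0
  have e0 : (1 : k) = P20 := by
    linear_combination (norm := skip) (1) * hP20
    clear * - hp ; grind
  subst e0
  have e0 : (0 : k) = P11 := by
    linear_combination (norm := skip) (1) * hP11
    clear * - hp ; grind
  subst e0
  have e0 : (0 : k) = P02 := by
    linear_combination (norm := skip) (1) * hP02
    clear * - hp ; grind
  subst e0
  have e0 : (1 : k) = Q20 := by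
    linear_combination (norm := skip) (1) * hQ20
    clear * - hp ; grind
  subst e0
  have e0 : (1 : k) = Q11 := by
    linear_combination (norm := skip) (1) * hQ11
    clear * - hp ; grind
  subst e0
  have e0 : (0 : k) = Q02 := by
    linear_combination (norm := skip) (1) * hQ02
    clear * - hp ; grind
  subst e0
  have e0 : (0 : k) = P21 := by
    linear_combination (norm := skip) (1) * hP21
    clear * - hp ; grind
  subst e0
  have e0 : (0 : k) = Q21 := by
    linear_combination (norm := skip) (1) * hQ21
    clear * - hp ; grind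
  subst e0
  have e0 : (0 : k) = Q12 := by
    linear_combination (norm := skip) (1) * hQ12
    clear * - hp ; grind
  subst e0
  exact Has.of_rel ⟨_, _, _, _, _, _, _, _, _, _, _, _, _, _, _, _, hc, he⟩ (hC6_4 _ _ _)

theorem hC7_s (d g e : k) :
    Has 0 0 0 0 0 0 d g e 0 0 0 1 0 0 0 0 0 := by
  by_cases hg : g = 0
  · subst hg
    by_cases hd : d = 0
    · subst hd
      by_cases he : e = 0
      · subst he
        exact has_C8 0
      · exact Has.of_rel (S2c0_to 0 0 e 0 0 1 ⟨e⁻¹, e, 0, 0, 0, inv_mul_cancel₀ he, by simp, by simp,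
          by simp [he]⟩) has_C9
    · exact Has.of_rel (S2c0_to d 0 e d 0 0 ⟨1, 1, 0, e * d⁻¹, 0, by simp, by simp, by simp,
        by field_simp; ring⟩) (has_C8 d)
  · have h1 : ∀ e : k, Has 0 0 0 0 0 0 0 1 e 0 0 0 1 0 0 0 0 0 := fun e =>
      Has.of_rel (S2c0_to 0 1 e 0 1 0 ⟨1, 1, 0, 0, -e, by simp, by simp, by simp, by simp⟩) has_C7
    exact Has.of_rel (S2c0_to d g e 0 1 _ ⟨g, g⁻¹, -d * g, 0, 0, mul_inv_cancel₀ hg,
      (mul_inv_cancel₀ hg).symm, by field_simp; ring, rfl⟩) (h1 _)

theorem hC7_4 (p21 p12 p22 q22 : k) :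
    Has 0 0 0 0 0 0 p21 p12 p22 0 0 0 1 0 0 0 0 q22 := by
  have hc : (1) * (1) - (0) * (0) ≠ (0 : k) := by simp
  obtain ⟨P00, P10, P01, P20, P11, P02, P21, P12, P22, Q00, Q10, Q01, Q20, Q11, Q02, Q21, Q12, Q22, he⟩ := act 1 0 0 0 0 0 (-q22) 0 0 1 0 0 0 0 0 0 hc 0 0 0 0 0 0 p21 p12 p22 0 0 0 1 0 0 0 0 q22
  obtain ⟨hP00, hP10, hP01, hP20, hP11, hP02, hP21, hP12, hP22, hQ00, hQ10, hQ01, hQ20, hQ11, hQ02, hQ21, hQ12, hQ22⟩ := id he
  have e0 : (0 : k) = P00 := by
    linear_combination (norm := skip) (1) * hP00
    clear * - hp ; grind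
  subst e0
  have e0 : (0 : k) = Q00 := by
    linear_combination (norm := skip) (1) * hQ00
    clear * - hp ; grind
  subst e0
  have e0 : (0 : k) = P10 := by
    linear_combination (norm := skip) (1) * hP10
    clear * - hp ; grind
  subst e0
  have e0 : (0 : k) = P01 := by
    linear_combination (norm := skip) (1) * hP01
    clear * - hp ; grind
  subst e0
  have e0 : (0 : k) = Q10 := by
    linear_combination (norm := skip) (1) * hQ10
    clear * - hp ; grind
  subst e0
  have e0 : (0 : k) = Q01 := by
    linear_combination (norm := skip) (1) * hQ01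
    clear * - hp ; grind
  subst e0
  have e0 : (0 : k) = P20 := by
    linear_combination (norm := skip) (1) * hP20
    clear * - hp ; grind
  subst e0
  have e0 : (0 : k) = P11 := by
    linear_combination (norm := skip) (1) * hP11
    clear * - hp ; grind
  subst e0
  have e0 : (0 : k) = P02 := by
    linear_combination (norm := skip) (1) * hP02
    clear * - hp ; grind
  subst e0
  have e0 : (1 : k) = Q20 := by
    linear_combination (norm := skip) (1) * hQ20
    clear * - hp ; grind
  subst e0
  have e0 : (0 : k) = Q11 := by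
    linear_combination (norm := skip) (1) * hQ11
    clear * - hp ; grind
  subst e0
  have e0 : (0 : k) = Q02 := by
    linear_combination (norm := skip) (1) * hQ02
    clear * - hp ; grind
  subst e0
  have e0 : (p21 : k) = P21 := by
    linear_combination (norm := skip) (1) * hP21
    clear * - hp ; grind
  subst e0
  have e0 : (p12 : k) = P12 := by
    linear_combination (norm := skip) (1) * hP12
    clear * - hp ; grind
  subst e0
  have e0 : (0 : k) = Q21 := by
    linear_combination (norm := skip) (1) * hQ21
    clear * - hp ; grind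
  subst e0
  have e0 : (0 : k) = Q12 := by
    linear_combination (norm := skip) (1) * hQ12
    clear * - hp ; grind
  subst e0
  have e0 : (0 : k) = Q22 := by
    linear_combination (norm := skip) (1) * hQ22
    clear * - hp ; grind
  subst e0
  exact Has.of_rel ⟨_, _, _, _, _, _, _, _, _, _, _, _, _, _, _, _, hc, he⟩ (hC7_s ..)

theorem hC7_3 (p21 p12 p22 q21 q12 q22 : k) :
    Has 0 0 0 0 0 0 p21 p12 p22 0 0 0 1 0 0 q21 q12 q22 := by
  have hc : (1) * (1) - (0) * (0) ≠ (0 : k) := by simp
  obtain ⟨P00, P10, P01, P20, P11, P02, P21, P12, P22, Q00, Q10, Q01, Q20, Q11, Q02, Q21, Q12, Q22, he⟩ := act 1 0 0 (-q21) q12 0 0 0 0 1 0 0 0 0 0 0 hc 0 0 0 0 0 0 p21 p12 p22 0 0 0 1 0 0 q21 q12 q22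
  obtain ⟨hP00, hP10, hP01, hP20, hP11, hP02, hP21, hP12, hP22, hQ00, hQ10, hQ01, hQ20, hQ11, hQ02, hQ21, hQ12, hQ22⟩ := id he
  have e0 : (0 : k) = P00 := by
    linear_combination (norm := skip) (1) * hP00
    clear * - hp ; grind
  subst e0
  have e0 : (0 : k) = Q00 := by
    linear_combination (norm := skip) (1) * hQ00
    clear * - hp ; grind
  subst e0
  have e0 : (0 : k) = P10 := by
    linear_combination (norm := skip) (1) * hP10
    clear * - hp ; grind
  subst e0
  have e0 : (0 : k) = P01 := by
    linear_combination (norm := skip) (1) * hP01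
    clear * - hp ; grind
  subst e0
  have e0 : (0 : k) = Q10 := by
    linear_combination (norm := skip) (1) * hQ10
    clear * - hp ; grind
  subst e0
  have e0 : (0 : k) = Q01 := by
    linear_combination (norm := skip) (1) * hQ01
    clear * - hp ; grind
  subst e0
  have e0 : (0 : k) = P20 := by
    linear_combination (norm := skip) (1) * hP20
    clear * - hp ; grind
  subst e0
  have e0 : (0 : k) = P11 := by
    linear_combination (norm := skip) (1) * hP11
    clear * - hp ; grind
  subst e0
  have e0 : (0 : k) = P02 := by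
    linear_combination (norm := skip) (1) * hP02
    clear * - hp ; grind
  subst e0
  have e0 : (1 : k) = Q20 := by
    linear_combination (norm := skip) (1) * hQ20
    clear * - hp ; grind
  subst e0
  have e0 : (0 : k) = Q11 := by
    linear_combination (norm := skip) (1) * hQ11
    clear * - hp ; grind
  subst e0
  have e0 : (0 : k) = Q02 := by
    linear_combination (norm := skip) (1) * hQ02
    clear * - hp ; grind
  subst e0
  have e0 : (0 : k) = Q21 := by
    linear_combination (norm := skip) (1) * hQ21
    clear * - hp ; grind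
  subst e0
  have e0 : (0 : k) = Q12 := by
    linear_combination (norm := skip) (1) * hQ12
    clear * - hp ; grind
  subst e0
  exact Has.of_rel ⟨_, _, _, _, _, _, _, _, _, _, _, _, _, _, _, _, hc, he⟩ (hC7_4 _ _ _ _)

theorem hC10_s (g d : k) :
    Has 0 0 0 1 0 0 0 g 0 0 0 0 0 1 0 0 d 0 := by
  by_cases hg : g = 0
  · subst hg
    exact has_C11 d
  · exact Has.of_rel (S2d_to g d 1 0 ⟨g, g⁻¹, d, mul_inv_cancel₀ hg, (mul_inv_cancel₀ hg).symm,
      by field_simp; ring⟩) has_C10

theorem hC10_4 (p12 p22 q12 q22 : k) :
    Has 0 0 0 1 0 0 0 p12 p22 0 0 0 0 1 0 0 q12 q22 := by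
  have hc : (1) * (1) - (0) * (0) ≠ (0 : k) := by simp
  obtain ⟨P00, P10, P01, P20, P11, P02, P21, P12, P22, Q00, Q10, Q01, Q20, Q11, Q02, Q21, Q12, Q22, he⟩ := act 1 0 0 0 0 q22 (-p22) 0 0 1 0 0 0 0 0 0 hc 0 0 0 1 0 0 0 p12 p22 0 0 0 0 1 0 0 q12 q22
  obtain ⟨hP00, hP10, hP01, hP20, hP11, hP02, hP21, hP12, hP22, hQ00, hQ10, hQ01, hQ20, hQ11, hQ02, hQ21, hQ12, hQ22⟩ := id he
  have e0 : (0 : k) = P00 := by
    linear_combination (norm := skip) (1) * hP00
    clear * - hp ; grind
  subst e0
  have e0 : (0 : k) = Q00 := by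
    linear_combination (norm := skip) (1) * hQ00
    clear * - hp ; grind
  subst e0
  have e0 : (0 : k) = P10 := by
    linear_combination (norm := skip) (1) * hP10
    clear * - hp ; grind
  subst e0
  have e0 : (0 : k) = P01 := by
    linear_combination (norm := skip) (1) * hP01
    clear * - hp ; grind
  subst e0
  have e0 : (0 : k) = Q10 := by
    linear_combination (norm := skip) (1) * hQ10
    clear * - hp ; grind
  subst e0
  have e0 : (0 : k) = Q01 := by
    linear_combination (norm := skip) (1) * hQ01
    clear * - hp ; grind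
  subst e0
  have e0 : (1 : k) = P20 := by
    linear_combination (norm := skip) (1) * hP20
    clear * - hp ; grind
  subst e0
  have e0 : (0 : k) = P11 := by
    linear_combination (norm := skip) (1) * hP11
    clear * - hp ; grind
  subst e0
  have e0 : (0 : k) = P02 := by
    linear_combination (norm := skip) (1) * hP02
    clear * - hp ; grind
  subst e0
  have e0 : (0 : k) = Q20 := by
    linear_combination (norm := skip) (1) * hQ20
    clear * - hp ; grind
  subst e0
  have e0 : (1 : k) = Q11 := by
    linear_combination (norm := skip) (1) * hQ11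
    clear * - hp ; grind
  subst e0
  have e0 : (0 : k) = Q02 := by
    linear_combination (norm := skip) (1) * hQ02
    clear * - hp ; grind
  subst e0
  have e0 : (0 : k) = P21 := by
    linear_combination (norm := skip) (1) * hP21
    clear * - hp ; grind
  subst e0
  have e0 : (p12 : k) = P12 := by
    linear_combination (norm := skip) (1) * hP12
    clear * - hp ; grind
  subst e0
  have e0 : (0 : k) = Q21 := by
    linear_combination (norm := skip) (1) * hQ21
    clear * - hp ; grind
  subst e0
  have e0 : (q12 : k) = Q12 := by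
    linear_combination (norm := skip) (1) * hQ12
    clear * - hp ; grind
  subst e0
  have e0 : (0 : k) = P22 := by
    linear_combination (norm := skip) (1) * hP22
    clear * - hp ; grind
  subst e0
  have e0 : (0 : k) = Q22 := by
    linear_combination (norm := skip) (1) * hQ22
    clear * - hp ; grind
  subst e0
  exact Has.of_rel ⟨_, _, _, _, _, _, _, _, _, _, _, _, _, _, _, _, hc, he⟩ (hC10_s ..)

theorem hC10_3 (p21 p12 p22 q21 q12 q22 : k) :
    Has 0 0 0 1 0 0 p21 p12 p22 0 0 0 0 1 0 q21 q12 q22 := by
  have hc : (1) * (1) - (0) * (0) ≠ (0 : k) := by simp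
  obtain ⟨P00, P10, P01, P20, P11, P02, P21, P12, P22, Q00, Q10, Q01, Q20, Q11, Q02, Q21, Q12, Q22, he⟩ := act 1 0 q21 p21 0 0 0 0 0 1 0 0 0 0 0 0 hc 0 0 0 1 0 0 p21 p12 p22 0 0 0 0 1 0 q21 q12 q22
  obtain ⟨hP00, hP10, hP01, hP20, hP11, hP02, hP21, hP12, hP22, hQ00, hQ10, hQ01, hQ20, hQ11, hQ02, hQ21, hQ12, hQ22⟩ := id he
  have e0 : (0 : k) = P00 := by
    linear_combination (norm := skip) (1) * hP00
    clear * - hp ; grind
  subst e0
  have e0 : (0 : k) = Q00 := by
    linear_combination (norm := skip) (1) * hQ00
    clear * - hp ; grind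
  subst e0
  have e0 : (0 : k) = P10 := by
    linear_combination (norm := skip) (1) * hP10
    clear * - hp ; grind
  subst e0
  have e0 : (0 : k) = P01 := by
    linear_combination (norm := skip) (1) * hP01
    clear * - hp ; grind
  subst e0
  have e0 : (0 : k) = Q10 := by
    linear_combination (norm := skip) (1) * hQ10
    clear * - hp ; grind
  subst e0
  have e0 : (0 : k) = Q01 := by
    linear_combination (norm := skip) (1) * hQ01
    clear * - hp ; grind
  subst e0
  have e0 : (1 : k) = P20 := by
    linear_combination (norm := skip) (1) * hP20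
    clear * - hp ; grind
  subst e0
  have e0 : (0 : k) = P11 := by
    linear_combination (norm := skip) (1) * hP11
    clear * - hp ; grind
  subst e0
  have e0 : (0 : k) = P02 := by
    linear_combination (norm := skip) (1) * hP02
    clear * - hp ; grind
  subst e0
  have e0 : (0 : k) = Q20 := by
    linear_combination (norm := skip) (1) * hQ20
    clear * - hp ; grind
  subst e0
  have e0 : (1 : k) = Q11 := by
    linear_combination (norm := skip) (1) * hQ11
    clear * - hp ; grind
  subst e0
  have e0 : (0 : k) = Q02 := by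
    linear_combination (norm := skip) (1) * hQ02
    clear * - hp ; grind
  subst e0
  have e0 : (0 : k) = P21 := by
    linear_combination (norm := skip) (1) * hP21
    clear * - hp ; grind
  subst e0
  have e0 : (0 : k) = Q21 := by
    linear_combination (norm := skip) (1) * hQ21
    clear * - hp ; grind
  subst e0
  exact Has.of_rel ⟨_, _, _, _, _, _, _, _, _, _, _, _, _, _, _, _, hc, he⟩ (hC10_4 _ _ _ _)

theorem h2_c1 (b p21 p12 p22 c q21 q12 q22 : k) (hc0 : c ≠ 0) (hb : b ≠ 0) :
    Has 0 0 0 0 b 0 p21 p12 p22 0 0 0 c 0 b q21 q12 q22 := by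
  obtain ⟨z, hz⟩ := rootn (c * b) (mul_ne_zero hc0 hb) 2 (by norm_num)
  obtain ⟨t, ht⟩ : ∃ t, t = c * b * z := ⟨_, rfl⟩
  have hz1 : t * z = 1 := by rw [ht]; linear_combination hz
  have hz2 : c * b * z * z = 1 := by linear_combination hz
  obtain ⟨w, hw⟩ : ∃ w, b * w = 1 := ⟨(b)⁻¹, mul_inv_cancel₀ hb⟩
  have hc : (b) * (t) - (0) * (0) ≠ (0 : k) := by
    clear * - hp hw hz1 hz2; grind
  obtain ⟨P00, P10, P01, P20, P11, P02, P21, P12, P22, Q00, Q10, Q01, Q20, Q11, Q02, Q21, Q12, Q22, he⟩ := act b 0 0 0 0 0 0 0 0 t 0 0 0 0 0 0 hc 0 0 0 0 b 0 p21 p12 p22 0 0 0 c 0 b q21 q12 q22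
  obtain ⟨hP00, hP10, hP01, hP20, hP11, hP02, hP21, hP12, hP22, hQ00, hQ10, hQ01, hQ20, hQ11, hQ02, hQ21, hQ12, hQ22⟩ := id he
  have e0 : (0 : k) = P00 := by
    linear_combination (norm := skip) (w*w*z) * hP00
    clear * - hp hw hz1 hz2; grind
  subst e0
  have e0 : (0 : k) = Q00 := by
    linear_combination (norm := skip) (w*z*z) * hQ00
    clear * - hp hw hz1 hz2; grind
  subst e0
  have e0 : (0 : k) = P10 := by
    linear_combination (norm := skip) (w*w*z) * hP10
    clear * - hp hw hz1 hz2; grind
  subst e0
  have e0 : (0 : k) = P01 := by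
    linear_combination (norm := skip) (w*w*z) * hP01
    clear * - hp hw hz1 hz2; grind
  subst e0
  have e0 : (0 : k) = Q10 := by
    linear_combination (norm := skip) (w*z*z) * hQ10
    clear * - hp hw hz1 hz2; grind
  subst e0
  have e0 : (0 : k) = Q01 := by
    linear_combination (norm := skip) (w*z*z) * hQ01
    clear * - hp hw hz1 hz2; grind
  subst e0
  have e0 : (0 : k) = P20 := by
    linear_combination (norm := skip) (w*w*z) * hP20
    clear * - hp hw hz1 hz2; grind
  subst e0
  have e0 : (1 : k) = P11 := by
    linear_combination (norm := skip) (w*w*z) * hP11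
    clear * - hp hw hz1 hz2; grind
  subst e0
  have e0 : (0 : k) = P02 := by
    linear_combination (norm := skip) (w*w*z) * hP02
    clear * - hp hw hz1 hz2; grind
  subst e0
  have e0 : (1 : k) = Q20 := by
    linear_combination (norm := skip) (w*z*z) * hQ20
    clear * - hp hw hz1 hz2; grind
  subst e0
  have e0 : (0 : k) = Q11 := by
    linear_combination (norm := skip) (w*z*z) * hQ11
    clear * - hp hw hz1 hz2; grind
  subst e0
  have e0 : (1 : k) = Q02 := by
    linear_combination (norm := skip) (w*z*z) * hQ02
    clear * - hp hw hz1 hz2; grind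
  subst e0
  exact Has.of_rel ⟨_, _, _, _, _, _, _, _, _, _, _, _, _, _, _, _, hc, he⟩ (hC5_3 ..)

theorem h2_c (a b p21 p12 p22 c q21 q12 q22 : k) (hc0 : c ≠ 0) :
    Has 0 0 0 a b 0 p21 p12 p22 0 0 0 c a b q21 q12 q22 := by
  obtain ⟨z, hz⟩ : ∃ w, c * w = 1 := ⟨(c)⁻¹, mul_inv_cancel₀ hc0⟩
  by_cases hb : b = 0
  · subst hb
    by_cases ha : a = 0
    · subst ha
      have hc : (z) * (1) - (0) * (0) ≠ (0 : k) := by
        clear * - hp hz; grind
      obtain ⟨P00, P10, P01, P20, P11, P02, P21, P12, P22, Q00, Q10, Q01, Q20, Q11, Q02, Q21, Q12, Q22, he⟩ := act z 0 0 0 0 0 0 0 0 1 0 0 0 0 0 0 hc 0 0 0 0 0 0 p21 p12 p22 0 0 0 c 0 0 q21 q12 q22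
      obtain ⟨hP00, hP10, hP01, hP20, hP11, hP02, hP21, hP12, hP22, hQ00, hQ10, hQ01, hQ20, hQ11, hQ02, hQ21, hQ12, hQ22⟩ := id he
      have e0 : (0 : k) = P00 := by
        linear_combination (norm := skip) (c*c) * hP00
        clear * - hp hz; grind
      subst e0
      have e0 : (0 : k) = Q00 := by
        linear_combination (norm := skip) (c) * hQ00
        clear * - hp hz; grind
      subst e0
      have e0 : (0 : k) = P10 := by
        linear_combination (norm := skip) (c*c) * hP10
        clear * - hp hz; grind
      subst e0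
      have e0 : (0 : k) = P01 := by
        linear_combination (norm := skip) (c*c) * hP01
        clear * - hp hz; grind
      subst e0
      have e0 : (0 : k) = Q10 := by
        linear_combination (norm := skip) (c) * hQ10
        clear * - hp hz; grind
      subst e0
      have e0 : (0 : k) = Q01 := by
        linear_combination (norm := skip) (c) * hQ01
        clear * - hp hz; grind
      subst e0
      have e0 : (0 : k) = P20 := by
        linear_combination (norm := skip) (c*c) * hP20
        clear * - hp hz; grind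
      subst e0
      have e0 : (0 : k) = P11 := by
        linear_combination (norm := skip) (c*c) * hP11
        clear * - hp hz; grind
      subst e0
      have e0 : (0 : k) = P02 := by
        linear_combination (norm := skip) (c*c) * hP02
        clear * - hp hz; grind
      subst e0
      have e0 : (1 : k) = Q20 := by
        linear_combination (norm := skip) (c) * hQ20
        clear * - hp hz; grind
      subst e0
      have e0 : (0 : k) = Q11 := by
        linear_combination (norm := skip) (c) * hQ11
        clear * - hp hz; grind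
      subst e0
      have e0 : (0 : k) = Q02 := by
        linear_combination (norm := skip) (c) * hQ02
        clear * - hp hz; grind
      subst e0
      exact Has.of_rel ⟨_, _, _, _, _, _, _, _, _, _, _, _, _, _, _, _, hc, he⟩ (hC7_3 ..)
    · obtain ⟨w, hw⟩ : ∃ w, a * w = 1 := ⟨(a)⁻¹, mul_inv_cancel₀ ha⟩
      have hc : (a*a*z) * (a) - (0) * (0) ≠ (0 : k) := by
        clear * - hp hz hw; grind
      obtain ⟨P00, P10, P01, P20, P11, P02, P21, P12, P22, Q00, Q10, Q01, Q20, Q11, Q02, Q21, Q12, Q22, he⟩ := act (a*a*z) 0 0 0 0 0 0 0 0 a 0 0 0 0 0 0 hc 0 0 0 a 0 0 p21 p12 p22 0 0 0 c a 0 q21 q12 q22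
      obtain ⟨hP00, hP10, hP01, hP20, hP11, hP02, hP21, hP12, hP22, hQ00, hQ10, hQ01, hQ20, hQ11, hQ02, hQ21, hQ12, hQ22⟩ := id he
      have e0 : (0 : k) = P00 := by
        linear_combination (norm := skip) (c*c*w^(5:ℕ)) * hP00
        clear * - hp hz hw; grind
      subst e0
      have e0 : (0 : k) = Q00 := by
        linear_combination (norm := skip) (c*w^(4:ℕ)) * hQ00
        clear * - hp hz hw; grind
      subst e0
      have e0 : (0 : k) = P10 := by
        linear_combination (norm := skip) (c*c*w^(5:ℕ)) * hP10
        clear * - hp hz hw; grind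
      subst e0
      have e0 : (0 : k) = P01 := by
        linear_combination (norm := skip) (c*c*w^(5:ℕ)) * hP01
        clear * - hp hz hw; grind
      subst e0
      have e0 : (0 : k) = Q10 := by
        linear_combination (norm := skip) (c*w^(4:ℕ)) * hQ10
        clear * - hp hz hw; grind
      subst e0
      have e0 : (0 : k) = Q01 := by
        linear_combination (norm := skip) (c*w^(4:ℕ)) * hQ01
        clear * - hp hz hw; grind
      subst e0
      have e0 : (1 : k) = P20 := by
        linear_combination (norm := skip) (c*c*w^(5:ℕ)) * hP20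
        clear * - hp hz hw; grind
      subst e0
      have e0 : (0 : k) = P11 := by
        linear_combination (norm := skip) (c*c*w^(5:ℕ)) * hP11
        clear * - hp hz hw; grind
      subst e0
      have e0 : (0 : k) = P02 := by
        linear_combination (norm := skip) (c*c*w^(5:ℕ)) * hP02
        clear * - hp hz hw; grind
      subst e0
      have e0 : (1 : k) = Q20 := by
        linear_combination (norm := skip) (c*w^(4:ℕ)) * hQ20
        clear * - hp hz hw; grind
      subst e0
      have e0 : (1 : k) = Q11 := by
        linear_combination (norm := skip) (c*w^(4:ℕ)) * hQ11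
        clear * - hp hz hw; grind
      subst e0
      have e0 : (0 : k) = Q02 := by
        linear_combination (norm := skip) (c*w^(4:ℕ)) * hQ02
        clear * - hp hz hw; grind
      subst e0
      exact Has.of_rel ⟨_, _, _, _, _, _, _, _, _, _, _, _, _, _, _, _, hc, he⟩ (hC6_3 ..)
  · obtain ⟨w, hw⟩ : ∃ w, b * w = 1 := ⟨(b)⁻¹, mul_inv_cancel₀ hb⟩
    have hc : (1) * (1) - (0) * (-a*w) ≠ (0 : k) := by
      clear * - hp hw; grind
    obtain ⟨P00, P10, P01, P20, P11, P02, P21, P12, P22, Q00, Q10, Q01, Q20, Q11, Q02, Q21, Q12, Q22, he⟩ := act 1 0 0 0 0 0 0 0 (-a*w) 1 0 0 0 0 0 0 hc 0 0 0 a b 0 p21 p12 p22 0 0 0 c a b q21 q12 q22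
    obtain ⟨hP00, hP10, hP01, hP20, hP11, hP02, hP21, hP12, hP22, hQ00, hQ10, hQ01, hQ20, hQ11, hQ02, hQ21, hQ12, hQ22⟩ := id he
    have e0 : (0 : k) = P00 := by
      linear_combination (norm := skip) (1) * hP00
      clear * - hp hw; grind
    subst e0
    have e0 : (0 : k) = Q00 := by
      linear_combination (norm := skip) (1) * hQ00
      clear * - hp hw; grind
    subst e0
    have e0 : (0 : k) = P10 := by
      linear_combination (norm := skip) (1) * hP10
      clear * - hp hw; grind
    subst e0
    have e0 : (0 : k) = P01 := by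
      linear_combination (norm := skip) (1) * hP01
      clear * - hp hw; grind
    subst e0
    have e0 : (0 : k) = Q10 := by
      linear_combination (norm := skip) (1) * hQ10
      clear * - hp hw; grind
    subst e0
    have e0 : (0 : k) = Q01 := by
      linear_combination (norm := skip) (1) * hQ01
      clear * - hp hw; grind
    subst e0
    have e0 : (0 : k) = P20 := by
      linear_combination (norm := skip) (1) * hP20
      clear * - hp hw; grind
    subst e0
    have e0 : (b : k) = P11 := by
      linear_combination (norm := skip) (1) * hP11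
      clear * - hp hw; grind
    subst e0
    have e0 : (0 : k) = P02 := by
      linear_combination (norm := skip) (1) * hP02
      clear * - hp hw; grind
    subst e0
    have e0 : (c : k) = Q20 := by
      linear_combination (norm := skip) (1) * hQ20
      clear * - hp hw; grind
    subst e0
    have e0 : (0 : k) = Q11 := by
      linear_combination (norm := skip) (1) * hQ11
      clear * - hp hw; grind
    subst e0
    have e0 : (b : k) = Q02 := by
      linear_combination (norm := skip) (1) * hQ02
      clear * - hp hw; grind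
    subst e0
    exact Has.of_rel ⟨_, _, _, _, _, _, _, _, _, _, _, _, _, _, _, _, hc, he⟩ (h2_c1 _ _ _ _ _ _ _ _ hc0 hb)

theorem h2_d1 (a p21 p12 p22 q21 q12 q22 : k) :
    Has 0 0 0 a 0 0 p21 p12 p22 0 0 0 0 a 0 q21 q12 q22 := by
  by_cases ha : a = 0
  · subst ha
    exact h3_all ..
  · obtain ⟨w, hw⟩ : ∃ w, a * w = 1 := ⟨(a)⁻¹, mul_inv_cancel₀ ha⟩
    have hc : (1) * (a) - (0) * (0) ≠ (0 : k) := by
      clear * - hp hw; grind
    obtain ⟨P00, P10, P01, P20, P11, P02, P21, P12, P22, Q00, Q10, Q01, Q20, Q11, Q02, Q21, Q12, Q22, he⟩ := act 1 0 0 0 0 0 0 0 0 a 0 0 0 0 0 0 hc 0 0 0 a 0 0 p21 p12 p22 0 0 0 0 a 0 q21 q12 q22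
    obtain ⟨hP00, hP10, hP01, hP20, hP11, hP02, hP21, hP12, hP22, hQ00, hQ10, hQ01, hQ20, hQ11, hQ02, hQ21, hQ12, hQ22⟩ := id he
    have e0 : (0 : k) = P00 := by
      linear_combination (norm := skip) (w) * hP00
      clear * - hp hw; grind
    subst e0
    have e0 : (0 : k) = Q00 := by
      linear_combination (norm := skip) (w*w) * hQ00
      clear * - hp hw; grind
    subst e0
    have e0 : (0 : k) = P10 := by
      linear_combination (norm := skip) (w) * hP10
      clear * - hp hw; grind
    subst e0
    have e0 : (0 : k) = P01 := by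
      linear_combination (norm := skip) (w) * hP01
      clear * - hp hw; grind
    subst e0
    have e0 : (0 : k) = Q10 := by
      linear_combination (norm := skip) (w*w) * hQ10
      clear * - hp hw; grind
    subst e0
    have e0 : (0 : k) = Q01 := by
      linear_combination (norm := skip) (w*w) * hQ01
      clear * - hp hw; grind
    subst e0
    have e0 : (1 : k) = P20 := by
      linear_combination (norm := skip) (w) * hP20
      clear * - hp hw; grind
    subst e0
    have e0 : (0 : k) = P11 := by
      linear_combination (norm := skip) (w) * hP11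
      clear * - hp hw; grind
    subst e0
    have e0 : (0 : k) = P02 := by
      linear_combination (norm := skip) (w) * hP02
      clear * - hp hw; grind
    subst e0
    have e0 : (0 : k) = Q20 := by
      linear_combination (norm := skip) (w*w) * hQ20
      clear * - hp hw; grind
    subst e0
    have e0 : (1 : k) = Q11 := by
      linear_combination (norm := skip) (w*w) * hQ11
      clear * - hp hw; grind
    subst e0
    have e0 : (0 : k) = Q02 := by
      linear_combination (norm := skip) (w*w) * hQ02
      clear * - hp hw; grind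
    subst e0
    exact Has.of_rel ⟨_, _, _, _, _, _, _, _, _, _, _, _, _, _, _, _, hc, he⟩ (hC10_3 ..)

theorem h2_d2 (b p21 p12 p22 q21 q12 q22 : k) :
    Has 0 0 0 0 b 0 p21 p12 p22 0 0 0 0 0 b q21 q12 q22 := by
  have hc : (0) * (0) - (1) * (1) ≠ (0 : k) := by
    clear * - hp ; grind
  obtain ⟨P00, P10, P01, P20, P11, P02, P21, P12, P22, Q00, Q10, Q01, Q20, Q11, Q02, Q21, Q12, Q22, he⟩ := act 0 1 0 0 0 0 0 0 1 0 0 0 0 0 0 0 hc 0 0 0 0 b 0 p21 p12 p22 0 0 0 0 0 b q21 q12 q22
  obtain ⟨hP00, hP10, hP01, hP20, hP11, hP02, hP21, hP12, hP22, hQ00, hQ10, hQ01, hQ20, hQ11, hQ02, hQ21, hQ12, hQ22⟩ := id he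
  have e0 : (0 : k) = P00 := by
    linear_combination (norm := skip) (-1) * hQ00
    clear * - hp ; grind
  subst e0
  have e0 : (0 : k) = Q00 := by
    linear_combination (norm := skip) (-1) * hP00
    clear * - hp ; grind
  subst e0
  have e0 : (0 : k) = P10 := by
    linear_combination (norm := skip) (-1) * hQ10
    clear * - hp ; grind
  subst e0
  have e0 : (0 : k) = P01 := by
    linear_combination (norm := skip) (-1) * hQ01
    clear * - hp ; grind
  subst e0
  have e0 : (0 : k) = Q10 := by
    linear_combination (norm := skip) (-1) * hP10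
    clear * - hp ; grind
  subst e0
  have e0 : (0 : k) = Q01 := by
    linear_combination (norm := skip) (-1) * hP01
    clear * - hp ; grind
  subst e0
  have e0 : (-b : k) = P20 := by
    linear_combination (norm := skip) (-1) * hQ20
    clear * - hp ; grind
  subst e0
  have e0 : (0 : k) = P11 := by
    linear_combination (norm := skip) (-1) * hQ11
    clear * - hp ; grind
  subst e0
  have e0 : (0 : k) = P02 := by
    linear_combination (norm := skip) (-1) * hQ02
    clear * - hp ; grind
  subst e0
  have e0 : (0 : k) = Q20 := by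
    linear_combination (norm := skip) (-1) * hP20
    clear * - hp ; grind
  subst e0
  have e0 : (-b : k) = Q11 := by
    linear_combination (norm := skip) (-1) * hP11
    clear * - hp ; grind
  subst e0
  have e0 : (0 : k) = Q02 := by
    linear_combination (norm := skip) (-1) * hP02
    clear * - hp ; grind
  subst e0
  exact Has.of_rel ⟨_, _, _, _, _, _, _, _, _, _, _, _, _, _, _, _, hc, he⟩ (h2_d1 ..)

theorem h2_d (a b p21 p12 p22 q21 q12 q22 : k) :
    Has 0 0 0 a b 0 p21 p12 p22 0 0 0 0 a b q21 q12 q22 := by
  by_cases hb : b = 0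
  · subst hb
    exact h2_d1 ..
  · obtain ⟨w, hw⟩ : ∃ w, b * w = 1 := ⟨(b)⁻¹, mul_inv_cancel₀ hb⟩
    have hc : (1) * (1) - (0) * (-a*w) ≠ (0 : k) := by
      clear * - hp hw; grind
    obtain ⟨P00, P10, P01, P20, P11, P02, P21, P12, P22, Q00, Q10, Q01, Q20, Q11, Q02, Q21, Q12, Q22, he⟩ := act 1 0 0 0 0 0 0 0 (-a*w) 1 0 0 0 0 0 0 hc 0 0 0 a b 0 p21 p12 p22 0 0 0 0 a b q21 q12 q22
    obtain ⟨hP00, hP10, hP01, hP20, hP11, hP02, hP21, hP12, hP22, hQ00, hQ10, hQ01, hQ20, hQ11, hQ02, hQ21, hQ12, hQ22⟩ := id he
    have e0 : (0 : k) = P00 := by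
      linear_combination (norm := skip) (1) * hP00
      clear * - hp hw; grind
    subst e0
    have e0 : (0 : k) = Q00 := by
      linear_combination (norm := skip) (1) * hQ00
      clear * - hp hw; grind
    subst e0
    have e0 : (0 : k) = P10 := by
      linear_combination (norm := skip) (1) * hP10
      clear * - hp hw; grind
    subst e0
    have e0 : (0 : k) = P01 := by
      linear_combination (norm := skip) (1) * hP01
      clear * - hp hw; grind
    subst e0
    have e0 : (0 : k) = Q10 := by
      linear_combination (norm := skip) (1) * hQ10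
      clear * - hp hw; grind
    subst e0
    have e0 : (0 : k) = Q01 := by
      linear_combination (norm := skip) (1) * hQ01
      clear * - hp hw; grind
    subst e0
    have e0 : (0 : k) = P20 := by
      linear_combination (norm := skip) (1) * hP20
      clear * - hp hw; grind
    subst e0
    have e0 : (b : k) = P11 := by
      linear_combination (norm := skip) (1) * hP11
      clear * - hp hw; grind
    subst e0
    have e0 : (0 : k) = P02 := by
      linear_combination (norm := skip) (1) * hP02
      clear * - hp hw; grind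
    subst e0
    have e0 : (0 : k) = Q20 := by
      linear_combination (norm := skip) (1) * hQ20
      clear * - hp hw; grind
    subst e0
    have e0 : (0 : k) = Q11 := by
      linear_combination (norm := skip) (1) * hQ11
      clear * - hp hw; grind
    subst e0
    have e0 : (b : k) = Q02 := by
      linear_combination (norm := skip) (1) * hQ02
      clear * - hp hw; grind
    subst e0
    exact Has.of_rel ⟨_, _, _, _, _, _, _, _, _, _, _, _, _, _, _, _, hc, he⟩ (h2_d2 ..)


end Pool.Agent.W23
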