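import Pool.Agent.P.MP_c9b50d_al.Ex2a
import Pool.Agent.P.MP_c9b50d_al.Ex2c

namespace Pool.Agent.W23

variable {k : Type*} [Field k] [hp : CharP k 3]

variable [IsAlgClosed k]

set_option linter.unusedSectionVars false

theorem h2_b1 (a b p21 p12 p22 t s q21 q12 q22 : k) :
    Has 0 0 0 a b 0 p21 p12 p22 0 0 0 0 (a + t) (b - s) q21 q12 q22 := by
  by_cases ht : t = 0
  · subst ht
    by_cases hs : s = 0
    · subst hs
      simpa using h2_d a b p21 p12 p22 q21 q12 q22
    · rw [add_zero]
      have hc : (0) * (0) - (1) * (1) ≠ (0 : k) := by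
        clear * - hp ; grind
      obtain ⟨P00, P10, P01, P20, P11, P02, P21, P12, P22, Q00, Q10, Q01, Q20, Q11, Q02, Q21, Q12, Q22, he⟩ := act 0 1 0 0 0 0 0 0 1 0 0 0 0 0 0 0 hc 0 0 0 a b 0 p21 p12 p22 0 0 0 0 a (b - s) q21 q12 q22
      obtain ⟨hP00, hP10, hP01, hP20, hP11, hP02, hP21, hP12, hP22, hQ00, hQ10, hQ01, hQ20, hQ11, hQ02, hQ21, hQ12, hQ22⟩ := id he
      have e0 : (0 : k) = P00 := by
        linear_combination (norm := skip) (-1) * hQ00
        clear * - hp ; grind
      subst e0
      have e0 : (0 : k) = Q00 := by
        linear_combination (norm := skip) (-1) * hP00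
        clear * - hp ; grind
      subst e0
      have e0 : (0 : k) = P10 := by
        linear_combination (norm := skip) (-1) * hQ10
        clear * - hp ; grind
      subst e0
      have e0 : (0 : k) = P01 := by
        linear_combination (norm := skip) (-1) * hQ01
        clear * - hp ; grind
      subst e0
      have e0 : (0 : k) = Q10 := by
        linear_combination (norm := skip) (-1) * hP10
        clear * - hp ; grind
      subst e0
      have e0 : (0 : k) = Q01 := by
        linear_combination (norm := skip) (-1) * hP01
        clear * - hp ; grind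
      subst e0
      have e0 : (s - b : k) = P20 := by
        linear_combination (norm := skip) (-1) * hQ20
        clear * - hp ; grind
      subst e0
      have e0 : (-a : k) = P11 := by
        linear_combination (norm := skip) (-1) * hQ11
        clear * - hp ; grind
      subst e0
      have e0 : (0 : k) = P02 := by
        linear_combination (norm := skip) (-1) * hQ02
        clear * - hp ; grind
      subst e0
      have e0 : (0 : k) = Q20 := by
        linear_combination (norm := skip) (-1) * hP20
        clear * - hp ; grind
      subst e0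
      have e0 : (s - b + -s : k) = Q11 := by
        linear_combination (norm := skip) (-1) * hP11
        clear * - hp ; grind
      subst e0
      have e0 : (-a : k) = Q02 := by
        linear_combination (norm := skip) (-1) * hP02
        clear * - hp ; grind
      subst e0
      exact Has.of_rel ⟨_, _, _, _, _, _, _, _, _, _, _, _, _, _, _, _, hc, he⟩ (h2_b2 _ _ _ _ _ _ _ _ _ (neg_ne_zero.mpr hs))
  · by_cases hs : s = 0
    · subst hs
      simpa using h2_b2 a b p21 p12 p22 t q21 q12 q22 ht
    · obtain ⟨w, hw⟩ : ∃ w, t * w = 1 := ⟨(t)⁻¹, mul_inv_cancel₀ ht⟩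
      obtain ⟨z, hz⟩ : ∃ w, s * w = 1 := ⟨(s)⁻¹, mul_inv_cancel₀ hs⟩
      have hc : (s) * (t) - (0) * (0) ≠ (0 : k) := by
        clear * - hp hw hz; grind
      obtain ⟨P00, P10, P01, P20, P11, P02, P21, P12, P22, Q00, Q10, Q01, Q20, Q11, Q02, Q21, Q12, Q22, he⟩ := act s 0 0 0 0 0 0 0 0 t 0 0 0 0 0 0 hc 0 0 0 a b 0 p21 p12 p22 0 0 0 0 (a + t) (b - s) q21 q12 q22
      obtain ⟨hP00, hP10, hP01, hP20, hP11, hP02, hP21, hP12, hP22, hQ00, hQ10, hQ01, hQ20, hQ11, hQ02, hQ21, hQ12, hQ22⟩ := id he
      have e0 : (0 : k) = P00 := by
        linear_combination (norm := skip) (w*z*z) * hP00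
        clear * - hp hw hz; grind
      subst e0
      have e0 : (0 : k) = Q00 := by
        linear_combination (norm := skip) (w*w*z) * hQ00
        clear * - hp hw hz; grind
      subst e0
      have e0 : (0 : k) = P10 := by
        linear_combination (norm := skip) (w*z*z) * hP10
        clear * - hp hw hz; grind
      subst e0
      have e0 : (0 : k) = P01 := by
        linear_combination (norm := skip) (w*z*z) * hP01
        clear * - hp hw hz; grind
      subst e0
      have e0 : (0 : k) = Q10 := by
        linear_combination (norm := skip) (w*w*z) * hQ10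
        clear * - hp hw hz; grind
      subst e0
      have e0 : (0 : k) = Q01 := by
        linear_combination (norm := skip) (w*w*z) * hQ01
        clear * - hp hw hz; grind
      subst e0
      have e0 : (a*w : k) = P20 := by
        linear_combination (norm := skip) (w*z*z) * hP20
        clear * - hp hw hz; grind
      subst e0
      have e0 : (1 + (b * z - 1) : k) = P11 := by
        linear_combination (norm := skip) (w*z*z) * hP11
        clear * - hp hw hz; grind
      subst e0
      have e0 : (0 : k) = P02 := by
        linear_combination (norm := skip) (w*z*z) * hP02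
        clear * - hp hw hz; grind
      subst e0
      have e0 : (0 : k) = Q20 := by
        linear_combination (norm := skip) (w*w*z) * hQ20
        clear * - hp hw hz; grind
      subst e0
      have e0 : (1 + a*w : k) = Q11 := by
        linear_combination (norm := skip) (w*w*z) * hQ11
        clear * - hp hw hz; grind
      subst e0
      have e0 : (b * z - 1 : k) = Q02 := by
        linear_combination (norm := skip) (w*w*z) * hQ02
        clear * - hp hw hz; grind
      subst e0
      exact Has.of_rel ⟨_, _, _, _, _, _, _, _, _, _, _, _, _, _, _, _, hc, he⟩ (hC1_3 ..)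

theorem h2_b (p20 p11 p21 p12 p22 q11 q02 q21 q12 q22 : k) :
    Has 0 0 0 p20 p11 0 p21 p12 p22 0 0 0 0 q11 q02 q21 q12 q22 := by
  simpa using h2_b1 p20 p11 p21 p12 p22 (q11 - p20) (p11 - q02) q21 q12 q22

theorem h2_a (p20 p11 p21 p12 p22 q20 q11 q02 q21 q12 q22 : k) :
    Has 0 0 0 p20 p11 0 p21 p12 p22 0 0 0 q20 q11 q02 q21 q12 q22 := by
  by_cases h2 : q02 - p11 = 0
  · by_cases h1 : q11 - p20 = 0
    · by_cases h0 : q20 = 0
      · subst h0
        exact h2_b ..
      · have e1 : p20 = q11 := by linear_combination -h1
        have e2 : p11 = q02 := by linear_combination -h2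
        subst e1 e2
        exact h2_c _ _ _ _ _ _ _ _ _ h0
    · obtain ⟨r, hr⟩ : ∃ r, (q11 - p20) * r + q20 = 0 := ⟨-q20 / (q11 - p20), by field_simp; ring⟩
      have hc : (1) * (1) - (0) * (r) ≠ (0 : k) := by
        clear * - hp hr h2; grind
      obtain ⟨P00, P10, P01, P20, P11, P02, P21, P12, P22, Q00, Q10, Q01, Q20, Q11, Q02, Q21, Q12, Q22, he⟩ := act 1 0 0 0 0 0 0 0 r 1 0 0 0 0 0 0 hc 0 0 0 p20 p11 0 p21 p12 p22 0 0 0 q20 q11 q02 q21 q12 q22
      obtain ⟨hP00, hP10, hP01, hP20, hP11, hP02, hP21, hP12, hP22, hQ00, hQ10, hQ01, hQ20, hQ11, hQ02, hQ21, hQ12, hQ22⟩ := id he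
      have e0 : (0 : k) = P00 := by
        linear_combination (norm := skip) (1) * hP00
        clear * - hp hr h2; grind
      subst e0
      have e0 : (0 : k) = Q00 := by
        linear_combination (norm := skip) (1) * hQ00
        clear * - hp hr h2; grind
      subst e0
      have e0 : (0 : k) = P10 := by
        linear_combination (norm := skip) (1) * hP10
        clear * - hp hr h2; grind
      subst e0
      have e0 : (0 : k) = P01 := by
        linear_combination (norm := skip) (1) * hP01
        clear * - hp hr h2; grind
      subst e0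
      have e0 : (0 : k) = Q10 := by
        linear_combination (norm := skip) (1) * hQ10
        clear * - hp hr h2; grind
      subst e0
      have e0 : (0 : k) = Q01 := by
        linear_combination (norm := skip) (1) * hQ01
        clear * - hp hr h2; grind
      subst e0
      have e0 : (p20 + p11*r : k) = P20 := by
        linear_combination (norm := skip) (1) * hP20
        clear * - hp hr h2; grind
      subst e0
      have e0 : (0 : k) = P02 := by
        linear_combination (norm := skip) (1) * hP02
        clear * - hp hr h2; grind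
      subst e0
      have e0 : (0 : k) = Q20 := by
        linear_combination (norm := skip) (1) * hQ20
        clear * - hp hr h2; grind
      subst e0
      exact Has.of_rel ⟨_, _, _, _, _, _, _, _, _, _, _, _, _, _, _, _, hc, he⟩ (h2_b ..)
  · obtain ⟨r, hr⟩ := root2 (q02 - p11) (q11 - p20) q20 h2
    have hc : (1) * (1) - (0) * (r) ≠ (0 : k) := by
      clear * - hp hr; grind
    obtain ⟨P00, P10, P01, P20, P11, P02, P21, P12, P22, Q00, Q10, Q01, Q20, Q11, Q02, Q21, Q12, Q22, he⟩ := act 1 0 0 0 0 0 0 0 r 1 0 0 0 0 0 0 hc 0 0 0 p20 p11 0 p21 p12 p22 0 0 0 q20 q11 q02 q21 q12 q22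
    obtain ⟨hP00, hP10, hP01, hP20, hP11, hP02, hP21, hP12, hP22, hQ00, hQ10, hQ01, hQ20, hQ11, hQ02, hQ21, hQ12, hQ22⟩ := id he
    have e0 : (0 : k) = P00 := by
      linear_combination (norm := skip) (1) * hP00
      clear * - hp hr; grind
    subst e0
    have e0 : (0 : k) = Q00 := by
      linear_combination (norm := skip) (1) * hQ00
      clear * - hp hr; grind
    subst e0
    have e0 : (0 : k) = P10 := by
      linear_combination (norm := skip) (1) * hP10
      clear * - hp hr; grind
    subst e0
    have e0 : (0 : k) = P01 := by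
      linear_combination (norm := skip) (1) * hP01
      clear * - hp hr; grind
    subst e0
    have e0 : (0 : k) = Q10 := by
      linear_combination (norm := skip) (1) * hQ10
      clear * - hp hr; grind
    subst e0
    have e0 : (0 : k) = Q01 := by
      linear_combination (norm := skip) (1) * hQ01
      clear * - hp hr; grind
    subst e0
    have e0 : (p20 + p11*r : k) = P20 := by
      linear_combination (norm := skip) (1) * hP20
      clear * - hp hr; grind
    subst e0
    have e0 : (0 : k) = P02 := by
      linear_combination (norm := skip) (1) * hP02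
      clear * - hp hr; grind
    subst e0
    have e0 : (0 : k) = Q20 := by
      linear_combination (norm := skip) (1) * hQ20
      clear * - hp hr; grind
    subst e0
    exact Has.of_rel ⟨_, _, _, _, _, _, _, _, _, _, _, _, _, _, _, _, hc, he⟩ (h2_b ..)

theorem h2_all (p20 p11 p02 p21 p12 p22 q20 q11 q02 q21 q12 q22 : k) :
    Has 0 0 0 p20 p11 p02 p21 p12 p22 0 0 0 q20 q11 q02 q21 q12 q22 := by
  by_cases h : q20 = 0
  · subst h
    have hc : (0) * (0) - (1) * (1) ≠ (0 : k) := by
      clear * - hp ; grind
    obtain ⟨P00, P10, P01, P20, P11, P02, P21, P12, P22, Q00, Q10, Q01, Q20, Q11, Q02, Q21, Q12, Q22, he⟩ := act 0 1 0 0 0 0 0 0 1 0 0 0 0 0 0 0 hc 0 0 0 p20 p11 p02 p21 p12 p22 0 0 0 0 q11 q02 q21 q12 q22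
    obtain ⟨hP00, hP10, hP01, hP20, hP11, hP02, hP21, hP12, hP22, hQ00, hQ10, hQ01, hQ20, hQ11, hQ02, hQ21, hQ12, hQ22⟩ := id he
    have e0 : (0 : k) = P00 := by
      linear_combination (norm := skip) (-1) * hQ00
      clear * - hp ; grind
    subst e0
    have e0 : (0 : k) = Q00 := by
      linear_combination (norm := skip) (-1) * hP00
      clear * - hp ; grind
    subst e0
    have e0 : (0 : k) = P10 := by
      linear_combination (norm := skip) (-1) * hQ10
      clear * - hp ; grind
    subst e0
    have e0 : (0 : k) = P01 := by
      linear_combination (norm := skip) (-1) * hQ01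
      clear * - hp ; grind
    subst e0
    have e0 : (0 : k) = Q10 := by
      linear_combination (norm := skip) (-1) * hP10
      clear * - hp ; grind
    subst e0
    have e0 : (0 : k) = Q01 := by
      linear_combination (norm := skip) (-1) * hP01
      clear * - hp ; grind
    subst e0
    have e0 : (0 : k) = P02 := by
      linear_combination (norm := skip) (-1) * hQ02
      clear * - hp ; grind
    subst e0
    exact Has.of_rel ⟨_, _, _, _, _, _, _, _, _, _, _, _, _, _, _, _, hc, he⟩ (h2_a ..)
  · obtain ⟨r, hr⟩ := root3 q20 (q11 - p20) (q02 - p11) (-p02) h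
    have hc : (1) * (1) - (r) * (0) ≠ (0 : k) := by
      clear * - hp hr; grind
    obtain ⟨P00, P10, P01, P20, P11, P02, P21, P12, P22, Q00, Q10, Q01, Q20, Q11, Q02, Q21, Q12, Q22, he⟩ := act 1 r 0 0 0 0 0 0 0 1 0 0 0 0 0 0 hc 0 0 0 p20 p11 p02 p21 p12 p22 0 0 0 q20 q11 q02 q21 q12 q22
    obtain ⟨hP00, hP10, hP01, hP20, hP11, hP02, hP21, hP12, hP22, hQ00, hQ10, hQ01, hQ20, hQ11, hQ02, hQ21, hQ12, hQ22⟩ := id he
    have e0 : (0 : k) = Q00 := by
      linear_combination (norm := skip) (1) * hQ00
      clear * - hp hr; grind
    subst e0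
    have e0 : (0 : k) = P00 := by
      linear_combination (norm := skip) (1) * hP00
      clear * - hp hr; grind
    subst e0
    have e0 : (0 : k) = Q10 := by
      linear_combination (norm := skip) (1) * hQ10
      clear * - hp hr; grind
    subst e0
    have e0 : (0 : k) = P10 := by
      linear_combination (norm := skip) (1) * hP10
      clear * - hp hr; grind
    subst e0
    have e0 : (0 : k) = Q01 := by
      linear_combination (norm := skip) (1) * hQ01
      clear * - hp hr; grind
    subst e0
    have e0 : (0 : k) = P01 := by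
      linear_combination (norm := skip) (1) * hP01
      clear * - hp hr; grind
    subst e0
    have e0 : (q02 + q11*r + q20*r*r : k) = Q02 := by
      linear_combination (norm := skip) (1) * hQ02
      clear * - hp hr; grind
    subst e0
    have e0 : (0 : k) = P02 := by
      linear_combination (norm := skip) (1) * hP02
      clear * - hp hr; grind
    subst e0
    exact Has.of_rel ⟨_, _, _, _, _, _, _, _, _, _, _, _, _, _, _, _, hc, he⟩ (h2_a ..)


end Pool.Agent.W23
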