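import Pool.Agent.P.MP_c9b50d_al.Bridge

namespace Pool.Agent.W23

variable {k : Type*} [Field k] [hp : CharP k 3]

theorem S2a_of (a b A B : k) 
    (h : Rel 0 0 0 a (1 + b) 0 0 0 0 0 0 0 0 (1 + a) b 0 0 0 0 0 0 A (1 + B) 0 0 0 0 0 0 0 0 (1 + A) B 0 0 0) :
    (A = a ∧ B = b) ∨
    (A = b ∧ B = a) ∨
    (A = -1 - a - b ∧ B = b) ∨
    (A = a ∧ B = -1 - a - b) ∨
    (A = b ∧ B = -1 - a - b) ∨
    (A = -1 - a - b ∧ B = a) := by
  obtain ⟨u10, u01, u20, u11, u02, u21, u12, u22, v10, v01, v20, v11, v02, v21, v12, v22, hc, hP00, hP10, hP01, hP20, hP11, hP02, hP21, hP12, hP22, hQ00, hQ10, hQ01, hQ20, hQ11, hQ02, hQ21, hQ12, hQ22⟩ := h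
  have e1 : u10 * v10 * (u10 - v10) = 0 := by clear * - hp hP20 hQ20; grind
  have e2 : u01 * v01 * (u01 - v01) = 0 := by clear * - hp hP02 hQ02; grind
  have e3 : u10 * u10 * v01 + 2 * u10 * u01 * v10 - u01 * v10 * v10 - 2 * u10 * v10 * v01 = (u10 * v01 - u01 * v10) ^ 2 := by
    clear * - hp hP20 hQ20 hP11 hQ11; grind
  have e4 : u01 * u01 * v10 + 2 * u10 * u01 * v01 - u10 * v01 * v01 - 2 * u01 * v10 * v01 = -(u10 * v01 - u01 * v10) ^ 2 := by
    clear * - hp hP02 hQ02 hP11 hQ11; grind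
  have key : (1 = u10 ∧ 0 = u01 ∧ 0 = v10 ∧ 1 = v01) ∨ (0 = u10 ∧ -1 = u01 ∧ -1 = v10 ∧ 0 = v01) ∨ (1 = u10 ∧ 0 = u01 ∧ 1 = v10 ∧ -1 = v01) ∨ (-1 = u10 ∧ 1 = u01 ∧ 0 = v10 ∧ 1 = v01) ∨ (0 = u10 ∧ -1 = u01 ∧ 1 = v10 ∧ -1 = v01) ∨ (-1 = u10 ∧ 1 = u01 ∧ -1 = v10 ∧ 0 = v01) := by
    clear * - hp hc e1 e2 e3 e4
    rcases mul_eq_zero.mp e1 with e1 | e1
    · rcases mul_eq_zero.mp e1 with e1 | e1 <;> rcases mul_eq_zero.mp e2 with e2 | e2
      · rcases mul_eq_zero.mp e2 with e2 | e2 <;> grind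
      · grind
      · rcases mul_eq_zero.mp e2 with e2 | e2 <;> grind
      · grind
    · rcases mul_eq_zero.mp e2 with e2 | e2
      · rcases mul_eq_zero.mp e2 with e2 | e2 <;> grind
      · grind
  rcases key with ⟨rfl, rfl, rfl, rfl⟩ | ⟨rfl, rfl, rfl, rfl⟩ | ⟨rfl, rfl, rfl, rfl⟩ | ⟨rfl, rfl, rfl, rfl⟩ | ⟨rfl, rfl, rfl, rfl⟩ | ⟨rfl, rfl, rfl, rfl⟩
  · skip
    have e : a = A := by
      linear_combination (norm := skip) (1) * hP20
      clear * - hp ; grind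
    subst e
    have e : b = B := by
      linear_combination (norm := skip) (1) * hP11
      clear * - hp ; grind
    subst e
    refine Or.inl ⟨?_, ?_⟩
    all_goals (clear * - hp ; grind)
  · skip
    have e : b = A := by
      linear_combination (norm := skip) (1) * hQ20
      clear * - hp ; grind
    subst e
    have e : a = B := by
      linear_combination (norm := skip) (1) * hQ11
      clear * - hp ; grind
    subst e
    refine Or.inr (Or.inl ⟨?_, ?_⟩)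
    all_goals (clear * - hp ; grind)
  · skip
    have e : -1 - a - b = A := by
      linear_combination (norm := skip) (-1) * hP20
      clear * - hp ; grind
    subst e
    have e : b = B := by
      linear_combination (norm := skip) (-1) * hP11
      clear * - hp ; grind
    subst e
    refine Or.inr (Or.inr (Or.inl ⟨?_, ?_⟩))
    all_goals (clear * - hp ; grind)
  · skip
    have e : a = A := by
      linear_combination (norm := skip) (1) * hP20
      clear * - hp ; grind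
    subst e
    have e : -1 - a - b = B := by
      linear_combination (norm := skip) (1) * hP11
      clear * - hp ; grind
    subst e
    refine Or.inr (Or.inr (Or.inr (Or.inl ⟨?_, ?_⟩)))
    all_goals (clear * - hp ; grind)
  · skip
    have e : b = A := by
      linear_combination (norm := skip) (1) * hQ20
      clear * - hp ; grind
    subst e
    have e : -1 - a - b = B := by
      linear_combination (norm := skip) (1) * hQ11
      clear * - hp ; grind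
    subst e
    refine Or.inr (Or.inr (Or.inr (Or.inr (Or.inl ⟨?_, ?_⟩))))
    all_goals (clear * - hp ; grind)
  · skip
    have e : -1 - a - b = A := by
      linear_combination (norm := skip) (-1) * hP20
      clear * - hp ; grind
    subst e
    have e : a = B := by
      linear_combination (norm := skip) (-1) * hP11
      clear * - hp ; grind
    subst e
    refine Or.inr (Or.inr (Or.inr (Or.inr (Or.inr (⟨?_, ?_⟩)))))
    all_goals (clear * - hp ; grind)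

theorem S2a_to (a b A B : k) 
    (h : (A = a ∧ B = b) ∨
    (A = b ∧ B = a) ∨
    (A = -1 - a - b ∧ B = b) ∨
    (A = a ∧ B = -1 - a - b) ∨
    (A = b ∧ B = -1 - a - b) ∨
    (A = -1 - a - b ∧ B = a)) :
    Rel 0 0 0 a (1 + b) 0 0 0 0 0 0 0 0 (1 + a) b 0 0 0 0 0 0 A (1 + B) 0 0 0 0 0 0 0 0 (1 + A) B 0 0 0 := by
  rcases h with ⟨rfl, rfl⟩ | ⟨rfl, rfl⟩ | ⟨rfl, rfl⟩ | ⟨rfl, rfl⟩ | ⟨rfl, rfl⟩ | ⟨rfl, rfl⟩
  · refine ⟨1, 0, 0, 0, 0, 0, 0, 0, 0, 1, 0, 0, 0, 0, 0, 0, by grind, ?_, ?_, ?_, ?_, ?_, ?_, ?_, ?_, ?_, ?_, ?_, ?_, ?_, ?_, ?_, ?_, ?_, ?_⟩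
    all_goals (clear * - hp ; grind)
  · refine ⟨0, -1, 0, 0, 0, 0, 0, 0, -1, 0, 0, 0, 0, 0, 0, 0, by grind, ?_, ?_, ?_, ?_, ?_, ?_, ?_, ?_, ?_, ?_, ?_, ?_, ?_, ?_, ?_, ?_, ?_, ?_⟩
    all_goals (clear * - hp ; grind)
  · refine ⟨1, 0, 0, 0, 0, 0, 0, 0, 1, -1, 0, 0, 0, 0, 0, 0, by grind, ?_, ?_, ?_, ?_, ?_, ?_, ?_, ?_, ?_, ?_, ?_, ?_, ?_, ?_, ?_, ?_, ?_, ?_⟩
    all_goals (clear * - hp ; grind)
  · refine ⟨-1, 1, 0, 0, 0, 0, 0, 0, 0, 1, 0, 0, 0, 0, 0, 0, by grind, ?_, ?_, ?_, ?_, ?_, ?_, ?_, ?_, ?_, ?_, ?_, ?_, ?_, ?_, ?_, ?_, ?_, ?_⟩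
    all_goals (clear * - hp ; grind)
  · refine ⟨0, -1, 0, 0, 0, 0, 0, 0, 1, -1, 0, 0, 0, 0, 0, 0, by grind, ?_, ?_, ?_, ?_, ?_, ?_, ?_, ?_, ?_, ?_, ?_, ?_, ?_, ?_, ?_, ?_, ?_, ?_⟩
    all_goals (clear * - hp ; grind)
  · refine ⟨-1, 1, 0, 0, 0, 0, 0, 0, -1, 0, 0, 0, 0, 0, 0, 0, by grind, ?_, ?_, ?_, ?_, ?_, ?_, ?_, ?_, ?_, ?_, ?_, ?_, ?_, ?_, ?_, ?_, ?_, ?_⟩
    all_goals (clear * - hp ; grind)

theorem S2b_of (a b d g A B D G : k) 
    (h : Rel 0 0 0 a b 0 0 0 d 0 0 0 0 (1 + a) b 0 g 0 0 0 0 A B 0 0 0 D 0 0 0 0 (1 + A) B 0 G 0) :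
    (∃ u10 si : k, u10 * si = 1 ∧ A = a ∧ B = b*si) := by
  obtain ⟨u10, u01, u20, u11, u02, u21, u12, u22, v10, v01, v20, v11, v02, v21, v12, v22, hc, hP00, hP10, hP01, hP20, hP11, hP02, hP21, hP12, hP22, hQ00, hQ10, hQ01, hQ20, hQ11, hQ02, hQ21, hQ12, hQ22⟩ := h

  have e1 : u01 * u01 * v01 = 0 := by clear * - hp hP02 hQ02; grind
  have e2 : u10 * u10 * v10 = 0 := by clear * - hp hP20 hQ20; grind
  have e3 : u10 * u10 * v01 + 2 * u10 * u01 * v10 = (u10 * v01 - u01 * v10) ^ 2 := by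
    clear * - hp hP20 hQ20 hP11 hQ11; grind
  have e4 : u01 * u01 * v10 + 2 * u10 * u01 * v01 = 0 := by
    clear * - hp hP02 hQ02 hP11 hQ11; grind
  have e' : 0 = u01 := by clear * - hp hc e1 e4; grind
  subst e'
  have h1 : u10 ≠ 0 := by clear * - hp hc; grind
  have e' : 0 = v10 := by clear * - hp h1 e2; grind
  subst e'
  have e' : 1 = v01 := by clear * - hp hc e3; grind
  subst e'
  obtain ⟨si, hs⟩ : ∃ si, u10 * si = 1 := ⟨u10⁻¹, mul_inv_cancel₀ h1⟩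
  have e : a = A := by
    linear_combination (norm := skip) (si*si) * hP20
    clear * - hp hs; grind
  subst e
  have e : b*si = B := by
    linear_combination (norm := skip) (si*si) * hP11
    clear * - hp hs; grind
  subst e
  refine ⟨u10, si, hs, ?_, ?_⟩
  all_goals (clear * - hp hs; grind)

theorem S2b0_of (a d g A D G : k) 
    (h : Rel 0 0 0 a 0 0 0 0 d 0 0 0 0 (1 + a) 0 0 g 0 0 0 0 A 0 0 0 0 D 0 0 0 0 (1 + A) 0 0 G 0) :
    (∃ u10 si : k, u10 * si = 1 ∧ A = a ∧ G = g) := by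
  obtain ⟨u10, u01, u20, u11, u02, u21, u12, u22, v10, v01, v20, v11, v02, v21, v12, v22, hc, hP00, hP10, hP01, hP20, hP11, hP02, hP21, hP12, hP22, hQ00, hQ10, hQ01, hQ20, hQ11, hQ02, hQ21, hQ12, hQ22⟩ := h

  have e1 : u01 * u01 * v01 = 0 := by clear * - hp hP02 hQ02; grind
  have e2 : u10 * u10 * v10 = 0 := by clear * - hp hP20 hQ20; grind
  have e3 : u10 * u10 * v01 + 2 * u10 * u01 * v10 = (u10 * v01 - u01 * v10) ^ 2 := by
    clear * - hp hP20 hQ20 hP11 hQ11; grind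
  have e4 : u01 * u01 * v10 + 2 * u10 * u01 * v01 = 0 := by
    clear * - hp hP02 hQ02 hP11 hQ11; grind
  have e' : 0 = u01 := by clear * - hp hc e1 e4; grind
  subst e'
  have h1 : u10 ≠ 0 := by clear * - hp hc; grind
  have e' : 0 = v10 := by clear * - hp h1 e2; grind
  subst e'
  have e' : 1 = v01 := by clear * - hp hc e3; grind
  subst e'
  obtain ⟨si, hs⟩ : ∃ si, u10 * si = 1 := ⟨u10⁻¹, mul_inv_cancel₀ h1⟩
  have e : a = A := by
    linear_combination (norm := skip) (si*si) * hP20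
    clear * - hp hs; grind
  subst e
  have e : 0 = u02 := by
    linear_combination (norm := skip) (-si) * hP12
    clear * - hp hs; grind
  subst e
  have e : g = G := by
    linear_combination (norm := skip) (si) * hQ12
    clear * - hp hs; grind
  subst e
  refine ⟨u10, si, hs, ?_, ?_⟩
  all_goals (clear * - hp hs; grind)

theorem S2bm_of (d g D G : k) 
    (h : Rel 0 0 0 (-1) 0 0 0 0 d 0 0 0 0 0 0 0 g 0 0 0 0 (-1) 0 0 0 0 D 0 0 0 0 0 0 0 G 0) :
    (∃ u10 si u11 : k, u10 * si = 1 ∧ G = g ∧ D = d - g*si*u11) := by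
  obtain ⟨u10, u01, u20, u11, u02, u21, u12, u22, v10, v01, v20, v11, v02, v21, v12, v22, hc, hP00, hP10, hP01, hP20, hP11, hP02, hP21, hP12, hP22, hQ00, hQ10, hQ01, hQ20, hQ11, hQ02, hQ21, hQ12, hQ22⟩ := h

  have e1 : u01 * u01 * v01 = 0 := by clear * - hp hP02 hQ02; grind
  have e2 : u10 * u10 * v10 = 0 := by clear * - hp hP20 hQ20; grind
  have e3 : u10 * u10 * v01 + 2 * u10 * u01 * v10 = (u10 * v01 - u01 * v10) ^ 2 := by
    clear * - hp hP20 hQ20 hP11 hQ11; grind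
  have e4 : u01 * u01 * v10 + 2 * u10 * u01 * v01 = 0 := by
    clear * - hp hP02 hQ02 hP11 hQ11; grind
  have e' : 0 = u01 := by clear * - hp hc e1 e4; grind
  subst e'
  have h1 : u10 ≠ 0 := by clear * - hp hc; grind
  have e' : 0 = v10 := by clear * - hp h1 e2; grind
  subst e'
  have e' : 1 = v01 := by clear * - hp hc e3; grind
  subst e'
  obtain ⟨si, hs⟩ : ∃ si, u10 * si = 1 := ⟨u10⁻¹, mul_inv_cancel₀ h1⟩
  have e : 0 = v02 := by
    linear_combination (norm := skip) (si*si) * hP21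
    clear * - hp hs; grind
  subst e
  have e : 0 = v11 := by
    linear_combination (norm := skip) (-si) * hQ21
    clear * - hp hs; grind
  subst e
  have e : 0 = u02 := by
    linear_combination (norm := skip) (-si) * hP12
    clear * - hp hs; grind
  subst e
  have e : g = G := by
    linear_combination (norm := skip) (si) * hQ12
    clear * - hp hs; grind
  subst e
  have e : d - g*si*u11 = D := by
    linear_combination (norm := skip) (si*si) * hP22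
    clear * - hp hs; grind
  subst e
  have e : g*si*u20 = v12 := by
    linear_combination (norm := skip) (-si) * hQ22
    clear * - hp hs; grind
  subst e
  refine ⟨u10, si, u11, hs, ?_, ?_⟩
  all_goals (clear * - hp hs; grind)

theorem S2bm_to (d g D G : k) 
    (h : (∃ u10 si u11 : k, u10 * si = 1 ∧ G = g ∧ D = d - g*si*u11)) :
    Rel 0 0 0 (-1) 0 0 0 0 d 0 0 0 0 0 0 0 g 0 0 0 0 (-1) 0 0 0 0 D 0 0 0 0 0 0 0 G 0 := by
  rcases h with ⟨u10, si, u11, hs, rfl, rfl⟩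
  · refine ⟨u10, 0, 0, u11, 0, 0, 0, 0, 0, 1, 0, 0, 0, 0, 0, 0, by grind, ?_, ?_, ?_, ?_, ?_, ?_, ?_, ?_, ?_, ?_, ?_, ?_, ?_, ?_, ?_, ?_, ?_, ?_⟩
    all_goals (clear * - hp hs; grind)


end Pool.Agent.W23
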