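import Pool.Agent.P.MP_c9b50d_al.Ex3
import Pool.Agent.P.MP_c9b50d_al.S2

namespace Pool.Agent.W23

variable {k : Type*} [Field k] [hp : CharP k 3]

variable [IsAlgClosed k]

set_option linter.unusedSectionVars false

theorem hC1_4 (a b p22 q22 : k) :
    Has 0 0 0 a (1 + b) 0 0 0 p22 0 0 0 0 (1 + a) b 0 0 q22 := by
  have hc : (1) * (1) - (0) * (0) ≠ (0 : k) := by simp
  obtain ⟨P00, P10, P01, P20, P11, P02, P21, P12, P22, Q00, Q10, Q01, Q20, Q11, Q02, Q21, Q12, Q22, he⟩ := act 1 0 0 0 0 (-p22 + a*p22 + a*q22 - b*p22 - b*q22) (-p22 - q22) 0 0 1 0 0 0 (-p22 - q22) (-q22 - a*p22 - a*q22 + b*p22 + b*q22) 0 hc 0 0 0 a (1 + b) 0 0 0 p22 0 0 0 0 (1 + a) b 0 0 q22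
  obtain ⟨hP00, hP10, hP01, hP20, hP11, hP02, hP21, hP12, hP22, hQ00, hQ10, hQ01, hQ20, hQ11, hQ02, hQ21, hQ12, hQ22⟩ := id he
  have e0 : (0 : k) = P00 := by
    linear_combination (norm := skip) (1) * hP00
    clear * - hp ; grind
  subst e0
  have e0 : (0 : k) = Q00 := by
    linear_combination (norm := skip) (1) * hQ00
    clear * - hp ; grind
  subst e0
  have e0 : (0 : k) = P10 := by
    linear_combination (norm := skip) (1) * hP10
    clear * - hp ; grind
  subst e0
  have e0 : (0 : k) = P01 := by
    linear_combination (norm := skip) (1) * hP01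
    clear * - hp ; grind
  subst e0
  have e0 : (0 : k) = Q10 := by
    linear_combination (norm := skip) (1) * hQ10
    clear * - hp ; grind
  subst e0
  have e0 : (0 : k) = Q01 := by
    linear_combination (norm := skip) (1) * hQ01
    clear * - hp ; grind
  subst e0
  have e0 : (a : k) = P20 := by
    linear_combination (norm := skip) (1) * hP20
    clear * - hp ; grind
  subst e0
  have e0 : (1 + b : k) = P11 := by
    linear_combination (norm := skip) (1) * hP11
    clear * - hp ; grind
  subst e0
  have e0 : (0 : k) = P02 := by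
    linear_combination (norm := skip) (1) * hP02
    clear * - hp ; grind
  subst e0
  have e0 : (0 : k) = Q20 := by
    linear_combination (norm := skip) (1) * hQ20
    clear * - hp ; grind
  subst e0
  have e0 : (1 + a : k) = Q11 := by
    linear_combination (norm := skip) (1) * hQ11
    clear * - hp ; grind
  subst e0
  have e0 : (b : k) = Q02 := by
    linear_combination (norm := skip) (1) * hQ02
    clear * - hp ; grind
  subst e0
  have e0 : (0 : k) = P21 := by
    linear_combination (norm := skip) (1) * hP21
    clear * - hp ; grind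
  subst e0
  have e0 : (0 : k) = P12 := by
    linear_combination (norm := skip) (1) * hP12
    clear * - hp ; grind
  subst e0
  have e0 : (0 : k) = Q21 := by
    linear_combination (norm := skip) (1) * hQ21
    clear * - hp ; grind
  subst e0
  have e0 : (0 : k) = Q12 := by
    linear_combination (norm := skip) (1) * hQ12
    clear * - hp ; grind
  subst e0
  have e0 : (0 : k) = P22 := by
    linear_combination (norm := skip) (1) * hP22
    clear * - hp ; grind
  subst e0
  have e0 : (0 : k) = Q22 := by
    linear_combination (norm := skip) (1) * hQ22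
    clear * - hp ; grind
  subst e0
  exact Has.of_rel ⟨_, _, _, _, _, _, _, _, _, _, _, _, _, _, _, _, hc, he⟩ (has_C1 ..)

theorem hC1_3 (a b p21 p12 p22 q21 q12 q22 : k) :
    Has 0 0 0 a (1 + b) 0 p21 p12 p22 0 0 0 0 (1 + a) b q21 q12 q22 := by
  have hc : (1) * (1) - (0) * (0) ≠ (0 : k) := by simp
  obtain ⟨P00, P10, P01, P20, P11, P02, P21, P12, P22, Q00, Q10, Q01, Q20, Q11, Q02, Q21, Q12, Q22, he⟩ := act 1 0 q12 p21 (-p12 - p21) 0 0 0 0 1 (-q12 - q21) q12 p21 0 0 0 hc 0 0 0 a (1 + b) 0 p21 p12 p22 0 0 0 0 (1 + a) b q21 q12 q22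
  obtain ⟨hP00, hP10, hP01, hP20, hP11, hP02, hP21, hP12, hP22, hQ00, hQ10, hQ01, hQ20, hQ11, hQ02, hQ21, hQ12, hQ22⟩ := id he
  have e0 : (0 : k) = P00 := by
    linear_combination (norm := skip) (1) * hP00
    clear * - hp ; grind
  subst e0
  have e0 : (0 : k) = Q00 := by
    linear_combination (norm := skip) (1) * hQ00
    clear * - hp ; grind
  subst e0
  have e0 : (0 : k) = P10 := by
    linear_combination (norm := skip) (1) * hP10
    clear * - hp ; grind
  subst e0
  have e0 : (0 : k) = P01 := by
    linear_combination (norm := skip) (1) * hP01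
    clear * - hp ; grind
  subst e0
  have e0 : (0 : k) = Q10 := by
    linear_combination (norm := skip) (1) * hQ10
    clear * - hp ; grind
  subst e0
  have e0 : (0 : k) = Q01 := by
    linear_combination (norm := skip) (1) * hQ01
    clear * - hp ; grind
  subst e0
  have e0 : (a : k) = P20 := by
    linear_combination (norm := skip) (1) * hP20
    clear * - hp ; grind
  subst e0
  have e0 : (1 + b : k) = P11 := by
    linear_combination (norm := skip) (1) * hP11
    clear * - hp ; grind
  subst e0
  have e0 : (0 : k) = P02 := by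
    linear_combination (norm := skip) (1) * hP02
    clear * - hp ; grind
  subst e0
  have e0 : (0 : k) = Q20 := by
    linear_combination (norm := skip) (1) * hQ20
    clear * - hp ; grind
  subst e0
  have e0 : (1 + a : k) = Q11 := by
    linear_combination (norm := skip) (1) * hQ11
    clear * - hp ; grind
  subst e0
  have e0 : (b : k) = Q02 := by
    linear_combination (norm := skip) (1) * hQ02
    clear * - hp ; grind
  subst e0
  have e0 : (0 : k) = P21 := by
    linear_combination (norm := skip) (1) * hP21
    clear * - hp ; grind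
  subst e0
  have e0 : (0 : k) = P12 := by
    linear_combination (norm := skip) (1) * hP12
    clear * - hp ; grind
  subst e0
  have e0 : (0 : k) = Q21 := by
    linear_combination (norm := skip) (1) * hQ21
    clear * - hp ; grind
  subst e0
  have e0 : (0 : k) = Q12 := by
    linear_combination (norm := skip) (1) * hQ12
    clear * - hp ; grind
  subst e0
  exact Has.of_rel ⟨_, _, _, _, _, _, _, _, _, _, _, _, _, _, _, _, hc, he⟩ (hC1_4 _ _ _ _)

theorem hC2_4 (a p22 q22 : k) :
    Has 0 0 0 a 1 0 0 0 p22 0 0 0 0 (1 + a) 1 0 0 q22 := by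
  have hc : (1) * (1) - (0) * (0) ≠ (0 : k) := by simp
  obtain ⟨P00, P10, P01, P20, P11, P02, P21, P12, P22, Q00, Q10, Q01, Q20, Q11, Q02, Q21, Q12, Q22, he⟩ := act 1 0 0 0 0 p22 0 0 0 1 0 0 0 (p22 - q22 + a*p22) 0 0 hc 0 0 0 a 1 0 0 0 p22 0 0 0 0 (1 + a) 1 0 0 q22
  obtain ⟨hP00, hP10, hP01, hP20, hP11, hP02, hP21, hP12, hP22, hQ00, hQ10, hQ01, hQ20, hQ11, hQ02, hQ21, hQ12, hQ22⟩ := id he
  have e0 : (0 : k) = P00 := by
    linear_combination (norm := skip) (1) * hP00
    clear * - hp ; grind
  subst e0
  have e0 : (0 : k) = Q00 := by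
    linear_combination (norm := skip) (1) * hQ00
    clear * - hp ; grind
  subst e0
  have e0 : (0 : k) = P10 := by
    linear_combination (norm := skip) (1) * hP10
    clear * - hp ; grind
  subst e0
  have e0 : (0 : k) = P01 := by
    linear_combination (norm := skip) (1) * hP01
    clear * - hp ; grind
  subst e0
  have e0 : (0 : k) = Q10 := by
    linear_combination (norm := skip) (1) * hQ10
    clear * - hp ; grind
  subst e0
  have e0 : (0 : k) = Q01 := by
    linear_combination (norm := skip) (1) * hQ01
    clear * - hp ; grind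
  subst e0
  have e0 : (a : k) = P20 := by
    linear_combination (norm := skip) (1) * hP20
    clear * - hp ; grind
  subst e0
  have e0 : (1 : k) = P11 := by
    linear_combination (norm := skip) (1) * hP11
    clear * - hp ; grind
  subst e0
  have e0 : (0 : k) = P02 := by
    linear_combination (norm := skip) (1) * hP02
    clear * - hp ; grind
  subst e0
  have e0 : (0 : k) = Q20 := by
    linear_combination (norm := skip) (1) * hQ20
    clear * - hp ; grind
  subst e0
  have e0 : (1 + a : k) = Q11 := by
    linear_combination (norm := skip) (1) * hQ11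
    clear * - hp ; grind
  subst e0
  have e0 : (1 : k) = Q02 := by
    linear_combination (norm := skip) (1) * hQ02
    clear * - hp ; grind
  subst e0
  have e0 : (0 : k) = P21 := by
    linear_combination (norm := skip) (1) * hP21
    clear * - hp ; grind
  subst e0
  have e0 : (0 : k) = P12 := by
    linear_combination (norm := skip) (1) * hP12
    clear * - hp ; grind
  subst e0
  have e0 : (0 : k) = Q21 := by
    linear_combination (norm := skip) (1) * hQ21
    clear * - hp ; grind
  subst e0
  have e0 : (0 : k) = Q12 := by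
    linear_combination (norm := skip) (1) * hQ12
    clear * - hp ; grind
  subst e0
  have e0 : (0 : k) = P22 := by
    linear_combination (norm := skip) (1) * hP22
    clear * - hp ; grind
  subst e0
  have e0 : (0 : k) = Q22 := by
    linear_combination (norm := skip) (1) * hQ22
    clear * - hp ; grind
  subst e0
  exact Has.of_rel ⟨_, _, _, _, _, _, _, _, _, _, _, _, _, _, _, _, hc, he⟩ (has_C2 ..)

theorem hC2_3 (a p21 p12 p22 q21 q12 q22 : k) :
    Has 0 0 0 a 1 0 p21 p12 p22 0 0 0 0 (1 + a) 1 q21 q12 q22 := by
  have hc : (1) * (1) - (0) * (0) ≠ (0 : k) := by simp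
  obtain ⟨P00, P10, P01, P20, P11, P02, P21, P12, P22, Q00, Q10, Q01, Q20, Q11, Q02, Q21, Q12, Q22, he⟩ := act 1 0 (q12 - q21 - a*q12) p21 (-p12) 0 0 0 0 1 0 (-q12 - q21 - a*q12) p21 0 0 0 hc 0 0 0 a 1 0 p21 p12 p22 0 0 0 0 (1 + a) 1 q21 q12 q22
  obtain ⟨hP00, hP10, hP01, hP20, hP11, hP02, hP21, hP12, hP22, hQ00, hQ10, hQ01, hQ20, hQ11, hQ02, hQ21, hQ12, hQ22⟩ := id he
  have e0 : (0 : k) = P00 := by
    linear_combination (norm := skip) (1) * hP00
    clear * - hp ; grind
  subst e0
  have e0 : (0 : k) = Q00 := by
    linear_combination (norm := skip) (1) * hQ00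
    clear * - hp ; grind
  subst e0
  have e0 : (0 : k) = P10 := by
    linear_combination (norm := skip) (1) * hP10
    clear * - hp ; grind
  subst e0
  have e0 : (0 : k) = P01 := by
    linear_combination (norm := skip) (1) * hP01
    clear * - hp ; grind
  subst e0
  have e0 : (0 : k) = Q10 := by
    linear_combination (norm := skip) (1) * hQ10
    clear * - hp ; grind
  subst e0
  have e0 : (0 : k) = Q01 := by
    linear_combination (norm := skip) (1) * hQ01
    clear * - hp ; grind
  subst e0
  have e0 : (a : k) = P20 := by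
    linear_combination (norm := skip) (1) * hP20
    clear * - hp ; grind
  subst e0
  have e0 : (1 : k) = P11 := by
    linear_combination (norm := skip) (1) * hP11
    clear * - hp ; grind
  subst e0
  have e0 : (0 : k) = P02 := by
    linear_combination (norm := skip) (1) * hP02
    clear * - hp ; grind
  subst e0
  have e0 : (0 : k) = Q20 := by
    linear_combination (norm := skip) (1) * hQ20
    clear * - hp ; grind
  subst e0
  have e0 : (1 + a : k) = Q11 := by
    linear_combination (norm := skip) (1) * hQ11
    clear * - hp ; grind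
  subst e0
  have e0 : (1 : k) = Q02 := by
    linear_combination (norm := skip) (1) * hQ02
    clear * - hp ; grind
  subst e0
  have e0 : (0 : k) = P21 := by
    linear_combination (norm := skip) (1) * hP21
    clear * - hp ; grind
  subst e0
  have e0 : (0 : k) = P12 := by
    linear_combination (norm := skip) (1) * hP12
    clear * - hp ; grind
  subst e0
  have e0 : (0 : k) = Q21 := by
    linear_combination (norm := skip) (1) * hQ21
    clear * - hp ; grind
  subst e0
  have e0 : (0 : k) = Q12 := by
    linear_combination (norm := skip) (1) * hQ12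
    clear * - hp ; grind
  subst e0
  exact Has.of_rel ⟨_, _, _, _, _, _, _, _, _, _, _, _, _, _, _, _, hc, he⟩ (hC2_4 _ _ _)

theorem hC3_s (a d g : k) :
    Has 0 0 0 a 0 0 0 0 d 0 0 0 0 (1 + a) 0 0 g 0 := by
  by_cases h : 1 + a = 0
  · have e : -1 = a := by linear_combination -h
    subst e
    rw [h]
    by_cases hg : g = 0
    · subst hg
      by_cases hd : d = 0
      · subst hd
        simpa using has_C3 (-1 : k) 0
      · exact has_C4 (Units.mk0 d hd)
    · refine Has.of_rel (S2bm_to d g 0 g ⟨1, 1, d * g⁻¹, by simp, rfl, by field_simp; ring⟩) ?_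
      simpa using has_C3 (-1 : k) g
  · obtain ⟨w, hw⟩ : ∃ w, (1 + a) * w = 1 := ⟨((1 + a))⁻¹, mul_inv_cancel₀ h⟩
    have hc : (1) * (1) - (0) * (0) ≠ (0 : k) := by simp
    obtain ⟨P00, P10, P01, P20, P11, P02, P21, P12, P22, Q00, Q10, Q01, Q20, Q11, Q02, Q21, Q12, Q22, he⟩ := act 1 0 0 0 0 0 (-d*w) 0 0 1 0 0 0 0 0 0 hc 0 0 0 a 0 0 0 0 d 0 0 0 0 (1 + a) 0 0 g 0
    obtain ⟨hP00, hP10, hP01, hP20, hP11, hP02, hP21, hP12, hP22, hQ00, hQ10, hQ01, hQ20, hQ11, hQ02, hQ21, hQ12, hQ22⟩ := id he
    have e0 : (0 : k) = P00 := by
      linear_combination (norm := skip) (1) * hP00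
      clear * - hp hw; grind
    subst e0
    have e0 : (0 : k) = Q00 := by
      linear_combination (norm := skip) (1) * hQ00
      clear * - hp hw; grind
    subst e0
    have e0 : (0 : k) = P10 := by
      linear_combination (norm := skip) (1) * hP10
      clear * - hp hw; grind
    subst e0
    have e0 : (0 : k) = P01 := by
      linear_combination (norm := skip) (1) * hP01
      clear * - hp hw; grind
    subst e0
    have e0 : (0 : k) = Q10 := by
      linear_combination (norm := skip) (1) * hQ10
      clear * - hp hw; grind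
    subst e0
    have e0 : (0 : k) = Q01 := by
      linear_combination (norm := skip) (1) * hQ01
      clear * - hp hw; grind
    subst e0
    have e0 : (a : k) = P20 := by
      linear_combination (norm := skip) (1) * hP20
      clear * - hp hw; grind
    subst e0
    have e0 : (0 : k) = P11 := by
      linear_combination (norm := skip) (1) * hP11
      clear * - hp hw; grind
    subst e0
    have e0 : (0 : k) = P02 := by
      linear_combination (norm := skip) (1) * hP02
      clear * - hp hw; grind
    subst e0
    have e0 : (0 : k) = Q20 := by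
      linear_combination (norm := skip) (1) * hQ20
      clear * - hp hw; grind
    subst e0
    have e0 : (1 + a : k) = Q11 := by
      linear_combination (norm := skip) (1) * hQ11
      clear * - hp hw; grind
    subst e0
    have e0 : (0 : k) = Q02 := by
      linear_combination (norm := skip) (1) * hQ02
      clear * - hp hw; grind
    subst e0
    have e0 : (0 : k) = P21 := by
      linear_combination (norm := skip) (1) * hP21
      clear * - hp hw; grind
    subst e0
    have e0 : (0 : k) = P12 := by
      linear_combination (norm := skip) (1) * hP12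
      clear * - hp hw; grind
    subst e0
    have e0 : (0 : k) = Q21 := by
      linear_combination (norm := skip) (1) * hQ21
      clear * - hp hw; grind
    subst e0
    have e0 : (g : k) = Q12 := by
      linear_combination (norm := skip) (1) * hQ12
      clear * - hp hw; grind
    subst e0
    have e0 : (0 : k) = P22 := by
      linear_combination (norm := skip) (1) * hP22
      clear * - hp hw; grind
    subst e0
    have e0 : (0 : k) = Q22 := by
      linear_combination (norm := skip) (1) * hQ22
      clear * - hp hw; grind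
    subst e0
    exact Has.of_rel ⟨_, _, _, _, _, _, _, _, _, _, _, _, _, _, _, _, hc, he⟩ (has_C3 ..)

theorem hC3_4 (a p22 q12 q22 : k) :
    Has 0 0 0 a 0 0 0 0 p22 0 0 0 0 (1 + a) 0 0 q12 q22 := by
  have hc : (1) * (1) - (0) * (0) ≠ (0 : k) := by simp
  obtain ⟨P00, P10, P01, P20, P11, P02, P21, P12, P22, Q00, Q10, Q01, Q20, Q11, Q02, Q21, Q12, Q22, he⟩ := act 1 0 0 0 0 q22 0 0 0 1 0 0 0 0 (-q22) 0 hc 0 0 0 a 0 0 0 0 p22 0 0 0 0 (1 + a) 0 0 q12 q22
  obtain ⟨hP00, hP10, hP01, hP20, hP11, hP02, hP21, hP12, hP22, hQ00, hQ10, hQ01, hQ20, hQ11, hQ02, hQ21, hQ12, hQ22⟩ := id he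
  have e0 : (0 : k) = P00 := by
    linear_combination (norm := skip) (1) * hP00
    clear * - hp ; grind
  subst e0
  have e0 : (0 : k) = Q00 := by
    linear_combination (norm := skip) (1) * hQ00
    clear * - hp ; grind
  subst e0
  have e0 : (0 : k) = P10 := by
    linear_combination (norm := skip) (1) * hP10
    clear * - hp ; grind
  subst e0
  have e0 : (0 : k) = P01 := by
    linear_combination (norm := skip) (1) * hP01
    clear * - hp ; grind
  subst e0
  have e0 : (0 : k) = Q10 := by
    linear_combination (norm := skip) (1) * hQ10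
    clear * - hp ; grind
  subst e0
  have e0 : (0 : k) = Q01 := by
    linear_combination (norm := skip) (1) * hQ01
    clear * - hp ; grind
  subst e0
  have e0 : (a : k) = P20 := by
    linear_combination (norm := skip) (1) * hP20
    clear * - hp ; grind
  subst e0
  have e0 : (0 : k) = P11 := by
    linear_combination (norm := skip) (1) * hP11
    clear * - hp ; grind
  subst e0
  have e0 : (0 : k) = P02 := by
    linear_combination (norm := skip) (1) * hP02
    clear * - hp ; grind
  subst e0
  have e0 : (0 : k) = Q20 := by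
    linear_combination (norm := skip) (1) * hQ20
    clear * - hp ; grind
  subst e0
  have e0 : (1 + a : k) = Q11 := by
    linear_combination (norm := skip) (1) * hQ11
    clear * - hp ; grind
  subst e0
  have e0 : (0 : k) = Q02 := by
    linear_combination (norm := skip) (1) * hQ02
    clear * - hp ; grind
  subst e0
  have e0 : (0 : k) = P21 := by
    linear_combination (norm := skip) (1) * hP21
    clear * - hp ; grind
  subst e0
  have e0 : (0 : k) = P12 := by
    linear_combination (norm := skip) (1) * hP12
    clear * - hp ; grind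
  subst e0
  have e0 : (0 : k) = Q21 := by
    linear_combination (norm := skip) (1) * hQ21
    clear * - hp ; grind
  subst e0
  have e0 : (q12 : k) = Q12 := by
    linear_combination (norm := skip) (1) * hQ12
    clear * - hp ; grind
  subst e0
  have e0 : (0 : k) = Q22 := by
    linear_combination (norm := skip) (1) * hQ22
    clear * - hp ; grind
  subst e0
  exact Has.of_rel ⟨_, _, _, _, _, _, _, _, _, _, _, _, _, _, _, _, hc, he⟩ (hC3_s ..)

theorem hC3_3 (a p21 p12 p22 q21 q12 q22 : k) :
    Has 0 0 0 a 0 0 p21 p12 p22 0 0 0 0 (1 + a) 0 q21 q12 q22 := by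
  have hc : (1) * (1) - (0) * (0) ≠ (0 : k) := by simp
  obtain ⟨P00, P10, P01, P20, P11, P02, P21, P12, P22, Q00, Q10, Q01, Q20, Q11, Q02, Q21, Q12, Q22, he⟩ := act 1 0 (-q21) p21 (-p12) 0 0 0 0 1 0 (-q21) p21 0 0 0 hc 0 0 0 a 0 0 p21 p12 p22 0 0 0 0 (1 + a) 0 q21 q12 q22
  obtain ⟨hP00, hP10, hP01, hP20, hP11, hP02, hP21, hP12, hP22, hQ00, hQ10, hQ01, hQ20, hQ11, hQ02, hQ21, hQ12, hQ22⟩ := id he
  have e0 : (0 : k) = P00 := by
    linear_combination (norm := skip) (1) * hP00
    clear * - hp ; grind
  subst e0
  have e0 : (0 : k) = Q00 := by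
    linear_combination (norm := skip) (1) * hQ00
    clear * - hp ; grind
  subst e0
  have e0 : (0 : k) = P10 := by
    linear_combination (norm := skip) (1) * hP10
    clear * - hp ; grind
  subst e0
  have e0 : (0 : k) = P01 := by
    linear_combination (norm := skip) (1) * hP01
    clear * - hp ; grind
  subst e0
  have e0 : (0 : k) = Q10 := by
    linear_combination (norm := skip) (1) * hQ10
    clear * - hp ; grind
  subst e0
  have e0 : (0 : k) = Q01 := by
    linear_combination (norm := skip) (1) * hQ01
    clear * - hp ; grind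
  subst e0
  have e0 : (a : k) = P20 := by
    linear_combination (norm := skip) (1) * hP20
    clear * - hp ; grind
  subst e0
  have e0 : (0 : k) = P11 := by
    linear_combination (norm := skip) (1) * hP11
    clear * - hp ; grind
  subst e0
  have e0 : (0 : k) = P02 := by
    linear_combination (norm := skip) (1) * hP02
    clear * - hp ; grind
  subst e0
  have e0 : (0 : k) = Q20 := by
    linear_combination (norm := skip) (1) * hQ20
    clear * - hp ; grind
  subst e0
  have e0 : (1 + a : k) = Q11 := by
    linear_combination (norm := skip) (1) * hQ11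
    clear * - hp ; grind
  subst e0
  have e0 : (0 : k) = Q02 := by
    linear_combination (norm := skip) (1) * hQ02
    clear * - hp ; grind
  subst e0
  have e0 : (0 : k) = P21 := by
    linear_combination (norm := skip) (1) * hP21
    clear * - hp ; grind
  subst e0
  have e0 : (0 : k) = P12 := by
    linear_combination (norm := skip) (1) * hP12
    clear * - hp ; grind
  subst e0
  have e0 : (0 : k) = Q21 := by
    linear_combination (norm := skip) (1) * hQ21
    clear * - hp ; grind
  subst e0
  exact Has.of_rel ⟨_, _, _, _, _, _, _, _, _, _, _, _, _, _, _, _, hc, he⟩ (hC3_4 _ _ _ _)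

theorem h2_2b (a b p21 p12 p22 q21 q12 q22 : k) :
    Has 0 0 0 a b 0 p21 p12 p22 0 0 0 0 (1 + a) b q21 q12 q22 := by
  by_cases h : b = 0
  · subst h
    exact hC3_3 ..
  · obtain ⟨w, hw⟩ : ∃ w, b * w = 1 := ⟨(b)⁻¹, mul_inv_cancel₀ h⟩
    have hc : (b) * (1) - (0) * (0) ≠ (0 : k) := by
      clear * - hp hw; grind
    obtain ⟨P00, P10, P01, P20, P11, P02, P21, P12, P22, Q00, Q10, Q01, Q20, Q11, Q02, Q21, Q12, Q22, he⟩ := act b 0 0 0 0 0 0 0 0 1 0 0 0 0 0 0 hc 0 0 0 a b 0 p21 p12 p22 0 0 0 0 (1 + a) b q21 q12 q22
    obtain ⟨hP00, hP10, hP01, hP20, hP11, hP02, hP21, hP12, hP22, hQ00, hQ10, hQ01, hQ20, hQ11, hQ02, hQ21, hQ12, hQ22⟩ := id he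
    have e0 : (0 : k) = P00 := by
      linear_combination (norm := skip) (w*w) * hP00
      clear * - hp hw; grind
    subst e0
    have e0 : (0 : k) = Q00 := by
      linear_combination (norm := skip) (w) * hQ00
      clear * - hp hw; grind
    subst e0
    have e0 : (0 : k) = P10 := by
      linear_combination (norm := skip) (w*w) * hP10
      clear * - hp hw; grind
    subst e0
    have e0 : (0 : k) = P01 := by
      linear_combination (norm := skip) (w*w) * hP01
      clear * - hp hw; grind
    subst e0
    have e0 : (0 : k) = Q10 := by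
      linear_combination (norm := skip) (w) * hQ10
      clear * - hp hw; grind
    subst e0
    have e0 : (0 : k) = Q01 := by
      linear_combination (norm := skip) (w) * hQ01
      clear * - hp hw; grind
    subst e0
    have e0 : (a : k) = P20 := by
      linear_combination (norm := skip) (w*w) * hP20
      clear * - hp hw; grind
    subst e0
    have e0 : (1 : k) = P11 := by
      linear_combination (norm := skip) (w*w) * hP11
      clear * - hp hw; grind
    subst e0
    have e0 : (0 : k) = P02 := by
      linear_combination (norm := skip) (w*w) * hP02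
      clear * - hp hw; grind
    subst e0
    have e0 : (0 : k) = Q20 := by
      linear_combination (norm := skip) (w) * hQ20
      clear * - hp hw; grind
    subst e0
    have e0 : (1 + a : k) = Q11 := by
      linear_combination (norm := skip) (w) * hQ11
      clear * - hp hw; grind
    subst e0
    have e0 : (1 : k) = Q02 := by
      linear_combination (norm := skip) (w) * hQ02
      clear * - hp hw; grind
    subst e0
    exact Has.of_rel ⟨_, _, _, _, _, _, _, _, _, _, _, _, _, _, _, _, hc, he⟩ (hC2_3 ..)

theorem h2_b2 (a b p21 p12 p22 t q21 q12 q22 : k) (ht : t ≠ 0) :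
    Has 0 0 0 a b 0 p21 p12 p22 0 0 0 0 (a + t) b q21 q12 q22 := by
  obtain ⟨w, hw⟩ : ∃ w, t * w = 1 := ⟨(t)⁻¹, mul_inv_cancel₀ ht⟩
  have hc : (1) * (t) - (0) * (0) ≠ (0 : k) := by
    clear * - hp hw; grind
  obtain ⟨P00, P10, P01, P20, P11, P02, P21, P12, P22, Q00, Q10, Q01, Q20, Q11, Q02, Q21, Q12, Q22, he⟩ := act 1 0 0 0 0 0 0 0 0 t 0 0 0 0 0 0 hc 0 0 0 a b 0 p21 p12 p22 0 0 0 0 (a + t) b q21 q12 q22
  obtain ⟨hP00, hP10, hP01, hP20, hP11, hP02, hP21, hP12, hP22, hQ00, hQ10, hQ01, hQ20, hQ11, hQ02, hQ21, hQ12, hQ22⟩ := id he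
  have e0 : (0 : k) = P00 := by
    linear_combination (norm := skip) (w) * hP00
    clear * - hp hw; grind
  subst e0
  have e0 : (0 : k) = Q00 := by
    linear_combination (norm := skip) (w*w) * hQ00
    clear * - hp hw; grind
  subst e0
  have e0 : (0 : k) = P10 := by
    linear_combination (norm := skip) (w) * hP10
    clear * - hp hw; grind
  subst e0
  have e0 : (0 : k) = P01 := by
    linear_combination (norm := skip) (w) * hP01
    clear * - hp hw; grind
  subst e0
  have e0 : (0 : k) = Q10 := by
    linear_combination (norm := skip) (w*w) * hQ10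
    clear * - hp hw; grind
  subst e0
  have e0 : (0 : k) = Q01 := by
    linear_combination (norm := skip) (w*w) * hQ01
    clear * - hp hw; grind
  subst e0
  have e0 : (a*w : k) = P20 := by
    linear_combination (norm := skip) (w) * hP20
    clear * - hp hw; grind
  subst e0
  have e0 : (b : k) = P11 := by
    linear_combination (norm := skip) (w) * hP11
    clear * - hp hw; grind
  subst e0
  have e0 : (0 : k) = P02 := by
    linear_combination (norm := skip) (w) * hP02
    clear * - hp hw; grind
  subst e0
  have e0 : (0 : k) = Q20 := by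
    linear_combination (norm := skip) (w*w) * hQ20
    clear * - hp hw; grind
  subst e0
  have e0 : (1 + a*w : k) = Q11 := by
    linear_combination (norm := skip) (w*w) * hQ11
    clear * - hp hw; grind
  subst e0
  have e0 : (b : k) = Q02 := by
    linear_combination (norm := skip) (w*w) * hQ02
    clear * - hp hw; grind
  subst e0
  exact Has.of_rel ⟨_, _, _, _, _, _, _, _, _, _, _, _, _, _, _, _, hc, he⟩ (h2_2b ..)


end Pool.Agent.W23
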