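import Pool.Agent.P.MP_c9b50d_al.Invs

namespace Pool.Agent.W23

variable {k : Type*} [Field k] [hp : CharP k 3]

/-- The pair (P, Q) of a normal form. -/
noncomputable def NF.pair (n : NF k) : O k × O k := (n.P, n.Q)

omit hp in
theorem pair_A1 (b c : k) : NF.pair ((.A1 b c) : NF k) = (mk 1 0 0 0 0 0 0 0 c, mk 0 0 0 1 0 0 0 0 b) := by
  simp only [NF.pair, NF.P, NF.Q, m, mk, Prod.mk.injEq, pow_zero, pow_one, mul_one, one_mul]
  constructor <;> module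

omit hp in
theorem pair_A2 (b c : k) : NF.pair ((.A2 b c) : NF k) = (mk 1 0 0 b 0 0 c 0 0, mk 0 0 0 0 0 0 1 0 0) := by
  simp only [NF.pair, NF.P, NF.Q, m, mk, Prod.mk.injEq, pow_zero, pow_one, mul_one, one_mul]
  constructor <;> module

omit hp in
theorem pair_A3 (b : kˣ) : NF.pair ((.A3 b) : NF k) = (mk 1 0 0 1 0 0 0 0 0, mk 0 0 0 0 0 0 0 0 (↑b : k)) := by
  simp only [NF.pair, NF.P, NF.Q, m, mk, Prod.mk.injEq, pow_zero, pow_one, mul_one, one_mul]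
  constructor <;> module

omit hp in
theorem pair_A4 (c : k) : NF.pair ((.A4 c) : NF k) = (mk 1 0 0 1 0 0 0 0 c, mk 0 0 0 0 0 0 0 0 0) := by
  simp only [NF.pair, NF.P, NF.Q, m, mk, Prod.mk.injEq, pow_zero, pow_one, mul_one, one_mul]
  constructor <;> module

omit hp in
theorem pair_A5 (c : k) : NF.pair ((.A5 c) : NF k) = (mk 1 0 0 0 0 0 c 0 0, mk 0 0 0 0 0 0 0 0 1) := by
  simp only [NF.pair, NF.P, NF.Q, m, mk, Prod.mk.injEq, pow_zero, pow_one, mul_one, one_mul]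
  constructor <;> module

omit hp in
theorem pair_A6 (c : k) : NF.pair ((.A6 c) : NF k) = (mk 1 0 0 0 0 0 c 0 0, mk 0 0 0 0 0 0 0 0 0) := by
  simp only [NF.pair, NF.P, NF.Q, m, mk, Prod.mk.injEq, pow_zero, pow_one, mul_one, one_mul]
  constructor <;> module

omit hp in
theorem pair_A7 : NF.pair (.A7 : NF k) = (mk 1 0 0 0 0 0 0 0 1, mk 0 0 0 0 0 0 0 0 0) := by
  simp only [NF.pair, NF.P, NF.Q, m, mk, Prod.mk.injEq, pow_zero, pow_one, mul_one, one_mul]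
  constructor <;> module

omit hp in
theorem pair_B1 (l c : k) : NF.pair ((.B1 l c) : NF k) = (mk 0 1 0 0 0 0 c 0 0, mk 0 0 l 0 0 0 0 0 0) := by
  simp only [NF.pair, NF.P, NF.Q, m, mk, Prod.mk.injEq, pow_zero, pow_one, mul_one, one_mul]
  constructor <;> module

omit hp in
theorem pair_B2 (b c : k) : NF.pair ((.B2 b c) : NF k) = (mk 0 1 0 0 0 1 c 0 0, mk 0 0 (-1) b 0 0 0 0 0) := by
  simp only [NF.pair, NF.P, NF.Q, m, mk, Prod.mk.injEq, pow_zero, pow_one, mul_one, one_mul]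
  constructor <;> module

omit hp in
theorem pair_B3 (b : k) : NF.pair ((.B3 b) : NF k) = (mk 0 1 0 b 0 0 0 0 0, mk 0 0 0 0 0 1 0 0 0) := by
  simp only [NF.pair, NF.P, NF.Q, m, mk, Prod.mk.injEq, pow_zero, pow_one, mul_one, one_mul]
  constructor <;> module

omit hp in
theorem pair_B4 (d : k) : NF.pair ((.B4 d) : NF k) = (mk 0 1 0 1 0 0 0 0 d, mk 0 0 0 0 0 0 0 0 0) := by
  simp only [NF.pair, NF.P, NF.Q, m, mk, Prod.mk.injEq, pow_zero, pow_one, mul_one, one_mul]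
  constructor <;> module

omit hp in
theorem pair_B5 : NF.pair (.B5 : NF k) = (mk 0 1 0 0 0 0 0 0 1, mk 0 0 0 0 0 0 0 0 0) := by
  simp only [NF.pair, NF.P, NF.Q, m, mk, Prod.mk.injEq, pow_zero, pow_one, mul_one, one_mul]
  constructor <;> module

omit hp in
theorem pair_B6 : NF.pair (.B6 : NF k) = (mk 0 1 0 0 0 0 0 0 0, mk 0 0 1 0 0 0 1 0 0) := by
  simp only [NF.pair, NF.P, NF.Q, m, mk, Prod.mk.injEq, pow_zero, pow_one, mul_one, one_mul]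
  constructor <;> module

omit hp in
theorem pair_B7 (c : k) : NF.pair ((.B7 c) : NF k) = (mk 0 1 1 0 0 0 0 0 0, mk 0 0 1 0 0 0 c 0 0) := by
  simp only [NF.pair, NF.P, NF.Q, m, mk, Prod.mk.injEq, pow_zero, pow_one, mul_one, one_mul]
  constructor <;> module

omit hp in
theorem pair_B8 (b : k) : NF.pair ((.B8 b) : NF k) = (mk 0 0 1 0 0 0 0 0 0, mk 0 0 0 1 b 0 0 0 0) := by
  simp only [NF.pair, NF.P, NF.Q, m, mk, Prod.mk.injEq, pow_zero, pow_one, mul_one, one_mul]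
  constructor <;> module

omit hp in
theorem pair_B9 (d : k) : NF.pair ((.B9 d) : NF k) = (mk 0 0 1 0 0 0 0 0 0, mk 0 0 0 0 1 0 d 0 0) := by
  simp only [NF.pair, NF.P, NF.Q, m, mk, Prod.mk.injEq, pow_zero, pow_one, mul_one, one_mul]
  constructor <;> module

omit hp in
theorem pair_B10 : NF.pair (.B10 : NF k) = (mk 0 0 1 0 0 0 0 0 0, mk 0 0 0 0 0 0 1 0 0) := by
  simp only [NF.pair, NF.P, NF.Q, m, mk, Prod.mk.injEq, pow_zero, pow_one, mul_one, one_mul]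
  constructor <;> module

omit hp in
theorem pair_B11 (c e : k) : NF.pair ((.B11 c e) : NF k) = (mk 0 0 1 0 0 0 c 0 0, mk 0 0 0 0 0 0 0 0 e) := by
  simp only [NF.pair, NF.P, NF.Q, m, mk, Prod.mk.injEq, pow_zero, pow_one, mul_one, one_mul]
  constructor <;> module

omit hp in
theorem pair_C1 (a b : k) : NF.pair ((.C1 a b) : NF k) = (mk 0 0 0 a (1 + b) 0 0 0 0, mk 0 0 0 0 (1 + a) b 0 0 0) := by
  simp only [NF.pair, NF.P, NF.Q, m, mk, Prod.mk.injEq, pow_zero, pow_one, mul_one, one_mul]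
  constructor <;> module

omit hp in
theorem pair_C2 (a : k) : NF.pair ((.C2 a) : NF k) = (mk 0 0 0 a 1 0 0 0 0, mk 0 0 0 0 (1 + a) 1 0 0 0) := by
  simp only [NF.pair, NF.P, NF.Q, m, mk, Prod.mk.injEq, pow_zero, pow_one, mul_one, one_mul]
  constructor <;> module

omit hp in
theorem pair_C3 (a g : k) : NF.pair ((.C3 a g) : NF k) = (mk 0 0 0 a 0 0 0 0 0, mk 0 0 0 0 (1 + a) 0 0 g 0) := by
  simp only [NF.pair, NF.P, NF.Q, m, mk, Prod.mk.injEq, pow_zero, pow_one, mul_one, one_mul]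
  constructor <;> module

omit hp in
theorem pair_C4 (d : kˣ) : NF.pair ((.C4 d) : NF k) = (mk 0 0 0 (-1) 0 0 0 0 (↑d : k), mk 0 0 0 0 0 0 0 0 0) := by
  simp only [NF.pair, NF.P, NF.Q, m, mk, Prod.mk.injEq, pow_zero, pow_one, mul_one, one_mul]
  constructor <;> module

omit hp in
theorem pair_C5 (g : k) : NF.pair ((.C5 g) : NF k) = (mk 0 0 0 0 1 0 0 0 0, mk 0 0 0 1 0 1 g 0 0) := by
  simp only [NF.pair, NF.P, NF.Q, m, mk, Prod.mk.injEq, pow_zero, pow_one, mul_one, one_mul]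
  constructor <;> module

omit hp in
theorem pair_C6 (g : k) : NF.pair ((.C6 g) : NF k) = (mk 0 0 0 1 0 0 0 g 0, mk 0 0 0 1 1 0 0 0 0) := by
  simp only [NF.pair, NF.P, NF.Q, m, mk, Prod.mk.injEq, pow_zero, pow_one, mul_one, one_mul]
  constructor <;> module

omit hp in
theorem pair_C7 : NF.pair (.C7 : NF k) = (mk 0 0 0 0 0 0 0 1 0, mk 0 0 0 1 0 0 0 0 0) := by
  simp only [NF.pair, NF.P, NF.Q, m, mk, Prod.mk.injEq, pow_zero, pow_one, mul_one, one_mul]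
  constructor <;> module

omit hp in
theorem pair_C8 (d : k) : NF.pair ((.C8 d) : NF k) = (mk 0 0 0 0 0 0 d 0 0, mk 0 0 0 1 0 0 0 0 0) := by
  simp only [NF.pair, NF.P, NF.Q, m, mk, Prod.mk.injEq, pow_zero, pow_one, mul_one, one_mul]
  constructor <;> module

omit hp in
theorem pair_C9 : NF.pair (.C9 : NF k) = (mk 0 0 0 0 0 0 0 0 1, mk 0 0 0 1 0 0 0 0 0) := by
  simp only [NF.pair, NF.P, NF.Q, m, mk, Prod.mk.injEq, pow_zero, pow_one, mul_one, one_mul]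
  constructor <;> module

omit hp in
theorem pair_C10 : NF.pair (.C10 : NF k) = (mk 0 0 0 1 0 0 0 1 0, mk 0 0 0 0 1 0 0 0 0) := by
  simp only [NF.pair, NF.P, NF.Q, m, mk, Prod.mk.injEq, pow_zero, pow_one, mul_one, one_mul]
  constructor <;> module

omit hp in
theorem pair_C11 (d : k) : NF.pair ((.C11 d) : NF k) = (mk 0 0 0 1 0 0 0 0 0, mk 0 0 0 0 1 0 0 d 0) := by
  simp only [NF.pair, NF.P, NF.Q, m, mk, Prod.mk.injEq, pow_zero, pow_one, mul_one, one_mul]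
  constructor <;> module

omit hp in
theorem pair_D1 (a b : k) : NF.pair ((.D1 a b) : NF k) = (mk 0 0 0 0 0 0 a 0 0, mk 0 0 0 0 0 0 0 (-b) 0) := by
  simp only [NF.pair, NF.P, NF.Q, m, mk, Prod.mk.injEq, pow_zero, pow_one, mul_one, one_mul]
  constructor <;> module

omit hp in
theorem pair_D2 (a : k) : NF.pair ((.D2 a) : NF k) = (mk 0 0 0 0 0 0 a 1 0, mk 0 0 0 0 0 0 0 (-a) 0) := by
  simp only [NF.pair, NF.P, NF.Q, m, mk, Prod.mk.injEq, pow_zero, pow_one, mul_one, one_mul]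
  constructor <;> module

omit hp in
theorem pair_E1 : NF.pair (.E1 : NF k) = (mk 0 0 0 0 0 0 0 0 1, mk 0 0 0 0 0 0 0 0 0) := by
  simp only [NF.pair, NF.P, NF.Q, m, mk, Prod.mk.injEq, pow_zero, pow_one, mul_one, one_mul]
  constructor <;> module

/-- The character with these coordinates is conjugate to a normal form. -/
def Has (p00 p10 p01 p20 p11 p02 p21 p12 p22 q00 q10 q01 q20 q11 q02 q21 q12 q22 : k) : Prop :=
  ∃ n : NF k, Conj (character (mk p00 p10 p01 p20 p11 p02 p21 p12 p22, mk q00 q10 q01 q20 q11 q02 q21 q12 q22)) (character n.pair)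

theorem Has.of_rel {p00 p10 p01 p20 p11 p02 p21 p12 p22 q00 q10 q01 q20 q11 q02 q21 q12 q22 P00 P10 P01 P20 P11 P02 P21 P12 P22 Q00 Q10 Q01 Q20 Q11 Q02 Q21 Q12 Q22 : k}
    (h : Rel p00 p10 p01 p20 p11 p02 p21 p12 p22 q00 q10 q01 q20 q11 q02 q21 q12 q22 P00 P10 P01 P20 P11 P02 P21 P12 P22 Q00 Q10 Q01 Q20 Q11 Q02 Q21 Q12 Q22) (h' : Has P00 P10 P01 P20 P11 P02 P21 P12 P22 Q00 Q10 Q01 Q20 Q11 Q02 Q21 Q12 Q22) :
    Has p00 p10 p01 p20 p11 p02 p21 p12 p22 q00 q10 q01 q20 q11 q02 q21 q12 q22 := by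
  obtain ⟨n, hn⟩ := h'
  exact ⟨n, ((conj_iff ..).mpr h).trans hn⟩

omit hp in
theorem has_A1 (b c : k) : Has (k := k) 1 0 0 0 0 0 0 0 c 0 0 0 1 0 0 0 0 b :=
  ⟨(.A1 b c), by rw [pair_A1]; exact Conj.refl _⟩

omit hp in
theorem has_A2 (b c : k) : Has (k := k) 1 0 0 b 0 0 c 0 0 0 0 0 0 0 0 1 0 0 :=
  ⟨(.A2 b c), by rw [pair_A2]; exact Conj.refl _⟩

omit hp in
theorem has_A3 (b : kˣ) : Has (k := k) 1 0 0 1 0 0 0 0 0 0 0 0 0 0 0 0 0 (↑b : k) :=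
  ⟨(.A3 b), by rw [pair_A3]; exact Conj.refl _⟩

omit hp in
theorem has_A4 (c : k) : Has (k := k) 1 0 0 1 0 0 0 0 c 0 0 0 0 0 0 0 0 0 :=
  ⟨(.A4 c), by rw [pair_A4]; exact Conj.refl _⟩

omit hp in
theorem has_A5 (c : k) : Has (k := k) 1 0 0 0 0 0 c 0 0 0 0 0 0 0 0 0 0 1 :=
  ⟨(.A5 c), by rw [pair_A5]; exact Conj.refl _⟩

omit hp in
theorem has_A6 (c : k) : Has (k := k) 1 0 0 0 0 0 c 0 0 0 0 0 0 0 0 0 0 0 :=
  ⟨(.A6 c), by rw [pair_A6]; exact Conj.refl _⟩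

omit hp in
theorem has_A7 : Has (k := k) 1 0 0 0 0 0 0 0 1 0 0 0 0 0 0 0 0 0 :=
  ⟨.A7, by rw [pair_A7]; exact Conj.refl _⟩

omit hp in
theorem has_B1 (l c : k) : Has (k := k) 0 1 0 0 0 0 c 0 0 0 0 l 0 0 0 0 0 0 :=
  ⟨(.B1 l c), by rw [pair_B1]; exact Conj.refl _⟩

omit hp in
theorem has_B2 (b c : k) : Has (k := k) 0 1 0 0 0 1 c 0 0 0 0 (-1) b 0 0 0 0 0 :=
  ⟨(.B2 b c), by rw [pair_B2]; exact Conj.refl _⟩

omit hp in
theorem has_B3 (b : k) : Has (k := k) 0 1 0 b 0 0 0 0 0 0 0 0 0 0 1 0 0 0 :=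
  ⟨(.B3 b), by rw [pair_B3]; exact Conj.refl _⟩

omit hp in
theorem has_B4 (d : k) : Has (k := k) 0 1 0 1 0 0 0 0 d 0 0 0 0 0 0 0 0 0 :=
  ⟨(.B4 d), by rw [pair_B4]; exact Conj.refl _⟩

omit hp in
theorem has_B5 : Has (k := k) 0 1 0 0 0 0 0 0 1 0 0 0 0 0 0 0 0 0 :=
  ⟨.B5, by rw [pair_B5]; exact Conj.refl _⟩

omit hp in
theorem has_B6 : Has (k := k) 0 1 0 0 0 0 0 0 0 0 0 1 0 0 0 1 0 0 :=
  ⟨.B6, by rw [pair_B6]; exact Conj.refl _⟩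

omit hp in
theorem has_B7 (c : k) : Has (k := k) 0 1 1 0 0 0 0 0 0 0 0 1 0 0 0 c 0 0 :=
  ⟨(.B7 c), by rw [pair_B7]; exact Conj.refl _⟩

omit hp in
theorem has_B8 (b : k) : Has (k := k) 0 0 1 0 0 0 0 0 0 0 0 0 1 b 0 0 0 0 :=
  ⟨(.B8 b), by rw [pair_B8]; exact Conj.refl _⟩

omit hp in
theorem has_B9 (d : k) : Has (k := k) 0 0 1 0 0 0 0 0 0 0 0 0 0 1 0 d 0 0 :=
  ⟨(.B9 d), by rw [pair_B9]; exact Conj.refl _⟩

omit hp in
theorem has_B10 : Has (k := k) 0 0 1 0 0 0 0 0 0 0 0 0 0 0 0 1 0 0 :=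
  ⟨.B10, by rw [pair_B10]; exact Conj.refl _⟩

omit hp in
theorem has_B11 (c e : k) : Has (k := k) 0 0 1 0 0 0 c 0 0 0 0 0 0 0 0 0 0 e :=
  ⟨(.B11 c e), by rw [pair_B11]; exact Conj.refl _⟩

omit hp in
theorem has_C1 (a b : k) : Has (k := k) 0 0 0 a (1 + b) 0 0 0 0 0 0 0 0 (1 + a) b 0 0 0 :=
  ⟨(.C1 a b), by rw [pair_C1]; exact Conj.refl _⟩

omit hp in
theorem has_C2 (a : k) : Has (k := k) 0 0 0 a 1 0 0 0 0 0 0 0 0 (1 + a) 1 0 0 0 :=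
  ⟨(.C2 a), by rw [pair_C2]; exact Conj.refl _⟩

omit hp in
theorem has_C3 (a g : k) : Has (k := k) 0 0 0 a 0 0 0 0 0 0 0 0 0 (1 + a) 0 0 g 0 :=
  ⟨(.C3 a g), by rw [pair_C3]; exact Conj.refl _⟩

omit hp in
theorem has_C4 (d : kˣ) : Has (k := k) 0 0 0 (-1) 0 0 0 0 (↑d : k) 0 0 0 0 0 0 0 0 0 :=
  ⟨(.C4 d), by rw [pair_C4]; exact Conj.refl _⟩

omit hp in
theorem has_C5 (g : k) : Has (k := k) 0 0 0 0 1 0 0 0 0 0 0 0 1 0 1 g 0 0 :=
  ⟨(.C5 g), by rw [pair_C5]; exact Conj.refl _⟩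

omit hp in
theorem has_C6 (g : k) : Has (k := k) 0 0 0 1 0 0 0 g 0 0 0 0 1 1 0 0 0 0 :=
  ⟨(.C6 g), by rw [pair_C6]; exact Conj.refl _⟩

omit hp in
theorem has_C7 : Has (k := k) 0 0 0 0 0 0 0 1 0 0 0 0 1 0 0 0 0 0 :=
  ⟨.C7, by rw [pair_C7]; exact Conj.refl _⟩

omit hp in
theorem has_C8 (d : k) : Has (k := k) 0 0 0 0 0 0 d 0 0 0 0 0 1 0 0 0 0 0 :=
  ⟨(.C8 d), by rw [pair_C8]; exact Conj.refl _⟩

omit hp in
theorem has_C9 : Has (k := k) 0 0 0 0 0 0 0 0 1 0 0 0 1 0 0 0 0 0 :=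
  ⟨.C9, by rw [pair_C9]; exact Conj.refl _⟩

omit hp in
theorem has_C10 : Has (k := k) 0 0 0 1 0 0 0 1 0 0 0 0 0 1 0 0 0 0 :=
  ⟨.C10, by rw [pair_C10]; exact Conj.refl _⟩

omit hp in
theorem has_C11 (d : k) : Has (k := k) 0 0 0 1 0 0 0 0 0 0 0 0 0 1 0 0 d 0 :=
  ⟨(.C11 d), by rw [pair_C11]; exact Conj.refl _⟩

omit hp in
theorem has_D1 (a b : k) : Has (k := k) 0 0 0 0 0 0 a 0 0 0 0 0 0 0 0 0 (-b) 0 :=
  ⟨(.D1 a b), by rw [pair_D1]; exact Conj.refl _⟩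

omit hp in
theorem has_D2 (a : k) : Has (k := k) 0 0 0 0 0 0 a 1 0 0 0 0 0 0 0 0 (-a) 0 :=
  ⟨(.D2 a), by rw [pair_D2]; exact Conj.refl _⟩

omit hp in
theorem has_E1 : Has (k := k) 0 0 0 0 0 0 0 0 1 0 0 0 0 0 0 0 0 0 :=
  ⟨.E1, by rw [pair_E1]; exact Conj.refl _⟩

/-- The coarse class of a normal form. -/
def st : NF k → ℕ
  | .A1 _ _ => 0
  | .A2 _ _ => 0
  | .A3 _ => 0
  | .A4 _ => 0
  | .A5 _ => 0
  | .A6 _ => 0
  | .A7 => 0
  | .B1 _ _ => 1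
  | .B2 _ _ => 1
  | .B3 _ => 1
  | .B4 _ => 1
  | .B5 => 1
  | .B6 => 1
  | .B7 _ => 2
  | .B8 _ => 3
  | .B9 _ => 3
  | .B10 => 3
  | .B11 _ _ => 3
  | .C1 _ _ => 4
  | .C2 _ => 5
  | .C3 _ _ => 5
  | .C4 _ => 5
  | .C5 _ => 6
  | .C6 _ => 6
  | .C7 => 6
  | .C8 _ => 6
  | .C9 => 6
  | .C10 => 7
  | .C11 _ => 7
  | .D1 _ _ => 8
  | .D2 _ => 8
  | .E1 => 8

theorem cls_pair (n : NF k) : ∃ p00 p10 p01 p20 p11 p02 p21 p12 p22 q00 q10 q01 q20 q11 q02 q21 q12 q22 : k,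
    n.pair = (mk p00 p10 p01 p20 p11 p02 p21 p12 p22, mk q00 q10 q01 q20 q11 q02 q21 q12 q22) ∧ cls p00 p10 p01 p20 p11 p02 p21 p12 p22 q00 q10 q01 q20 q11 q02 q21 q12 q22 = st n := by
  cases n with
  | A1 b c =>
    exact ⟨_, _, _, _, _, _, _, _, _, _, _, _, _, _, _, _, _, _, pair_A1 .., by simp [cls, st]⟩
  | A2 b c =>
    exact ⟨_, _, _, _, _, _, _, _, _, _, _, _, _, _, _, _, _, _, pair_A2 .., by simp [cls, st]⟩
  | A3 b =>
    exact ⟨_, _, _, _, _, _, _, _, _, _, _, _, _, _, _, _, _, _, pair_A3 .., by simp [cls, st]⟩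
  | A4 c =>
    exact ⟨_, _, _, _, _, _, _, _, _, _, _, _, _, _, _, _, _, _, pair_A4 .., by simp [cls, st]⟩
  | A5 c =>
    exact ⟨_, _, _, _, _, _, _, _, _, _, _, _, _, _, _, _, _, _, pair_A5 .., by simp [cls, st]⟩
  | A6 c =>
    exact ⟨_, _, _, _, _, _, _, _, _, _, _, _, _, _, _, _, _, _, pair_A6 .., by simp [cls, st]⟩
  | A7 =>
    exact ⟨_, _, _, _, _, _, _, _, _, _, _, _, _, _, _, _, _, _, pair_A7 .., by simp [cls, st]⟩
  | B1 l c =>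
    exact ⟨_, _, _, _, _, _, _, _, _, _, _, _, _, _, _, _, _, _, pair_B1 .., by
      have h1 : ¬((1 : k) + l = 0 ∧ l = 0) := by rintro ⟨h, rfl⟩; simp at h
      have h2 : ¬((1 + l) * (1 + l) - l = 0 ∧ ¬(1 : k) = l) := by grind
      simp [cls, st, h1, h2]⟩
  | B2 b c =>
    exact ⟨_, _, _, _, _, _, _, _, _, _, _, _, _, _, _, _, _, _, pair_B2 .., by simp [cls, st]⟩
  | B3 b =>
    exact ⟨_, _, _, _, _, _, _, _, _, _, _, _, _, _, _, _, _, _, pair_B3 .., by simp [cls, st]⟩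
  | B4 d =>
    exact ⟨_, _, _, _, _, _, _, _, _, _, _, _, _, _, _, _, _, _, pair_B4 .., by simp [cls, st]⟩
  | B5 =>
    exact ⟨_, _, _, _, _, _, _, _, _, _, _, _, _, _, _, _, _, _, pair_B5 .., by simp [cls, st]⟩
  | B6 =>
    exact ⟨_, _, _, _, _, _, _, _, _, _, _, _, _, _, _, _, _, _, pair_B6 .., by
      have h : (1 : k) + 1 ≠ 0 := by grind
      simp [cls, st, h]⟩
  | B7 c =>
    exact ⟨_, _, _, _, _, _, _, _, _, _, _, _, _, _, _, _, _, _, pair_B7 .., by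
      have h : (1 : k) + 1 ≠ 0 := by grind
      have h2 : ((1 : k) + 1) * (1 + 1) - 1 = 0 := by grind
      simp [cls, st, h, h2]⟩
  | B8 b =>
    exact ⟨_, _, _, _, _, _, _, _, _, _, _, _, _, _, _, _, _, _, pair_B8 .., by simp [cls, st]⟩
  | B9 d =>
    exact ⟨_, _, _, _, _, _, _, _, _, _, _, _, _, _, _, _, _, _, pair_B9 .., by simp [cls, st]⟩
  | B10 =>
    exact ⟨_, _, _, _, _, _, _, _, _, _, _, _, _, _, _, _, _, _, pair_B10 .., by simp [cls, st]⟩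
  | B11 c e =>
    exact ⟨_, _, _, _, _, _, _, _, _, _, _, _, _, _, _, _, _, _, pair_B11 .., by simp [cls, st]⟩
  | C1 a b =>
    exact ⟨_, _, _, _, _, _, _, _, _, _, _, _, _, _, _, _, _, _, pair_C1 .., by
      have h1 : ¬(a = 0 ∧ (1 : k) + b = 0 ∧ 1 + a = 0 ∧ b = 0) := by grind
      simp [cls, st, h1]⟩
  | C2 a =>
    exact ⟨_, _, _, _, _, _, _, _, _, _, _, _, _, _, _, _, _, _, pair_C2 .., by simp [cls, st]⟩
  | C3 a g =>
    exact ⟨_, _, _, _, _, _, _, _, _, _, _, _, _, _, _, _, _, _, pair_C3 .., by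
      have h1 : ¬(a = 0 ∧ (1 : k) + a = 0) := by grind
      simp [cls, st, h1]⟩
  | C4 d =>
    exact ⟨_, _, _, _, _, _, _, _, _, _, _, _, _, _, _, _, _, _, pair_C4 .., by simp [cls, st]⟩
  | C5 g =>
    exact ⟨_, _, _, _, _, _, _, _, _, _, _, _, _, _, _, _, _, _, pair_C5 .., by simp [cls, st]⟩
  | C6 g =>
    exact ⟨_, _, _, _, _, _, _, _, _, _, _, _, _, _, _, _, _, _, pair_C6 .., by simp [cls, st]⟩
  | C7 =>
    exact ⟨_, _, _, _, _, _, _, _, _, _, _, _, _, _, _, _, _, _, pair_C7 .., by simp [cls, st]⟩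
  | C8 d =>
    exact ⟨_, _, _, _, _, _, _, _, _, _, _, _, _, _, _, _, _, _, pair_C8 .., by simp [cls, st]⟩
  | C9 =>
    exact ⟨_, _, _, _, _, _, _, _, _, _, _, _, _, _, _, _, _, _, pair_C9 .., by simp [cls, st]⟩
  | C10 =>
    exact ⟨_, _, _, _, _, _, _, _, _, _, _, _, _, _, _, _, _, _, pair_C10 .., by simp [cls, st]⟩
  | C11 d =>
    exact ⟨_, _, _, _, _, _, _, _, _, _, _, _, _, _, _, _, _, _, pair_C11 .., by simp [cls, st]⟩
  | D1 a b =>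
    exact ⟨_, _, _, _, _, _, _, _, _, _, _, _, _, _, _, _, _, _, pair_D1 .., by simp [cls, st]⟩
  | D2 a =>
    exact ⟨_, _, _, _, _, _, _, _, _, _, _, _, _, _, _, _, _, _, pair_D2 .., by simp [cls, st]⟩
  | E1 =>
    exact ⟨_, _, _, _, _, _, _, _, _, _, _, _, _, _, _, _, _, _, pair_E1 .., by simp [cls, st]⟩

theorem st_eq {n n' : NF k} (h : Conj (character n.pair) (character n'.pair)) : st n = st n' := by
  obtain ⟨_, _, _, _, _, _, _, _, _, _, _, _, _, _, _, _, _, _, h1, h2⟩ := cls_pair n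
  obtain ⟨_, _, _, _, _, _, _, _, _, _, _, _, _, _, _, _, _, _, h3, h4⟩ := cls_pair n'
  rw [h1, h3, conj_iff] at h
  rw [← h2, ← h4]
  exact cls_eq h

end Pool.Agent.W23
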