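import Pool.Agent.P.MP_c9b50d_al.Coord

/-!
Every Lie algebra automorphism of W(2,1), p = 3, preserves the standard maximal subalgebra.
-/

namespace Pool.Agent.W23

variable {k : Type*} [Field k] [CharP k 3]

/-- The derivation with the given coordinates. -/
noncomputable def dm (p00 p10 p01 p20 p11 p02 p21 p12 p22 q00 q10 q01 q20 q11 q02 q21 q12 q22 : k) :
    W k :=
  der (mk p00 p10 p01 p20 p11 p02 p21 p12 p22) (mk q00 q10 q01 q20 q11 q02 q21 q12 q22)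

theorem dm_surj (E : W k) :
    ∃ p00 p10 p01 p20 p11 p02 p21 p12 p22 q00 q10 q01 q20 q11 q02 q21 q12 q22 : k,
    E = dm p00 p10 p01 p20 p11 p02 p21 p12 p22 q00 q10 q01 q20 q11 q02 q21 q12 q22 := by
  obtain ⟨p00, p10, p01, p20, p11, p02, p21, p12, p22, hp⟩ := mk_surj (E x)
  obtain ⟨q00, q10, q01, q20, q11, q02, q21, q12, q22, hq⟩ := mk_surj (E y)
  exact ⟨p00, p10, p01, p20, p11, p02, p21, p12, p22, q00, q10, q01, q20, q11, q02, q21, q12, q22,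
    by rw [dm, ← hp, ← hq, der_eq]⟩

theorem dm_inj {p00 p10 p01 p20 p11 p02 p21 p12 p22 q00 q10 q01 q20 q11 q02 q21 q12 q22
    r00 r10 r01 r20 r11 r02 r21 r12 r22 s00 s10 s01 s20 s11 s02 s21 s12 s22 : k} :
    dm p00 p10 p01 p20 p11 p02 p21 p12 p22 q00 q10 q01 q20 q11 q02 q21 q12 q22 =
    dm r00 r10 r01 r20 r11 r02 r21 r12 r22 s00 s10 s01 s20 s11 s02 s21 s12 s22 ↔
    (p00 = r00 ∧ p10 = r10 ∧ p01 = r01 ∧ p20 = r20 ∧ p11 = r11 ∧ p02 = r02 ∧ p21 = r21 ∧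
      p12 = r12 ∧ p22 = r22) ∧ (q00 = s00 ∧ q10 = s10 ∧ q01 = s01 ∧ q20 = s20 ∧ q11 = s11 ∧
      q02 = s02 ∧ q21 = s21 ∧ q12 = s12 ∧ q22 = s22) := by
  rw [← mk_inj, ← mk_inj]
  constructor
  · intro h
    exact ⟨by simpa [dm] using congrArg (fun E : W k => E x) h,
      by simpa [dm] using congrArg (fun E : W k => E y) h⟩
  · rintro ⟨h1, h2⟩
    rw [dm, dm, h1, h2]

theorem dm_zero : (0 : W k) = dm 0 0 0 0 0 0 0 0 0 0 0 0 0 0 0 0 0 0 :=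
  W_ext (by simp [dm, ← zero_eq]) (by simp [dm, ← zero_eq])

theorem dm_add (p00 p10 p01 p20 p11 p02 p21 p12 p22 q00 q10 q01 q20 q11 q02 q21 q12 q22
    r00 r10 r01 r20 r11 r02 r21 r12 r22 s00 s10 s01 s20 s11 s02 s21 s12 s22 : k) :
    dm p00 p10 p01 p20 p11 p02 p21 p12 p22 q00 q10 q01 q20 q11 q02 q21 q12 q22 +
    dm r00 r10 r01 r20 r11 r02 r21 r12 r22 s00 s10 s01 s20 s11 s02 s21 s12 s22 =
    dm (p00 + r00) (p10 + r10) (p01 + r01) (p20 + r20) (p11 + r11) (p02 + r02) (p21 + r21)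
      (p12 + r12) (p22 + r22) (q00 + s00) (q10 + s10) (q01 + s01) (q20 + s20) (q11 + s11)
      (q02 + s02) (q21 + s21) (q12 + s12) (q22 + s22) :=
  W_ext (by simp [dm, mk_add]) (by simp [dm, mk_add])

theorem dm_smul (c p00 p10 p01 p20 p11 p02 p21 p12 p22 q00 q10 q01 q20 q11 q02 q21 q12 q22 : k) :
    c • dm p00 p10 p01 p20 p11 p02 p21 p12 p22 q00 q10 q01 q20 q11 q02 q21 q12 q22 =
    dm (c * p00) (c * p10) (c * p01) (c * p20) (c * p11) (c * p02) (c * p21) (c * p12) (c * p22)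
      (c * q00) (c * q10) (c * q01) (c * q20) (c * q11) (c * q02) (c * q21) (c * q12) (c * q22) :=
  W_ext (by simp [dm, mk_smul]) (by simp [dm, mk_smul])

theorem br_dm (p00 p10 p01 p20 p11 p02 p21 p12 p22 q00 q10 q01 q20 q11 q02 q21 q12 q22 r00 r10 r01 r20 r11 r02 r21 r12 r22 s00 s10 s01 s20 s11 s02 s21 s12 s22 : k) :
    ⁅dm p00 p10 p01 p20 p11 p02 p21 p12 p22 q00 q10 q01 q20 q11 q02 q21 q12 q22, dm r00 r10 r01 r20 r11 r02 r21 r12 r22 s00 s10 s01 s20 s11 s02 s21 s12 s22⁆ =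
    dm (p00*r10 - p01*s00 - p10*r00 + q00*r01) (-p00*r20 - p01*s10 - p11*s00 + p20*r00 + q00*r11 + q10*r01) (p00*r11 + p01*r10 - p01*s01 + p02*s00 - p10*r01 - p11*r00 - q00*r02 + q01*r01) (-p01*s20 + p10*r20 - p11*s10 - p20*r10 - p21*s00 + q00*r21 + q10*r11 + q20*r01) (-p00*r21 - p01*r20 - p01*s11 + p02*s10 - p11*s01 + p12*s00 + p20*r01 + p21*r00 - q00*r12 + q01*r11 - q10*r02 + q11*r01) (p00*r12 + p01*r11 - p01*s02 + p02*r10 + p02*s01 - p10*r02 - p11*r01 - p12*r00 - q01*r02 + q02*r01) (-p01*s21 + p02*s20 + p10*r21 + p11*r20 - p11*s11 + p12*s10 - p20*r11 - p21*r10 - p21*s01 + p22*s00 - q00*r22 + q01*r21 - q10*r12 + q11*r11 - q20*r02 + q21*r01) (-p00*r22 - p01*r21 - p01*s12 - p02*r20 + p02*s11 - p11*s02 + p12*s01 + p20*r02 + p21*r01 + p22*r00 - q01*r12 + q02*r11 - q11*r02 + q12*r01) (-p01*s22 + p02*s21 + p10*r22 + p11*r21 - p11*s12 +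 p12*r20 + p12*s11 - p20*r12 - p21*r11 - p21*s02 - p22*r10 + p22*s01 - q01*r22 + q02*r21 - q11*r12 + q12*r11 - q21*r02 + q22*r01) (p00*s10 + q00*s01 - q01*s00 - q10*r00) (-p00*s20 + p10*s10 + q00*s11 - q01*s10 - q10*r10 + q10*s01 - q11*s00 + q20*r00) (p00*s11 + p01*s10 - q00*s02 + q02*s00 - q10*r01 - q11*r00) (-p10*s20 + p20*s10 + q00*s21 - q01*s20 - q10*r20 + q10*s11 - q11*s10 + q20*r10 + q20*s01 - q21*s00) (-p00*s21 - p01*s20 + p10*s11 + p11*s10 - q00*s12 + q02*s10 - q10*r11 - q10*s02 - q11*r10 + q12*s00 + q20*r01 + q21*r00) (p00*s12 + p01*s11 + p02*s10 + q01*s02 - q02*s01 - q10*r02 - q11*r01 - q12*r00) (-p10*s21 - p11*s20 + p20*s11 + p21*s10 - q00*s22 + q02*s20 - q10*r21 - q10*s12 - q11*r20 + q12*s10 + q20*r11 - q20*s02 + q21*r10 + q22*s00) (-p00*s22 - p01*s21 - p02*s20 + p10*s12 + p11*s11 + p12*s10 + q01*s12 - q02*s11 - q10*r12 -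 q11*r11 + q11*s02 - q12*r10 - q12*s01 + q20*r02 + q21*r01 + q22*r00) (-p10*s22 - p11*s21 - p12*s20 + p20*s12 + p21*s11 + p22*s10 + q01*s22 - q02*s21 - q10*r22 - q11*r21 + q11*s12 - q12*r20 - q12*s11 + q20*r12 + q21*r11 + q21*s02 + q22*r10 - q22*s01) := by
  apply W_ext
  · simp only [dm, Derivation.commutator_apply, der_x, der_y, der_mk, mk_mul, mk_add, mk_sub, mk_inj]
    refine ⟨?_, ?_, ?_, ?_, ?_, ?_, ?_, ?_, ?_⟩ <;> grind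
  · simp only [dm, Derivation.commutator_apply, der_x, der_y, der_mk, mk_mul, mk_add, mk_sub, mk_inj]
    refine ⟨?_, ?_, ?_, ?_, ?_, ?_, ?_, ?_, ?_⟩ <;> grind


omit [CharP k 3] in
theorem br_add (A B C : W k) : ⁅A, B + C⁆ = ⁅A, B⁆ + ⁅A, C⁆ := lie_add A B C

omit [CharP k 3] in
theorem br_smul (c : k) (A B : W k) : ⁅A, c • B⁆ = c • ⁅A, B⁆ := lie_smul c A B

/-- Sandwich elements. -/
def Sw (S : W k) : Prop := ∀ F : W k, ⁅S, ⁅S, F⁆⁆ = 0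

/-- The centraliser of the sandwich elements. -/
def Cz (Z : W k) : Prop := ∀ S : W k, Sw S → ⁅S, Z⁆ = 0

/-- The normaliser of that centraliser. -/
def Nz (E : W k) : Prop := ∀ Z : W k, Cz Z → Cz ⁅E, Z⁆

omit [CharP k 3] in
theorem Sw.map (σ : W k ≃ₗ⁅k⁆ W k) {S : W k} (h : Sw S) : Sw (σ S) := by
  intro F
  rw [← σ.apply_symm_apply F, ← σ.map_lie, ← σ.map_lie, h]
  exact map_zero σ

omit [CharP k 3] in
theorem Cz.map (σ : W k ≃ₗ⁅k⁆ W k) {Z : W k} (h : Cz Z) : Cz (σ Z) := by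
  intro S hS
  have := h _ (hS.map σ.symm)
  have h2 := congrArg σ this
  rw [σ.map_lie, σ.apply_symm_apply] at h2
  rw [h2]
  exact map_zero σ

omit [CharP k 3] in
theorem Nz.map (σ : W k ≃ₗ⁅k⁆ W k) {E : W k} (h : Nz E) : Nz (σ E) := by
  intro Z hZ
  have := (h _ (hZ.map σ.symm)).map σ
  rwa [σ.map_lie, σ.apply_symm_apply] at this

theorem sw_low {p00 p10 p01 p20 p11 p02 p21 p12 p22 q00 q10 q01 q20 q11 q02 q21 q12 q22 : k}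
    (h : Sw (dm p00 p10 p01 p20 p11 p02 p21 p12 p22 q00 q10 q01 q20 q11 q02 q21 q12 q22)) :
    p00 = 0 ∧ q00 = 0 ∧ p10 = 0 ∧ p01 = 0 ∧ q10 = 0 ∧ q01 = 0 := by
  have h1 := h (dm 0 0 0 1 0 0 0 0 0 0 0 0 0 0 0 0 0 0)
  have h2 := h (dm 0 0 0 0 0 0 0 0 0 0 0 0 0 0 1 0 0 0)
  rw [br_dm, br_dm, dm_zero, dm_inj] at h1 h2
  have e1 : p00 = 0 := by
    have := h1.1.1
    apply pow_eq_zero_iff (two_ne_zero) |>.mp
    clear h1 h2 h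
    grind
  have e2 : q00 = 0 := by
    have := h2.2.1
    apply pow_eq_zero_iff (two_ne_zero) |>.mp
    clear h1 h2 h
    grind
  clear h1 h2
  subst e1 e2
  have h3 := h (dm 0 0 0 0 0 0 0 0 0 0 1 0 0 0 0 0 0 0)
  have h4 := h (dm 0 0 1 0 0 0 0 0 0 0 0 0 0 0 0 0 0 0)
  have h5 := h (dm 1 0 0 0 0 0 0 0 0 0 0 0 0 0 0 0 0 0)
  have h6 := h (dm 0 0 0 0 0 0 0 0 0 1 0 0 0 0 0 0 0 0)
  rw [br_dm, br_dm, dm_zero, dm_inj] at h3 h4 h5 h6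
  have a1 := h3.1.2.1
  have a2 := h3.1.2.2.1
  have a3 := h3.2.2.1
  have a4 := h3.2.2.2.1
  have b1 := h4.1.2.1
  have b2 := h4.1.2.2.1
  have b3 := h4.2.2.1
  have b4 := h4.2.2.2.1
  have c1 := h5.1.1
  have c2 := h5.2.1
  have d1 := h6.1.1
  have d2 := h6.2.1
  clear h3 h4 h5 h6 h
  have e3 : p01 = 0 := by
    apply pow_eq_zero_iff (two_ne_zero) |>.mp
    grind
  have e4 : q10 = 0 := by
    apply pow_eq_zero_iff (two_ne_zero) |>.mp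
    grind
  subst e3 e4
  have e5 : p10 = 0 := by
    apply pow_eq_zero_iff (two_ne_zero) |>.mp
    grind
  have e6 : q01 = 0 := by
    apply pow_eq_zero_iff (two_ne_zero) |>.mp
    grind
  exact ⟨rfl, rfl, e5, rfl, rfl, e6⟩

theorem cz_top (a b : k) : Cz (dm 0 0 0 0 0 0 0 0 a 0 0 0 0 0 0 0 0 b) := by
  intro S hS
  obtain ⟨p00, p10, p01, p20, p11, p02, p21, p12, p22, q00, q10, q01, q20, q11, q02, q21, q12,
    q22, rfl⟩ := dm_surj S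
  obtain ⟨rfl, rfl, rfl, rfl, rfl, rfl⟩ := sw_low hS
  rw [br_dm, dm_zero, dm_inj]
  simp

theorem sw_a : Sw (dm 0 0 0 0 0 1 0 0 0 0 0 0 0 0 0 0 0 0 : W k) := by
  intro F
  obtain ⟨p00, p10, p01, p20, p11, p02, p21, p12, p22, q00, q10, q01, q20, q11, q02, q21, q12,
    q22, rfl⟩ := dm_surj F
  rw [br_dm, br_dm, dm_zero, dm_inj]
  refine ⟨⟨?_, ?_, ?_, ?_, ?_, ?_, ?_, ?_, ?_⟩, ⟨?_, ?_, ?_, ?_, ?_, ?_, ?_, ?_, ?_⟩⟩ <;> grind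

theorem sw_b : Sw (dm 0 0 0 0 0 0 0 0 0 0 0 0 1 0 0 0 0 0 : W k) := by
  intro F
  obtain ⟨p00, p10, p01, p20, p11, p02, p21, p12, p22, q00, q10, q01, q20, q11, q02, q21, q12,
    q22, rfl⟩ := dm_surj F
  rw [br_dm, br_dm, dm_zero, dm_inj]
  refine ⟨⟨?_, ?_, ?_, ?_, ?_, ?_, ?_, ?_, ?_⟩, ⟨?_, ?_, ?_, ?_, ?_, ?_, ?_, ?_, ?_⟩⟩ <;> grind

theorem sw_c : Sw (dm 0 0 0 1 2 1 0 0 0 0 0 0 (-1) (-2) (-1) 0 0 0 : W k) := by
  intro F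
  obtain ⟨p00, p10, p01, p20, p11, p02, p21, p12, p22, q00, q10, q01, q20, q11, q02, q21, q12,
    q22, rfl⟩ := dm_surj F
  rw [br_dm, br_dm, dm_zero, dm_inj]
  refine ⟨⟨?_, ?_, ?_, ?_, ?_, ?_, ?_, ?_, ?_⟩, ⟨?_, ?_, ?_, ?_, ?_, ?_, ?_, ?_, ?_⟩⟩ <;> grind

theorem sw_e : Sw (dm 0 0 0 0 0 0 0 1 0 0 0 0 0 0 0 0 0 0 : W k) := by
  intro F
  obtain ⟨p00, p10, p01, p20, p11, p02, p21, p12, p22, q00, q10, q01, q20, q11, q02, q21, q12,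
    q22, rfl⟩ := dm_surj F
  rw [br_dm, br_dm, dm_zero, dm_inj]
  refine ⟨⟨?_, ?_, ?_, ?_, ?_, ?_, ?_, ?_, ?_⟩, ⟨?_, ?_, ?_, ?_, ?_, ?_, ?_, ?_, ?_⟩⟩ <;> grind

theorem sw_f : Sw (dm 0 0 0 0 0 0 0 0 0 0 0 0 0 0 0 1 0 0 : W k) := by
  intro F
  obtain ⟨p00, p10, p01, p20, p11, p02, p21, p12, p22, q00, q10, q01, q20, q11, q02, q21, q12,
    q22, rfl⟩ := dm_surj F
  rw [br_dm, br_dm, dm_zero, dm_inj]
  refine ⟨⟨?_, ?_, ?_, ?_, ?_, ?_, ?_, ?_, ?_⟩, ⟨?_, ?_, ?_, ?_, ?_, ?_, ?_, ?_, ?_⟩⟩ <;> grind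

theorem cz_shape {Z : W k} (h : Cz Z) :
    ∃ c a b : k, Z = dm 0 0 0 0 0 0 c 0 a 0 0 0 0 0 0 0 (-c) b := by
  obtain ⟨p00, p10, p01, p20, p11, p02, p21, p12, p22, q00, q10, q01, q20, q11, q02, q21, q12,
    q22, rfl⟩ := dm_surj Z
  have ha := h _ sw_a
  have hb := h _ sw_b
  have hc := h _ sw_c
  have he := h _ sw_e
  have hf := h _ sw_f
  rw [br_dm, dm_zero, dm_inj] at ha hb hc he hf
  refine ⟨p21, p22, q22, ?_⟩
  rw [dm_inj]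
  clear h
  refine ⟨⟨?_, ?_, ?_, ?_, ?_, ?_, ?_, ?_, ?_⟩, ⟨?_, ?_, ?_, ?_, ?_, ?_, ?_, ?_, ?_⟩⟩ <;> grind

theorem nz_iff (p00 p10 p01 p20 p11 p02 p21 p12 p22 q00 q10 q01 q20 q11 q02 q21 q12 q22 : k) :
    Nz (dm p00 p10 p01 p20 p11 p02 p21 p12 p22 q00 q10 q01 q20 q11 q02 q21 q12 q22) ↔
    p00 = 0 ∧ q00 = 0 := by
  constructor
  · intro h
    obtain ⟨c, a, b, hc⟩ := cz_shape (h _ (cz_top 1 0))
    rw [br_dm, dm_inj] at hc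
    clear h
    grind
  · rintro ⟨rfl, rfl⟩ Z hZ
    obtain ⟨c, a, b, rfl⟩ := cz_shape hZ
    have key : ∃ a' b' : k,
        ⁅dm 0 p10 p01 p20 p11 p02 p21 p12 p22 0 q10 q01 q20 q11 q02 q21 q12 q22,
          dm 0 0 0 0 0 0 c 0 a 0 0 0 0 0 0 0 (-c) b⁆ =
        (p10 + q01) • dm 0 0 0 0 0 0 c 0 a 0 0 0 0 0 0 0 (-c) b +
          dm 0 0 0 0 0 0 0 0 a' 0 0 0 0 0 0 0 0 b' := by
      refine ⟨c * (q02 - p11) + a * q01 - b * p01, c * (q11 - p20) - a * q10 + b * p10, ?_⟩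
      rw [br_dm, dm_smul, dm_add, dm_inj]
      clear hZ
      refine ⟨⟨?_, ?_, ?_, ?_, ?_, ?_, ?_, ?_, ?_⟩, ⟨?_, ?_, ?_, ?_, ?_, ?_, ?_, ?_, ?_⟩⟩ <;> grind
    obtain ⟨a', b', key⟩ := key
    intro S hS
    rw [key, br_add, br_smul, hZ S hS, cz_top a' b' S hS, smul_zero, add_zero]

end Pool.Agent.W23
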