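import Pool.Agent.P.MP_c9b50d_al.Bridge

namespace Pool.Agent.W23

variable {k : Type*} [Field k] [hp : CharP k 3]

set_option linter.unusedVariables false in
open Classical in
/-- A discrete invariant of the orbits. -/
noncomputable def cls (p00 p10 p01 p20 p11 p02 p21 p12 p22 q00 q10 q01 q20 q11 q02 q21 q12 q22 : k) : ℕ :=
  if ¬(p00 = 0 ∧ q00 = 0) then 0
  else if ¬(p10 = 0 ∧ p01 = 0 ∧ q10 = 0 ∧ q01 = 0) then
    (if p10 + q01 = 0 ∧ p10 * q01 - p01 * q10 = 0 then 3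
    else if (p10 + q01) * (p10 + q01) - (p10 * q01 - p01 * q10) = 0 ∧
      ¬(p01 = 0 ∧ q10 = 0 ∧ p10 = q01) then 2 else 1)
  else if ¬(p20 = 0 ∧ p11 = 0 ∧ p02 = 0 ∧ q20 = 0 ∧ q11 = 0 ∧ q02 = 0) then
    (if q20 = 0 ∧ q11 = p20 ∧ q02 = p11 ∧ p02 = 0 then 7
    else if q11 = p20 ∧ q02 = p11 then 6
    else if (q11 - p20) ^ 2 * (q02 - p11) ^ 2 - q20 * (q02 - p11) ^ 3 + (q11 - p20) ^ 3 * p02 = 0
      then 5 else 4)
  else 8

theorem low0 {p00 p10 p01 p20 p11 p02 p21 p12 p22 q00 q10 q01 q20 q11 q02 q21 q12 q22 P00 P10 P01 P20 P11 P02 P21 P12 P22 Q00 Q10 Q01 Q20 Q11 Q02 Q21 Q12 Q22 : k} (h : Rel p00 p10 p01 p20 p11 p02 p21 p12 p22 q00 q10 q01 q20 q11 q02 q21 q12 q22 P00 P10 P01 P20 P11 P02 P21 P12 P22 Q00 Q10 Q01 Q20 Q11 Q02 Q21 Q12 Q22) :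
    P00 = 0 ∧ Q00 = 0 → p00 = 0 ∧ q00 = 0 := by
  obtain ⟨u10, u01, u20, u11, u02, u21, u12, u22, v10, v01, v20, v11, v02, v21, v12, v22, hc, hP00, hP10, hP01, hP20, hP11, hP02, hP21, hP12, hP22, hQ00, hQ10, hQ01, hQ20, hQ11, hQ02, hQ21, hQ12, hQ22⟩ := h
  rintro ⟨rfl, rfl⟩
  constructor
  · clear * - hp hP00; grind
  · clear * - hp hQ00; grind

theorem low1 {p10 p01 p20 p11 p02 p21 p12 p22 q10 q01 q20 q11 q02 q21 q12 q22 P10 P01 P20 P11 P02 P21 P12 P22 Q10 Q01 Q20 Q11 Q02 Q21 Q12 Q22 : k} (h : Rel 0 p10 p01 p20 p11 p02 p21 p12 p22 0 q10 q01 q20 q11 q02 q21 q12 q22 0 P10 P01 P20 P11 P02 P21 P12 P22 0 Q10 Q01 Q20 Q11 Q02 Q21 Q12 Q22) :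
    (∃ J : k, J ≠ 0 ∧ p10 + q01 = J * (P10 + Q01) ∧
      p10 * q01 - p01 * q10 = J * J * (P10 * Q01 - P01 * Q10)) ∧
    (p01 = 0 ∧ q10 = 0 ∧ p10 = q01 → P01 = 0 ∧ Q10 = 0 ∧ P10 = Q01) ∧
    (p10 = 0 ∧ p01 = 0 ∧ q10 = 0 ∧ q01 = 0 → P10 = 0 ∧ P01 = 0 ∧ Q10 = 0 ∧ Q01 = 0) := by
  obtain ⟨u10, u01, u20, u11, u02, u21, u12, u22, v10, v01, v20, v11, v02, v21, v12, v22, hc, hP00, hP10, hP01, hP20, hP11, hP02, hP21, hP12, hP22, hQ00, hQ10, hQ01, hQ20, hQ11, hQ02, hQ21, hQ12, hQ22⟩ := h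
  clear * - hp hc hP10 hP01 hQ10 hQ01
  refine ⟨⟨_, hc, ?_, ?_⟩, ?_, ?_⟩
  · apply mul_left_cancel₀ hc
    linear_combination (norm := skip) v01 * hP10 - v10 * hP01 - u01 * hQ10 + u10 * hQ01
    clear * - hp; grind
  · apply mul_left_cancel₀ hc
    have a1 : p10 * u10 + p01 * v10 = (u10 * v01 - u01 * v10) * (P10 * u10 + Q10 * u01) := by
      clear * - hp hP10; grind
    have a2 : p10 * u01 + p01 * v01 = (u10 * v01 - u01 * v10) * (P01 * u10 + Q01 * u01) := by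
      clear * - hp hP01; grind
    have a3 : q10 * u10 + q01 * v10 = (u10 * v01 - u01 * v10) * (P10 * v10 + Q10 * v01) := by
      clear * - hp hQ10; grind
    have a4 : q10 * u01 + q01 * v01 = (u10 * v01 - u01 * v10) * (P01 * v10 + Q01 * v01) := by
      clear * - hp hQ01; grind
    have a5 : (u10 * v01 - u01 * v10) * (p10 * q01 - p01 * q10) =
        (p10 * u10 + p01 * v10) * (q10 * u01 + q01 * v01) -
        (p10 * u01 + p01 * v01) * (q10 * u10 + q01 * v10) := by ring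
    rw [a5, a1, a2, a3, a4]
    ring
  · rintro ⟨rfl, rfl, rfl⟩
    refine ⟨?_, ?_, ?_⟩
    · apply mul_left_cancel₀ (mul_ne_zero hc hc)
      linear_combination (norm := skip) u01 * hQ01 - v01 * hP01
      clear * - hp; grind
    · apply mul_left_cancel₀ (mul_ne_zero hc hc)
      linear_combination (norm := skip) v10 * hP10 - u10 * hQ10
      clear * - hp; grind
    · apply mul_left_cancel₀ (mul_ne_zero hc hc)
      linear_combination (norm := skip) u01 * hQ10 - v01 * hP10 + u10 * hQ01 - v10 * hP01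
      clear * - hp; grind
  · rintro ⟨rfl, rfl, rfl, rfl⟩
    refine ⟨?_, ?_, ?_, ?_⟩
    · apply mul_left_cancel₀ (mul_ne_zero hc hc)
      linear_combination (norm := skip) u01 * hQ10 - v01 * hP10
      clear * - hp; grind
    · apply mul_left_cancel₀ (mul_ne_zero hc hc)
      linear_combination (norm := skip) u01 * hQ01 - v01 * hP01
      clear * - hp; grind
    · apply mul_left_cancel₀ (mul_ne_zero hc hc)
      linear_combination (norm := skip) v10 * hP10 - u10 * hQ10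
      clear * - hp; grind
    · apply mul_left_cancel₀ (mul_ne_zero hc hc)
      linear_combination (norm := skip) v10 * hP01 - u10 * hQ01
      clear * - hp; grind

theorem low2 {p20 p11 p02 p21 p12 p22 q20 q11 q02 q21 q12 q22 P20 P11 P02 P21 P12 P22 Q20 Q11 Q02 Q21 Q12 Q22 : k} (h : Rel 0 0 0 p20 p11 p02 p21 p12 p22 0 0 0 q20 q11 q02 q21 q12 q22 0 0 0 P20 P11 P02 P21 P12 P22 0 0 0 Q20 Q11 Q02 Q21 Q12 Q22) :
    (p20 = 0 ∧ p11 = 0 ∧ p02 = 0 ∧ q20 = 0 ∧ q11 = 0 ∧ q02 = 0 →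
      P20 = 0 ∧ P11 = 0 ∧ P02 = 0 ∧ Q20 = 0 ∧ Q11 = 0 ∧ Q02 = 0) ∧
    (q20 = 0 ∧ q11 = p20 ∧ q02 = p11 ∧ p02 = 0 → Q20 = 0 ∧ Q11 = P20 ∧ Q02 = P11 ∧ P02 = 0) ∧
    (q11 = p20 ∧ q02 = p11 → Q11 = P20 ∧ Q02 = P11) ∧
    ((q11 - p20) ^ 2 * (q02 - p11) ^ 2 - q20 * (q02 - p11) ^ 3 + (q11 - p20) ^ 3 * p02 = 0 →
      (Q11 - P20) ^ 2 * (Q02 - P11) ^ 2 - Q20 * (Q02 - P11) ^ 3 + (Q11 - P20) ^ 3 * P02 = 0) := by
  obtain ⟨u10, u01, u20, u11, u02, u21, u12, u22, v10, v01, v20, v11, v02, v21, v12, v22, hc, hP00, hP10, hP01, hP20, hP11, hP02, hP21, hP12, hP22, hQ00, hQ10, hQ01, hQ20, hQ11, hQ02, hQ21, hQ12, hQ22⟩ := h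
  clear * - hp hc hP20 hP11 hP02 hQ20 hQ11 hQ02
  have hcc := mul_ne_zero hc hc
  obtain ⟨c0, h0⟩ : ∃ c, q20 = c := ⟨_, rfl⟩
  obtain ⟨c1, h1⟩ : ∃ c, q11 - p20 = c := ⟨_, rfl⟩
  obtain ⟨c2, h2⟩ : ∃ c, q02 - p11 = c := ⟨_, rfl⟩
  obtain ⟨c3, h3⟩ : ∃ c, -p02 = c := ⟨_, rfl⟩
  have a0 : (u10 * v01 - u01 * v10) * (u10 * v01 - u01 * v10) * Q20 = c0*u10*u10*u10 + c1*u10*u10*v10 + c2*u10*v10*v10 + c3*v10*v10*v10 := by
    subst h0 h1 h2 h3
    linear_combination (norm := skip) v10 * hP20 - u10 * hQ20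
    clear * - hp; grind
  have a1 : (u10 * v01 - u01 * v10) * (u10 * v01 - u01 * v10) * (Q11 - P20) = -c1*u01*u10*v10 + c1*u10*u10*v01 + c2*u01*v10*v10 - c2*u10*v01*v10 := by
    subst h0 h1 h2 h3
    linear_combination (norm := skip) v10 * hP11 - u10 * hQ11 + v01 * hP20 - u01 * hQ20
    clear * - hp; grind
  have a2 : (u10 * v01 - u01 * v10) * (u10 * v01 - u01 * v10) * (Q02 - P11) = -c1*u01*u10*v01 + c1*u01*u01*v10 - c2*u01*v01*v10 + c2*u10*v01*v01 := by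
    subst h0 h1 h2 h3
    linear_combination (norm := skip) v10 * hP02 - u10 * hQ02 + v01 * hP11 - u01 * hQ11
    clear * - hp; grind
  have a3 : (u10 * v01 - u01 * v10) * (u10 * v01 - u01 * v10) * (-P02) = c0*u01*u01*u01 + c1*u01*u01*v01 + c2*u01*v01*v01 + c3*v01*v01*v01 := by
    subst h0 h1 h2 h3
    linear_combination (norm := skip) v01 * hP02 - u01 * hQ02
    clear * - hp; grind
  refine ⟨?_, ?_, ?_, ?_⟩
  · rintro ⟨rfl, rfl, rfl, rfl, rfl, rfl⟩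
    refine ⟨?_, ?_, ?_, ?_, ?_, ?_⟩
    · apply mul_left_cancel₀ hcc
      linear_combination (norm := skip) u01 * hQ20 - v01 * hP20
      clear * - hp; grind
    · apply mul_left_cancel₀ hcc
      linear_combination (norm := skip) u01 * hQ11 - v01 * hP11
      clear * - hp; grind
    · apply mul_left_cancel₀ hcc
      linear_combination (norm := skip) u01 * hQ02 - v01 * hP02
      clear * - hp; grind
    · apply mul_left_cancel₀ hcc
      linear_combination (norm := skip) v10 * hP20 - u10 * hQ20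
      clear * - hp; grind
    · apply mul_left_cancel₀ hcc
      linear_combination (norm := skip) v10 * hP11 - u10 * hQ11
      clear * - hp; grind
    · apply mul_left_cancel₀ hcc
      linear_combination (norm := skip) v10 * hP02 - u10 * hQ02
      clear * - hp; grind
  · rintro ⟨b0, b1, b2, b3⟩
    have e0 : c0 = 0 := by rw [← h0, b0]
    have e1 : c1 = 0 := by rw [← h1, b1, sub_self]
    have e2 : c2 = 0 := by rw [← h2, b2, sub_self]
    have e3 : c3 = 0 := by rw [← h3, b3, neg_zero]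
    subst e0 e1 e2 e3
    simp only [zero_mul, add_zero, sub_zero, neg_zero, mul_eq_zero, hc, or_self, false_or,
      sub_eq_zero, neg_eq_zero] at a0 a1 a2 a3
    exact ⟨a0, a1, a2, a3⟩
  · rintro ⟨b1, b2⟩
    have e1 : c1 = 0 := by rw [← h1, b1, sub_self]
    have e2 : c2 = 0 := by rw [← h2, b2, sub_self]
    subst e1 e2
    simp only [zero_mul, add_zero, sub_zero, neg_zero, mul_eq_zero, hc, or_self, false_or,
      sub_eq_zero] at a1 a2
    exact ⟨a1, a2⟩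
  · intro hd
    have hd' : c1 ^ 2 * c2 ^ 2 - c0 * c2 ^ 3 - c1 ^ 3 * c3 = 0 := by
      rw [← h0, ← h1, ← h2, ← h3]; linear_combination hd
    apply mul_left_cancel₀ (pow_ne_zero 4 hcc)
    have e : ((u10 * v01 - u01 * v10) * (u10 * v01 - u01 * v10)) ^ 4 * ((Q11 - P20) ^ 2 * (Q02 - P11) ^ 2 - Q20 * (Q02 - P11) ^ 3 +
        (Q11 - P20) ^ 3 * P02) =
        ((u10 * v01 - u01 * v10) * (u10 * v01 - u01 * v10) * (Q11 - P20)) ^ 2 * ((u10 * v01 - u01 * v10) * (u10 * v01 - u01 * v10) * (Q02 - P11)) ^ 2 -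
        ((u10 * v01 - u01 * v10) * (u10 * v01 - u01 * v10) * Q20) * ((u10 * v01 - u01 * v10) * (u10 * v01 - u01 * v10) * (Q02 - P11)) ^ 3 -
        ((u10 * v01 - u01 * v10) * (u10 * v01 - u01 * v10) * (Q11 - P20)) ^ 3 * ((u10 * v01 - u01 * v10) * (u10 * v01 - u01 * v10) * (-P02)) := by
      generalize (u10 * v01 - u01 * v10) * (u10 * v01 - u01 * v10) = T
      ring
    rw [e, a0, a1, a2, a3]
    linear_combination (norm := skip) (u10 * v01 - u01 * v10) ^ 6 * hd'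
    clear * - hp; grind

open Classical in
theorem cls_eq {p00 p10 p01 p20 p11 p02 p21 p12 p22 q00 q10 q01 q20 q11 q02 q21 q12 q22 P00 P10 P01 P20 P11 P02 P21 P12 P22 Q00 Q10 Q01 Q20 Q11 Q02 Q21 Q12 Q22 : k} (h : Rel p00 p10 p01 p20 p11 p02 p21 p12 p22 q00 q10 q01 q20 q11 q02 q21 q12 q22 P00 P10 P01 P20 P11 P02 P21 P12 P22 Q00 Q10 Q01 Q20 Q11 Q02 Q21 Q12 Q22) :
    cls p00 p10 p01 p20 p11 p02 p21 p12 p22 q00 q10 q01 q20 q11 q02 q21 q12 q22 = cls P00 P10 P01 P20 P11 P02 P21 P12 P22 Q00 Q10 Q01 Q20 Q11 Q02 Q21 Q12 Q22 := by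
  have hs := h.symm
  have z0 : (p00 = 0 ∧ q00 = 0) ↔ (P00 = 0 ∧ Q00 = 0) := ⟨low0 hs, low0 h⟩
  by_cases h0 : p00 = 0 ∧ q00 = 0
  swap
  · rw [cls, cls, if_pos h0, if_pos (fun h' => h0 (z0.mpr h'))]
  have h0' := z0.mp h0
  rw [cls, cls, if_neg (not_not.mpr h0), if_neg (not_not.mpr h0')]
  obtain ⟨rfl, rfl⟩ := h0
  obtain ⟨rfl, rfl⟩ := h0'
  obtain ⟨⟨J, hJ, t1, d1⟩, s1, n1⟩ := low1 h
  obtain ⟨-, s2, n2⟩ := low1 hs
  by_cases h1 : p10 = 0 ∧ p01 = 0 ∧ q10 = 0 ∧ q01 = 0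
  swap
  · rw [if_pos h1, if_pos (fun h' => h1 (n2 h'))]
    refine if_congr ?_ rfl (if_congr (and_congr ?_ (not_congr ⟨s1, s2⟩)) rfl rfl)
    · rw [t1, d1]; simp [hJ]
    · rw [t1, d1]
      constructor
      · intro e
        apply mul_left_cancel₀ (mul_ne_zero hJ hJ)
        linear_combination e
      · intro e
        linear_combination J * J * e
  have h1' := n1 h1
  rw [if_neg (not_not.mpr h1), if_neg (not_not.mpr h1')]
  obtain ⟨rfl, rfl, rfl, rfl⟩ := h1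
  obtain ⟨rfl, rfl, rfl, rfl⟩ := h1'
  obtain ⟨a1, b1, c1, e1⟩ := low2 h
  obtain ⟨a2, b2, c2, e2⟩ := low2 hs
  exact if_congr (not_congr ⟨a1, a2⟩) (if_congr ⟨b1, b2⟩ rfl (if_congr ⟨c1, c2⟩ rfl
    (if_congr ⟨e1, e2⟩ rfl rfl))) rfl

theorem low3 {p21 p12 p22 q21 q12 q22 P21 P12 P22 Q21 Q12 Q22 : k} (h : Rel 0 0 0 0 0 0 p21 p12 p22 0 0 0 0 0 0 q21 q12 q22 0 0 0 0 0 0 P21 P12 P22 0 0 0 0 0 0 Q21 Q12 Q22) :
    p21 - q12 = P21 - Q12 ∧ p21 * q12 - p12 * q21 = P21 * Q12 - P12 * Q21 ∧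
    (p12 = 0 ∧ q21 = 0 ∧ p21 = -q12 → P12 = 0) ∧
    (p21 = 0 ∧ p12 = 0 ∧ q21 = 0 ∧ q12 = 0 → P21 = 0 ∧ P12 = 0 ∧ Q21 = 0 ∧ Q12 = 0 ∧
      (p22 = 0 ∧ q22 = 0 → P22 = 0)) := by
  obtain ⟨u10, u01, u20, u11, u02, u21, u12, u22, v10, v01, v20, v11, v02, v21, v12, v22, hc, hP00, hP10, hP01, hP20, hP11, hP02, hP21, hP12, hP22, hQ00, hQ10, hQ01, hQ20, hQ11, hQ02, hQ21, hQ12, hQ22⟩ := h
  clear * - hp hc hP21 hP12 hQ21 hQ12 hP22 hQ22
  have hcc := mul_ne_zero hc hc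
  have a1 : p21 * u10 - p12 * v10 = P21 * u10 + Q21 * u01 := by
    apply mul_left_cancel₀ hc
    clear * - hp hP21; grind
  have a2 : p12 * v01 - p21 * u01 = -(-P12 * u10 - Q12 * u01) := by
    apply mul_left_cancel₀ hc
    clear * - hp hP12; grind
  have a3 : q21 * u10 - q12 * v10 = P21 * v10 + Q21 * v01 := by
    apply mul_left_cancel₀ hc
    clear * - hp hQ21; grind
  have a4 : q12 * v01 - q21 * u01 = -(-P12 * v10 - Q12 * v01) := by
    apply mul_left_cancel₀ hc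
    clear * - hp hQ12; grind
  refine ⟨?_, ?_, ?_, ?_⟩
  · apply mul_left_cancel₀ hc
    linear_combination v01 * a1 + v10 * a2 - u01 * a3 - u10 * a4
  · apply mul_left_cancel₀ hc
    have a5 : (u10 * v01 - u01 * v10) * (p21 * q12 - p12 * q21) =
        (p21 * u10 - p12 * v10) * (q12 * v01 - q21 * u01) -
        (p12 * v01 - p21 * u01) * (q21 * u10 - q12 * v10) := by ring
    rw [a5, a1, a2, a3, a4]
    ring
  · rintro ⟨rfl, rfl, rfl⟩
    apply mul_left_cancel₀ hc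
    linear_combination u01 * a4 - v01 * a2
  · rintro ⟨rfl, rfl, rfl, rfl⟩
    have b1 : 0 = P21 := by
      apply mul_left_cancel₀ hc
      linear_combination v01 * a1 - u01 * a3
    have b2 : 0 = P12 := by
      apply mul_left_cancel₀ hc
      linear_combination v01 * a2 - u01 * a4
    have b3 : 0 = Q21 := by
      apply mul_left_cancel₀ hc
      linear_combination u10 * a3 - v10 * a1
    have b4 : 0 = Q12 := by
      apply mul_left_cancel₀ hc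
      linear_combination u10 * a4 - v10 * a2
    subst b1 b2 b3 b4
    refine ⟨rfl, rfl, rfl, rfl, ?_⟩
    rintro ⟨rfl, rfl⟩
    apply mul_left_cancel₀ hcc
    linear_combination (norm := skip) u01 * hQ22 - v01 * hP22
    clear * - hp; grind

end Pool.Agent.W23
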