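import Pool.Agent.P.MP_c9b50d_al.Forms
import Pool.Agent.P.MP_c9b50d_al.S0

namespace Pool.Agent.W23

variable {k : Type*} [Field k] [hp : CharP k 3]

set_option linter.unusedVariables false
set_option linter.unusedSectionVars false

theorem u_A1_A1 (b c : k) (b' c' : k) 
    (h : Rel (k := k) 1 0 0 0 0 0 0 0 c 0 0 0 1 0 0 0 0 b 1 0 0 0 0 0 0 0 c' 0 0 0 1 0 0 0 0 b') :
    ∃ s : k, s ^ 5 = 1 ∧ b' = s * b ∧ c' = s ^ 3 * c := by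
  obtain ⟨s, si, r, w, t, hs, e1, e2, e3, e4, e5, e6⟩ := S0_of _ _ _ _ _ _ _ _ _ _ _ _ h
  clear h
  exact ⟨s, by grind, by grind, by grind⟩

theorem u_A1_A2 (b c : k) (b' c' : k) 
    (h : Rel (k := k) 1 0 0 0 0 0 0 0 c 0 0 0 1 0 0 0 0 b 1 0 0 b' 0 0 c' 0 0 0 0 0 0 0 0 1 0 0) :
    False := by
  obtain ⟨s, si, r, w, t, hs, e1, e2, e3, e4, e5, e6⟩ := S0_of _ _ _ _ _ _ _ _ _ _ _ _ h
  clear h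
  grind

theorem u_A1_A3 (b c : k) (b' : kˣ) 
    (h : Rel (k := k) 1 0 0 0 0 0 0 0 c 0 0 0 1 0 0 0 0 b 1 0 0 1 0 0 0 0 0 0 0 0 0 0 0 0 0 (↑b' : k)) :
    False := by
  have := b'.ne_zero
  obtain ⟨s, si, r, w, t, hs, e1, e2, e3, e4, e5, e6⟩ := S0_of _ _ _ _ _ _ _ _ _ _ _ _ h
  clear h
  grind

theorem u_A1_A4 (b c : k) (c' : k) 
    (h : Rel (k := k) 1 0 0 0 0 0 0 0 c 0 0 0 1 0 0 0 0 b 1 0 0 1 0 0 0 0 c' 0 0 0 0 0 0 0 0 0) :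
    False := by
  obtain ⟨s, si, r, w, t, hs, e1, e2, e3, e4, e5, e6⟩ := S0_of _ _ _ _ _ _ _ _ _ _ _ _ h
  clear h
  grind

theorem u_A1_A5 (b c : k) (c' : k) 
    (h : Rel (k := k) 1 0 0 0 0 0 0 0 c 0 0 0 1 0 0 0 0 b 1 0 0 0 0 0 c' 0 0 0 0 0 0 0 0 0 0 1) :
    False := by
  obtain ⟨s, si, r, w, t, hs, e1, e2, e3, e4, e5, e6⟩ := S0_of _ _ _ _ _ _ _ _ _ _ _ _ h
  clear h
  grind

theorem u_A1_A6 (b c : k) (c' : k) 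
    (h : Rel (k := k) 1 0 0 0 0 0 0 0 c 0 0 0 1 0 0 0 0 b 1 0 0 0 0 0 c' 0 0 0 0 0 0 0 0 0 0 0) :
    False := by
  obtain ⟨s, si, r, w, t, hs, e1, e2, e3, e4, e5, e6⟩ := S0_of _ _ _ _ _ _ _ _ _ _ _ _ h
  clear h
  grind

theorem u_A1_A7 (b c : k) 
    (h : Rel (k := k) 1 0 0 0 0 0 0 0 c 0 0 0 1 0 0 0 0 b 1 0 0 0 0 0 0 0 1 0 0 0 0 0 0 0 0 0) :
    False := by
  obtain ⟨s, si, r, w, t, hs, e1, e2, e3, e4, e5, e6⟩ := S0_of _ _ _ _ _ _ _ _ _ _ _ _ h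
  clear h
  grind

theorem u_A2_A1 (b c : k) (b' c' : k) 
    (h : Rel (k := k) 1 0 0 b 0 0 c 0 0 0 0 0 0 0 0 1 0 0 1 0 0 0 0 0 0 0 c' 0 0 0 1 0 0 0 0 b') :
    False := by
  obtain ⟨s, si, r, w, t, hs, e1, e2, e3, e4, e5, e6⟩ := S0_of _ _ _ _ _ _ _ _ _ _ _ _ h
  clear h
  grind

theorem u_A2_A2 (b c : k) (b' c' : k) 
    (h : Rel (k := k) 1 0 0 b 0 0 c 0 0 0 0 0 0 0 0 1 0 0 1 0 0 b' 0 0 c' 0 0 0 0 0 0 0 0 1 0 0) :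
    b' = b ∧ c' = c := by
  obtain ⟨s, si, r, w, t, hs, e1, e2, e3, e4, e5, e6⟩ := S0_of _ _ _ _ _ _ _ _ _ _ _ _ h
  clear h
  grind

theorem u_A2_A3 (b c : k) (b' : kˣ) 
    (h : Rel (k := k) 1 0 0 b 0 0 c 0 0 0 0 0 0 0 0 1 0 0 1 0 0 1 0 0 0 0 0 0 0 0 0 0 0 0 0 (↑b' : k)) :
    False := by
  have := b'.ne_zero
  obtain ⟨s, si, r, w, t, hs, e1, e2, e3, e4, e5, e6⟩ := S0_of _ _ _ _ _ _ _ _ _ _ _ _ h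
  clear h
  grind

theorem u_A2_A4 (b c : k) (c' : k) 
    (h : Rel (k := k) 1 0 0 b 0 0 c 0 0 0 0 0 0 0 0 1 0 0 1 0 0 1 0 0 0 0 c' 0 0 0 0 0 0 0 0 0) :
    False := by
  obtain ⟨s, si, r, w, t, hs, e1, e2, e3, e4, e5, e6⟩ := S0_of _ _ _ _ _ _ _ _ _ _ _ _ h
  clear h
  grind

theorem u_A2_A5 (b c : k) (c' : k) 
    (h : Rel (k := k) 1 0 0 b 0 0 c 0 0 0 0 0 0 0 0 1 0 0 1 0 0 0 0 0 c' 0 0 0 0 0 0 0 0 0 0 1) :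
    False := by
  obtain ⟨s, si, r, w, t, hs, e1, e2, e3, e4, e5, e6⟩ := S0_of _ _ _ _ _ _ _ _ _ _ _ _ h
  clear h
  grind

theorem u_A2_A6 (b c : k) (c' : k) 
    (h : Rel (k := k) 1 0 0 b 0 0 c 0 0 0 0 0 0 0 0 1 0 0 1 0 0 0 0 0 c' 0 0 0 0 0 0 0 0 0 0 0) :
    False := by
  obtain ⟨s, si, r, w, t, hs, e1, e2, e3, e4, e5, e6⟩ := S0_of _ _ _ _ _ _ _ _ _ _ _ _ h
  clear h
  grind

theorem u_A2_A7 (b c : k) 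
    (h : Rel (k := k) 1 0 0 b 0 0 c 0 0 0 0 0 0 0 0 1 0 0 1 0 0 0 0 0 0 0 1 0 0 0 0 0 0 0 0 0) :
    False := by
  obtain ⟨s, si, r, w, t, hs, e1, e2, e3, e4, e5, e6⟩ := S0_of _ _ _ _ _ _ _ _ _ _ _ _ h
  clear h
  grind

theorem u_A3_A1 (b : kˣ) (b' c' : k) 
    (h : Rel (k := k) 1 0 0 1 0 0 0 0 0 0 0 0 0 0 0 0 0 (↑b : k) 1 0 0 0 0 0 0 0 c' 0 0 0 1 0 0 0 0 b') :
    False := by
  have := b.ne_zero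
  obtain ⟨s, si, r, w, t, hs, e1, e2, e3, e4, e5, e6⟩ := S0_of _ _ _ _ _ _ _ _ _ _ _ _ h
  clear h
  grind

theorem u_A3_A2 (b : kˣ) (b' c' : k) 
    (h : Rel (k := k) 1 0 0 1 0 0 0 0 0 0 0 0 0 0 0 0 0 (↑b : k) 1 0 0 b' 0 0 c' 0 0 0 0 0 0 0 0 1 0 0) :
    False := by
  have := b.ne_zero
  obtain ⟨s, si, r, w, t, hs, e1, e2, e3, e4, e5, e6⟩ := S0_of _ _ _ _ _ _ _ _ _ _ _ _ h
  clear h
  grind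

theorem u_A3_A3 (b : kˣ) (b' : kˣ) 
    (h : Rel (k := k) 1 0 0 1 0 0 0 0 0 0 0 0 0 0 0 0 0 (↑b : k) 1 0 0 1 0 0 0 0 0 0 0 0 0 0 0 0 0 (↑b' : k)) :
    b' = b ∨ b' = -b := by
  have := b.ne_zero
  have := b'.ne_zero
  obtain ⟨s, si, r, w, t, hs, e1, e2, e3, e4, e5, e6⟩ := S0_of _ _ _ _ _ _ _ _ _ _ _ _ h
  clear h
  have e : (b' : k) = b ∨ (b' : k) = -b := by grind
  rcases e with e | e
  · exact Or.inl (Units.ext e)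
  · exact Or.inr (Units.ext (by simpa using e))

theorem u_A3_A4 (b : kˣ) (c' : k) 
    (h : Rel (k := k) 1 0 0 1 0 0 0 0 0 0 0 0 0 0 0 0 0 (↑b : k) 1 0 0 1 0 0 0 0 c' 0 0 0 0 0 0 0 0 0) :
    False := by
  have := b.ne_zero
  obtain ⟨s, si, r, w, t, hs, e1, e2, e3, e4, e5, e6⟩ := S0_of _ _ _ _ _ _ _ _ _ _ _ _ h
  clear h
  grind

theorem u_A3_A5 (b : kˣ) (c' : k) 
    (h : Rel (k := k) 1 0 0 1 0 0 0 0 0 0 0 0 0 0 0 0 0 (↑b : k) 1 0 0 0 0 0 c' 0 0 0 0 0 0 0 0 0 0 1) :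
    False := by
  have := b.ne_zero
  obtain ⟨s, si, r, w, t, hs, e1, e2, e3, e4, e5, e6⟩ := S0_of _ _ _ _ _ _ _ _ _ _ _ _ h
  clear h
  grind

theorem u_A3_A6 (b : kˣ) (c' : k) 
    (h : Rel (k := k) 1 0 0 1 0 0 0 0 0 0 0 0 0 0 0 0 0 (↑b : k) 1 0 0 0 0 0 c' 0 0 0 0 0 0 0 0 0 0 0) :
    False := by
  have := b.ne_zero
  obtain ⟨s, si, r, w, t, hs, e1, e2, e3, e4, e5, e6⟩ := S0_of _ _ _ _ _ _ _ _ _ _ _ _ h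
  clear h
  grind

theorem u_A3_A7 (b : kˣ) 
    (h : Rel (k := k) 1 0 0 1 0 0 0 0 0 0 0 0 0 0 0 0 0 (↑b : k) 1 0 0 0 0 0 0 0 1 0 0 0 0 0 0 0 0 0) :
    False := by
  have := b.ne_zero
  obtain ⟨s, si, r, w, t, hs, e1, e2, e3, e4, e5, e6⟩ := S0_of _ _ _ _ _ _ _ _ _ _ _ _ h
  clear h
  grind

theorem u_A4_A1 (c : k) (b' c' : k) 
    (h : Rel (k := k) 1 0 0 1 0 0 0 0 c 0 0 0 0 0 0 0 0 0 1 0 0 0 0 0 0 0 c' 0 0 0 1 0 0 0 0 b') :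
    False := by
  obtain ⟨s, si, r, w, t, hs, e1, e2, e3, e4, e5, e6⟩ := S0_of _ _ _ _ _ _ _ _ _ _ _ _ h
  clear h
  grind

theorem u_A4_A2 (c : k) (b' c' : k) 
    (h : Rel (k := k) 1 0 0 1 0 0 0 0 c 0 0 0 0 0 0 0 0 0 1 0 0 b' 0 0 c' 0 0 0 0 0 0 0 0 1 0 0) :
    False := by
  obtain ⟨s, si, r, w, t, hs, e1, e2, e3, e4, e5, e6⟩ := S0_of _ _ _ _ _ _ _ _ _ _ _ _ h
  clear h
  grind

theorem u_A4_A3 (c : k) (b' : kˣ) 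
    (h : Rel (k := k) 1 0 0 1 0 0 0 0 c 0 0 0 0 0 0 0 0 0 1 0 0 1 0 0 0 0 0 0 0 0 0 0 0 0 0 (↑b' : k)) :
    False := by
  have := b'.ne_zero
  obtain ⟨s, si, r, w, t, hs, e1, e2, e3, e4, e5, e6⟩ := S0_of _ _ _ _ _ _ _ _ _ _ _ _ h
  clear h
  grind

theorem u_A4_A4 (c : k) (c' : k) 
    (h : Rel (k := k) 1 0 0 1 0 0 0 0 c 0 0 0 0 0 0 0 0 0 1 0 0 1 0 0 0 0 c' 0 0 0 0 0 0 0 0 0) :
    c' = c := by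
  obtain ⟨s, si, r, w, t, hs, e1, e2, e3, e4, e5, e6⟩ := S0_of _ _ _ _ _ _ _ _ _ _ _ _ h
  clear h
  grind

theorem u_A4_A5 (c : k) (c' : k) 
    (h : Rel (k := k) 1 0 0 1 0 0 0 0 c 0 0 0 0 0 0 0 0 0 1 0 0 0 0 0 c' 0 0 0 0 0 0 0 0 0 0 1) :
    False := by
  obtain ⟨s, si, r, w, t, hs, e1, e2, e3, e4, e5, e6⟩ := S0_of _ _ _ _ _ _ _ _ _ _ _ _ h
  clear h
  grind

theorem u_A4_A6 (c : k) (c' : k) 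
    (h : Rel (k := k) 1 0 0 1 0 0 0 0 c 0 0 0 0 0 0 0 0 0 1 0 0 0 0 0 c' 0 0 0 0 0 0 0 0 0 0 0) :
    False := by
  obtain ⟨s, si, r, w, t, hs, e1, e2, e3, e4, e5, e6⟩ := S0_of _ _ _ _ _ _ _ _ _ _ _ _ h
  clear h
  grind

theorem u_A4_A7 (c : k) 
    (h : Rel (k := k) 1 0 0 1 0 0 0 0 c 0 0 0 0 0 0 0 0 0 1 0 0 0 0 0 0 0 1 0 0 0 0 0 0 0 0 0) :
    False := by
  obtain ⟨s, si, r, w, t, hs, e1, e2, e3, e4, e5, e6⟩ := S0_of _ _ _ _ _ _ _ _ _ _ _ _ h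
  clear h
  grind

theorem u_A5_A1 (c : k) (b' c' : k) 
    (h : Rel (k := k) 1 0 0 0 0 0 c 0 0 0 0 0 0 0 0 0 0 1 1 0 0 0 0 0 0 0 c' 0 0 0 1 0 0 0 0 b') :
    False := by
  obtain ⟨s, si, r, w, t, hs, e1, e2, e3, e4, e5, e6⟩ := S0_of _ _ _ _ _ _ _ _ _ _ _ _ h
  clear h
  grind

theorem u_A5_A2 (c : k) (b' c' : k) 
    (h : Rel (k := k) 1 0 0 0 0 0 c 0 0 0 0 0 0 0 0 0 0 1 1 0 0 b' 0 0 c' 0 0 0 0 0 0 0 0 1 0 0) :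
    False := by
  obtain ⟨s, si, r, w, t, hs, e1, e2, e3, e4, e5, e6⟩ := S0_of _ _ _ _ _ _ _ _ _ _ _ _ h
  clear h
  grind

theorem u_A5_A3 (c : k) (b' : kˣ) 
    (h : Rel (k := k) 1 0 0 0 0 0 c 0 0 0 0 0 0 0 0 0 0 1 1 0 0 1 0 0 0 0 0 0 0 0 0 0 0 0 0 (↑b' : k)) :
    False := by
  have := b'.ne_zero
  obtain ⟨s, si, r, w, t, hs, e1, e2, e3, e4, e5, e6⟩ := S0_of _ _ _ _ _ _ _ _ _ _ _ _ h
  clear h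
  grind

theorem u_A5_A4 (c : k) (c' : k) 
    (h : Rel (k := k) 1 0 0 0 0 0 c 0 0 0 0 0 0 0 0 0 0 1 1 0 0 1 0 0 0 0 c' 0 0 0 0 0 0 0 0 0) :
    False := by
  obtain ⟨s, si, r, w, t, hs, e1, e2, e3, e4, e5, e6⟩ := S0_of _ _ _ _ _ _ _ _ _ _ _ _ h
  clear h
  grind

theorem u_A5_A5 (c : k) (c' : k) 
    (h : Rel (k := k) 1 0 0 0 0 0 c 0 0 0 0 0 0 0 0 0 0 1 1 0 0 0 0 0 c' 0 0 0 0 0 0 0 0 0 0 1) :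
    c' = c := by
  obtain ⟨s, si, r, w, t, hs, e1, e2, e3, e4, e5, e6⟩ := S0_of _ _ _ _ _ _ _ _ _ _ _ _ h
  clear h
  grind

theorem u_A5_A6 (c : k) (c' : k) 
    (h : Rel (k := k) 1 0 0 0 0 0 c 0 0 0 0 0 0 0 0 0 0 1 1 0 0 0 0 0 c' 0 0 0 0 0 0 0 0 0 0 0) :
    False := by
  obtain ⟨s, si, r, w, t, hs, e1, e2, e3, e4, e5, e6⟩ := S0_of _ _ _ _ _ _ _ _ _ _ _ _ h
  clear h
  grind

theorem u_A5_A7 (c : k) 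
    (h : Rel (k := k) 1 0 0 0 0 0 c 0 0 0 0 0 0 0 0 0 0 1 1 0 0 0 0 0 0 0 1 0 0 0 0 0 0 0 0 0) :
    False := by
  obtain ⟨s, si, r, w, t, hs, e1, e2, e3, e4, e5, e6⟩ := S0_of _ _ _ _ _ _ _ _ _ _ _ _ h
  clear h
  grind

theorem u_A6_A1 (c : k) (b' c' : k) 
    (h : Rel (k := k) 1 0 0 0 0 0 c 0 0 0 0 0 0 0 0 0 0 0 1 0 0 0 0 0 0 0 c' 0 0 0 1 0 0 0 0 b') :
    False := by
  obtain ⟨s, si, r, w, t, hs, e1, e2, e3, e4, e5, e6⟩ := S0_of _ _ _ _ _ _ _ _ _ _ _ _ h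
  clear h
  grind

theorem u_A6_A2 (c : k) (b' c' : k) 
    (h : Rel (k := k) 1 0 0 0 0 0 c 0 0 0 0 0 0 0 0 0 0 0 1 0 0 b' 0 0 c' 0 0 0 0 0 0 0 0 1 0 0) :
    False := by
  obtain ⟨s, si, r, w, t, hs, e1, e2, e3, e4, e5, e6⟩ := S0_of _ _ _ _ _ _ _ _ _ _ _ _ h
  clear h
  grind

theorem u_A6_A3 (c : k) (b' : kˣ) 
    (h : Rel (k := k) 1 0 0 0 0 0 c 0 0 0 0 0 0 0 0 0 0 0 1 0 0 1 0 0 0 0 0 0 0 0 0 0 0 0 0 (↑b' : k)) :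
    False := by
  have := b'.ne_zero
  obtain ⟨s, si, r, w, t, hs, e1, e2, e3, e4, e5, e6⟩ := S0_of _ _ _ _ _ _ _ _ _ _ _ _ h
  clear h
  grind

theorem u_A6_A4 (c : k) (c' : k) 
    (h : Rel (k := k) 1 0 0 0 0 0 c 0 0 0 0 0 0 0 0 0 0 0 1 0 0 1 0 0 0 0 c' 0 0 0 0 0 0 0 0 0) :
    False := by
  obtain ⟨s, si, r, w, t, hs, e1, e2, e3, e4, e5, e6⟩ := S0_of _ _ _ _ _ _ _ _ _ _ _ _ h
  clear h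
  grind

theorem u_A6_A5 (c : k) (c' : k) 
    (h : Rel (k := k) 1 0 0 0 0 0 c 0 0 0 0 0 0 0 0 0 0 0 1 0 0 0 0 0 c' 0 0 0 0 0 0 0 0 0 0 1) :
    False := by
  obtain ⟨s, si, r, w, t, hs, e1, e2, e3, e4, e5, e6⟩ := S0_of _ _ _ _ _ _ _ _ _ _ _ _ h
  clear h
  grind

theorem u_A6_A6 (c : k) (c' : k) 
    (h : Rel (k := k) 1 0 0 0 0 0 c 0 0 0 0 0 0 0 0 0 0 0 1 0 0 0 0 0 c' 0 0 0 0 0 0 0 0 0 0 0) :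
    c' = c := by
  obtain ⟨s, si, r, w, t, hs, e1, e2, e3, e4, e5, e6⟩ := S0_of _ _ _ _ _ _ _ _ _ _ _ _ h
  clear h
  grind

theorem u_A6_A7 (c : k) 
    (h : Rel (k := k) 1 0 0 0 0 0 c 0 0 0 0 0 0 0 0 0 0 0 1 0 0 0 0 0 0 0 1 0 0 0 0 0 0 0 0 0) :
    False := by
  obtain ⟨s, si, r, w, t, hs, e1, e2, e3, e4, e5, e6⟩ := S0_of _ _ _ _ _ _ _ _ _ _ _ _ h
  clear h
  grind

theorem u_A7_A1 (b' c' : k) 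
    (h : Rel (k := k) 1 0 0 0 0 0 0 0 1 0 0 0 0 0 0 0 0 0 1 0 0 0 0 0 0 0 c' 0 0 0 1 0 0 0 0 b') :
    False := by
  obtain ⟨s, si, r, w, t, hs, e1, e2, e3, e4, e5, e6⟩ := S0_of _ _ _ _ _ _ _ _ _ _ _ _ h
  clear h
  grind

theorem u_A7_A2 (b' c' : k) 
    (h : Rel (k := k) 1 0 0 0 0 0 0 0 1 0 0 0 0 0 0 0 0 0 1 0 0 b' 0 0 c' 0 0 0 0 0 0 0 0 1 0 0) :
    False := by
  obtain ⟨s, si, r, w, t, hs, e1, e2, e3, e4, e5, e6⟩ := S0_of _ _ _ _ _ _ _ _ _ _ _ _ h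
  clear h
  grind

theorem u_A7_A3 (b' : kˣ) 
    (h : Rel (k := k) 1 0 0 0 0 0 0 0 1 0 0 0 0 0 0 0 0 0 1 0 0 1 0 0 0 0 0 0 0 0 0 0 0 0 0 (↑b' : k)) :
    False := by
  have := b'.ne_zero
  obtain ⟨s, si, r, w, t, hs, e1, e2, e3, e4, e5, e6⟩ := S0_of _ _ _ _ _ _ _ _ _ _ _ _ h
  clear h
  grind

theorem u_A7_A4 (c' : k) 
    (h : Rel (k := k) 1 0 0 0 0 0 0 0 1 0 0 0 0 0 0 0 0 0 1 0 0 1 0 0 0 0 c' 0 0 0 0 0 0 0 0 0) :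
    False := by
  obtain ⟨s, si, r, w, t, hs, e1, e2, e3, e4, e5, e6⟩ := S0_of _ _ _ _ _ _ _ _ _ _ _ _ h
  clear h
  grind

theorem u_A7_A5 (c' : k) 
    (h : Rel (k := k) 1 0 0 0 0 0 0 0 1 0 0 0 0 0 0 0 0 0 1 0 0 0 0 0 c' 0 0 0 0 0 0 0 0 0 0 1) :
    False := by
  obtain ⟨s, si, r, w, t, hs, e1, e2, e3, e4, e5, e6⟩ := S0_of _ _ _ _ _ _ _ _ _ _ _ _ h
  clear h
  grind

theorem u_A7_A6 (c' : k) 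
    (h : Rel (k := k) 1 0 0 0 0 0 0 0 1 0 0 0 0 0 0 0 0 0 1 0 0 0 0 0 c' 0 0 0 0 0 0 0 0 0 0 0) :
    False := by
  obtain ⟨s, si, r, w, t, hs, e1, e2, e3, e4, e5, e6⟩ := S0_of _ _ _ _ _ _ _ _ _ _ _ _ h
  clear h
  grind

theorem u_A7_A7 
    (h : Rel (k := k) 1 0 0 0 0 0 0 0 1 0 0 0 0 0 0 0 0 0 1 0 0 0 0 0 0 0 1 0 0 0 0 0 0 0 0 0) :
    True := by
  trivial


end Pool.Agent.W23
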