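import Pool.Agent.P.MP_c9b50d_al.Forms
import Pool.Agent.P.MP_c9b50d_al.S1

namespace Pool.Agent.W23

variable {k : Type*} [Field k] [hp : CharP k 3]

set_option linter.unusedVariables false
set_option linter.unusedSectionVars false

theorem u_B1_B1 (l c : k) (l' c' : k) 
    (h : Rel (k := k) 0 1 0 0 0 0 c 0 0 0 0 l 0 0 0 0 0 0 0 1 0 0 0 0 c' 0 0 0 0 l' 0 0 0 0 0 0) :
    (l' = l ∧ c' = c) ∨ (l * l' = 1 ∧ c' = -c) := by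
  obtain ⟨⟨J, hJ, t1, d1⟩, s1, -⟩ := low1 h
  obtain ⟨-, s2, -⟩ := low1 h.symm
  by_cases hz : l = 0
  · have e : 0 = l := by clear h; grind
    have e' : 0 = l' := by clear h; grind
    subst e e'
    clear s1 s2 t1 d1
    obtain ⟨s, si, r, w, t, hs, e1, e2, e3, e4⟩ := S1z_of _ _ _ _ _ _ _ _ h
    clear h
    grind
  by_cases hm : l + 1 = 0
  · have e : -1 = l := by clear h; grind
    have e' : -1 = l' := by clear h; grind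
    subst e e'
    clear s1 s2 t1 d1
    rcases S1m_of _ _ _ _ _ _ h with ⟨s, si, hs, e1, e2, e3⟩ | ⟨s, si, hs, e1, e2, e3⟩ <;> clear h <;> grind
  by_cases ho : l - 1 = 0
  · have e : 1 = l := by clear h; grind
    have e' : 1 = l' := by clear h; grind
    subst e e'
    clear s1 s2 t1 d1
    rcases S1o_of _ _ _ _ _ _ h with ⟨s, si, r, w, hs, e1, e2, e3⟩ | ⟨s, si, r, hs, e1, e2, e3⟩ <;> clear h <;> grind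
  have hl := mul_inv_cancel₀ hz
  rcases S1g_of _ _ _ _ _ _ _ hl (mul_inv_cancel₀ ho) (mul_inv_cancel₀ hm) h with
    ⟨s, si, hs, e1, e2⟩ | ⟨s, si, hs, e1, e2⟩
  · exact Or.inl ⟨e1, e2⟩
  · exact Or.inr ⟨by rw [e1, hl], e2⟩

theorem u_B1_B2 (l c : k) (b' c' : k) 
    (h : Rel (k := k) 0 1 0 0 0 0 c 0 0 0 0 l 0 0 0 0 0 0 0 1 0 0 0 1 c' 0 0 0 0 (-1) b' 0 0 0 0 0) :
    False := by
  obtain ⟨⟨J, hJ, t1, d1⟩, s1, -⟩ := low1 h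
  obtain ⟨-, s2, -⟩ := low1 h.symm
  have e : -1 = l := by clear h; grind
  subst e
  clear s1 s2 t1 d1
  rcases S1m_of _ _ _ _ _ _ h with ⟨s, si, hs, e1, e2, e3⟩ | ⟨s, si, hs, e1, e2, e3⟩ <;> clear h <;> grind

theorem u_B1_B3 (l c : k) (b' : k) 
    (h : Rel (k := k) 0 1 0 0 0 0 c 0 0 0 0 l 0 0 0 0 0 0 0 1 0 b' 0 0 0 0 0 0 0 0 0 0 1 0 0 0) :
    False := by
  obtain ⟨⟨J, hJ, t1, d1⟩, s1, -⟩ := low1 h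
  obtain ⟨-, s2, -⟩ := low1 h.symm
  have e : 0 = l := by clear h; grind
  subst e
  clear s1 s2 t1 d1
  obtain ⟨s, si, r, w, t, hs, e1, e2, e3, e4⟩ := S1z_of _ _ _ _ _ _ _ _ h
  clear h
  grind

theorem u_B1_B4 (l c : k) (d' : k) 
    (h : Rel (k := k) 0 1 0 0 0 0 c 0 0 0 0 l 0 0 0 0 0 0 0 1 0 1 0 0 0 0 d' 0 0 0 0 0 0 0 0 0) :
    False := by
  obtain ⟨⟨J, hJ, t1, d1⟩, s1, -⟩ := low1 h
  obtain ⟨-, s2, -⟩ := low1 h.symm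
  have e : 0 = l := by clear h; grind
  subst e
  clear s1 s2 t1 d1
  obtain ⟨s, si, r, w, t, hs, e1, e2, e3, e4⟩ := S1z_of _ _ _ _ _ _ _ _ h
  clear h
  grind

theorem u_B1_B5 (l c : k) 
    (h : Rel (k := k) 0 1 0 0 0 0 c 0 0 0 0 l 0 0 0 0 0 0 0 1 0 0 0 0 0 0 1 0 0 0 0 0 0 0 0 0) :
    False := by
  obtain ⟨⟨J, hJ, t1, d1⟩, s1, -⟩ := low1 h
  obtain ⟨-, s2, -⟩ := low1 h.symm
  have e : 0 = l := by clear h; grind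
  subst e
  clear s1 s2 t1 d1
  obtain ⟨s, si, r, w, t, hs, e1, e2, e3, e4⟩ := S1z_of _ _ _ _ _ _ _ _ h
  clear h
  grind

theorem u_B1_B6 (l c : k) 
    (h : Rel (k := k) 0 1 0 0 0 0 c 0 0 0 0 l 0 0 0 0 0 0 0 1 0 0 0 0 0 0 0 0 0 1 0 0 0 1 0 0) :
    False := by
  obtain ⟨⟨J, hJ, t1, d1⟩, s1, -⟩ := low1 h
  obtain ⟨-, s2, -⟩ := low1 h.symm
  have e : 1 = l := by clear h; grind
  subst e
  clear s1 s2 t1 d1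
  rcases S1o_of _ _ _ _ _ _ h with ⟨s, si, r, w, hs, e1, e2, e3⟩ | ⟨s, si, r, hs, e1, e2, e3⟩ <;> clear h <;> grind

theorem u_B2_B1 (b c : k) (l' c' : k) 
    (h : Rel (k := k) 0 1 0 0 0 1 c 0 0 0 0 (-1) b 0 0 0 0 0 0 1 0 0 0 0 c' 0 0 0 0 l' 0 0 0 0 0 0) :
    False := by
  obtain ⟨⟨J, hJ, t1, d1⟩, s1, -⟩ := low1 h
  obtain ⟨-, s2, -⟩ := low1 h.symm
  have e : -1 = l' := by clear h; grind
  subst e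
  clear s1 s2 t1 d1
  rcases S1m_of _ _ _ _ _ _ h with ⟨s, si, hs, e1, e2, e3⟩ | ⟨s, si, hs, e1, e2, e3⟩ <;> clear h <;> grind

theorem u_B2_B2 (b c : k) (b' c' : k) 
    (h : Rel (k := k) 0 1 0 0 0 1 c 0 0 0 0 (-1) b 0 0 0 0 0 0 1 0 0 0 1 c' 0 0 0 0 (-1) b' 0 0 0 0 0) :
    b' = b ∧ (c' = c ∨ (b ≠ 0 ∧ c' = -c)) := by
  rcases S1m_of _ _ _ _ _ _ h with ⟨s, si, hs, e1, e2, e3⟩ | ⟨s, si, hs, e1, e2, e3⟩ <;> clear h <;> grind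

theorem u_B2_B3 (b c : k) (b' : k) 
    (h : Rel (k := k) 0 1 0 0 0 1 c 0 0 0 0 (-1) b 0 0 0 0 0 0 1 0 b' 0 0 0 0 0 0 0 0 0 0 1 0 0 0) :
    False := by
  obtain ⟨⟨J, hJ, t1, d1⟩, -, -⟩ := low1 h
  clear h
  grind

theorem u_B2_B4 (b c : k) (d' : k) 
    (h : Rel (k := k) 0 1 0 0 0 1 c 0 0 0 0 (-1) b 0 0 0 0 0 0 1 0 1 0 0 0 0 d' 0 0 0 0 0 0 0 0 0) :
    False := by
  obtain ⟨⟨J, hJ, t1, d1⟩, -, -⟩ := low1 h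
  clear h
  grind

theorem u_B2_B5 (b c : k) 
    (h : Rel (k := k) 0 1 0 0 0 1 c 0 0 0 0 (-1) b 0 0 0 0 0 0 1 0 0 0 0 0 0 1 0 0 0 0 0 0 0 0 0) :
    False := by
  obtain ⟨⟨J, hJ, t1, d1⟩, -, -⟩ := low1 h
  clear h
  grind

theorem u_B2_B6 (b c : k) 
    (h : Rel (k := k) 0 1 0 0 0 1 c 0 0 0 0 (-1) b 0 0 0 0 0 0 1 0 0 0 0 0 0 0 0 0 1 0 0 0 1 0 0) :
    False := by
  obtain ⟨⟨J, hJ, t1, d1⟩, -, -⟩ := low1 h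
  clear h
  grind

theorem u_B3_B1 (b : k) (l' c' : k) 
    (h : Rel (k := k) 0 1 0 b 0 0 0 0 0 0 0 0 0 0 1 0 0 0 0 1 0 0 0 0 c' 0 0 0 0 l' 0 0 0 0 0 0) :
    False := by
  obtain ⟨⟨J, hJ, t1, d1⟩, s1, -⟩ := low1 h
  obtain ⟨-, s2, -⟩ := low1 h.symm
  have e : 0 = l' := by clear h; grind
  subst e
  clear s1 s2 t1 d1
  obtain ⟨s, si, r, w, t, hs, e1, e2, e3, e4⟩ := S1z_of _ _ _ _ _ _ _ _ h
  clear h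
  grind

theorem u_B3_B2 (b : k) (b' c' : k) 
    (h : Rel (k := k) 0 1 0 b 0 0 0 0 0 0 0 0 0 0 1 0 0 0 0 1 0 0 0 1 c' 0 0 0 0 (-1) b' 0 0 0 0 0) :
    False := by
  obtain ⟨⟨J, hJ, t1, d1⟩, -, -⟩ := low1 h
  clear h
  grind

theorem u_B3_B3 (b : k) (b' : k) 
    (h : Rel (k := k) 0 1 0 b 0 0 0 0 0 0 0 0 0 0 1 0 0 0 0 1 0 b' 0 0 0 0 0 0 0 0 0 0 1 0 0 0) :
    b' = b := by
  obtain ⟨s, si, r, w, t, hs, e1, e2, e3, e4⟩ := S1z_of _ _ _ _ _ _ _ _ h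
  clear h
  grind

theorem u_B3_B4 (b : k) (d' : k) 
    (h : Rel (k := k) 0 1 0 b 0 0 0 0 0 0 0 0 0 0 1 0 0 0 0 1 0 1 0 0 0 0 d' 0 0 0 0 0 0 0 0 0) :
    False := by
  obtain ⟨s, si, r, w, t, hs, e1, e2, e3, e4⟩ := S1z_of _ _ _ _ _ _ _ _ h
  clear h
  grind

theorem u_B3_B5 (b : k) 
    (h : Rel (k := k) 0 1 0 b 0 0 0 0 0 0 0 0 0 0 1 0 0 0 0 1 0 0 0 0 0 0 1 0 0 0 0 0 0 0 0 0) :
    False := by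
  obtain ⟨s, si, r, w, t, hs, e1, e2, e3, e4⟩ := S1z_of _ _ _ _ _ _ _ _ h
  clear h
  grind

theorem u_B3_B6 (b : k) 
    (h : Rel (k := k) 0 1 0 b 0 0 0 0 0 0 0 0 0 0 1 0 0 0 0 1 0 0 0 0 0 0 0 0 0 1 0 0 0 1 0 0) :
    False := by
  obtain ⟨⟨J, hJ, t1, d1⟩, -, -⟩ := low1 h
  clear h
  grind

theorem u_B4_B1 (d : k) (l' c' : k) 
    (h : Rel (k := k) 0 1 0 1 0 0 0 0 d 0 0 0 0 0 0 0 0 0 0 1 0 0 0 0 c' 0 0 0 0 l' 0 0 0 0 0 0) :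
    False := by
  obtain ⟨⟨J, hJ, t1, d1⟩, s1, -⟩ := low1 h
  obtain ⟨-, s2, -⟩ := low1 h.symm
  have e : 0 = l' := by clear h; grind
  subst e
  clear s1 s2 t1 d1
  obtain ⟨s, si, r, w, t, hs, e1, e2, e3, e4⟩ := S1z_of _ _ _ _ _ _ _ _ h
  clear h
  grind

theorem u_B4_B2 (d : k) (b' c' : k) 
    (h : Rel (k := k) 0 1 0 1 0 0 0 0 d 0 0 0 0 0 0 0 0 0 0 1 0 0 0 1 c' 0 0 0 0 (-1) b' 0 0 0 0 0) :
    False := by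
  obtain ⟨⟨J, hJ, t1, d1⟩, -, -⟩ := low1 h
  clear h
  grind

theorem u_B4_B3 (d : k) (b' : k) 
    (h : Rel (k := k) 0 1 0 1 0 0 0 0 d 0 0 0 0 0 0 0 0 0 0 1 0 b' 0 0 0 0 0 0 0 0 0 0 1 0 0 0) :
    False := by
  obtain ⟨s, si, r, w, t, hs, e1, e2, e3, e4⟩ := S1z_of _ _ _ _ _ _ _ _ h
  clear h
  grind

theorem u_B4_B4 (d : k) (d' : k) 
    (h : Rel (k := k) 0 1 0 1 0 0 0 0 d 0 0 0 0 0 0 0 0 0 0 1 0 1 0 0 0 0 d' 0 0 0 0 0 0 0 0 0) :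
    d' = d := by
  obtain ⟨s, si, r, w, t, hs, e1, e2, e3, e4⟩ := S1z_of _ _ _ _ _ _ _ _ h
  clear h
  grind

theorem u_B4_B5 (d : k) 
    (h : Rel (k := k) 0 1 0 1 0 0 0 0 d 0 0 0 0 0 0 0 0 0 0 1 0 0 0 0 0 0 1 0 0 0 0 0 0 0 0 0) :
    False := by
  obtain ⟨s, si, r, w, t, hs, e1, e2, e3, e4⟩ := S1z_of _ _ _ _ _ _ _ _ h
  clear h
  grind

theorem u_B4_B6 (d : k) 
    (h : Rel (k := k) 0 1 0 1 0 0 0 0 d 0 0 0 0 0 0 0 0 0 0 1 0 0 0 0 0 0 0 0 0 1 0 0 0 1 0 0) :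
    False := by
  obtain ⟨⟨J, hJ, t1, d1⟩, -, -⟩ := low1 h
  clear h
  grind

theorem u_B5_B1 (l' c' : k) 
    (h : Rel (k := k) 0 1 0 0 0 0 0 0 1 0 0 0 0 0 0 0 0 0 0 1 0 0 0 0 c' 0 0 0 0 l' 0 0 0 0 0 0) :
    False := by
  obtain ⟨⟨J, hJ, t1, d1⟩, s1, -⟩ := low1 h
  obtain ⟨-, s2, -⟩ := low1 h.symm
  have e : 0 = l' := by clear h; grind
  subst e
  clear s1 s2 t1 d1
  obtain ⟨s, si, r, w, t, hs, e1, e2, e3, e4⟩ := S1z_of _ _ _ _ _ _ _ _ h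
  clear h
  grind

theorem u_B5_B2 (b' c' : k) 
    (h : Rel (k := k) 0 1 0 0 0 0 0 0 1 0 0 0 0 0 0 0 0 0 0 1 0 0 0 1 c' 0 0 0 0 (-1) b' 0 0 0 0 0) :
    False := by
  obtain ⟨⟨J, hJ, t1, d1⟩, -, -⟩ := low1 h
  clear h
  grind

theorem u_B5_B3 (b' : k) 
    (h : Rel (k := k) 0 1 0 0 0 0 0 0 1 0 0 0 0 0 0 0 0 0 0 1 0 b' 0 0 0 0 0 0 0 0 0 0 1 0 0 0) :
    False := by
  obtain ⟨s, si, r, w, t, hs, e1, e2, e3, e4⟩ := S1z_of _ _ _ _ _ _ _ _ h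
  clear h
  grind

theorem u_B5_B4 (d' : k) 
    (h : Rel (k := k) 0 1 0 0 0 0 0 0 1 0 0 0 0 0 0 0 0 0 0 1 0 1 0 0 0 0 d' 0 0 0 0 0 0 0 0 0) :
    False := by
  obtain ⟨s, si, r, w, t, hs, e1, e2, e3, e4⟩ := S1z_of _ _ _ _ _ _ _ _ h
  clear h
  grind

theorem u_B5_B5 
    (h : Rel (k := k) 0 1 0 0 0 0 0 0 1 0 0 0 0 0 0 0 0 0 0 1 0 0 0 0 0 0 1 0 0 0 0 0 0 0 0 0) :
    True := by
  trivial

theorem u_B5_B6 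
    (h : Rel (k := k) 0 1 0 0 0 0 0 0 1 0 0 0 0 0 0 0 0 0 0 1 0 0 0 0 0 0 0 0 0 1 0 0 0 1 0 0) :
    False := by
  obtain ⟨⟨J, hJ, t1, d1⟩, -, -⟩ := low1 h
  clear h
  grind

theorem u_B6_B1 (l' c' : k) 
    (h : Rel (k := k) 0 1 0 0 0 0 0 0 0 0 0 1 0 0 0 1 0 0 0 1 0 0 0 0 c' 0 0 0 0 l' 0 0 0 0 0 0) :
    False := by
  obtain ⟨⟨J, hJ, t1, d1⟩, s1, -⟩ := low1 h
  obtain ⟨-, s2, -⟩ := low1 h.symm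
  have e : 1 = l' := by clear h; grind
  subst e
  clear s1 s2 t1 d1
  rcases S1o_of _ _ _ _ _ _ h with ⟨s, si, r, w, hs, e1, e2, e3⟩ | ⟨s, si, r, hs, e1, e2, e3⟩ <;> clear h <;> grind

theorem u_B6_B2 (b' c' : k) 
    (h : Rel (k := k) 0 1 0 0 0 0 0 0 0 0 0 1 0 0 0 1 0 0 0 1 0 0 0 1 c' 0 0 0 0 (-1) b' 0 0 0 0 0) :
    False := by
  obtain ⟨⟨J, hJ, t1, d1⟩, -, -⟩ := low1 h
  clear h
  grind

theorem u_B6_B3 (b' : k) 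
    (h : Rel (k := k) 0 1 0 0 0 0 0 0 0 0 0 1 0 0 0 1 0 0 0 1 0 b' 0 0 0 0 0 0 0 0 0 0 1 0 0 0) :
    False := by
  obtain ⟨⟨J, hJ, t1, d1⟩, -, -⟩ := low1 h
  clear h
  grind

theorem u_B6_B4 (d' : k) 
    (h : Rel (k := k) 0 1 0 0 0 0 0 0 0 0 0 1 0 0 0 1 0 0 0 1 0 1 0 0 0 0 d' 0 0 0 0 0 0 0 0 0) :
    False := by
  obtain ⟨⟨J, hJ, t1, d1⟩, -, -⟩ := low1 h
  clear h
  grind

theorem u_B6_B5 
    (h : Rel (k := k) 0 1 0 0 0 0 0 0 0 0 0 1 0 0 0 1 0 0 0 1 0 0 0 0 0 0 1 0 0 0 0 0 0 0 0 0) :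
    False := by
  obtain ⟨⟨J, hJ, t1, d1⟩, -, -⟩ := low1 h
  clear h
  grind

theorem u_B6_B6 
    (h : Rel (k := k) 0 1 0 0 0 0 0 0 0 0 0 1 0 0 0 1 0 0 0 1 0 0 0 0 0 0 0 0 0 1 0 0 0 1 0 0) :
    True := by
  trivial

theorem u_B7_B7 (c : k) (c' : k) 
    (h : Rel (k := k) 0 1 1 0 0 0 0 0 0 0 0 1 0 0 0 c 0 0 0 1 1 0 0 0 0 0 0 0 0 1 0 0 0 c' 0 0) :
    c' = c := by
  obtain ⟨s, r, hs, e1⟩ := S1j_of _ _ h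
  exact e1


end Pool.Agent.W23
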