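import Pool.Agent.P.MP_c9b50d_al.Forms
import Pool.Agent.P.MP_c9b50d_al.S1n

namespace Pool.Agent.W23

variable {k : Type*} [Field k] [hp : CharP k 3]

set_option linter.unusedVariables false
set_option linter.unusedSectionVars false

theorem u_B8_B8 (b : k) (b' : k) 
    (h : Rel (k := k) 0 0 1 0 0 0 0 0 0 0 0 0 1 b 0 0 0 0 0 0 1 0 0 0 0 0 0 0 0 0 1 b' 0 0 0 0) :
    b' ^ 4 = b ^ 4 := by
  obtain ⟨s, t, ti, r, w1, w2, w3, w4, hs, ht, e1, e2, e3, e4, e5⟩ := S1n_of _ _ _ _ _ _ _ _ _ _ h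
  clear h
  grind

theorem u_B8_B9 (b : k) (d' : k) 
    (h : Rel (k := k) 0 0 1 0 0 0 0 0 0 0 0 0 1 b 0 0 0 0 0 0 1 0 0 0 0 0 0 0 0 0 0 1 0 d' 0 0) :
    False := by
  obtain ⟨s, t, ti, r, w1, w2, w3, w4, hs, ht, e1, e2, e3, e4, e5⟩ := S1n_of _ _ _ _ _ _ _ _ _ _ h
  clear h
  grind

theorem u_B8_B10 (b : k) 
    (h : Rel (k := k) 0 0 1 0 0 0 0 0 0 0 0 0 1 b 0 0 0 0 0 0 1 0 0 0 0 0 0 0 0 0 0 0 0 1 0 0) :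
    False := by
  obtain ⟨s, t, ti, r, w1, w2, w3, w4, hs, ht, e1, e2, e3, e4, e5⟩ := S1n_of _ _ _ _ _ _ _ _ _ _ h
  clear h
  grind

theorem u_B8_B11 (b : k) (c' e' : k) 
    (h : Rel (k := k) 0 0 1 0 0 0 0 0 0 0 0 0 1 b 0 0 0 0 0 0 1 0 0 0 c' 0 0 0 0 0 0 0 0 0 0 e') :
    False := by
  obtain ⟨s, t, ti, r, w1, w2, w3, w4, hs, ht, e1, e2, e3, e4, e5⟩ := S1n_of _ _ _ _ _ _ _ _ _ _ h
  clear h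
  grind

theorem u_B9_B8 (d : k) (b' : k) 
    (h : Rel (k := k) 0 0 1 0 0 0 0 0 0 0 0 0 0 1 0 d 0 0 0 0 1 0 0 0 0 0 0 0 0 0 1 b' 0 0 0 0) :
    False := by
  obtain ⟨s, t, ti, r, w1, w2, w3, w4, hs, ht, e1, e2, e3, e4, e5⟩ := S1n_of _ _ _ _ _ _ _ _ _ _ h
  clear h
  grind

theorem u_B9_B9 (d : k) (d' : k) 
    (h : Rel (k := k) 0 0 1 0 0 0 0 0 0 0 0 0 0 1 0 d 0 0 0 0 1 0 0 0 0 0 0 0 0 0 0 1 0 d' 0 0) :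
    d' = d ∨ d' = -d := by
  obtain ⟨s, t, ti, r, w1, w2, w3, w4, hs, ht, e1, e2, e3, e4, e5⟩ := S1n_of _ _ _ _ _ _ _ _ _ _ h
  clear h
  grind

theorem u_B9_B10 (d : k) 
    (h : Rel (k := k) 0 0 1 0 0 0 0 0 0 0 0 0 0 1 0 d 0 0 0 0 1 0 0 0 0 0 0 0 0 0 0 0 0 1 0 0) :
    False := by
  obtain ⟨s, t, ti, r, w1, w2, w3, w4, hs, ht, e1, e2, e3, e4, e5⟩ := S1n_of _ _ _ _ _ _ _ _ _ _ h
  clear h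
  grind

theorem u_B9_B11 (d : k) (c' e' : k) 
    (h : Rel (k := k) 0 0 1 0 0 0 0 0 0 0 0 0 0 1 0 d 0 0 0 0 1 0 0 0 c' 0 0 0 0 0 0 0 0 0 0 e') :
    False := by
  obtain ⟨s, t, ti, r, w1, w2, w3, w4, hs, ht, e1, e2, e3, e4, e5⟩ := S1n_of _ _ _ _ _ _ _ _ _ _ h
  clear h
  grind

theorem u_B10_B8 (b' : k) 
    (h : Rel (k := k) 0 0 1 0 0 0 0 0 0 0 0 0 0 0 0 1 0 0 0 0 1 0 0 0 0 0 0 0 0 0 1 b' 0 0 0 0) :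
    False := by
  obtain ⟨s, t, ti, r, w1, w2, w3, w4, hs, ht, e1, e2, e3, e4, e5⟩ := S1n_of _ _ _ _ _ _ _ _ _ _ h
  clear h
  grind

theorem u_B10_B9 (d' : k) 
    (h : Rel (k := k) 0 0 1 0 0 0 0 0 0 0 0 0 0 0 0 1 0 0 0 0 1 0 0 0 0 0 0 0 0 0 0 1 0 d' 0 0) :
    False := by
  obtain ⟨s, t, ti, r, w1, w2, w3, w4, hs, ht, e1, e2, e3, e4, e5⟩ := S1n_of _ _ _ _ _ _ _ _ _ _ h
  clear h
  grind

theorem u_B10_B10 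
    (h : Rel (k := k) 0 0 1 0 0 0 0 0 0 0 0 0 0 0 0 1 0 0 0 0 1 0 0 0 0 0 0 0 0 0 0 0 0 1 0 0) :
    True := by
  trivial

theorem u_B10_B11 (c' e' : k) 
    (h : Rel (k := k) 0 0 1 0 0 0 0 0 0 0 0 0 0 0 0 1 0 0 0 0 1 0 0 0 c' 0 0 0 0 0 0 0 0 0 0 e') :
    False := by
  obtain ⟨s, t, ti, r, w1, w2, w3, w4, hs, ht, e1, e2, e3, e4, e5⟩ := S1n_of _ _ _ _ _ _ _ _ _ _ h
  clear h
  grind

theorem u_B11_B8 (c e : k) (b' : k) 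
    (h : Rel (k := k) 0 0 1 0 0 0 c 0 0 0 0 0 0 0 0 0 0 e 0 0 1 0 0 0 0 0 0 0 0 0 1 b' 0 0 0 0) :
    False := by
  obtain ⟨s, t, ti, r, w1, w2, w3, w4, hs, ht, e1, e2, e3, e4, e5⟩ := S1n_of _ _ _ _ _ _ _ _ _ _ h
  clear h
  grind

theorem u_B11_B9 (c e : k) (d' : k) 
    (h : Rel (k := k) 0 0 1 0 0 0 c 0 0 0 0 0 0 0 0 0 0 e 0 0 1 0 0 0 0 0 0 0 0 0 0 1 0 d' 0 0) :
    False := by
  obtain ⟨s, t, ti, r, w1, w2, w3, w4, hs, ht, e1, e2, e3, e4, e5⟩ := S1n_of _ _ _ _ _ _ _ _ _ _ h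
  clear h
  grind

theorem u_B11_B10 (c e : k) 
    (h : Rel (k := k) 0 0 1 0 0 0 c 0 0 0 0 0 0 0 0 0 0 e 0 0 1 0 0 0 0 0 0 0 0 0 0 0 0 1 0 0) :
    False := by
  obtain ⟨s, t, ti, r, w1, w2, w3, w4, hs, ht, e1, e2, e3, e4, e5⟩ := S1n_of _ _ _ _ _ _ _ _ _ _ h
  clear h
  grind

theorem u_B11_B11 (c e : k) (c' e' : k) 
    (h : Rel (k := k) 0 0 1 0 0 0 c 0 0 0 0 0 0 0 0 0 0 e 0 0 1 0 0 0 c' 0 0 0 0 0 0 0 0 0 0 e') :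
    c' = c ∧ (e' = e ∨ e' = -e) := by
  obtain ⟨s, t, ti, r, w1, w2, w3, w4, hs, ht, e1, e2, e3, e4, e5⟩ := S1n_of _ _ _ _ _ _ _ _ _ _ h
  clear h
  grind


end Pool.Agent.W23
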