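import Pool.Agent.P.MP_c9b50d_al.Forms
import Pool.Agent.P.MP_c9b50d_al.S2
import Pool.Agent.P.MP_c9b50d_al.S2c

namespace Pool.Agent.W23

variable {k : Type*} [Field k] [hp : CharP k 3]

set_option linter.unusedVariables false
set_option linter.unusedSectionVars false

omit hp in
theorem ms_iff (a b a' b' : k) : ({a', b', -1 - a' - b'} : Multiset k) = {a, b, -1 - a - b} ↔
    (a' = a ∧ b' = b) ∨ (a' = b ∧ b' = a) ∨ (a' = -1 - a - b ∧ b' = b) ∨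
    (a' = a ∧ b' = -1 - a - b) ∨ (a' = b ∧ b' = -1 - a - b) ∨ (a' = -1 - a - b ∧ b' = a) := by
  have sw1 : ∀ p q r : k, ({p, q, r} : Multiset k) = {q, p, r} := fun p q r =>
    Multiset.cons_swap p q {r}
  have sw2 : ∀ p q r : k, ({p, q, r} : Multiset k) = {p, r, q} := fun p q r =>
    congrArg (Multiset.cons p) (Multiset.pair_comm q r)
  have can : ∀ p q r q' r' : k, ({p, q', r'} : Multiset k) = {p, q, r} → q' = q ∨ q' = r := by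
    intro p q r q' r' h
    have h2 : ({q', r'} : Multiset k) = {q, r} := (Multiset.cons_inj_right p).mp h
    have : q' ∈ ({q, r} : Multiset k) := h2 ▸ by simp
    simpa using this
  constructor
  · intro h
    have ha : a' ∈ ({a, b, -1 - a - b} : Multiset k) := h ▸ by simp
    simp only [Multiset.insert_eq_cons, Multiset.mem_cons, Multiset.mem_singleton] at ha
    rcases ha with ha | ha | ha
    · rw [ha] at h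
      have := can _ _ _ _ _ h
      tauto
    · rw [ha, sw1 a b] at h
      have := can _ _ _ _ _ h
      tauto
    · rw [sw2 a b, sw1 a, ← ha] at h
      have := can _ _ _ _ _ h
      tauto
  · rintro (⟨rfl, rfl⟩ | ⟨rfl, rfl⟩ | ⟨rfl, rfl⟩ | ⟨rfl, rfl⟩ | ⟨rfl, rfl⟩ | ⟨rfl, rfl⟩)
    · rfl
    · rw [sw1, show -1 - a' - b' = -1 - b' - a' by ring]
    · rw [show -1 - (-1 - a - b') - b' = a by ring, sw1, sw2, sw1]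
    · rw [show -1 - a' - (-1 - a' - b) = b by ring, sw2]
    · rw [show -1 - a' - (-1 - a - a') = a by ring, sw2, sw1]
    · rw [show -1 - (-1 - b' - b) - b' = b by ring, sw1, sw2]

theorem u_C1_C1 (a b : k) (a' b' : k) 
    (h : Rel (k := k) 0 0 0 a (1 + b) 0 0 0 0 0 0 0 0 (1 + a) b 0 0 0 0 0 0 a' (1 + b') 0 0 0 0 0 0 0 0 (1 + a') b' 0 0 0) :
    ({a', b', -1 - a' - b'} : Multiset k) = {a, b, -1 - a - b} := by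
  exact (ms_iff ..).mpr (S2a_of _ _ _ _ h)

theorem u_C2_C2 (a : k) (a' : k) 
    (h : Rel (k := k) 0 0 0 a 1 0 0 0 0 0 0 0 0 (1 + a) 1 0 0 0 0 0 0 a' 1 0 0 0 0 0 0 0 0 (1 + a') 1 0 0 0) :
    a' = a := by
  obtain ⟨s, si, hs, e1, e2⟩ := S2b_of _ _ _ _ _ _ _ _ h
  clear * - hs e1 e2
  grind

theorem u_C2_C3 (a : k) (a' g' : k) 
    (h : Rel (k := k) 0 0 0 a 1 0 0 0 0 0 0 0 0 (1 + a) 1 0 0 0 0 0 0 a' 0 0 0 0 0 0 0 0 0 (1 + a') 0 0 g' 0) :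
    False := by
  obtain ⟨s, si, hs, e1, e2⟩ := S2b_of _ _ _ _ _ _ _ _ h
  clear * - hs e1 e2
  grind

theorem u_C2_C4 (a : k) (d' : kˣ) 
    (h : Rel (k := k) 0 0 0 a 1 0 0 0 0 0 0 0 0 (1 + a) 1 0 0 0 0 0 0 (-1) 0 0 0 0 (↑d' : k) 0 0 0 0 0 0 0 0 0) :
    False := by
  have := d'.ne_zero
  have h : Rel (k := k) 0 0 0 a 1 0 0 0 0 0 0 0 0 (1 + a) 1 0 0 0 0 0 0 (-1) 0 0 0 0 (↑d' : k) 0 0 0 0 (1 + -1) 0 0 0 0 := by simpa using h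
  obtain ⟨s, si, hs, e1, e2⟩ := S2b_of _ _ _ _ _ _ _ _ h
  clear * - hs e1 e2
  grind

theorem u_C3_C2 (a g : k) (a' : k) 
    (h : Rel (k := k) 0 0 0 a 0 0 0 0 0 0 0 0 0 (1 + a) 0 0 g 0 0 0 0 a' 1 0 0 0 0 0 0 0 0 (1 + a') 1 0 0 0) :
    False := by
  obtain ⟨s, si, hs, e1, e2⟩ := S2b_of _ _ _ _ _ _ _ _ h
  clear * - hs e1 e2
  grind

theorem u_C3_C3 (a g : k) (a' g' : k) 
    (h : Rel (k := k) 0 0 0 a 0 0 0 0 0 0 0 0 0 (1 + a) 0 0 g 0 0 0 0 a' 0 0 0 0 0 0 0 0 0 (1 + a') 0 0 g' 0) :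
    a' = a ∧ g' = g := by
  obtain ⟨s, si, hs, e1, e2⟩ := S2b0_of _ _ _ _ _ _ h
  exact ⟨e1, e2⟩

theorem u_C3_C4 (a g : k) (d' : kˣ) 
    (h : Rel (k := k) 0 0 0 a 0 0 0 0 0 0 0 0 0 (1 + a) 0 0 g 0 0 0 0 (-1) 0 0 0 0 (↑d' : k) 0 0 0 0 0 0 0 0 0) :
    False := by
  have := d'.ne_zero
  have h' : Rel (k := k) 0 0 0 a 0 0 0 0 0 0 0 0 0 (1 + a) 0 0 g 0 0 0 0 (-1) 0 0 0 0 (↑d' : k) 0 0 0 0 (1 + -1) 0 0 0 0 := by simpa using h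
  obtain ⟨s, si, hs, e1, e2⟩ := S2b0_of _ _ _ _ _ _ h'
  have e : -1 = a := by clear * - e1; grind
  subst e
  rw [add_neg_cancel] at h
  obtain ⟨s, si, r, hs, e1, e2⟩ := S2bm_of _ _ _ _ h
  clear h h'
  grind

theorem u_C4_C2 (d : kˣ) (a' : k) 
    (h : Rel (k := k) 0 0 0 (-1) 0 0 0 0 (↑d : k) 0 0 0 0 0 0 0 0 0 0 0 0 a' 1 0 0 0 0 0 0 0 0 (1 + a') 1 0 0 0) :
    False := by
  have := d.ne_zero
  have h : Rel (k := k) 0 0 0 (-1) 0 0 0 0 (↑d : k) 0 0 0 0 (1 + -1) 0 0 0 0 0 0 0 a' 1 0 0 0 0 0 0 0 0 (1 + a') 1 0 0 0 := by simpa using h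
  obtain ⟨s, si, hs, e1, e2⟩ := S2b_of _ _ _ _ _ _ _ _ h
  clear * - hs e1 e2
  grind

theorem u_C4_C3 (d : kˣ) (a' g' : k) 
    (h : Rel (k := k) 0 0 0 (-1) 0 0 0 0 (↑d : k) 0 0 0 0 0 0 0 0 0 0 0 0 a' 0 0 0 0 0 0 0 0 0 (1 + a') 0 0 g' 0) :
    False := by
  have := d.ne_zero
  have h' : Rel (k := k) 0 0 0 (-1) 0 0 0 0 (↑d : k) 0 0 0 0 (1 + -1) 0 0 0 0 0 0 0 a' 0 0 0 0 0 0 0 0 0 (1 + a') 0 0 g' 0 := by simpa using h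
  obtain ⟨s, si, hs, e1, e2⟩ := S2b0_of _ _ _ _ _ _ h'
  have e : -1 = a' := by clear * - e1; grind
  subst e
  rw [add_neg_cancel] at h
  obtain ⟨s, si, r, hs, e1, e2⟩ := S2bm_of _ _ _ _ h
  clear h h'
  grind

theorem u_C4_C4 (d : kˣ) (d' : kˣ) 
    (h : Rel (k := k) 0 0 0 (-1) 0 0 0 0 (↑d : k) 0 0 0 0 0 0 0 0 0 0 0 0 (-1) 0 0 0 0 (↑d' : k) 0 0 0 0 0 0 0 0 0) :
    d' = d := by
  obtain ⟨s, si, r, hs, e1, e2⟩ := S2bm_of _ _ _ _ h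
  exact Units.ext (by simpa using e2)

theorem u_C5_C5 (g : k) (g' : k) 
    (h : Rel (k := k) 0 0 0 0 1 0 0 0 0 0 0 0 1 0 1 g 0 0 0 0 0 0 1 0 0 0 0 0 0 0 1 0 1 g' 0 0) :
    g' = g ∨ g' = -g := by
  obtain ⟨t, ht, e1⟩ := S2c1_of _ _ h
  clear h
  grind

theorem u_C5_C6 (g : k) (g' : k) 
    (h : Rel (k := k) 0 0 0 0 1 0 0 0 0 0 0 0 1 0 1 g 0 0 0 0 0 1 0 0 0 g' 0 0 0 0 1 1 0 0 0 0) :
    False := by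
  obtain ⟨t, ti, r, ht, e1, e2⟩ := S2c_of _ _ _ _ _ _ _ _ _ _ _ _ _ _ _ _ h
  clear h
  grind

theorem u_C5_C7 (g : k) 
    (h : Rel (k := k) 0 0 0 0 1 0 0 0 0 0 0 0 1 0 1 g 0 0 0 0 0 0 0 0 0 1 0 0 0 0 1 0 0 0 0 0) :
    False := by
  obtain ⟨t, ti, r, ht, e1, e2⟩ := S2c_of _ _ _ _ _ _ _ _ _ _ _ _ _ _ _ _ h
  clear h
  grind

theorem u_C5_C8 (g : k) (d' : k) 
    (h : Rel (k := k) 0 0 0 0 1 0 0 0 0 0 0 0 1 0 1 g 0 0 0 0 0 0 0 0 d' 0 0 0 0 0 1 0 0 0 0 0) :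
    False := by
  obtain ⟨t, ti, r, ht, e1, e2⟩ := S2c_of _ _ _ _ _ _ _ _ _ _ _ _ _ _ _ _ h
  clear h
  grind

theorem u_C5_C9 (g : k) 
    (h : Rel (k := k) 0 0 0 0 1 0 0 0 0 0 0 0 1 0 1 g 0 0 0 0 0 0 0 0 0 0 1 0 0 0 1 0 0 0 0 0) :
    False := by
  obtain ⟨t, ti, r, ht, e1, e2⟩ := S2c_of _ _ _ _ _ _ _ _ _ _ _ _ _ _ _ _ h
  clear h
  grind

theorem u_C6_C5 (g : k) (g' : k) 
    (h : Rel (k := k) 0 0 0 1 0 0 0 g 0 0 0 0 1 1 0 0 0 0 0 0 0 0 1 0 0 0 0 0 0 0 1 0 1 g' 0 0) :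
    False := by
  obtain ⟨t, ti, r, ht, e1, e2⟩ := S2c_of _ _ _ _ _ _ _ _ _ _ _ _ _ _ _ _ h
  clear h
  grind

theorem u_C6_C6 (g : k) (g' : k) 
    (h : Rel (k := k) 0 0 0 1 0 0 0 g 0 0 0 0 1 1 0 0 0 0 0 0 0 1 0 0 0 g' 0 0 0 0 1 1 0 0 0 0) :
    g' = g := by
  obtain ⟨t, e1⟩ := S2c2_of _ _ h
  exact e1

theorem u_C6_C7 (g : k) 
    (h : Rel (k := k) 0 0 0 1 0 0 0 g 0 0 0 0 1 1 0 0 0 0 0 0 0 0 0 0 0 1 0 0 0 0 1 0 0 0 0 0) :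
    False := by
  obtain ⟨t, ti, r, ht, e1, e2⟩ := S2c_of _ _ _ _ _ _ _ _ _ _ _ _ _ _ _ _ h
  clear h
  grind

theorem u_C6_C8 (g : k) (d' : k) 
    (h : Rel (k := k) 0 0 0 1 0 0 0 g 0 0 0 0 1 1 0 0 0 0 0 0 0 0 0 0 d' 0 0 0 0 0 1 0 0 0 0 0) :
    False := by
  obtain ⟨t, ti, r, ht, e1, e2⟩ := S2c_of _ _ _ _ _ _ _ _ _ _ _ _ _ _ _ _ h
  clear h
  grind

theorem u_C6_C9 (g : k) 
    (h : Rel (k := k) 0 0 0 1 0 0 0 g 0 0 0 0 1 1 0 0 0 0 0 0 0 0 0 0 0 0 1 0 0 0 1 0 0 0 0 0) :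
    False := by
  obtain ⟨t, ti, r, ht, e1, e2⟩ := S2c_of _ _ _ _ _ _ _ _ _ _ _ _ _ _ _ _ h
  clear h
  grind

theorem u_C7_C5 (g' : k) 
    (h : Rel (k := k) 0 0 0 0 0 0 0 1 0 0 0 0 1 0 0 0 0 0 0 0 0 0 1 0 0 0 0 0 0 0 1 0 1 g' 0 0) :
    False := by
  obtain ⟨t, ti, r, ht, e1, e2⟩ := S2c_of _ _ _ _ _ _ _ _ _ _ _ _ _ _ _ _ h
  clear h
  grind

theorem u_C7_C6 (g' : k) 
    (h : Rel (k := k) 0 0 0 0 0 0 0 1 0 0 0 0 1 0 0 0 0 0 0 0 0 1 0 0 0 g' 0 0 0 0 1 1 0 0 0 0) :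
    False := by
  obtain ⟨t, ti, r, ht, e1, e2⟩ := S2c_of _ _ _ _ _ _ _ _ _ _ _ _ _ _ _ _ h
  clear h
  grind

theorem u_C7_C7 
    (h : Rel (k := k) 0 0 0 0 0 0 0 1 0 0 0 0 1 0 0 0 0 0 0 0 0 0 0 0 0 1 0 0 0 0 1 0 0 0 0 0) :
    True := by
  trivial

theorem u_C7_C8 (d' : k) 
    (h : Rel (k := k) 0 0 0 0 0 0 0 1 0 0 0 0 1 0 0 0 0 0 0 0 0 0 0 0 d' 0 0 0 0 0 1 0 0 0 0 0) :
    False := by
  obtain ⟨t, ti, r, w1, w2, ht, e1, e2, e3⟩ := S2c0_of _ _ _ _ _ _ h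
  clear h
  grind

theorem u_C7_C9 
    (h : Rel (k := k) 0 0 0 0 0 0 0 1 0 0 0 0 1 0 0 0 0 0 0 0 0 0 0 0 0 0 1 0 0 0 1 0 0 0 0 0) :
    False := by
  obtain ⟨t, ti, r, w1, w2, ht, e1, e2, e3⟩ := S2c0_of _ _ _ _ _ _ h
  clear h
  grind

theorem u_C8_C5 (d : k) (g' : k) 
    (h : Rel (k := k) 0 0 0 0 0 0 d 0 0 0 0 0 1 0 0 0 0 0 0 0 0 0 1 0 0 0 0 0 0 0 1 0 1 g' 0 0) :
    False := by
  obtain ⟨t, ti, r, ht, e1, e2⟩ := S2c_of _ _ _ _ _ _ _ _ _ _ _ _ _ _ _ _ h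
  clear h
  grind

theorem u_C8_C6 (d : k) (g' : k) 
    (h : Rel (k := k) 0 0 0 0 0 0 d 0 0 0 0 0 1 0 0 0 0 0 0 0 0 1 0 0 0 g' 0 0 0 0 1 1 0 0 0 0) :
    False := by
  obtain ⟨t, ti, r, ht, e1, e2⟩ := S2c_of _ _ _ _ _ _ _ _ _ _ _ _ _ _ _ _ h
  clear h
  grind

theorem u_C8_C7 (d : k) 
    (h : Rel (k := k) 0 0 0 0 0 0 d 0 0 0 0 0 1 0 0 0 0 0 0 0 0 0 0 0 0 1 0 0 0 0 1 0 0 0 0 0) :
    False := by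
  obtain ⟨t, ti, r, w1, w2, ht, e1, e2, e3⟩ := S2c0_of _ _ _ _ _ _ h
  clear h
  grind

theorem u_C8_C8 (d : k) (d' : k) 
    (h : Rel (k := k) 0 0 0 0 0 0 d 0 0 0 0 0 1 0 0 0 0 0 0 0 0 0 0 0 d' 0 0 0 0 0 1 0 0 0 0 0) :
    d' = d := by
  obtain ⟨t, ti, r, w1, w2, ht, e1, e2, e3⟩ := S2c0_of _ _ _ _ _ _ h
  clear h
  grind

theorem u_C8_C9 (d : k) 
    (h : Rel (k := k) 0 0 0 0 0 0 d 0 0 0 0 0 1 0 0 0 0 0 0 0 0 0 0 0 0 0 1 0 0 0 1 0 0 0 0 0) :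
    False := by
  obtain ⟨t, ti, r, w1, w2, ht, e1, e2, e3⟩ := S2c0_of _ _ _ _ _ _ h
  clear h
  grind

theorem u_C9_C5 (g' : k) 
    (h : Rel (k := k) 0 0 0 0 0 0 0 0 1 0 0 0 1 0 0 0 0 0 0 0 0 0 1 0 0 0 0 0 0 0 1 0 1 g' 0 0) :
    False := by
  obtain ⟨t, ti, r, ht, e1, e2⟩ := S2c_of _ _ _ _ _ _ _ _ _ _ _ _ _ _ _ _ h
  clear h
  grind

theorem u_C9_C6 (g' : k) 
    (h : Rel (k := k) 0 0 0 0 0 0 0 0 1 0 0 0 1 0 0 0 0 0 0 0 0 1 0 0 0 g' 0 0 0 0 1 1 0 0 0 0) :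
    False := by
  obtain ⟨t, ti, r, ht, e1, e2⟩ := S2c_of _ _ _ _ _ _ _ _ _ _ _ _ _ _ _ _ h
  clear h
  grind

theorem u_C9_C7 
    (h : Rel (k := k) 0 0 0 0 0 0 0 0 1 0 0 0 1 0 0 0 0 0 0 0 0 0 0 0 0 1 0 0 0 0 1 0 0 0 0 0) :
    False := by
  obtain ⟨t, ti, r, w1, w2, ht, e1, e2, e3⟩ := S2c0_of _ _ _ _ _ _ h
  clear h
  grind

theorem u_C9_C8 (d' : k) 
    (h : Rel (k := k) 0 0 0 0 0 0 0 0 1 0 0 0 1 0 0 0 0 0 0 0 0 0 0 0 d' 0 0 0 0 0 1 0 0 0 0 0) :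
    False := by
  obtain ⟨t, ti, r, w1, w2, ht, e1, e2, e3⟩ := S2c0_of _ _ _ _ _ _ h
  clear h
  grind

theorem u_C9_C9 
    (h : Rel (k := k) 0 0 0 0 0 0 0 0 1 0 0 0 1 0 0 0 0 0 0 0 0 0 0 0 0 0 1 0 0 0 1 0 0 0 0 0) :
    True := by
  trivial

theorem u_C10_C10 
    (h : Rel (k := k) 0 0 0 1 0 0 0 1 0 0 0 0 0 1 0 0 0 0 0 0 0 1 0 0 0 1 0 0 0 0 0 1 0 0 0 0) :
    True := by
  trivial

theorem u_C10_C11 (d' : k) 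
    (h : Rel (k := k) 0 0 0 1 0 0 0 1 0 0 0 0 0 1 0 0 0 0 0 0 0 1 0 0 0 0 0 0 0 0 0 1 0 0 d' 0) :
    False := by
  obtain ⟨s, si, r, hs, e1, e2⟩ := S2d_of _ _ _ _ h
  clear h
  grind

theorem u_C11_C10 (d : k) 
    (h : Rel (k := k) 0 0 0 1 0 0 0 0 0 0 0 0 0 1 0 0 d 0 0 0 0 1 0 0 0 1 0 0 0 0 0 1 0 0 0 0) :
    False := by
  obtain ⟨s, si, r, hs, e1, e2⟩ := S2d_of _ _ _ _ h
  clear h
  grind

theorem u_C11_C11 (d : k) (d' : k) 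
    (h : Rel (k := k) 0 0 0 1 0 0 0 0 0 0 0 0 0 1 0 0 d 0 0 0 0 1 0 0 0 0 0 0 0 0 0 1 0 0 d' 0) :
    d' = d := by
  obtain ⟨s, si, r, hs, e1, e2⟩ := S2d_of _ _ _ _ h
  clear h
  grind

theorem u_D1_D1 (a b : k) (a' b' : k) 
    (h : Rel (k := k) 0 0 0 0 0 0 a 0 0 0 0 0 0 0 0 0 (-b) 0 0 0 0 0 0 0 a' 0 0 0 0 0 0 0 0 0 (-b') 0) :
    (a' = a ∧ b' = b) ∨ (a' = b ∧ b' = a) := by
  obtain ⟨t1, d1, s1, z1⟩ := low3 h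
  obtain ⟨-, -, s2, z2⟩ := low3 h.symm
  clear h
  grind

theorem u_D1_D2 (a b : k) (a' : k) 
    (h : Rel (k := k) 0 0 0 0 0 0 a 0 0 0 0 0 0 0 0 0 (-b) 0 0 0 0 0 0 0 a' 1 0 0 0 0 0 0 0 0 (-a') 0) :
    False := by
  obtain ⟨t1, d1, s1, -⟩ := low3 h
  obtain ⟨-, -, s2, -⟩ := low3 h.symm
  clear h
  have e : (a - b) ^ 2 = 0 := by clear s1 s2; grind
  have e2 := pow_eq_zero_iff (two_ne_zero) |>.mp e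
  grind

theorem u_D1_E1 (a b : k) 
    (h : Rel (k := k) 0 0 0 0 0 0 a 0 0 0 0 0 0 0 0 0 (-b) 0 0 0 0 0 0 0 0 0 1 0 0 0 0 0 0 0 0 0) :
    False := by
  obtain ⟨t1, d1, s1, z1⟩ := low3 h
  obtain ⟨-, -, s2, z2⟩ := low3 h.symm
  clear h
  grind

theorem u_D2_D1 (a : k) (a' b' : k) 
    (h : Rel (k := k) 0 0 0 0 0 0 a 1 0 0 0 0 0 0 0 0 (-a) 0 0 0 0 0 0 0 a' 0 0 0 0 0 0 0 0 0 (-b') 0) :
    False := by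
  obtain ⟨t1, d1, s1, -⟩ := low3 h
  obtain ⟨-, -, s2, -⟩ := low3 h.symm
  clear h
  have e : (a' - b') ^ 2 = 0 := by clear s1 s2; grind
  have e2 := pow_eq_zero_iff (two_ne_zero) |>.mp e
  grind

theorem u_D2_D2 (a : k) (a' : k) 
    (h : Rel (k := k) 0 0 0 0 0 0 a 1 0 0 0 0 0 0 0 0 (-a) 0 0 0 0 0 0 0 a' 1 0 0 0 0 0 0 0 0 (-a') 0) :
    a' = a := by
  obtain ⟨t1, d1, s1, z1⟩ := low3 h
  obtain ⟨-, -, s2, z2⟩ := low3 h.symm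
  clear h
  grind

theorem u_D2_E1 (a : k) 
    (h : Rel (k := k) 0 0 0 0 0 0 a 1 0 0 0 0 0 0 0 0 (-a) 0 0 0 0 0 0 0 0 0 1 0 0 0 0 0 0 0 0 0) :
    False := by
  obtain ⟨t1, d1, s1, z1⟩ := low3 h
  obtain ⟨-, -, s2, z2⟩ := low3 h.symm
  clear h
  grind

theorem u_E1_D1 (a' b' : k) 
    (h : Rel (k := k) 0 0 0 0 0 0 0 0 1 0 0 0 0 0 0 0 0 0 0 0 0 0 0 0 a' 0 0 0 0 0 0 0 0 0 (-b') 0) :
    False := by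
  obtain ⟨t1, d1, s1, z1⟩ := low3 h
  obtain ⟨-, -, s2, z2⟩ := low3 h.symm
  clear h
  grind

theorem u_E1_D2 (a' : k) 
    (h : Rel (k := k) 0 0 0 0 0 0 0 0 1 0 0 0 0 0 0 0 0 0 0 0 0 0 0 0 a' 1 0 0 0 0 0 0 0 0 (-a') 0) :
    False := by
  obtain ⟨t1, d1, s1, z1⟩ := low3 h
  obtain ⟨-, -, s2, z2⟩ := low3 h.symm
  clear h
  grind

theorem u_E1_E1 
    (h : Rel (k := k) 0 0 0 0 0 0 0 0 1 0 0 0 0 0 0 0 0 0 0 0 0 0 0 0 0 0 1 0 0 0 0 0 0 0 0 0) :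
    True := by
  trivial


end Pool.Agent.W23
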