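import Pool.Agent.P.MP_c9b50d_al.Ex0
import Pool.Agent.P.MP_c9b50d_al.Uq0
import Pool.Agent.P.MP_c9b50d_al.Uq1
import Pool.Agent.P.MP_c9b50d_al.Uq1n
import Pool.Agent.P.MP_c9b50d_al.Uq2

namespace Pool.Agent.W23

variable {k : Type*} [Field k] [hp : CharP k 3]

set_option linter.unusedVariables false
set_option linter.unusedSectionVars false

variable [IsAlgClosed k]

theorem c_A1 (b c : k) (b' c' : k) (h : ∃ s : k, s ^ 5 = 1 ∧ b' = s * b ∧ c' = s ^ 3 * c) :
    Rel (k := k) 1 0 0 0 0 0 0 0 c 0 0 0 1 0 0 0 0 b 1 0 0 0 0 0 0 0 c' 0 0 0 1 0 0 0 0 b' := by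
  obtain ⟨s, hs, rfl, rfl⟩ := h
  exact S0_to _ _ _ _ _ _ _ _ _ _ _ _ ⟨s, s ^ 4, 0, 0, 0, by grind, by grind, by grind, by grind,
    by grind, by grind, by grind⟩

theorem c_A2 (b c : k) (b' c' : k) (h : b' = b ∧ c' = c) :
    Rel (k := k) 1 0 0 b 0 0 c 0 0 0 0 0 0 0 0 1 0 0 1 0 0 b' 0 0 c' 0 0 0 0 0 0 0 0 1 0 0 := by
  obtain ⟨rfl, rfl⟩ := h
  exact Rel.refl ..

theorem c_A3 (b : kˣ) (b' : kˣ) (h : b' = b ∨ b' = -b) :
    Rel (k := k) 1 0 0 1 0 0 0 0 0 0 0 0 0 0 0 0 0 (↑b : k) 1 0 0 1 0 0 0 0 0 0 0 0 0 0 0 0 0 (↑b' : k) := by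
  rcases h with rfl | rfl
  · exact Rel.refl ..
  · exact S0_to _ _ _ _ _ _ _ _ _ _ _ _ ⟨-1, -1, 0, 0, 0, by simp, by simp, by simp, by simp, by simp,
      by simp, by simp⟩

theorem c_A4 (c : k) (c' : k) (h : c' = c) :
    Rel (k := k) 1 0 0 1 0 0 0 0 c 0 0 0 0 0 0 0 0 0 1 0 0 1 0 0 0 0 c' 0 0 0 0 0 0 0 0 0 := by
  subst h
  exact Rel.refl ..

theorem c_A5 (c : k) (c' : k) (h : c' = c) :
    Rel (k := k) 1 0 0 0 0 0 c 0 0 0 0 0 0 0 0 0 0 1 1 0 0 0 0 0 c' 0 0 0 0 0 0 0 0 0 0 1 := by
  subst h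
  exact Rel.refl ..

theorem c_A6 (c : k) (c' : k) (h : c' = c) :
    Rel (k := k) 1 0 0 0 0 0 c 0 0 0 0 0 0 0 0 0 0 0 1 0 0 0 0 0 c' 0 0 0 0 0 0 0 0 0 0 0 := by
  subst h
  exact Rel.refl ..

theorem c_A7 (h : True) :
    Rel (k := k) 1 0 0 0 0 0 0 0 1 0 0 0 0 0 0 0 0 0 1 0 0 0 0 0 0 0 1 0 0 0 0 0 0 0 0 0 := by
  exact Rel.refl ..

theorem c_B1 (l c : k) (l' c' : k) (h : (l' = l ∧ c' = c) ∨ (l * l' = 1 ∧ c' = -c)) :
    Rel (k := k) 0 1 0 0 0 0 c 0 0 0 0 l 0 0 0 0 0 0 0 1 0 0 0 0 c' 0 0 0 0 l' 0 0 0 0 0 0 := by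
  rcases h with ⟨rfl, rfl⟩ | ⟨hl, rfl⟩
  · exact Rel.refl ..
  · by_cases h1 : l - 1 = 0
    · have e : 1 = l := by grind
      have e' : 1 = l' := by grind
      subst e e'
      exact S1o_to _ _ _ _ _ _ (Or.inr ⟨1, 1, 0, by simp, by simp, by simp, by simp⟩)
    by_cases h2 : l + 1 = 0
    · have e : -1 = l := by grind
      have e' : -1 = l' := by grind
      subst e e'
      exact S1m_to _ _ _ _ _ _ (Or.inr ⟨1, 1, by simp, by simp, by simp, by simp⟩)
    exact S1g_to _ _ _ _ _ _ _ hl (mul_inv_cancel₀ h1) (mul_inv_cancel₀ h2)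
      (Or.inr ⟨1, 1, by simp, rfl, rfl⟩)

theorem c_B2 (b c : k) (b' c' : k) (h : b' = b ∧ (c' = c ∨ (b ≠ 0 ∧ c' = -c))) :
    Rel (k := k) 0 1 0 0 0 1 c 0 0 0 0 (-1) b 0 0 0 0 0 0 1 0 0 0 1 c' 0 0 0 0 (-1) b' 0 0 0 0 0 := by
  obtain ⟨rfl, rfl | ⟨hb, rfl⟩⟩ := h
  · exact Rel.refl ..
  · obtain ⟨u, hu⟩ := rootn (-b') (neg_ne_zero.mpr hb) 3 (by norm_num)
    exact S1m_to _ _ _ _ _ _ (Or.inr ⟨u, -b' * u * u, by grind, by grind, by grind, rfl⟩)

theorem c_B3 (b : k) (b' : k) (h : b' = b) :
    Rel (k := k) 0 1 0 b 0 0 0 0 0 0 0 0 0 0 1 0 0 0 0 1 0 b' 0 0 0 0 0 0 0 0 0 0 1 0 0 0 := by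
  subst h
  exact Rel.refl ..

theorem c_B4 (d : k) (d' : k) (h : d' = d) :
    Rel (k := k) 0 1 0 1 0 0 0 0 d 0 0 0 0 0 0 0 0 0 0 1 0 1 0 0 0 0 d' 0 0 0 0 0 0 0 0 0 := by
  subst h
  exact Rel.refl ..

theorem c_B5 (h : True) :
    Rel (k := k) 0 1 0 0 0 0 0 0 1 0 0 0 0 0 0 0 0 0 0 1 0 0 0 0 0 0 1 0 0 0 0 0 0 0 0 0 := by
  exact Rel.refl ..

theorem c_B6 (h : True) :
    Rel (k := k) 0 1 0 0 0 0 0 0 0 0 0 1 0 0 0 1 0 0 0 1 0 0 0 0 0 0 0 0 0 1 0 0 0 1 0 0 := by
  exact Rel.refl ..

theorem c_B7 (c : k) (c' : k) (h : c' = c) :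
    Rel (k := k) 0 1 1 0 0 0 0 0 0 0 0 1 0 0 0 c 0 0 0 1 1 0 0 0 0 0 0 0 0 1 0 0 0 c' 0 0 := by
  subst h
  exact Rel.refl ..

theorem c_B8 (b : k) (b' : k) (h : b' ^ 4 = b ^ 4) :
    Rel (k := k) 0 0 1 0 0 0 0 0 0 0 0 0 1 b 0 0 0 0 0 0 1 0 0 0 0 0 0 0 0 0 1 b' 0 0 0 0 := by
  by_cases hb : b = 0
  · subst hb
    have e : 0 = b' := by grind
    subst e
    exact Rel.refl ..
  · obtain ⟨w, hw⟩ : ∃ w, b * w = 1 := ⟨b⁻¹, mul_inv_cancel₀ hb⟩
    have h4 : (b' * w) ^ 4 = 1 := by grind
    exact S1n_to _ _ _ _ _ _ _ _ _ _ ⟨(b' * w) ^ 2, (b' * w) ^ 3, b' * w, 0, 0, 0, 0, 0, by grind,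
      by grind, by grind, by grind, by simp, by simp, by simp⟩

theorem c_B9 (d : k) (d' : k) (h : d' = d ∨ d' = -d) :
    Rel (k := k) 0 0 1 0 0 0 0 0 0 0 0 0 0 1 0 d 0 0 0 0 1 0 0 0 0 0 0 0 0 0 0 1 0 d' 0 0 := by
  rcases h with rfl | rfl
  · exact Rel.refl ..
  · exact S1n_to _ _ _ _ _ _ _ _ _ _ ⟨-1, 1, 1, 0, 0, 0, 0, 0, by simp, by simp, by simp, by simp,
      by simp, by simp, by simp⟩

theorem c_B10 (h : True) :
    Rel (k := k) 0 0 1 0 0 0 0 0 0 0 0 0 0 0 0 1 0 0 0 0 1 0 0 0 0 0 0 0 0 0 0 0 0 1 0 0 := by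
  exact Rel.refl ..

theorem c_B11 (c e : k) (c' e' : k) (h : c' = c ∧ (e' = e ∨ e' = -e)) :
    Rel (k := k) 0 0 1 0 0 0 c 0 0 0 0 0 0 0 0 0 0 e 0 0 1 0 0 0 c' 0 0 0 0 0 0 0 0 0 0 e' := by
  obtain ⟨rfl, rfl | rfl⟩ := h
  · exact Rel.refl ..
  · exact S1n_to _ _ _ _ _ _ _ _ _ _ ⟨-1, 1, 1, 0, 0, 0, 0, 0, by simp, by simp, by simp, by simp,
      by simp, by simp, by simp⟩

theorem c_C1 (a b : k) (a' b' : k) (h : ({a', b', -1 - a' - b'} : Multiset k) = {a, b, -1 - a - b}) :
    Rel (k := k) 0 0 0 a (1 + b) 0 0 0 0 0 0 0 0 (1 + a) b 0 0 0 0 0 0 a' (1 + b') 0 0 0 0 0 0 0 0 (1 + a') b' 0 0 0 := by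
  exact S2a_to _ _ _ _ ((ms_iff ..).mp h)

theorem c_C2 (a : k) (a' : k) (h : a' = a) :
    Rel (k := k) 0 0 0 a 1 0 0 0 0 0 0 0 0 (1 + a) 1 0 0 0 0 0 0 a' 1 0 0 0 0 0 0 0 0 (1 + a') 1 0 0 0 := by
  subst h
  exact Rel.refl ..

theorem c_C3 (a g : k) (a' g' : k) (h : a' = a ∧ g' = g) :
    Rel (k := k) 0 0 0 a 0 0 0 0 0 0 0 0 0 (1 + a) 0 0 g 0 0 0 0 a' 0 0 0 0 0 0 0 0 0 (1 + a') 0 0 g' 0 := by
  obtain ⟨rfl, rfl⟩ := h
  exact Rel.refl ..

theorem c_C4 (d : kˣ) (d' : kˣ) (h : d' = d) :
    Rel (k := k) 0 0 0 (-1) 0 0 0 0 (↑d : k) 0 0 0 0 0 0 0 0 0 0 0 0 (-1) 0 0 0 0 (↑d' : k) 0 0 0 0 0 0 0 0 0 := by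
  subst h
  exact Rel.refl ..

theorem c_C5 (g : k) (g' : k) (h : g' = g ∨ g' = -g) :
    Rel (k := k) 0 0 0 0 1 0 0 0 0 0 0 0 1 0 1 g 0 0 0 0 0 0 1 0 0 0 0 0 0 0 1 0 1 g' 0 0 := by
  rcases h with rfl | rfl
  · exact Rel.refl ..
  · exact S2c1_to _ _ ⟨-1, by simp, by simp⟩

theorem c_C6 (g : k) (g' : k) (h : g' = g) :
    Rel (k := k) 0 0 0 1 0 0 0 g 0 0 0 0 1 1 0 0 0 0 0 0 0 1 0 0 0 g' 0 0 0 0 1 1 0 0 0 0 := by
  subst h
  exact Rel.refl ..

theorem c_C7 (h : True) :
    Rel (k := k) 0 0 0 0 0 0 0 1 0 0 0 0 1 0 0 0 0 0 0 0 0 0 0 0 0 1 0 0 0 0 1 0 0 0 0 0 := by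
  exact Rel.refl ..

theorem c_C8 (d : k) (d' : k) (h : d' = d) :
    Rel (k := k) 0 0 0 0 0 0 d 0 0 0 0 0 1 0 0 0 0 0 0 0 0 0 0 0 d' 0 0 0 0 0 1 0 0 0 0 0 := by
  subst h
  exact Rel.refl ..

theorem c_C9 (h : True) :
    Rel (k := k) 0 0 0 0 0 0 0 0 1 0 0 0 1 0 0 0 0 0 0 0 0 0 0 0 0 0 1 0 0 0 1 0 0 0 0 0 := by
  exact Rel.refl ..

theorem c_C10 (h : True) :
    Rel (k := k) 0 0 0 1 0 0 0 1 0 0 0 0 0 1 0 0 0 0 0 0 0 1 0 0 0 1 0 0 0 0 0 1 0 0 0 0 := by
  exact Rel.refl ..

theorem c_C11 (d : k) (d' : k) (h : d' = d) :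
    Rel (k := k) 0 0 0 1 0 0 0 0 0 0 0 0 0 1 0 0 d 0 0 0 0 1 0 0 0 0 0 0 0 0 0 1 0 0 d' 0 := by
  subst h
  exact Rel.refl ..

theorem c_D1 (a b : k) (a' b' : k) (h : (a' = a ∧ b' = b) ∨ (a' = b ∧ b' = a)) :
    Rel (k := k) 0 0 0 0 0 0 a 0 0 0 0 0 0 0 0 0 (-b) 0 0 0 0 0 0 0 a' 0 0 0 0 0 0 0 0 0 (-b') 0 := by
  rcases h with ⟨rfl, rfl⟩ | ⟨rfl, rfl⟩
  · exact Rel.refl ..
  · refine ⟨0, 1, 0, 0, 0, 0, 0, 0, 1, 0, 0, 0, 0, 0, 0, 0, by simp, ?_, ?_, ?_, ?_, ?_, ?_, ?_, ?_, ?_, ?_, ?_, ?_, ?_, ?_, ?_, ?_, ?_, ?_⟩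
    all_goals grind

theorem c_D2 (a : k) (a' : k) (h : a' = a) :
    Rel (k := k) 0 0 0 0 0 0 a 1 0 0 0 0 0 0 0 0 (-a) 0 0 0 0 0 0 0 a' 1 0 0 0 0 0 0 0 0 (-a') 0 := by
  subst h
  exact Rel.refl ..

theorem c_E1 (h : True) :
    Rel (k := k) 0 0 0 0 0 0 0 0 1 0 0 0 0 0 0 0 0 0 0 0 0 0 0 0 0 0 1 0 0 0 0 0 0 0 0 0 := by
  exact Rel.refl ..

theorem r_A1 (b c : k) (b' c' : k) : NF.Rule ((.A1 b c) : NF k) (.A1 b' c') ↔ ∃ s : k, s ^ 5 = 1 ∧ b' = s * b ∧ c' = s ^ 3 * c := by
  simp only [NF.Rule, NF.A1.injEq]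

theorem r_A2 (b c : k) (b' c' : k) : NF.Rule ((.A2 b c) : NF k) (.A2 b' c') ↔ b' = b ∧ c' = c := by
  simp only [NF.Rule, NF.A2.injEq]

theorem r_A3 (b : kˣ) (b' : kˣ) : NF.Rule ((.A3 b) : NF k) (.A3 b') ↔ b' = b ∨ b' = -b := by
  simp only [NF.Rule, NF.A3.injEq]

theorem r_A4 (c : k) (c' : k) : NF.Rule ((.A4 c) : NF k) (.A4 c') ↔ c' = c := by
  simp only [NF.Rule, NF.A4.injEq]

theorem r_A5 (c : k) (c' : k) : NF.Rule ((.A5 c) : NF k) (.A5 c') ↔ c' = c := by
  simp only [NF.Rule, NF.A5.injEq]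

theorem r_A6 (c : k) (c' : k) : NF.Rule ((.A6 c) : NF k) (.A6 c') ↔ c' = c := by
  simp only [NF.Rule, NF.A6.injEq]

theorem r_A7 : NF.Rule (.A7 : NF k) .A7 ↔ True := by
  simp only [NF.Rule]

theorem r_B1 (l c : k) (l' c' : k) : NF.Rule ((.B1 l c) : NF k) (.B1 l' c') ↔ (l' = l ∧ c' = c) ∨ (l * l' = 1 ∧ c' = -c) := by
  simp only [NF.Rule, NF.B1.injEq]
  refine or_congr Iff.rfl ⟨?_, ?_⟩
  · rintro ⟨h, rfl, rfl⟩
    exact ⟨mul_inv_cancel₀ h, rfl⟩
  · rintro ⟨h, rfl⟩
    exact ⟨left_ne_zero_of_mul_eq_one h, eq_inv_of_mul_eq_one_right h, rfl⟩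

theorem r_B2 (b c : k) (b' c' : k) : NF.Rule ((.B2 b c) : NF k) (.B2 b' c') ↔ b' = b ∧ (c' = c ∨ (b ≠ 0 ∧ c' = -c)) := by
  simp only [NF.Rule, NF.B2.injEq]
  tauto

theorem r_B3 (b : k) (b' : k) : NF.Rule ((.B3 b) : NF k) (.B3 b') ↔ b' = b := by
  simp only [NF.Rule, NF.B3.injEq]

theorem r_B4 (d : k) (d' : k) : NF.Rule ((.B4 d) : NF k) (.B4 d') ↔ d' = d := by
  simp only [NF.Rule, NF.B4.injEq]

theorem r_B5 : NF.Rule (.B5 : NF k) .B5 ↔ True := by
  simp only [NF.Rule]

theorem r_B6 : NF.Rule (.B6 : NF k) .B6 ↔ True := by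
  simp only [NF.Rule]

theorem r_B7 (c : k) (c' : k) : NF.Rule ((.B7 c) : NF k) (.B7 c') ↔ c' = c := by
  simp only [NF.Rule, NF.B7.injEq]

theorem r_B8 (b : k) (b' : k) : NF.Rule ((.B8 b) : NF k) (.B8 b') ↔ b' ^ 4 = b ^ 4 := by
  simp only [NF.Rule, NF.B8.injEq]
  constructor
  · rintro ⟨t, ht, rfl⟩
    rw [mul_pow, ht, one_mul]
  · intro h
    by_cases hb : b = 0
    · subst hb
      exact ⟨1, by simp, by grind⟩
    · exact ⟨b' / b, by rw [div_pow, h, div_self (pow_ne_zero 4 hb)], by field_simp⟩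

theorem r_B9 (d : k) (d' : k) : NF.Rule ((.B9 d) : NF k) (.B9 d') ↔ d' = d ∨ d' = -d := by
  simp only [NF.Rule, NF.B9.injEq]

theorem r_B10 : NF.Rule (.B10 : NF k) .B10 ↔ True := by
  simp only [NF.Rule]

theorem r_B11 (c e : k) (c' e' : k) : NF.Rule ((.B11 c e) : NF k) (.B11 c' e') ↔ c' = c ∧ (e' = e ∨ e' = -e) := by
  simp only [NF.Rule, NF.B11.injEq]
  tauto

theorem r_C1 (a b : k) (a' b' : k) : NF.Rule ((.C1 a b) : NF k) (.C1 a' b') ↔ ({a', b', -1 - a' - b'} : Multiset k) = {a, b, -1 - a - b} := by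
  simp only [NF.Rule, NF.C1.injEq]
  exact ⟨by rintro ⟨_, _, ⟨rfl, rfl⟩, h⟩; exact h, fun h => ⟨_, _, ⟨rfl, rfl⟩, h⟩⟩

theorem r_C2 (a : k) (a' : k) : NF.Rule ((.C2 a) : NF k) (.C2 a') ↔ a' = a := by
  simp only [NF.Rule, NF.C2.injEq]

theorem r_C3 (a g : k) (a' g' : k) : NF.Rule ((.C3 a g) : NF k) (.C3 a' g') ↔ a' = a ∧ g' = g := by
  simp only [NF.Rule, NF.C3.injEq]

theorem r_C4 (d : kˣ) (d' : kˣ) : NF.Rule ((.C4 d) : NF k) (.C4 d') ↔ d' = d := by
  simp only [NF.Rule, NF.C4.injEq]

theorem r_C5 (g : k) (g' : k) : NF.Rule ((.C5 g) : NF k) (.C5 g') ↔ g' = g ∨ g' = -g := by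
  simp only [NF.Rule, NF.C5.injEq]

theorem r_C6 (g : k) (g' : k) : NF.Rule ((.C6 g) : NF k) (.C6 g') ↔ g' = g := by
  simp only [NF.Rule, NF.C6.injEq]

theorem r_C7 : NF.Rule (.C7 : NF k) .C7 ↔ True := by
  simp only [NF.Rule]

theorem r_C8 (d : k) (d' : k) : NF.Rule ((.C8 d) : NF k) (.C8 d') ↔ d' = d := by
  simp only [NF.Rule, NF.C8.injEq]

theorem r_C9 : NF.Rule (.C9 : NF k) .C9 ↔ True := by
  simp only [NF.Rule]

theorem r_C10 : NF.Rule (.C10 : NF k) .C10 ↔ True := by
  simp only [NF.Rule]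

theorem r_C11 (d : k) (d' : k) : NF.Rule ((.C11 d) : NF k) (.C11 d') ↔ d' = d := by
  simp only [NF.Rule, NF.C11.injEq]

theorem r_D1 (a b : k) (a' b' : k) : NF.Rule ((.D1 a b) : NF k) (.D1 a' b') ↔ (a' = a ∧ b' = b) ∨ (a' = b ∧ b' = a) := by
  simp only [NF.Rule, NF.D1.injEq]

theorem r_D2 (a : k) (a' : k) : NF.Rule ((.D2 a) : NF k) (.D2 a') ↔ a' = a := by
  simp only [NF.Rule, NF.D2.injEq]

theorem r_E1 : NF.Rule (.E1 : NF k) .E1 ↔ True := by
  simp only [NF.Rule]

theorem iff_A1 (b c : k) (n' : NF k) :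
    Conj (character (NF.pair ((.A1 b c) : NF k))) (character n'.pair) ↔ NF.Rule (.A1 b c) n' := by
  cases n' with
  | A1 b' c' =>
    rw [pair_A1, pair_A1, conj_iff, r_A1]
    exact ⟨u_A1_A1 _ _ _ _, c_A1 _ _ _ _⟩
  | A2 b' c' =>
    rw [pair_A1, pair_A2, conj_iff]
    exact ⟨fun h => (u_A1_A2 _ _ _ _ h).elim, fun h => by rcases h with ⟨_, _, h⟩ <;> cases h⟩
  | A3 b' =>
    rw [pair_A1, pair_A3, conj_iff]
    exact ⟨fun h => (u_A1_A3 _ _ _ h).elim, fun h => by rcases h with ⟨_, _, h⟩ <;> cases h⟩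
  | A4 c' =>
    rw [pair_A1, pair_A4, conj_iff]
    exact ⟨fun h => (u_A1_A4 _ _ _ h).elim, fun h => by rcases h with ⟨_, _, h⟩ <;> cases h⟩
  | A5 c' =>
    rw [pair_A1, pair_A5, conj_iff]
    exact ⟨fun h => (u_A1_A5 _ _ _ h).elim, fun h => by rcases h with ⟨_, _, h⟩ <;> cases h⟩
  | A6 c' =>
    rw [pair_A1, pair_A6, conj_iff]
    exact ⟨fun h => (u_A1_A6 _ _ _ h).elim, fun h => by rcases h with ⟨_, _, h⟩ <;> cases h⟩
  | A7 =>
    rw [pair_A1, pair_A7, conj_iff]
    exact ⟨fun h => (u_A1_A7 _ _ h).elim, fun h => by rcases h with ⟨_, _, h⟩ <;> cases h⟩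
  | B1 l' c' =>
    exact ⟨fun h => absurd (show (0 : ℕ) = 1 from st_eq h) (by decide),
      fun h => by rcases h with ⟨_, _, h⟩ <;> cases h⟩
  | B2 b' c' =>
    exact ⟨fun h => absurd (show (0 : ℕ) = 1 from st_eq h) (by decide),
      fun h => by rcases h with ⟨_, _, h⟩ <;> cases h⟩
  | B3 b' =>
    exact ⟨fun h => absurd (show (0 : ℕ) = 1 from st_eq h) (by decide),
      fun h => by rcases h with ⟨_, _, h⟩ <;> cases h⟩
  | B4 d' =>
    exact ⟨fun h => absurd (show (0 : ℕ) = 1 from st_eq h) (by decide),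
      fun h => by rcases h with ⟨_, _, h⟩ <;> cases h⟩
  | B5 =>
    exact ⟨fun h => absurd (show (0 : ℕ) = 1 from st_eq h) (by decide),
      fun h => by rcases h with ⟨_, _, h⟩ <;> cases h⟩
  | B6 =>
    exact ⟨fun h => absurd (show (0 : ℕ) = 1 from st_eq h) (by decide),
      fun h => by rcases h with ⟨_, _, h⟩ <;> cases h⟩
  | B7 c' =>
    exact ⟨fun h => absurd (show (0 : ℕ) = 2 from st_eq h) (by decide),
      fun h => by rcases h with ⟨_, _, h⟩ <;> cases h⟩
  | B8 b' =>
    exact ⟨fun h => absurd (show (0 : ℕ) = 3 from st_eq h) (by decide),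
      fun h => by rcases h with ⟨_, _, h⟩ <;> cases h⟩
  | B9 d' =>
    exact ⟨fun h => absurd (show (0 : ℕ) = 3 from st_eq h) (by decide),
      fun h => by rcases h with ⟨_, _, h⟩ <;> cases h⟩
  | B10 =>
    exact ⟨fun h => absurd (show (0 : ℕ) = 3 from st_eq h) (by decide),
      fun h => by rcases h with ⟨_, _, h⟩ <;> cases h⟩
  | B11 c' e' =>
    exact ⟨fun h => absurd (show (0 : ℕ) = 3 from st_eq h) (by decide),
      fun h => by rcases h with ⟨_, _, h⟩ <;> cases h⟩
  | C1 a' b' =>
    exact ⟨fun h => absurd (show (0 : ℕ) = 4 from st_eq h) (by decide),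
      fun h => by rcases h with ⟨_, _, h⟩ <;> cases h⟩
  | C2 a' =>
    exact ⟨fun h => absurd (show (0 : ℕ) = 5 from st_eq h) (by decide),
      fun h => by rcases h with ⟨_, _, h⟩ <;> cases h⟩
  | C3 a' g' =>
    exact ⟨fun h => absurd (show (0 : ℕ) = 5 from st_eq h) (by decide),
      fun h => by rcases h with ⟨_, _, h⟩ <;> cases h⟩
  | C4 d' =>
    exact ⟨fun h => absurd (show (0 : ℕ) = 5 from st_eq h) (by decide),
      fun h => by rcases h with ⟨_, _, h⟩ <;> cases h⟩
  | C5 g' =>
    exact ⟨fun h => absurd (show (0 : ℕ) = 6 from st_eq h) (by decide),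
      fun h => by rcases h with ⟨_, _, h⟩ <;> cases h⟩
  | C6 g' =>
    exact ⟨fun h => absurd (show (0 : ℕ) = 6 from st_eq h) (by decide),
      fun h => by rcases h with ⟨_, _, h⟩ <;> cases h⟩
  | C7 =>
    exact ⟨fun h => absurd (show (0 : ℕ) = 6 from st_eq h) (by decide),
      fun h => by rcases h with ⟨_, _, h⟩ <;> cases h⟩
  | C8 d' =>
    exact ⟨fun h => absurd (show (0 : ℕ) = 6 from st_eq h) (by decide),
      fun h => by rcases h with ⟨_, _, h⟩ <;> cases h⟩
  | C9 =>
    exact ⟨fun h => absurd (show (0 : ℕ) = 6 from st_eq h) (by decide),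
      fun h => by rcases h with ⟨_, _, h⟩ <;> cases h⟩
  | C10 =>
    exact ⟨fun h => absurd (show (0 : ℕ) = 7 from st_eq h) (by decide),
      fun h => by rcases h with ⟨_, _, h⟩ <;> cases h⟩
  | C11 d' =>
    exact ⟨fun h => absurd (show (0 : ℕ) = 7 from st_eq h) (by decide),
      fun h => by rcases h with ⟨_, _, h⟩ <;> cases h⟩
  | D1 a' b' =>
    exact ⟨fun h => absurd (show (0 : ℕ) = 8 from st_eq h) (by decide),
      fun h => by rcases h with ⟨_, _, h⟩ <;> cases h⟩
  | D2 a' =>
    exact ⟨fun h => absurd (show (0 : ℕ) = 8 from st_eq h) (by decide),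
      fun h => by rcases h with ⟨_, _, h⟩ <;> cases h⟩
  | E1 =>
    exact ⟨fun h => absurd (show (0 : ℕ) = 8 from st_eq h) (by decide),
      fun h => by rcases h with ⟨_, _, h⟩ <;> cases h⟩

theorem iff_A2 (b c : k) (n' : NF k) :
    Conj (character (NF.pair ((.A2 b c) : NF k))) (character n'.pair) ↔ NF.Rule (.A2 b c) n' := by
  cases n' with
  | A1 b' c' =>
    rw [pair_A2, pair_A1, conj_iff]
    exact ⟨fun h => (u_A2_A1 _ _ _ _ h).elim, fun h => by cases h⟩
  | A2 b' c' =>
    rw [pair_A2, pair_A2, conj_iff, r_A2]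
    exact ⟨u_A2_A2 _ _ _ _, c_A2 _ _ _ _⟩
  | A3 b' =>
    rw [pair_A2, pair_A3, conj_iff]
    exact ⟨fun h => (u_A2_A3 _ _ _ h).elim, fun h => by cases h⟩
  | A4 c' =>
    rw [pair_A2, pair_A4, conj_iff]
    exact ⟨fun h => (u_A2_A4 _ _ _ h).elim, fun h => by cases h⟩
  | A5 c' =>
    rw [pair_A2, pair_A5, conj_iff]
    exact ⟨fun h => (u_A2_A5 _ _ _ h).elim, fun h => by cases h⟩
  | A6 c' =>
    rw [pair_A2, pair_A6, conj_iff]
    exact ⟨fun h => (u_A2_A6 _ _ _ h).elim, fun h => by cases h⟩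
  | A7 =>
    rw [pair_A2, pair_A7, conj_iff]
    exact ⟨fun h => (u_A2_A7 _ _ h).elim, fun h => by cases h⟩
  | B1 l' c' =>
    exact ⟨fun h => absurd (show (0 : ℕ) = 1 from st_eq h) (by decide),
      fun h => by cases h⟩
  | B2 b' c' =>
    exact ⟨fun h => absurd (show (0 : ℕ) = 1 from st_eq h) (by decide),
      fun h => by cases h⟩
  | B3 b' =>
    exact ⟨fun h => absurd (show (0 : ℕ) = 1 from st_eq h) (by decide),
      fun h => by cases h⟩
  | B4 d' =>
    exact ⟨fun h => absurd (show (0 : ℕ) = 1 from st_eq h) (by decide),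
      fun h => by cases h⟩
  | B5 =>
    exact ⟨fun h => absurd (show (0 : ℕ) = 1 from st_eq h) (by decide),
      fun h => by cases h⟩
  | B6 =>
    exact ⟨fun h => absurd (show (0 : ℕ) = 1 from st_eq h) (by decide),
      fun h => by cases h⟩
  | B7 c' =>
    exact ⟨fun h => absurd (show (0 : ℕ) = 2 from st_eq h) (by decide),
      fun h => by cases h⟩
  | B8 b' =>
    exact ⟨fun h => absurd (show (0 : ℕ) = 3 from st_eq h) (by decide),
      fun h => by cases h⟩
  | B9 d' =>
    exact ⟨fun h => absurd (show (0 : ℕ) = 3 from st_eq h) (by decide),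
      fun h => by cases h⟩
  | B10 =>
    exact ⟨fun h => absurd (show (0 : ℕ) = 3 from st_eq h) (by decide),
      fun h => by cases h⟩
  | B11 c' e' =>
    exact ⟨fun h => absurd (show (0 : ℕ) = 3 from st_eq h) (by decide),
      fun h => by cases h⟩
  | C1 a' b' =>
    exact ⟨fun h => absurd (show (0 : ℕ) = 4 from st_eq h) (by decide),
      fun h => by cases h⟩
  | C2 a' =>
    exact ⟨fun h => absurd (show (0 : ℕ) = 5 from st_eq h) (by decide),
      fun h => by cases h⟩
  | C3 a' g' =>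
    exact ⟨fun h => absurd (show (0 : ℕ) = 5 from st_eq h) (by decide),
      fun h => by cases h⟩
  | C4 d' =>
    exact ⟨fun h => absurd (show (0 : ℕ) = 5 from st_eq h) (by decide),
      fun h => by cases h⟩
  | C5 g' =>
    exact ⟨fun h => absurd (show (0 : ℕ) = 6 from st_eq h) (by decide),
      fun h => by cases h⟩
  | C6 g' =>
    exact ⟨fun h => absurd (show (0 : ℕ) = 6 from st_eq h) (by decide),
      fun h => by cases h⟩
  | C7 =>
    exact ⟨fun h => absurd (show (0 : ℕ) = 6 from st_eq h) (by decide),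
      fun h => by cases h⟩
  | C8 d' =>
    exact ⟨fun h => absurd (show (0 : ℕ) = 6 from st_eq h) (by decide),
      fun h => by cases h⟩
  | C9 =>
    exact ⟨fun h => absurd (show (0 : ℕ) = 6 from st_eq h) (by decide),
      fun h => by cases h⟩
  | C10 =>
    exact ⟨fun h => absurd (show (0 : ℕ) = 7 from st_eq h) (by decide),
      fun h => by cases h⟩
  | C11 d' =>
    exact ⟨fun h => absurd (show (0 : ℕ) = 7 from st_eq h) (by decide),
      fun h => by cases h⟩
  | D1 a' b' =>
    exact ⟨fun h => absurd (show (0 : ℕ) = 8 from st_eq h) (by decide),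
      fun h => by cases h⟩
  | D2 a' =>
    exact ⟨fun h => absurd (show (0 : ℕ) = 8 from st_eq h) (by decide),
      fun h => by cases h⟩
  | E1 =>
    exact ⟨fun h => absurd (show (0 : ℕ) = 8 from st_eq h) (by decide),
      fun h => by cases h⟩

theorem iff_A3 (b : kˣ) (n' : NF k) :
    Conj (character (NF.pair ((.A3 b) : NF k))) (character n'.pair) ↔ NF.Rule (.A3 b) n' := by
  cases n' with
  | A1 b' c' =>
    rw [pair_A3, pair_A1, conj_iff]
    exact ⟨fun h => (u_A3_A1 _ _ _ h).elim, fun h => by rcases h with h | h <;> cases h⟩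
  | A2 b' c' =>
    rw [pair_A3, pair_A2, conj_iff]
    exact ⟨fun h => (u_A3_A2 _ _ _ h).elim, fun h => by rcases h with h | h <;> cases h⟩
  | A3 b' =>
    rw [pair_A3, pair_A3, conj_iff, r_A3]
    exact ⟨u_A3_A3 _ _, c_A3 _ _⟩
  | A4 c' =>
    rw [pair_A3, pair_A4, conj_iff]
    exact ⟨fun h => (u_A3_A4 _ _ h).elim, fun h => by rcases h with h | h <;> cases h⟩
  | A5 c' =>
    rw [pair_A3, pair_A5, conj_iff]
    exact ⟨fun h => (u_A3_A5 _ _ h).elim, fun h => by rcases h with h | h <;> cases h⟩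
  | A6 c' =>
    rw [pair_A3, pair_A6, conj_iff]
    exact ⟨fun h => (u_A3_A6 _ _ h).elim, fun h => by rcases h with h | h <;> cases h⟩
  | A7 =>
    rw [pair_A3, pair_A7, conj_iff]
    exact ⟨fun h => (u_A3_A7 _ h).elim, fun h => by rcases h with h | h <;> cases h⟩
  | B1 l' c' =>
    exact ⟨fun h => absurd (show (0 : ℕ) = 1 from st_eq h) (by decide),
      fun h => by rcases h with h | h <;> cases h⟩
  | B2 b' c' =>
    exact ⟨fun h => absurd (show (0 : ℕ) = 1 from st_eq h) (by decide),
      fun h => by rcases h with h | h <;> cases h⟩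
  | B3 b' =>
    exact ⟨fun h => absurd (show (0 : ℕ) = 1 from st_eq h) (by decide),
      fun h => by rcases h with h | h <;> cases h⟩
  | B4 d' =>
    exact ⟨fun h => absurd (show (0 : ℕ) = 1 from st_eq h) (by decide),
      fun h => by rcases h with h | h <;> cases h⟩
  | B5 =>
    exact ⟨fun h => absurd (show (0 : ℕ) = 1 from st_eq h) (by decide),
      fun h => by rcases h with h | h <;> cases h⟩
  | B6 =>
    exact ⟨fun h => absurd (show (0 : ℕ) = 1 from st_eq h) (by decide),
      fun h => by rcases h with h | h <;> cases h⟩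
  | B7 c' =>
    exact ⟨fun h => absurd (show (0 : ℕ) = 2 from st_eq h) (by decide),
      fun h => by rcases h with h | h <;> cases h⟩
  | B8 b' =>
    exact ⟨fun h => absurd (show (0 : ℕ) = 3 from st_eq h) (by decide),
      fun h => by rcases h with h | h <;> cases h⟩
  | B9 d' =>
    exact ⟨fun h => absurd (show (0 : ℕ) = 3 from st_eq h) (by decide),
      fun h => by rcases h with h | h <;> cases h⟩
  | B10 =>
    exact ⟨fun h => absurd (show (0 : ℕ) = 3 from st_eq h) (by decide),
      fun h => by rcases h with h | h <;> cases h⟩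
  | B11 c' e' =>
    exact ⟨fun h => absurd (show (0 : ℕ) = 3 from st_eq h) (by decide),
      fun h => by rcases h with h | h <;> cases h⟩
  | C1 a' b' =>
    exact ⟨fun h => absurd (show (0 : ℕ) = 4 from st_eq h) (by decide),
      fun h => by rcases h with h | h <;> cases h⟩
  | C2 a' =>
    exact ⟨fun h => absurd (show (0 : ℕ) = 5 from st_eq h) (by decide),
      fun h => by rcases h with h | h <;> cases h⟩
  | C3 a' g' =>
    exact ⟨fun h => absurd (show (0 : ℕ) = 5 from st_eq h) (by decide),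
      fun h => by rcases h with h | h <;> cases h⟩
  | C4 d' =>
    exact ⟨fun h => absurd (show (0 : ℕ) = 5 from st_eq h) (by decide),
      fun h => by rcases h with h | h <;> cases h⟩
  | C5 g' =>
    exact ⟨fun h => absurd (show (0 : ℕ) = 6 from st_eq h) (by decide),
      fun h => by rcases h with h | h <;> cases h⟩
  | C6 g' =>
    exact ⟨fun h => absurd (show (0 : ℕ) = 6 from st_eq h) (by decide),
      fun h => by rcases h with h | h <;> cases h⟩
  | C7 =>
    exact ⟨fun h => absurd (show (0 : ℕ) = 6 from st_eq h) (by decide),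
      fun h => by rcases h with h | h <;> cases h⟩
  | C8 d' =>
    exact ⟨fun h => absurd (show (0 : ℕ) = 6 from st_eq h) (by decide),
      fun h => by rcases h with h | h <;> cases h⟩
  | C9 =>
    exact ⟨fun h => absurd (show (0 : ℕ) = 6 from st_eq h) (by decide),
      fun h => by rcases h with h | h <;> cases h⟩
  | C10 =>
    exact ⟨fun h => absurd (show (0 : ℕ) = 7 from st_eq h) (by decide),
      fun h => by rcases h with h | h <;> cases h⟩
  | C11 d' =>
    exact ⟨fun h => absurd (show (0 : ℕ) = 7 from st_eq h) (by decide),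
      fun h => by rcases h with h | h <;> cases h⟩
  | D1 a' b' =>
    exact ⟨fun h => absurd (show (0 : ℕ) = 8 from st_eq h) (by decide),
      fun h => by rcases h with h | h <;> cases h⟩
  | D2 a' =>
    exact ⟨fun h => absurd (show (0 : ℕ) = 8 from st_eq h) (by decide),
      fun h => by rcases h with h | h <;> cases h⟩
  | E1 =>
    exact ⟨fun h => absurd (show (0 : ℕ) = 8 from st_eq h) (by decide),
      fun h => by rcases h with h | h <;> cases h⟩

theorem iff_A4 (c : k) (n' : NF k) :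
    Conj (character (NF.pair ((.A4 c) : NF k))) (character n'.pair) ↔ NF.Rule (.A4 c) n' := by
  cases n' with
  | A1 b' c' =>
    rw [pair_A4, pair_A1, conj_iff]
    exact ⟨fun h => (u_A4_A1 _ _ _ h).elim, fun h => by cases h⟩
  | A2 b' c' =>
    rw [pair_A4, pair_A2, conj_iff]
    exact ⟨fun h => (u_A4_A2 _ _ _ h).elim, fun h => by cases h⟩
  | A3 b' =>
    rw [pair_A4, pair_A3, conj_iff]
    exact ⟨fun h => (u_A4_A3 _ _ h).elim, fun h => by cases h⟩
  | A4 c' =>
    rw [pair_A4, pair_A4, conj_iff, r_A4]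
    exact ⟨u_A4_A4 _ _, c_A4 _ _⟩
  | A5 c' =>
    rw [pair_A4, pair_A5, conj_iff]
    exact ⟨fun h => (u_A4_A5 _ _ h).elim, fun h => by cases h⟩
  | A6 c' =>
    rw [pair_A4, pair_A6, conj_iff]
    exact ⟨fun h => (u_A4_A6 _ _ h).elim, fun h => by cases h⟩
  | A7 =>
    rw [pair_A4, pair_A7, conj_iff]
    exact ⟨fun h => (u_A4_A7 _ h).elim, fun h => by cases h⟩
  | B1 l' c' =>
    exact ⟨fun h => absurd (show (0 : ℕ) = 1 from st_eq h) (by decide),
      fun h => by cases h⟩
  | B2 b' c' =>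
    exact ⟨fun h => absurd (show (0 : ℕ) = 1 from st_eq h) (by decide),
      fun h => by cases h⟩
  | B3 b' =>
    exact ⟨fun h => absurd (show (0 : ℕ) = 1 from st_eq h) (by decide),
      fun h => by cases h⟩
  | B4 d' =>
    exact ⟨fun h => absurd (show (0 : ℕ) = 1 from st_eq h) (by decide),
      fun h => by cases h⟩
  | B5 =>
    exact ⟨fun h => absurd (show (0 : ℕ) = 1 from st_eq h) (by decide),
      fun h => by cases h⟩
  | B6 =>
    exact ⟨fun h => absurd (show (0 : ℕ) = 1 from st_eq h) (by decide),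
      fun h => by cases h⟩
  | B7 c' =>
    exact ⟨fun h => absurd (show (0 : ℕ) = 2 from st_eq h) (by decide),
      fun h => by cases h⟩
  | B8 b' =>
    exact ⟨fun h => absurd (show (0 : ℕ) = 3 from st_eq h) (by decide),
      fun h => by cases h⟩
  | B9 d' =>
    exact ⟨fun h => absurd (show (0 : ℕ) = 3 from st_eq h) (by decide),
      fun h => by cases h⟩
  | B10 =>
    exact ⟨fun h => absurd (show (0 : ℕ) = 3 from st_eq h) (by decide),
      fun h => by cases h⟩
  | B11 c' e' =>
    exact ⟨fun h => absurd (show (0 : ℕ) = 3 from st_eq h) (by decide),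
      fun h => by cases h⟩
  | C1 a' b' =>
    exact ⟨fun h => absurd (show (0 : ℕ) = 4 from st_eq h) (by decide),
      fun h => by cases h⟩
  | C2 a' =>
    exact ⟨fun h => absurd (show (0 : ℕ) = 5 from st_eq h) (by decide),
      fun h => by cases h⟩
  | C3 a' g' =>
    exact ⟨fun h => absurd (show (0 : ℕ) = 5 from st_eq h) (by decide),
      fun h => by cases h⟩
  | C4 d' =>
    exact ⟨fun h => absurd (show (0 : ℕ) = 5 from st_eq h) (by decide),
      fun h => by cases h⟩
  | C5 g' =>
    exact ⟨fun h => absurd (show (0 : ℕ) = 6 from st_eq h) (by decide),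
      fun h => by cases h⟩
  | C6 g' =>
    exact ⟨fun h => absurd (show (0 : ℕ) = 6 from st_eq h) (by decide),
      fun h => by cases h⟩
  | C7 =>
    exact ⟨fun h => absurd (show (0 : ℕ) = 6 from st_eq h) (by decide),
      fun h => by cases h⟩
  | C8 d' =>
    exact ⟨fun h => absurd (show (0 : ℕ) = 6 from st_eq h) (by decide),
      fun h => by cases h⟩
  | C9 =>
    exact ⟨fun h => absurd (show (0 : ℕ) = 6 from st_eq h) (by decide),
      fun h => by cases h⟩
  | C10 =>
    exact ⟨fun h => absurd (show (0 : ℕ) = 7 from st_eq h) (by decide),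
      fun h => by cases h⟩
  | C11 d' =>
    exact ⟨fun h => absurd (show (0 : ℕ) = 7 from st_eq h) (by decide),
      fun h => by cases h⟩
  | D1 a' b' =>
    exact ⟨fun h => absurd (show (0 : ℕ) = 8 from st_eq h) (by decide),
      fun h => by cases h⟩
  | D2 a' =>
    exact ⟨fun h => absurd (show (0 : ℕ) = 8 from st_eq h) (by decide),
      fun h => by cases h⟩
  | E1 =>
    exact ⟨fun h => absurd (show (0 : ℕ) = 8 from st_eq h) (by decide),
      fun h => by cases h⟩

theorem iff_A5 (c : k) (n' : NF k) :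
    Conj (character (NF.pair ((.A5 c) : NF k))) (character n'.pair) ↔ NF.Rule (.A5 c) n' := by
  cases n' with
  | A1 b' c' =>
    rw [pair_A5, pair_A1, conj_iff]
    exact ⟨fun h => (u_A5_A1 _ _ _ h).elim, fun h => by cases h⟩
  | A2 b' c' =>
    rw [pair_A5, pair_A2, conj_iff]
    exact ⟨fun h => (u_A5_A2 _ _ _ h).elim, fun h => by cases h⟩
  | A3 b' =>
    rw [pair_A5, pair_A3, conj_iff]
    exact ⟨fun h => (u_A5_A3 _ _ h).elim, fun h => by cases h⟩
  | A4 c' =>
    rw [pair_A5, pair_A4, conj_iff]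
    exact ⟨fun h => (u_A5_A4 _ _ h).elim, fun h => by cases h⟩
  | A5 c' =>
    rw [pair_A5, pair_A5, conj_iff, r_A5]
    exact ⟨u_A5_A5 _ _, c_A5 _ _⟩
  | A6 c' =>
    rw [pair_A5, pair_A6, conj_iff]
    exact ⟨fun h => (u_A5_A6 _ _ h).elim, fun h => by cases h⟩
  | A7 =>
    rw [pair_A5, pair_A7, conj_iff]
    exact ⟨fun h => (u_A5_A7 _ h).elim, fun h => by cases h⟩
  | B1 l' c' =>
    exact ⟨fun h => absurd (show (0 : ℕ) = 1 from st_eq h) (by decide),
      fun h => by cases h⟩
  | B2 b' c' =>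
    exact ⟨fun h => absurd (show (0 : ℕ) = 1 from st_eq h) (by decide),
      fun h => by cases h⟩
  | B3 b' =>
    exact ⟨fun h => absurd (show (0 : ℕ) = 1 from st_eq h) (by decide),
      fun h => by cases h⟩
  | B4 d' =>
    exact ⟨fun h => absurd (show (0 : ℕ) = 1 from st_eq h) (by decide),
      fun h => by cases h⟩
  | B5 =>
    exact ⟨fun h => absurd (show (0 : ℕ) = 1 from st_eq h) (by decide),
      fun h => by cases h⟩
  | B6 =>
    exact ⟨fun h => absurd (show (0 : ℕ) = 1 from st_eq h) (by decide),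
      fun h => by cases h⟩
  | B7 c' =>
    exact ⟨fun h => absurd (show (0 : ℕ) = 2 from st_eq h) (by decide),
      fun h => by cases h⟩
  | B8 b' =>
    exact ⟨fun h => absurd (show (0 : ℕ) = 3 from st_eq h) (by decide),
      fun h => by cases h⟩
  | B9 d' =>
    exact ⟨fun h => absurd (show (0 : ℕ) = 3 from st_eq h) (by decide),
      fun h => by cases h⟩
  | B10 =>
    exact ⟨fun h => absurd (show (0 : ℕ) = 3 from st_eq h) (by decide),
      fun h => by cases h⟩
  | B11 c' e' =>
    exact ⟨fun h => absurd (show (0 : ℕ) = 3 from st_eq h) (by decide),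
      fun h => by cases h⟩
  | C1 a' b' =>
    exact ⟨fun h => absurd (show (0 : ℕ) = 4 from st_eq h) (by decide),
      fun h => by cases h⟩
  | C2 a' =>
    exact ⟨fun h => absurd (show (0 : ℕ) = 5 from st_eq h) (by decide),
      fun h => by cases h⟩
  | C3 a' g' =>
    exact ⟨fun h => absurd (show (0 : ℕ) = 5 from st_eq h) (by decide),
      fun h => by cases h⟩
  | C4 d' =>
    exact ⟨fun h => absurd (show (0 : ℕ) = 5 from st_eq h) (by decide),
      fun h => by cases h⟩
  | C5 g' =>
    exact ⟨fun h => absurd (show (0 : ℕ) = 6 from st_eq h) (by decide),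
      fun h => by cases h⟩
  | C6 g' =>
    exact ⟨fun h => absurd (show (0 : ℕ) = 6 from st_eq h) (by decide),
      fun h => by cases h⟩
  | C7 =>
    exact ⟨fun h => absurd (show (0 : ℕ) = 6 from st_eq h) (by decide),
      fun h => by cases h⟩
  | C8 d' =>
    exact ⟨fun h => absurd (show (0 : ℕ) = 6 from st_eq h) (by decide),
      fun h => by cases h⟩
  | C9 =>
    exact ⟨fun h => absurd (show (0 : ℕ) = 6 from st_eq h) (by decide),
      fun h => by cases h⟩
  | C10 =>
    exact ⟨fun h => absurd (show (0 : ℕ) = 7 from st_eq h) (by decide),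
      fun h => by cases h⟩
  | C11 d' =>
    exact ⟨fun h => absurd (show (0 : ℕ) = 7 from st_eq h) (by decide),
      fun h => by cases h⟩
  | D1 a' b' =>
    exact ⟨fun h => absurd (show (0 : ℕ) = 8 from st_eq h) (by decide),
      fun h => by cases h⟩
  | D2 a' =>
    exact ⟨fun h => absurd (show (0 : ℕ) = 8 from st_eq h) (by decide),
      fun h => by cases h⟩
  | E1 =>
    exact ⟨fun h => absurd (show (0 : ℕ) = 8 from st_eq h) (by decide),
      fun h => by cases h⟩

theorem iff_A6 (c : k) (n' : NF k) :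
    Conj (character (NF.pair ((.A6 c) : NF k))) (character n'.pair) ↔ NF.Rule (.A6 c) n' := by
  cases n' with
  | A1 b' c' =>
    rw [pair_A6, pair_A1, conj_iff]
    exact ⟨fun h => (u_A6_A1 _ _ _ h).elim, fun h => by cases h⟩
  | A2 b' c' =>
    rw [pair_A6, pair_A2, conj_iff]
    exact ⟨fun h => (u_A6_A2 _ _ _ h).elim, fun h => by cases h⟩
  | A3 b' =>
    rw [pair_A6, pair_A3, conj_iff]
    exact ⟨fun h => (u_A6_A3 _ _ h).elim, fun h => by cases h⟩
  | A4 c' =>
    rw [pair_A6, pair_A4, conj_iff]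
    exact ⟨fun h => (u_A6_A4 _ _ h).elim, fun h => by cases h⟩
  | A5 c' =>
    rw [pair_A6, pair_A5, conj_iff]
    exact ⟨fun h => (u_A6_A5 _ _ h).elim, fun h => by cases h⟩
  | A6 c' =>
    rw [pair_A6, pair_A6, conj_iff, r_A6]
    exact ⟨u_A6_A6 _ _, c_A6 _ _⟩
  | A7 =>
    rw [pair_A6, pair_A7, conj_iff]
    exact ⟨fun h => (u_A6_A7 _ h).elim, fun h => by cases h⟩
  | B1 l' c' =>
    exact ⟨fun h => absurd (show (0 : ℕ) = 1 from st_eq h) (by decide),
      fun h => by cases h⟩
  | B2 b' c' =>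
    exact ⟨fun h => absurd (show (0 : ℕ) = 1 from st_eq h) (by decide),
      fun h => by cases h⟩
  | B3 b' =>
    exact ⟨fun h => absurd (show (0 : ℕ) = 1 from st_eq h) (by decide),
      fun h => by cases h⟩
  | B4 d' =>
    exact ⟨fun h => absurd (show (0 : ℕ) = 1 from st_eq h) (by decide),
      fun h => by cases h⟩
  | B5 =>
    exact ⟨fun h => absurd (show (0 : ℕ) = 1 from st_eq h) (by decide),
      fun h => by cases h⟩
  | B6 =>
    exact ⟨fun h => absurd (show (0 : ℕ) = 1 from st_eq h) (by decide),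
      fun h => by cases h⟩
  | B7 c' =>
    exact ⟨fun h => absurd (show (0 : ℕ) = 2 from st_eq h) (by decide),
      fun h => by cases h⟩
  | B8 b' =>
    exact ⟨fun h => absurd (show (0 : ℕ) = 3 from st_eq h) (by decide),
      fun h => by cases h⟩
  | B9 d' =>
    exact ⟨fun h => absurd (show (0 : ℕ) = 3 from st_eq h) (by decide),
      fun h => by cases h⟩
  | B10 =>
    exact ⟨fun h => absurd (show (0 : ℕ) = 3 from st_eq h) (by decide),
      fun h => by cases h⟩
  | B11 c' e' =>
    exact ⟨fun h => absurd (show (0 : ℕ) = 3 from st_eq h) (by decide),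
      fun h => by cases h⟩
  | C1 a' b' =>
    exact ⟨fun h => absurd (show (0 : ℕ) = 4 from st_eq h) (by decide),
      fun h => by cases h⟩
  | C2 a' =>
    exact ⟨fun h => absurd (show (0 : ℕ) = 5 from st_eq h) (by decide),
      fun h => by cases h⟩
  | C3 a' g' =>
    exact ⟨fun h => absurd (show (0 : ℕ) = 5 from st_eq h) (by decide),
      fun h => by cases h⟩
  | C4 d' =>
    exact ⟨fun h => absurd (show (0 : ℕ) = 5 from st_eq h) (by decide),
      fun h => by cases h⟩
  | C5 g' =>
    exact ⟨fun h => absurd (show (0 : ℕ) = 6 from st_eq h) (by decide),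
      fun h => by cases h⟩
  | C6 g' =>
    exact ⟨fun h => absurd (show (0 : ℕ) = 6 from st_eq h) (by decide),
      fun h => by cases h⟩
  | C7 =>
    exact ⟨fun h => absurd (show (0 : ℕ) = 6 from st_eq h) (by decide),
      fun h => by cases h⟩
  | C8 d' =>
    exact ⟨fun h => absurd (show (0 : ℕ) = 6 from st_eq h) (by decide),
      fun h => by cases h⟩
  | C9 =>
    exact ⟨fun h => absurd (show (0 : ℕ) = 6 from st_eq h) (by decide),
      fun h => by cases h⟩
  | C10 =>
    exact ⟨fun h => absurd (show (0 : ℕ) = 7 from st_eq h) (by decide),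
      fun h => by cases h⟩
  | C11 d' =>
    exact ⟨fun h => absurd (show (0 : ℕ) = 7 from st_eq h) (by decide),
      fun h => by cases h⟩
  | D1 a' b' =>
    exact ⟨fun h => absurd (show (0 : ℕ) = 8 from st_eq h) (by decide),
      fun h => by cases h⟩
  | D2 a' =>
    exact ⟨fun h => absurd (show (0 : ℕ) = 8 from st_eq h) (by decide),
      fun h => by cases h⟩
  | E1 =>
    exact ⟨fun h => absurd (show (0 : ℕ) = 8 from st_eq h) (by decide),
      fun h => by cases h⟩

theorem iff_A7 (n' : NF k) :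
    Conj (character (NF.pair (.A7 : NF k))) (character n'.pair) ↔ NF.Rule .A7 n' := by
  cases n' with
  | A1 b' c' =>
    rw [pair_A7, pair_A1, conj_iff]
    exact ⟨fun h => (u_A7_A1 _ _ h).elim, fun h => by cases h⟩
  | A2 b' c' =>
    rw [pair_A7, pair_A2, conj_iff]
    exact ⟨fun h => (u_A7_A2 _ _ h).elim, fun h => by cases h⟩
  | A3 b' =>
    rw [pair_A7, pair_A3, conj_iff]
    exact ⟨fun h => (u_A7_A3 _ h).elim, fun h => by cases h⟩
  | A4 c' =>
    rw [pair_A7, pair_A4, conj_iff]
    exact ⟨fun h => (u_A7_A4 _ h).elim, fun h => by cases h⟩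
  | A5 c' =>
    rw [pair_A7, pair_A5, conj_iff]
    exact ⟨fun h => (u_A7_A5 _ h).elim, fun h => by cases h⟩
  | A6 c' =>
    rw [pair_A7, pair_A6, conj_iff]
    exact ⟨fun h => (u_A7_A6 _ h).elim, fun h => by cases h⟩
  | A7 =>
    rw [pair_A7, conj_iff, r_A7]
    exact ⟨u_A7_A7 , c_A7 ⟩
  | B1 l' c' =>
    exact ⟨fun h => absurd (show (0 : ℕ) = 1 from st_eq h) (by decide),
      fun h => by cases h⟩
  | B2 b' c' =>
    exact ⟨fun h => absurd (show (0 : ℕ) = 1 from st_eq h) (by decide),
      fun h => by cases h⟩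
  | B3 b' =>
    exact ⟨fun h => absurd (show (0 : ℕ) = 1 from st_eq h) (by decide),
      fun h => by cases h⟩
  | B4 d' =>
    exact ⟨fun h => absurd (show (0 : ℕ) = 1 from st_eq h) (by decide),
      fun h => by cases h⟩
  | B5 =>
    exact ⟨fun h => absurd (show (0 : ℕ) = 1 from st_eq h) (by decide),
      fun h => by cases h⟩
  | B6 =>
    exact ⟨fun h => absurd (show (0 : ℕ) = 1 from st_eq h) (by decide),
      fun h => by cases h⟩
  | B7 c' =>
    exact ⟨fun h => absurd (show (0 : ℕ) = 2 from st_eq h) (by decide),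
      fun h => by cases h⟩
  | B8 b' =>
    exact ⟨fun h => absurd (show (0 : ℕ) = 3 from st_eq h) (by decide),
      fun h => by cases h⟩
  | B9 d' =>
    exact ⟨fun h => absurd (show (0 : ℕ) = 3 from st_eq h) (by decide),
      fun h => by cases h⟩
  | B10 =>
    exact ⟨fun h => absurd (show (0 : ℕ) = 3 from st_eq h) (by decide),
      fun h => by cases h⟩
  | B11 c' e' =>
    exact ⟨fun h => absurd (show (0 : ℕ) = 3 from st_eq h) (by decide),
      fun h => by cases h⟩
  | C1 a' b' =>
    exact ⟨fun h => absurd (show (0 : ℕ) = 4 from st_eq h) (by decide),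
      fun h => by cases h⟩
  | C2 a' =>
    exact ⟨fun h => absurd (show (0 : ℕ) = 5 from st_eq h) (by decide),
      fun h => by cases h⟩
  | C3 a' g' =>
    exact ⟨fun h => absurd (show (0 : ℕ) = 5 from st_eq h) (by decide),
      fun h => by cases h⟩
  | C4 d' =>
    exact ⟨fun h => absurd (show (0 : ℕ) = 5 from st_eq h) (by decide),
      fun h => by cases h⟩
  | C5 g' =>
    exact ⟨fun h => absurd (show (0 : ℕ) = 6 from st_eq h) (by decide),
      fun h => by cases h⟩
  | C6 g' =>
    exact ⟨fun h => absurd (show (0 : ℕ) = 6 from st_eq h) (by decide),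
      fun h => by cases h⟩
  | C7 =>
    exact ⟨fun h => absurd (show (0 : ℕ) = 6 from st_eq h) (by decide),
      fun h => by cases h⟩
  | C8 d' =>
    exact ⟨fun h => absurd (show (0 : ℕ) = 6 from st_eq h) (by decide),
      fun h => by cases h⟩
  | C9 =>
    exact ⟨fun h => absurd (show (0 : ℕ) = 6 from st_eq h) (by decide),
      fun h => by cases h⟩
  | C10 =>
    exact ⟨fun h => absurd (show (0 : ℕ) = 7 from st_eq h) (by decide),
      fun h => by cases h⟩
  | C11 d' =>
    exact ⟨fun h => absurd (show (0 : ℕ) = 7 from st_eq h) (by decide),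
      fun h => by cases h⟩
  | D1 a' b' =>
    exact ⟨fun h => absurd (show (0 : ℕ) = 8 from st_eq h) (by decide),
      fun h => by cases h⟩
  | D2 a' =>
    exact ⟨fun h => absurd (show (0 : ℕ) = 8 from st_eq h) (by decide),
      fun h => by cases h⟩
  | E1 =>
    exact ⟨fun h => absurd (show (0 : ℕ) = 8 from st_eq h) (by decide),
      fun h => by cases h⟩

theorem iff_B1 (l c : k) (n' : NF k) :
    Conj (character (NF.pair ((.B1 l c) : NF k))) (character n'.pair) ↔ NF.Rule (.B1 l c) n' := by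
  cases n' with
  | A1 b' c' =>
    exact ⟨fun h => absurd (show (1 : ℕ) = 0 from st_eq h) (by decide),
      fun h => by rcases h with h | ⟨_, h⟩ <;> cases h⟩
  | A2 b' c' =>
    exact ⟨fun h => absurd (show (1 : ℕ) = 0 from st_eq h) (by decide),
      fun h => by rcases h with h | ⟨_, h⟩ <;> cases h⟩
  | A3 b' =>
    exact ⟨fun h => absurd (show (1 : ℕ) = 0 from st_eq h) (by decide),
      fun h => by rcases h with h | ⟨_, h⟩ <;> cases h⟩
  | A4 c' =>
    exact ⟨fun h => absurd (show (1 : ℕ) = 0 from st_eq h) (by decide),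
      fun h => by rcases h with h | ⟨_, h⟩ <;> cases h⟩
  | A5 c' =>
    exact ⟨fun h => absurd (show (1 : ℕ) = 0 from st_eq h) (by decide),
      fun h => by rcases h with h | ⟨_, h⟩ <;> cases h⟩
  | A6 c' =>
    exact ⟨fun h => absurd (show (1 : ℕ) = 0 from st_eq h) (by decide),
      fun h => by rcases h with h | ⟨_, h⟩ <;> cases h⟩
  | A7 =>
    exact ⟨fun h => absurd (show (1 : ℕ) = 0 from st_eq h) (by decide),
      fun h => by rcases h with h | ⟨_, h⟩ <;> cases h⟩
  | B1 l' c' =>
    rw [pair_B1, pair_B1, conj_iff, r_B1]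
    exact ⟨u_B1_B1 _ _ _ _, c_B1 _ _ _ _⟩
  | B2 b' c' =>
    rw [pair_B1, pair_B2, conj_iff]
    exact ⟨fun h => (u_B1_B2 _ _ _ _ h).elim, fun h => by rcases h with h | ⟨_, h⟩ <;> cases h⟩
  | B3 b' =>
    rw [pair_B1, pair_B3, conj_iff]
    exact ⟨fun h => (u_B1_B3 _ _ _ h).elim, fun h => by rcases h with h | ⟨_, h⟩ <;> cases h⟩
  | B4 d' =>
    rw [pair_B1, pair_B4, conj_iff]
    exact ⟨fun h => (u_B1_B4 _ _ _ h).elim, fun h => by rcases h with h | ⟨_, h⟩ <;> cases h⟩
  | B5 =>
    rw [pair_B1, pair_B5, conj_iff]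
    exact ⟨fun h => (u_B1_B5 _ _ h).elim, fun h => by rcases h with h | ⟨_, h⟩ <;> cases h⟩
  | B6 =>
    rw [pair_B1, pair_B6, conj_iff]
    exact ⟨fun h => (u_B1_B6 _ _ h).elim, fun h => by rcases h with h | ⟨_, h⟩ <;> cases h⟩
  | B7 c' =>
    exact ⟨fun h => absurd (show (1 : ℕ) = 2 from st_eq h) (by decide),
      fun h => by rcases h with h | ⟨_, h⟩ <;> cases h⟩
  | B8 b' =>
    exact ⟨fun h => absurd (show (1 : ℕ) = 3 from st_eq h) (by decide),
      fun h => by rcases h with h | ⟨_, h⟩ <;> cases h⟩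
  | B9 d' =>
    exact ⟨fun h => absurd (show (1 : ℕ) = 3 from st_eq h) (by decide),
      fun h => by rcases h with h | ⟨_, h⟩ <;> cases h⟩
  | B10 =>
    exact ⟨fun h => absurd (show (1 : ℕ) = 3 from st_eq h) (by decide),
      fun h => by rcases h with h | ⟨_, h⟩ <;> cases h⟩
  | B11 c' e' =>
    exact ⟨fun h => absurd (show (1 : ℕ) = 3 from st_eq h) (by decide),
      fun h => by rcases h with h | ⟨_, h⟩ <;> cases h⟩
  | C1 a' b' =>
    exact ⟨fun h => absurd (show (1 : ℕ) = 4 from st_eq h) (by decide),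
      fun h => by rcases h with h | ⟨_, h⟩ <;> cases h⟩
  | C2 a' =>
    exact ⟨fun h => absurd (show (1 : ℕ) = 5 from st_eq h) (by decide),
      fun h => by rcases h with h | ⟨_, h⟩ <;> cases h⟩
  | C3 a' g' =>
    exact ⟨fun h => absurd (show (1 : ℕ) = 5 from st_eq h) (by decide),
      fun h => by rcases h with h | ⟨_, h⟩ <;> cases h⟩
  | C4 d' =>
    exact ⟨fun h => absurd (show (1 : ℕ) = 5 from st_eq h) (by decide),
      fun h => by rcases h with h | ⟨_, h⟩ <;> cases h⟩
  | C5 g' =>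
    exact ⟨fun h => absurd (show (1 : ℕ) = 6 from st_eq h) (by decide),
      fun h => by rcases h with h | ⟨_, h⟩ <;> cases h⟩
  | C6 g' =>
    exact ⟨fun h => absurd (show (1 : ℕ) = 6 from st_eq h) (by decide),
      fun h => by rcases h with h | ⟨_, h⟩ <;> cases h⟩
  | C7 =>
    exact ⟨fun h => absurd (show (1 : ℕ) = 6 from st_eq h) (by decide),
      fun h => by rcases h with h | ⟨_, h⟩ <;> cases h⟩
  | C8 d' =>
    exact ⟨fun h => absurd (show (1 : ℕ) = 6 from st_eq h) (by decide),
      fun h => by rcases h with h | ⟨_, h⟩ <;> cases h⟩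
  | C9 =>
    exact ⟨fun h => absurd (show (1 : ℕ) = 6 from st_eq h) (by decide),
      fun h => by rcases h with h | ⟨_, h⟩ <;> cases h⟩
  | C10 =>
    exact ⟨fun h => absurd (show (1 : ℕ) = 7 from st_eq h) (by decide),
      fun h => by rcases h with h | ⟨_, h⟩ <;> cases h⟩
  | C11 d' =>
    exact ⟨fun h => absurd (show (1 : ℕ) = 7 from st_eq h) (by decide),
      fun h => by rcases h with h | ⟨_, h⟩ <;> cases h⟩
  | D1 a' b' =>
    exact ⟨fun h => absurd (show (1 : ℕ) = 8 from st_eq h) (by decide),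
      fun h => by rcases h with h | ⟨_, h⟩ <;> cases h⟩
  | D2 a' =>
    exact ⟨fun h => absurd (show (1 : ℕ) = 8 from st_eq h) (by decide),
      fun h => by rcases h with h | ⟨_, h⟩ <;> cases h⟩
  | E1 =>
    exact ⟨fun h => absurd (show (1 : ℕ) = 8 from st_eq h) (by decide),
      fun h => by rcases h with h | ⟨_, h⟩ <;> cases h⟩

theorem iff_B2 (b c : k) (n' : NF k) :
    Conj (character (NF.pair ((.B2 b c) : NF k))) (character n'.pair) ↔ NF.Rule (.B2 b c) n' := by
  cases n' with
  | A1 b' c' =>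
    exact ⟨fun h => absurd (show (1 : ℕ) = 0 from st_eq h) (by decide),
      fun h => by rcases h with h | ⟨_, h⟩ <;> cases h⟩
  | A2 b' c' =>
    exact ⟨fun h => absurd (show (1 : ℕ) = 0 from st_eq h) (by decide),
      fun h => by rcases h with h | ⟨_, h⟩ <;> cases h⟩
  | A3 b' =>
    exact ⟨fun h => absurd (show (1 : ℕ) = 0 from st_eq h) (by decide),
      fun h => by rcases h with h | ⟨_, h⟩ <;> cases h⟩
  | A4 c' =>
    exact ⟨fun h => absurd (show (1 : ℕ) = 0 from st_eq h) (by decide),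
      fun h => by rcases h with h | ⟨_, h⟩ <;> cases h⟩
  | A5 c' =>
    exact ⟨fun h => absurd (show (1 : ℕ) = 0 from st_eq h) (by decide),
      fun h => by rcases h with h | ⟨_, h⟩ <;> cases h⟩
  | A6 c' =>
    exact ⟨fun h => absurd (show (1 : ℕ) = 0 from st_eq h) (by decide),
      fun h => by rcases h with h | ⟨_, h⟩ <;> cases h⟩
  | A7 =>
    exact ⟨fun h => absurd (show (1 : ℕ) = 0 from st_eq h) (by decide),
      fun h => by rcases h with h | ⟨_, h⟩ <;> cases h⟩
  | B1 l' c' =>
    rw [pair_B2, pair_B1, conj_iff]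
    exact ⟨fun h => (u_B2_B1 _ _ _ _ h).elim, fun h => by rcases h with h | ⟨_, h⟩ <;> cases h⟩
  | B2 b' c' =>
    rw [pair_B2, pair_B2, conj_iff, r_B2]
    exact ⟨u_B2_B2 _ _ _ _, c_B2 _ _ _ _⟩
  | B3 b' =>
    rw [pair_B2, pair_B3, conj_iff]
    exact ⟨fun h => (u_B2_B3 _ _ _ h).elim, fun h => by rcases h with h | ⟨_, h⟩ <;> cases h⟩
  | B4 d' =>
    rw [pair_B2, pair_B4, conj_iff]
    exact ⟨fun h => (u_B2_B4 _ _ _ h).elim, fun h => by rcases h with h | ⟨_, h⟩ <;> cases h⟩
  | B5 =>
    rw [pair_B2, pair_B5, conj_iff]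
    exact ⟨fun h => (u_B2_B5 _ _ h).elim, fun h => by rcases h with h | ⟨_, h⟩ <;> cases h⟩
  | B6 =>
    rw [pair_B2, pair_B6, conj_iff]
    exact ⟨fun h => (u_B2_B6 _ _ h).elim, fun h => by rcases h with h | ⟨_, h⟩ <;> cases h⟩
  | B7 c' =>
    exact ⟨fun h => absurd (show (1 : ℕ) = 2 from st_eq h) (by decide),
      fun h => by rcases h with h | ⟨_, h⟩ <;> cases h⟩
  | B8 b' =>
    exact ⟨fun h => absurd (show (1 : ℕ) = 3 from st_eq h) (by decide),
      fun h => by rcases h with h | ⟨_, h⟩ <;> cases h⟩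
  | B9 d' =>
    exact ⟨fun h => absurd (show (1 : ℕ) = 3 from st_eq h) (by decide),
      fun h => by rcases h with h | ⟨_, h⟩ <;> cases h⟩
  | B10 =>
    exact ⟨fun h => absurd (show (1 : ℕ) = 3 from st_eq h) (by decide),
      fun h => by rcases h with h | ⟨_, h⟩ <;> cases h⟩
  | B11 c' e' =>
    exact ⟨fun h => absurd (show (1 : ℕ) = 3 from st_eq h) (by decide),
      fun h => by rcases h with h | ⟨_, h⟩ <;> cases h⟩
  | C1 a' b' =>
    exact ⟨fun h => absurd (show (1 : ℕ) = 4 from st_eq h) (by decide),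
      fun h => by rcases h with h | ⟨_, h⟩ <;> cases h⟩
  | C2 a' =>
    exact ⟨fun h => absurd (show (1 : ℕ) = 5 from st_eq h) (by decide),
      fun h => by rcases h with h | ⟨_, h⟩ <;> cases h⟩
  | C3 a' g' =>
    exact ⟨fun h => absurd (show (1 : ℕ) = 5 from st_eq h) (by decide),
      fun h => by rcases h with h | ⟨_, h⟩ <;> cases h⟩
  | C4 d' =>
    exact ⟨fun h => absurd (show (1 : ℕ) = 5 from st_eq h) (by decide),
      fun h => by rcases h with h | ⟨_, h⟩ <;> cases h⟩
  | C5 g' =>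
    exact ⟨fun h => absurd (show (1 : ℕ) = 6 from st_eq h) (by decide),
      fun h => by rcases h with h | ⟨_, h⟩ <;> cases h⟩
  | C6 g' =>
    exact ⟨fun h => absurd (show (1 : ℕ) = 6 from st_eq h) (by decide),
      fun h => by rcases h with h | ⟨_, h⟩ <;> cases h⟩
  | C7 =>
    exact ⟨fun h => absurd (show (1 : ℕ) = 6 from st_eq h) (by decide),
      fun h => by rcases h with h | ⟨_, h⟩ <;> cases h⟩
  | C8 d' =>
    exact ⟨fun h => absurd (show (1 : ℕ) = 6 from st_eq h) (by decide),
      fun h => by rcases h with h | ⟨_, h⟩ <;> cases h⟩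
  | C9 =>
    exact ⟨fun h => absurd (show (1 : ℕ) = 6 from st_eq h) (by decide),
      fun h => by rcases h with h | ⟨_, h⟩ <;> cases h⟩
  | C10 =>
    exact ⟨fun h => absurd (show (1 : ℕ) = 7 from st_eq h) (by decide),
      fun h => by rcases h with h | ⟨_, h⟩ <;> cases h⟩
  | C11 d' =>
    exact ⟨fun h => absurd (show (1 : ℕ) = 7 from st_eq h) (by decide),
      fun h => by rcases h with h | ⟨_, h⟩ <;> cases h⟩
  | D1 a' b' =>
    exact ⟨fun h => absurd (show (1 : ℕ) = 8 from st_eq h) (by decide),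
      fun h => by rcases h with h | ⟨_, h⟩ <;> cases h⟩
  | D2 a' =>
    exact ⟨fun h => absurd (show (1 : ℕ) = 8 from st_eq h) (by decide),
      fun h => by rcases h with h | ⟨_, h⟩ <;> cases h⟩
  | E1 =>
    exact ⟨fun h => absurd (show (1 : ℕ) = 8 from st_eq h) (by decide),
      fun h => by rcases h with h | ⟨_, h⟩ <;> cases h⟩

theorem iff_B3 (b : k) (n' : NF k) :
    Conj (character (NF.pair ((.B3 b) : NF k))) (character n'.pair) ↔ NF.Rule (.B3 b) n' := by
  cases n' with
  | A1 b' c' =>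
    exact ⟨fun h => absurd (show (1 : ℕ) = 0 from st_eq h) (by decide),
      fun h => by cases h⟩
  | A2 b' c' =>
    exact ⟨fun h => absurd (show (1 : ℕ) = 0 from st_eq h) (by decide),
      fun h => by cases h⟩
  | A3 b' =>
    exact ⟨fun h => absurd (show (1 : ℕ) = 0 from st_eq h) (by decide),
      fun h => by cases h⟩
  | A4 c' =>
    exact ⟨fun h => absurd (show (1 : ℕ) = 0 from st_eq h) (by decide),
      fun h => by cases h⟩
  | A5 c' =>
    exact ⟨fun h => absurd (show (1 : ℕ) = 0 from st_eq h) (by decide),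
      fun h => by cases h⟩
  | A6 c' =>
    exact ⟨fun h => absurd (show (1 : ℕ) = 0 from st_eq h) (by decide),
      fun h => by cases h⟩
  | A7 =>
    exact ⟨fun h => absurd (show (1 : ℕ) = 0 from st_eq h) (by decide),
      fun h => by cases h⟩
  | B1 l' c' =>
    rw [pair_B3, pair_B1, conj_iff]
    exact ⟨fun h => (u_B3_B1 _ _ _ h).elim, fun h => by cases h⟩
  | B2 b' c' =>
    rw [pair_B3, pair_B2, conj_iff]
    exact ⟨fun h => (u_B3_B2 _ _ _ h).elim, fun h => by cases h⟩
  | B3 b' =>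
    rw [pair_B3, pair_B3, conj_iff, r_B3]
    exact ⟨u_B3_B3 _ _, c_B3 _ _⟩
  | B4 d' =>
    rw [pair_B3, pair_B4, conj_iff]
    exact ⟨fun h => (u_B3_B4 _ _ h).elim, fun h => by cases h⟩
  | B5 =>
    rw [pair_B3, pair_B5, conj_iff]
    exact ⟨fun h => (u_B3_B5 _ h).elim, fun h => by cases h⟩
  | B6 =>
    rw [pair_B3, pair_B6, conj_iff]
    exact ⟨fun h => (u_B3_B6 _ h).elim, fun h => by cases h⟩
  | B7 c' =>
    exact ⟨fun h => absurd (show (1 : ℕ) = 2 from st_eq h) (by decide),
      fun h => by cases h⟩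
  | B8 b' =>
    exact ⟨fun h => absurd (show (1 : ℕ) = 3 from st_eq h) (by decide),
      fun h => by cases h⟩
  | B9 d' =>
    exact ⟨fun h => absurd (show (1 : ℕ) = 3 from st_eq h) (by decide),
      fun h => by cases h⟩
  | B10 =>
    exact ⟨fun h => absurd (show (1 : ℕ) = 3 from st_eq h) (by decide),
      fun h => by cases h⟩
  | B11 c' e' =>
    exact ⟨fun h => absurd (show (1 : ℕ) = 3 from st_eq h) (by decide),
      fun h => by cases h⟩
  | C1 a' b' =>
    exact ⟨fun h => absurd (show (1 : ℕ) = 4 from st_eq h) (by decide),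
      fun h => by cases h⟩
  | C2 a' =>
    exact ⟨fun h => absurd (show (1 : ℕ) = 5 from st_eq h) (by decide),
      fun h => by cases h⟩
  | C3 a' g' =>
    exact ⟨fun h => absurd (show (1 : ℕ) = 5 from st_eq h) (by decide),
      fun h => by cases h⟩
  | C4 d' =>
    exact ⟨fun h => absurd (show (1 : ℕ) = 5 from st_eq h) (by decide),
      fun h => by cases h⟩
  | C5 g' =>
    exact ⟨fun h => absurd (show (1 : ℕ) = 6 from st_eq h) (by decide),
      fun h => by cases h⟩
  | C6 g' =>
    exact ⟨fun h => absurd (show (1 : ℕ) = 6 from st_eq h) (by decide),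
      fun h => by cases h⟩
  | C7 =>
    exact ⟨fun h => absurd (show (1 : ℕ) = 6 from st_eq h) (by decide),
      fun h => by cases h⟩
  | C8 d' =>
    exact ⟨fun h => absurd (show (1 : ℕ) = 6 from st_eq h) (by decide),
      fun h => by cases h⟩
  | C9 =>
    exact ⟨fun h => absurd (show (1 : ℕ) = 6 from st_eq h) (by decide),
      fun h => by cases h⟩
  | C10 =>
    exact ⟨fun h => absurd (show (1 : ℕ) = 7 from st_eq h) (by decide),
      fun h => by cases h⟩
  | C11 d' =>
    exact ⟨fun h => absurd (show (1 : ℕ) = 7 from st_eq h) (by decide),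
      fun h => by cases h⟩
  | D1 a' b' =>
    exact ⟨fun h => absurd (show (1 : ℕ) = 8 from st_eq h) (by decide),
      fun h => by cases h⟩
  | D2 a' =>
    exact ⟨fun h => absurd (show (1 : ℕ) = 8 from st_eq h) (by decide),
      fun h => by cases h⟩
  | E1 =>
    exact ⟨fun h => absurd (show (1 : ℕ) = 8 from st_eq h) (by decide),
      fun h => by cases h⟩

theorem iff_B4 (d : k) (n' : NF k) :
    Conj (character (NF.pair ((.B4 d) : NF k))) (character n'.pair) ↔ NF.Rule (.B4 d) n' := by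
  cases n' with
  | A1 b' c' =>
    exact ⟨fun h => absurd (show (1 : ℕ) = 0 from st_eq h) (by decide),
      fun h => by cases h⟩
  | A2 b' c' =>
    exact ⟨fun h => absurd (show (1 : ℕ) = 0 from st_eq h) (by decide),
      fun h => by cases h⟩
  | A3 b' =>
    exact ⟨fun h => absurd (show (1 : ℕ) = 0 from st_eq h) (by decide),
      fun h => by cases h⟩
  | A4 c' =>
    exact ⟨fun h => absurd (show (1 : ℕ) = 0 from st_eq h) (by decide),
      fun h => by cases h⟩
  | A5 c' =>
    exact ⟨fun h => absurd (show (1 : ℕ) = 0 from st_eq h) (by decide),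
      fun h => by cases h⟩
  | A6 c' =>
    exact ⟨fun h => absurd (show (1 : ℕ) = 0 from st_eq h) (by decide),
      fun h => by cases h⟩
  | A7 =>
    exact ⟨fun h => absurd (show (1 : ℕ) = 0 from st_eq h) (by decide),
      fun h => by cases h⟩
  | B1 l' c' =>
    rw [pair_B4, pair_B1, conj_iff]
    exact ⟨fun h => (u_B4_B1 _ _ _ h).elim, fun h => by cases h⟩
  | B2 b' c' =>
    rw [pair_B4, pair_B2, conj_iff]
    exact ⟨fun h => (u_B4_B2 _ _ _ h).elim, fun h => by cases h⟩
  | B3 b' =>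
    rw [pair_B4, pair_B3, conj_iff]
    exact ⟨fun h => (u_B4_B3 _ _ h).elim, fun h => by cases h⟩
  | B4 d' =>
    rw [pair_B4, pair_B4, conj_iff, r_B4]
    exact ⟨u_B4_B4 _ _, c_B4 _ _⟩
  | B5 =>
    rw [pair_B4, pair_B5, conj_iff]
    exact ⟨fun h => (u_B4_B5 _ h).elim, fun h => by cases h⟩
  | B6 =>
    rw [pair_B4, pair_B6, conj_iff]
    exact ⟨fun h => (u_B4_B6 _ h).elim, fun h => by cases h⟩
  | B7 c' =>
    exact ⟨fun h => absurd (show (1 : ℕ) = 2 from st_eq h) (by decide),
      fun h => by cases h⟩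
  | B8 b' =>
    exact ⟨fun h => absurd (show (1 : ℕ) = 3 from st_eq h) (by decide),
      fun h => by cases h⟩
  | B9 d' =>
    exact ⟨fun h => absurd (show (1 : ℕ) = 3 from st_eq h) (by decide),
      fun h => by cases h⟩
  | B10 =>
    exact ⟨fun h => absurd (show (1 : ℕ) = 3 from st_eq h) (by decide),
      fun h => by cases h⟩
  | B11 c' e' =>
    exact ⟨fun h => absurd (show (1 : ℕ) = 3 from st_eq h) (by decide),
      fun h => by cases h⟩
  | C1 a' b' =>
    exact ⟨fun h => absurd (show (1 : ℕ) = 4 from st_eq h) (by decide),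
      fun h => by cases h⟩
  | C2 a' =>
    exact ⟨fun h => absurd (show (1 : ℕ) = 5 from st_eq h) (by decide),
      fun h => by cases h⟩
  | C3 a' g' =>
    exact ⟨fun h => absurd (show (1 : ℕ) = 5 from st_eq h) (by decide),
      fun h => by cases h⟩
  | C4 d' =>
    exact ⟨fun h => absurd (show (1 : ℕ) = 5 from st_eq h) (by decide),
      fun h => by cases h⟩
  | C5 g' =>
    exact ⟨fun h => absurd (show (1 : ℕ) = 6 from st_eq h) (by decide),
      fun h => by cases h⟩
  | C6 g' =>
    exact ⟨fun h => absurd (show (1 : ℕ) = 6 from st_eq h) (by decide),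
      fun h => by cases h⟩
  | C7 =>
    exact ⟨fun h => absurd (show (1 : ℕ) = 6 from st_eq h) (by decide),
      fun h => by cases h⟩
  | C8 d' =>
    exact ⟨fun h => absurd (show (1 : ℕ) = 6 from st_eq h) (by decide),
      fun h => by cases h⟩
  | C9 =>
    exact ⟨fun h => absurd (show (1 : ℕ) = 6 from st_eq h) (by decide),
      fun h => by cases h⟩
  | C10 =>
    exact ⟨fun h => absurd (show (1 : ℕ) = 7 from st_eq h) (by decide),
      fun h => by cases h⟩
  | C11 d' =>
    exact ⟨fun h => absurd (show (1 : ℕ) = 7 from st_eq h) (by decide),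
      fun h => by cases h⟩
  | D1 a' b' =>
    exact ⟨fun h => absurd (show (1 : ℕ) = 8 from st_eq h) (by decide),
      fun h => by cases h⟩
  | D2 a' =>
    exact ⟨fun h => absurd (show (1 : ℕ) = 8 from st_eq h) (by decide),
      fun h => by cases h⟩
  | E1 =>
    exact ⟨fun h => absurd (show (1 : ℕ) = 8 from st_eq h) (by decide),
      fun h => by cases h⟩

theorem iff_B5 (n' : NF k) :
    Conj (character (NF.pair (.B5 : NF k))) (character n'.pair) ↔ NF.Rule .B5 n' := by
  cases n' with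
  | A1 b' c' =>
    exact ⟨fun h => absurd (show (1 : ℕ) = 0 from st_eq h) (by decide),
      fun h => by cases h⟩
  | A2 b' c' =>
    exact ⟨fun h => absurd (show (1 : ℕ) = 0 from st_eq h) (by decide),
      fun h => by cases h⟩
  | A3 b' =>
    exact ⟨fun h => absurd (show (1 : ℕ) = 0 from st_eq h) (by decide),
      fun h => by cases h⟩
  | A4 c' =>
    exact ⟨fun h => absurd (show (1 : ℕ) = 0 from st_eq h) (by decide),
      fun h => by cases h⟩
  | A5 c' =>
    exact ⟨fun h => absurd (show (1 : ℕ) = 0 from st_eq h) (by decide),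
      fun h => by cases h⟩
  | A6 c' =>
    exact ⟨fun h => absurd (show (1 : ℕ) = 0 from st_eq h) (by decide),
      fun h => by cases h⟩
  | A7 =>
    exact ⟨fun h => absurd (show (1 : ℕ) = 0 from st_eq h) (by decide),
      fun h => by cases h⟩
  | B1 l' c' =>
    rw [pair_B5, pair_B1, conj_iff]
    exact ⟨fun h => (u_B5_B1 _ _ h).elim, fun h => by cases h⟩
  | B2 b' c' =>
    rw [pair_B5, pair_B2, conj_iff]
    exact ⟨fun h => (u_B5_B2 _ _ h).elim, fun h => by cases h⟩
  | B3 b' =>
    rw [pair_B5, pair_B3, conj_iff]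
    exact ⟨fun h => (u_B5_B3 _ h).elim, fun h => by cases h⟩
  | B4 d' =>
    rw [pair_B5, pair_B4, conj_iff]
    exact ⟨fun h => (u_B5_B4 _ h).elim, fun h => by cases h⟩
  | B5 =>
    rw [pair_B5, conj_iff, r_B5]
    exact ⟨u_B5_B5 , c_B5 ⟩
  | B6 =>
    rw [pair_B5, pair_B6, conj_iff]
    exact ⟨fun h => (u_B5_B6  h).elim, fun h => by cases h⟩
  | B7 c' =>
    exact ⟨fun h => absurd (show (1 : ℕ) = 2 from st_eq h) (by decide),
      fun h => by cases h⟩
  | B8 b' =>
    exact ⟨fun h => absurd (show (1 : ℕ) = 3 from st_eq h) (by decide),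
      fun h => by cases h⟩
  | B9 d' =>
    exact ⟨fun h => absurd (show (1 : ℕ) = 3 from st_eq h) (by decide),
      fun h => by cases h⟩
  | B10 =>
    exact ⟨fun h => absurd (show (1 : ℕ) = 3 from st_eq h) (by decide),
      fun h => by cases h⟩
  | B11 c' e' =>
    exact ⟨fun h => absurd (show (1 : ℕ) = 3 from st_eq h) (by decide),
      fun h => by cases h⟩
  | C1 a' b' =>
    exact ⟨fun h => absurd (show (1 : ℕ) = 4 from st_eq h) (by decide),
      fun h => by cases h⟩
  | C2 a' =>
    exact ⟨fun h => absurd (show (1 : ℕ) = 5 from st_eq h) (by decide),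
      fun h => by cases h⟩
  | C3 a' g' =>
    exact ⟨fun h => absurd (show (1 : ℕ) = 5 from st_eq h) (by decide),
      fun h => by cases h⟩
  | C4 d' =>
    exact ⟨fun h => absurd (show (1 : ℕ) = 5 from st_eq h) (by decide),
      fun h => by cases h⟩
  | C5 g' =>
    exact ⟨fun h => absurd (show (1 : ℕ) = 6 from st_eq h) (by decide),
      fun h => by cases h⟩
  | C6 g' =>
    exact ⟨fun h => absurd (show (1 : ℕ) = 6 from st_eq h) (by decide),
      fun h => by cases h⟩
  | C7 =>
    exact ⟨fun h => absurd (show (1 : ℕ) = 6 from st_eq h) (by decide),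
      fun h => by cases h⟩
  | C8 d' =>
    exact ⟨fun h => absurd (show (1 : ℕ) = 6 from st_eq h) (by decide),
      fun h => by cases h⟩
  | C9 =>
    exact ⟨fun h => absurd (show (1 : ℕ) = 6 from st_eq h) (by decide),
      fun h => by cases h⟩
  | C10 =>
    exact ⟨fun h => absurd (show (1 : ℕ) = 7 from st_eq h) (by decide),
      fun h => by cases h⟩
  | C11 d' =>
    exact ⟨fun h => absurd (show (1 : ℕ) = 7 from st_eq h) (by decide),
      fun h => by cases h⟩
  | D1 a' b' =>
    exact ⟨fun h => absurd (show (1 : ℕ) = 8 from st_eq h) (by decide),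
      fun h => by cases h⟩
  | D2 a' =>
    exact ⟨fun h => absurd (show (1 : ℕ) = 8 from st_eq h) (by decide),
      fun h => by cases h⟩
  | E1 =>
    exact ⟨fun h => absurd (show (1 : ℕ) = 8 from st_eq h) (by decide),
      fun h => by cases h⟩

theorem iff_B6 (n' : NF k) :
    Conj (character (NF.pair (.B6 : NF k))) (character n'.pair) ↔ NF.Rule .B6 n' := by
  cases n' with
  | A1 b' c' =>
    exact ⟨fun h => absurd (show (1 : ℕ) = 0 from st_eq h) (by decide),
      fun h => by cases h⟩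
  | A2 b' c' =>
    exact ⟨fun h => absurd (show (1 : ℕ) = 0 from st_eq h) (by decide),
      fun h => by cases h⟩
  | A3 b' =>
    exact ⟨fun h => absurd (show (1 : ℕ) = 0 from st_eq h) (by decide),
      fun h => by cases h⟩
  | A4 c' =>
    exact ⟨fun h => absurd (show (1 : ℕ) = 0 from st_eq h) (by decide),
      fun h => by cases h⟩
  | A5 c' =>
    exact ⟨fun h => absurd (show (1 : ℕ) = 0 from st_eq h) (by decide),
      fun h => by cases h⟩
  | A6 c' =>
    exact ⟨fun h => absurd (show (1 : ℕ) = 0 from st_eq h) (by decide),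
      fun h => by cases h⟩
  | A7 =>
    exact ⟨fun h => absurd (show (1 : ℕ) = 0 from st_eq h) (by decide),
      fun h => by cases h⟩
  | B1 l' c' =>
    rw [pair_B6, pair_B1, conj_iff]
    exact ⟨fun h => (u_B6_B1 _ _ h).elim, fun h => by cases h⟩
  | B2 b' c' =>
    rw [pair_B6, pair_B2, conj_iff]
    exact ⟨fun h => (u_B6_B2 _ _ h).elim, fun h => by cases h⟩
  | B3 b' =>
    rw [pair_B6, pair_B3, conj_iff]
    exact ⟨fun h => (u_B6_B3 _ h).elim, fun h => by cases h⟩
  | B4 d' =>
    rw [pair_B6, pair_B4, conj_iff]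
    exact ⟨fun h => (u_B6_B4 _ h).elim, fun h => by cases h⟩
  | B5 =>
    rw [pair_B6, pair_B5, conj_iff]
    exact ⟨fun h => (u_B6_B5  h).elim, fun h => by cases h⟩
  | B6 =>
    rw [pair_B6, conj_iff, r_B6]
    exact ⟨u_B6_B6 , c_B6 ⟩
  | B7 c' =>
    exact ⟨fun h => absurd (show (1 : ℕ) = 2 from st_eq h) (by decide),
      fun h => by cases h⟩
  | B8 b' =>
    exact ⟨fun h => absurd (show (1 : ℕ) = 3 from st_eq h) (by decide),
      fun h => by cases h⟩
  | B9 d' =>
    exact ⟨fun h => absurd (show (1 : ℕ) = 3 from st_eq h) (by decide),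
      fun h => by cases h⟩
  | B10 =>
    exact ⟨fun h => absurd (show (1 : ℕ) = 3 from st_eq h) (by decide),
      fun h => by cases h⟩
  | B11 c' e' =>
    exact ⟨fun h => absurd (show (1 : ℕ) = 3 from st_eq h) (by decide),
      fun h => by cases h⟩
  | C1 a' b' =>
    exact ⟨fun h => absurd (show (1 : ℕ) = 4 from st_eq h) (by decide),
      fun h => by cases h⟩
  | C2 a' =>
    exact ⟨fun h => absurd (show (1 : ℕ) = 5 from st_eq h) (by decide),
      fun h => by cases h⟩
  | C3 a' g' =>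
    exact ⟨fun h => absurd (show (1 : ℕ) = 5 from st_eq h) (by decide),
      fun h => by cases h⟩
  | C4 d' =>
    exact ⟨fun h => absurd (show (1 : ℕ) = 5 from st_eq h) (by decide),
      fun h => by cases h⟩
  | C5 g' =>
    exact ⟨fun h => absurd (show (1 : ℕ) = 6 from st_eq h) (by decide),
      fun h => by cases h⟩
  | C6 g' =>
    exact ⟨fun h => absurd (show (1 : ℕ) = 6 from st_eq h) (by decide),
      fun h => by cases h⟩
  | C7 =>
    exact ⟨fun h => absurd (show (1 : ℕ) = 6 from st_eq h) (by decide),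
      fun h => by cases h⟩
  | C8 d' =>
    exact ⟨fun h => absurd (show (1 : ℕ) = 6 from st_eq h) (by decide),
      fun h => by cases h⟩
  | C9 =>
    exact ⟨fun h => absurd (show (1 : ℕ) = 6 from st_eq h) (by decide),
      fun h => by cases h⟩
  | C10 =>
    exact ⟨fun h => absurd (show (1 : ℕ) = 7 from st_eq h) (by decide),
      fun h => by cases h⟩
  | C11 d' =>
    exact ⟨fun h => absurd (show (1 : ℕ) = 7 from st_eq h) (by decide),
      fun h => by cases h⟩
  | D1 a' b' =>
    exact ⟨fun h => absurd (show (1 : ℕ) = 8 from st_eq h) (by decide),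
      fun h => by cases h⟩
  | D2 a' =>
    exact ⟨fun h => absurd (show (1 : ℕ) = 8 from st_eq h) (by decide),
      fun h => by cases h⟩
  | E1 =>
    exact ⟨fun h => absurd (show (1 : ℕ) = 8 from st_eq h) (by decide),
      fun h => by cases h⟩

theorem iff_B7 (c : k) (n' : NF k) :
    Conj (character (NF.pair ((.B7 c) : NF k))) (character n'.pair) ↔ NF.Rule (.B7 c) n' := by
  cases n' with
  | A1 b' c' =>
    exact ⟨fun h => absurd (show (2 : ℕ) = 0 from st_eq h) (by decide),
      fun h => by cases h⟩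
  | A2 b' c' =>
    exact ⟨fun h => absurd (show (2 : ℕ) = 0 from st_eq h) (by decide),
      fun h => by cases h⟩
  | A3 b' =>
    exact ⟨fun h => absurd (show (2 : ℕ) = 0 from st_eq h) (by decide),
      fun h => by cases h⟩
  | A4 c' =>
    exact ⟨fun h => absurd (show (2 : ℕ) = 0 from st_eq h) (by decide),
      fun h => by cases h⟩
  | A5 c' =>
    exact ⟨fun h => absurd (show (2 : ℕ) = 0 from st_eq h) (by decide),
      fun h => by cases h⟩
  | A6 c' =>
    exact ⟨fun h => absurd (show (2 : ℕ) = 0 from st_eq h) (by decide),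
      fun h => by cases h⟩
  | A7 =>
    exact ⟨fun h => absurd (show (2 : ℕ) = 0 from st_eq h) (by decide),
      fun h => by cases h⟩
  | B1 l' c' =>
    exact ⟨fun h => absurd (show (2 : ℕ) = 1 from st_eq h) (by decide),
      fun h => by cases h⟩
  | B2 b' c' =>
    exact ⟨fun h => absurd (show (2 : ℕ) = 1 from st_eq h) (by decide),
      fun h => by cases h⟩
  | B3 b' =>
    exact ⟨fun h => absurd (show (2 : ℕ) = 1 from st_eq h) (by decide),
      fun h => by cases h⟩
  | B4 d' =>
    exact ⟨fun h => absurd (show (2 : ℕ) = 1 from st_eq h) (by decide),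
      fun h => by cases h⟩
  | B5 =>
    exact ⟨fun h => absurd (show (2 : ℕ) = 1 from st_eq h) (by decide),
      fun h => by cases h⟩
  | B6 =>
    exact ⟨fun h => absurd (show (2 : ℕ) = 1 from st_eq h) (by decide),
      fun h => by cases h⟩
  | B7 c' =>
    rw [pair_B7, pair_B7, conj_iff, r_B7]
    exact ⟨u_B7_B7 _ _, c_B7 _ _⟩
  | B8 b' =>
    exact ⟨fun h => absurd (show (2 : ℕ) = 3 from st_eq h) (by decide),
      fun h => by cases h⟩
  | B9 d' =>
    exact ⟨fun h => absurd (show (2 : ℕ) = 3 from st_eq h) (by decide),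
      fun h => by cases h⟩
  | B10 =>
    exact ⟨fun h => absurd (show (2 : ℕ) = 3 from st_eq h) (by decide),
      fun h => by cases h⟩
  | B11 c' e' =>
    exact ⟨fun h => absurd (show (2 : ℕ) = 3 from st_eq h) (by decide),
      fun h => by cases h⟩
  | C1 a' b' =>
    exact ⟨fun h => absurd (show (2 : ℕ) = 4 from st_eq h) (by decide),
      fun h => by cases h⟩
  | C2 a' =>
    exact ⟨fun h => absurd (show (2 : ℕ) = 5 from st_eq h) (by decide),
      fun h => by cases h⟩
  | C3 a' g' =>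
    exact ⟨fun h => absurd (show (2 : ℕ) = 5 from st_eq h) (by decide),
      fun h => by cases h⟩
  | C4 d' =>
    exact ⟨fun h => absurd (show (2 : ℕ) = 5 from st_eq h) (by decide),
      fun h => by cases h⟩
  | C5 g' =>
    exact ⟨fun h => absurd (show (2 : ℕ) = 6 from st_eq h) (by decide),
      fun h => by cases h⟩
  | C6 g' =>
    exact ⟨fun h => absurd (show (2 : ℕ) = 6 from st_eq h) (by decide),
      fun h => by cases h⟩
  | C7 =>
    exact ⟨fun h => absurd (show (2 : ℕ) = 6 from st_eq h) (by decide),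
      fun h => by cases h⟩
  | C8 d' =>
    exact ⟨fun h => absurd (show (2 : ℕ) = 6 from st_eq h) (by decide),
      fun h => by cases h⟩
  | C9 =>
    exact ⟨fun h => absurd (show (2 : ℕ) = 6 from st_eq h) (by decide),
      fun h => by cases h⟩
  | C10 =>
    exact ⟨fun h => absurd (show (2 : ℕ) = 7 from st_eq h) (by decide),
      fun h => by cases h⟩
  | C11 d' =>
    exact ⟨fun h => absurd (show (2 : ℕ) = 7 from st_eq h) (by decide),
      fun h => by cases h⟩
  | D1 a' b' =>
    exact ⟨fun h => absurd (show (2 : ℕ) = 8 from st_eq h) (by decide),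
      fun h => by cases h⟩
  | D2 a' =>
    exact ⟨fun h => absurd (show (2 : ℕ) = 8 from st_eq h) (by decide),
      fun h => by cases h⟩
  | E1 =>
    exact ⟨fun h => absurd (show (2 : ℕ) = 8 from st_eq h) (by decide),
      fun h => by cases h⟩

theorem iff_B8 (b : k) (n' : NF k) :
    Conj (character (NF.pair ((.B8 b) : NF k))) (character n'.pair) ↔ NF.Rule (.B8 b) n' := by
  cases n' with
  | A1 b' c' =>
    exact ⟨fun h => absurd (show (3 : ℕ) = 0 from st_eq h) (by decide),
      fun h => by rcases h with ⟨_, _, h⟩ <;> cases h⟩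
  | A2 b' c' =>
    exact ⟨fun h => absurd (show (3 : ℕ) = 0 from st_eq h) (by decide),
      fun h => by rcases h with ⟨_, _, h⟩ <;> cases h⟩
  | A3 b' =>
    exact ⟨fun h => absurd (show (3 : ℕ) = 0 from st_eq h) (by decide),
      fun h => by rcases h with ⟨_, _, h⟩ <;> cases h⟩
  | A4 c' =>
    exact ⟨fun h => absurd (show (3 : ℕ) = 0 from st_eq h) (by decide),
      fun h => by rcases h with ⟨_, _, h⟩ <;> cases h⟩
  | A5 c' =>
    exact ⟨fun h => absurd (show (3 : ℕ) = 0 from st_eq h) (by decide),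
      fun h => by rcases h with ⟨_, _, h⟩ <;> cases h⟩
  | A6 c' =>
    exact ⟨fun h => absurd (show (3 : ℕ) = 0 from st_eq h) (by decide),
      fun h => by rcases h with ⟨_, _, h⟩ <;> cases h⟩
  | A7 =>
    exact ⟨fun h => absurd (show (3 : ℕ) = 0 from st_eq h) (by decide),
      fun h => by rcases h with ⟨_, _, h⟩ <;> cases h⟩
  | B1 l' c' =>
    exact ⟨fun h => absurd (show (3 : ℕ) = 1 from st_eq h) (by decide),
      fun h => by rcases h with ⟨_, _, h⟩ <;> cases h⟩
  | B2 b' c' =>
    exact ⟨fun h => absurd (show (3 : ℕ) = 1 from st_eq h) (by decide),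
      fun h => by rcases h with ⟨_, _, h⟩ <;> cases h⟩
  | B3 b' =>
    exact ⟨fun h => absurd (show (3 : ℕ) = 1 from st_eq h) (by decide),
      fun h => by rcases h with ⟨_, _, h⟩ <;> cases h⟩
  | B4 d' =>
    exact ⟨fun h => absurd (show (3 : ℕ) = 1 from st_eq h) (by decide),
      fun h => by rcases h with ⟨_, _, h⟩ <;> cases h⟩
  | B5 =>
    exact ⟨fun h => absurd (show (3 : ℕ) = 1 from st_eq h) (by decide),
      fun h => by rcases h with ⟨_, _, h⟩ <;> cases h⟩
  | B6 =>
    exact ⟨fun h => absurd (show (3 : ℕ) = 1 from st_eq h) (by decide),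
      fun h => by rcases h with ⟨_, _, h⟩ <;> cases h⟩
  | B7 c' =>
    exact ⟨fun h => absurd (show (3 : ℕ) = 2 from st_eq h) (by decide),
      fun h => by rcases h with ⟨_, _, h⟩ <;> cases h⟩
  | B8 b' =>
    rw [pair_B8, pair_B8, conj_iff, r_B8]
    exact ⟨u_B8_B8 _ _, c_B8 _ _⟩
  | B9 d' =>
    rw [pair_B8, pair_B9, conj_iff]
    exact ⟨fun h => (u_B8_B9 _ _ h).elim, fun h => by rcases h with ⟨_, _, h⟩ <;> cases h⟩
  | B10 =>
    rw [pair_B8, pair_B10, conj_iff]
    exact ⟨fun h => (u_B8_B10 _ h).elim, fun h => by rcases h with ⟨_, _, h⟩ <;> cases h⟩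
  | B11 c' e' =>
    rw [pair_B8, pair_B11, conj_iff]
    exact ⟨fun h => (u_B8_B11 _ _ _ h).elim, fun h => by rcases h with ⟨_, _, h⟩ <;> cases h⟩
  | C1 a' b' =>
    exact ⟨fun h => absurd (show (3 : ℕ) = 4 from st_eq h) (by decide),
      fun h => by rcases h with ⟨_, _, h⟩ <;> cases h⟩
  | C2 a' =>
    exact ⟨fun h => absurd (show (3 : ℕ) = 5 from st_eq h) (by decide),
      fun h => by rcases h with ⟨_, _, h⟩ <;> cases h⟩
  | C3 a' g' =>
    exact ⟨fun h => absurd (show (3 : ℕ) = 5 from st_eq h) (by decide),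
      fun h => by rcases h with ⟨_, _, h⟩ <;> cases h⟩
  | C4 d' =>
    exact ⟨fun h => absurd (show (3 : ℕ) = 5 from st_eq h) (by decide),
      fun h => by rcases h with ⟨_, _, h⟩ <;> cases h⟩
  | C5 g' =>
    exact ⟨fun h => absurd (show (3 : ℕ) = 6 from st_eq h) (by decide),
      fun h => by rcases h with ⟨_, _, h⟩ <;> cases h⟩
  | C6 g' =>
    exact ⟨fun h => absurd (show (3 : ℕ) = 6 from st_eq h) (by decide),
      fun h => by rcases h with ⟨_, _, h⟩ <;> cases h⟩
  | C7 =>
    exact ⟨fun h => absurd (show (3 : ℕ) = 6 from st_eq h) (by decide),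
      fun h => by rcases h with ⟨_, _, h⟩ <;> cases h⟩
  | C8 d' =>
    exact ⟨fun h => absurd (show (3 : ℕ) = 6 from st_eq h) (by decide),
      fun h => by rcases h with ⟨_, _, h⟩ <;> cases h⟩
  | C9 =>
    exact ⟨fun h => absurd (show (3 : ℕ) = 6 from st_eq h) (by decide),
      fun h => by rcases h with ⟨_, _, h⟩ <;> cases h⟩
  | C10 =>
    exact ⟨fun h => absurd (show (3 : ℕ) = 7 from st_eq h) (by decide),
      fun h => by rcases h with ⟨_, _, h⟩ <;> cases h⟩
  | C11 d' =>
    exact ⟨fun h => absurd (show (3 : ℕ) = 7 from st_eq h) (by decide),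
      fun h => by rcases h with ⟨_, _, h⟩ <;> cases h⟩
  | D1 a' b' =>
    exact ⟨fun h => absurd (show (3 : ℕ) = 8 from st_eq h) (by decide),
      fun h => by rcases h with ⟨_, _, h⟩ <;> cases h⟩
  | D2 a' =>
    exact ⟨fun h => absurd (show (3 : ℕ) = 8 from st_eq h) (by decide),
      fun h => by rcases h with ⟨_, _, h⟩ <;> cases h⟩
  | E1 =>
    exact ⟨fun h => absurd (show (3 : ℕ) = 8 from st_eq h) (by decide),
      fun h => by rcases h with ⟨_, _, h⟩ <;> cases h⟩

theorem iff_B9 (d : k) (n' : NF k) :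
    Conj (character (NF.pair ((.B9 d) : NF k))) (character n'.pair) ↔ NF.Rule (.B9 d) n' := by
  cases n' with
  | A1 b' c' =>
    exact ⟨fun h => absurd (show (3 : ℕ) = 0 from st_eq h) (by decide),
      fun h => by rcases h with h | h <;> cases h⟩
  | A2 b' c' =>
    exact ⟨fun h => absurd (show (3 : ℕ) = 0 from st_eq h) (by decide),
      fun h => by rcases h with h | h <;> cases h⟩
  | A3 b' =>
    exact ⟨fun h => absurd (show (3 : ℕ) = 0 from st_eq h) (by decide),
      fun h => by rcases h with h | h <;> cases h⟩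
  | A4 c' =>
    exact ⟨fun h => absurd (show (3 : ℕ) = 0 from st_eq h) (by decide),
      fun h => by rcases h with h | h <;> cases h⟩
  | A5 c' =>
    exact ⟨fun h => absurd (show (3 : ℕ) = 0 from st_eq h) (by decide),
      fun h => by rcases h with h | h <;> cases h⟩
  | A6 c' =>
    exact ⟨fun h => absurd (show (3 : ℕ) = 0 from st_eq h) (by decide),
      fun h => by rcases h with h | h <;> cases h⟩
  | A7 =>
    exact ⟨fun h => absurd (show (3 : ℕ) = 0 from st_eq h) (by decide),
      fun h => by rcases h with h | h <;> cases h⟩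
  | B1 l' c' =>
    exact ⟨fun h => absurd (show (3 : ℕ) = 1 from st_eq h) (by decide),
      fun h => by rcases h with h | h <;> cases h⟩
  | B2 b' c' =>
    exact ⟨fun h => absurd (show (3 : ℕ) = 1 from st_eq h) (by decide),
      fun h => by rcases h with h | h <;> cases h⟩
  | B3 b' =>
    exact ⟨fun h => absurd (show (3 : ℕ) = 1 from st_eq h) (by decide),
      fun h => by rcases h with h | h <;> cases h⟩
  | B4 d' =>
    exact ⟨fun h => absurd (show (3 : ℕ) = 1 from st_eq h) (by decide),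
      fun h => by rcases h with h | h <;> cases h⟩
  | B5 =>
    exact ⟨fun h => absurd (show (3 : ℕ) = 1 from st_eq h) (by decide),
      fun h => by rcases h with h | h <;> cases h⟩
  | B6 =>
    exact ⟨fun h => absurd (show (3 : ℕ) = 1 from st_eq h) (by decide),
      fun h => by rcases h with h | h <;> cases h⟩
  | B7 c' =>
    exact ⟨fun h => absurd (show (3 : ℕ) = 2 from st_eq h) (by decide),
      fun h => by rcases h with h | h <;> cases h⟩
  | B8 b' =>
    rw [pair_B9, pair_B8, conj_iff]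
    exact ⟨fun h => (u_B9_B8 _ _ h).elim, fun h => by rcases h with h | h <;> cases h⟩
  | B9 d' =>
    rw [pair_B9, pair_B9, conj_iff, r_B9]
    exact ⟨u_B9_B9 _ _, c_B9 _ _⟩
  | B10 =>
    rw [pair_B9, pair_B10, conj_iff]
    exact ⟨fun h => (u_B9_B10 _ h).elim, fun h => by rcases h with h | h <;> cases h⟩
  | B11 c' e' =>
    rw [pair_B9, pair_B11, conj_iff]
    exact ⟨fun h => (u_B9_B11 _ _ _ h).elim, fun h => by rcases h with h | h <;> cases h⟩
  | C1 a' b' =>
    exact ⟨fun h => absurd (show (3 : ℕ) = 4 from st_eq h) (by decide),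
      fun h => by rcases h with h | h <;> cases h⟩
  | C2 a' =>
    exact ⟨fun h => absurd (show (3 : ℕ) = 5 from st_eq h) (by decide),
      fun h => by rcases h with h | h <;> cases h⟩
  | C3 a' g' =>
    exact ⟨fun h => absurd (show (3 : ℕ) = 5 from st_eq h) (by decide),
      fun h => by rcases h with h | h <;> cases h⟩
  | C4 d' =>
    exact ⟨fun h => absurd (show (3 : ℕ) = 5 from st_eq h) (by decide),
      fun h => by rcases h with h | h <;> cases h⟩
  | C5 g' =>
    exact ⟨fun h => absurd (show (3 : ℕ) = 6 from st_eq h) (by decide),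
      fun h => by rcases h with h | h <;> cases h⟩
  | C6 g' =>
    exact ⟨fun h => absurd (show (3 : ℕ) = 6 from st_eq h) (by decide),
      fun h => by rcases h with h | h <;> cases h⟩
  | C7 =>
    exact ⟨fun h => absurd (show (3 : ℕ) = 6 from st_eq h) (by decide),
      fun h => by rcases h with h | h <;> cases h⟩
  | C8 d' =>
    exact ⟨fun h => absurd (show (3 : ℕ) = 6 from st_eq h) (by decide),
      fun h => by rcases h with h | h <;> cases h⟩
  | C9 =>
    exact ⟨fun h => absurd (show (3 : ℕ) = 6 from st_eq h) (by decide),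
      fun h => by rcases h with h | h <;> cases h⟩
  | C10 =>
    exact ⟨fun h => absurd (show (3 : ℕ) = 7 from st_eq h) (by decide),
      fun h => by rcases h with h | h <;> cases h⟩
  | C11 d' =>
    exact ⟨fun h => absurd (show (3 : ℕ) = 7 from st_eq h) (by decide),
      fun h => by rcases h with h | h <;> cases h⟩
  | D1 a' b' =>
    exact ⟨fun h => absurd (show (3 : ℕ) = 8 from st_eq h) (by decide),
      fun h => by rcases h with h | h <;> cases h⟩
  | D2 a' =>
    exact ⟨fun h => absurd (show (3 : ℕ) = 8 from st_eq h) (by decide),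
      fun h => by rcases h with h | h <;> cases h⟩
  | E1 =>
    exact ⟨fun h => absurd (show (3 : ℕ) = 8 from st_eq h) (by decide),
      fun h => by rcases h with h | h <;> cases h⟩

theorem iff_B10 (n' : NF k) :
    Conj (character (NF.pair (.B10 : NF k))) (character n'.pair) ↔ NF.Rule .B10 n' := by
  cases n' with
  | A1 b' c' =>
    exact ⟨fun h => absurd (show (3 : ℕ) = 0 from st_eq h) (by decide),
      fun h => by cases h⟩
  | A2 b' c' =>
    exact ⟨fun h => absurd (show (3 : ℕ) = 0 from st_eq h) (by decide),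
      fun h => by cases h⟩
  | A3 b' =>
    exact ⟨fun h => absurd (show (3 : ℕ) = 0 from st_eq h) (by decide),
      fun h => by cases h⟩
  | A4 c' =>
    exact ⟨fun h => absurd (show (3 : ℕ) = 0 from st_eq h) (by decide),
      fun h => by cases h⟩
  | A5 c' =>
    exact ⟨fun h => absurd (show (3 : ℕ) = 0 from st_eq h) (by decide),
      fun h => by cases h⟩
  | A6 c' =>
    exact ⟨fun h => absurd (show (3 : ℕ) = 0 from st_eq h) (by decide),
      fun h => by cases h⟩
  | A7 =>
    exact ⟨fun h => absurd (show (3 : ℕ) = 0 from st_eq h) (by decide),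
      fun h => by cases h⟩
  | B1 l' c' =>
    exact ⟨fun h => absurd (show (3 : ℕ) = 1 from st_eq h) (by decide),
      fun h => by cases h⟩
  | B2 b' c' =>
    exact ⟨fun h => absurd (show (3 : ℕ) = 1 from st_eq h) (by decide),
      fun h => by cases h⟩
  | B3 b' =>
    exact ⟨fun h => absurd (show (3 : ℕ) = 1 from st_eq h) (by decide),
      fun h => by cases h⟩
  | B4 d' =>
    exact ⟨fun h => absurd (show (3 : ℕ) = 1 from st_eq h) (by decide),
      fun h => by cases h⟩
  | B5 =>
    exact ⟨fun h => absurd (show (3 : ℕ) = 1 from st_eq h) (by decide),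
      fun h => by cases h⟩
  | B6 =>
    exact ⟨fun h => absurd (show (3 : ℕ) = 1 from st_eq h) (by decide),
      fun h => by cases h⟩
  | B7 c' =>
    exact ⟨fun h => absurd (show (3 : ℕ) = 2 from st_eq h) (by decide),
      fun h => by cases h⟩
  | B8 b' =>
    rw [pair_B10, pair_B8, conj_iff]
    exact ⟨fun h => (u_B10_B8 _ h).elim, fun h => by cases h⟩
  | B9 d' =>
    rw [pair_B10, pair_B9, conj_iff]
    exact ⟨fun h => (u_B10_B9 _ h).elim, fun h => by cases h⟩
  | B10 =>
    rw [pair_B10, conj_iff, r_B10]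
    exact ⟨u_B10_B10 , c_B10 ⟩
  | B11 c' e' =>
    rw [pair_B10, pair_B11, conj_iff]
    exact ⟨fun h => (u_B10_B11 _ _ h).elim, fun h => by cases h⟩
  | C1 a' b' =>
    exact ⟨fun h => absurd (show (3 : ℕ) = 4 from st_eq h) (by decide),
      fun h => by cases h⟩
  | C2 a' =>
    exact ⟨fun h => absurd (show (3 : ℕ) = 5 from st_eq h) (by decide),
      fun h => by cases h⟩
  | C3 a' g' =>
    exact ⟨fun h => absurd (show (3 : ℕ) = 5 from st_eq h) (by decide),
      fun h => by cases h⟩
  | C4 d' =>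
    exact ⟨fun h => absurd (show (3 : ℕ) = 5 from st_eq h) (by decide),
      fun h => by cases h⟩
  | C5 g' =>
    exact ⟨fun h => absurd (show (3 : ℕ) = 6 from st_eq h) (by decide),
      fun h => by cases h⟩
  | C6 g' =>
    exact ⟨fun h => absurd (show (3 : ℕ) = 6 from st_eq h) (by decide),
      fun h => by cases h⟩
  | C7 =>
    exact ⟨fun h => absurd (show (3 : ℕ) = 6 from st_eq h) (by decide),
      fun h => by cases h⟩
  | C8 d' =>
    exact ⟨fun h => absurd (show (3 : ℕ) = 6 from st_eq h) (by decide),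
      fun h => by cases h⟩
  | C9 =>
    exact ⟨fun h => absurd (show (3 : ℕ) = 6 from st_eq h) (by decide),
      fun h => by cases h⟩
  | C10 =>
    exact ⟨fun h => absurd (show (3 : ℕ) = 7 from st_eq h) (by decide),
      fun h => by cases h⟩
  | C11 d' =>
    exact ⟨fun h => absurd (show (3 : ℕ) = 7 from st_eq h) (by decide),
      fun h => by cases h⟩
  | D1 a' b' =>
    exact ⟨fun h => absurd (show (3 : ℕ) = 8 from st_eq h) (by decide),
      fun h => by cases h⟩
  | D2 a' =>
    exact ⟨fun h => absurd (show (3 : ℕ) = 8 from st_eq h) (by decide),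
      fun h => by cases h⟩
  | E1 =>
    exact ⟨fun h => absurd (show (3 : ℕ) = 8 from st_eq h) (by decide),
      fun h => by cases h⟩

theorem iff_B11 (c e : k) (n' : NF k) :
    Conj (character (NF.pair ((.B11 c e) : NF k))) (character n'.pair) ↔ NF.Rule (.B11 c e) n' := by
  cases n' with
  | A1 b' c' =>
    exact ⟨fun h => absurd (show (3 : ℕ) = 0 from st_eq h) (by decide),
      fun h => by rcases h with h | h <;> cases h⟩
  | A2 b' c' =>
    exact ⟨fun h => absurd (show (3 : ℕ) = 0 from st_eq h) (by decide),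
      fun h => by rcases h with h | h <;> cases h⟩
  | A3 b' =>
    exact ⟨fun h => absurd (show (3 : ℕ) = 0 from st_eq h) (by decide),
      fun h => by rcases h with h | h <;> cases h⟩
  | A4 c' =>
    exact ⟨fun h => absurd (show (3 : ℕ) = 0 from st_eq h) (by decide),
      fun h => by rcases h with h | h <;> cases h⟩
  | A5 c' =>
    exact ⟨fun h => absurd (show (3 : ℕ) = 0 from st_eq h) (by decide),
      fun h => by rcases h with h | h <;> cases h⟩
  | A6 c' =>
    exact ⟨fun h => absurd (show (3 : ℕ) = 0 from st_eq h) (by decide),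
      fun h => by rcases h with h | h <;> cases h⟩
  | A7 =>
    exact ⟨fun h => absurd (show (3 : ℕ) = 0 from st_eq h) (by decide),
      fun h => by rcases h with h | h <;> cases h⟩
  | B1 l' c' =>
    exact ⟨fun h => absurd (show (3 : ℕ) = 1 from st_eq h) (by decide),
      fun h => by rcases h with h | h <;> cases h⟩
  | B2 b' c' =>
    exact ⟨fun h => absurd (show (3 : ℕ) = 1 from st_eq h) (by decide),
      fun h => by rcases h with h | h <;> cases h⟩
  | B3 b' =>
    exact ⟨fun h => absurd (show (3 : ℕ) = 1 from st_eq h) (by decide),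
      fun h => by rcases h with h | h <;> cases h⟩
  | B4 d' =>
    exact ⟨fun h => absurd (show (3 : ℕ) = 1 from st_eq h) (by decide),
      fun h => by rcases h with h | h <;> cases h⟩
  | B5 =>
    exact ⟨fun h => absurd (show (3 : ℕ) = 1 from st_eq h) (by decide),
      fun h => by rcases h with h | h <;> cases h⟩
  | B6 =>
    exact ⟨fun h => absurd (show (3 : ℕ) = 1 from st_eq h) (by decide),
      fun h => by rcases h with h | h <;> cases h⟩
  | B7 c' =>
    exact ⟨fun h => absurd (show (3 : ℕ) = 2 from st_eq h) (by decide),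
      fun h => by rcases h with h | h <;> cases h⟩
  | B8 b' =>
    rw [pair_B11, pair_B8, conj_iff]
    exact ⟨fun h => (u_B11_B8 _ _ _ h).elim, fun h => by rcases h with h | h <;> cases h⟩
  | B9 d' =>
    rw [pair_B11, pair_B9, conj_iff]
    exact ⟨fun h => (u_B11_B9 _ _ _ h).elim, fun h => by rcases h with h | h <;> cases h⟩
  | B10 =>
    rw [pair_B11, pair_B10, conj_iff]
    exact ⟨fun h => (u_B11_B10 _ _ h).elim, fun h => by rcases h with h | h <;> cases h⟩
  | B11 c' e' =>
    rw [pair_B11, pair_B11, conj_iff, r_B11]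
    exact ⟨u_B11_B11 _ _ _ _, c_B11 _ _ _ _⟩
  | C1 a' b' =>
    exact ⟨fun h => absurd (show (3 : ℕ) = 4 from st_eq h) (by decide),
      fun h => by rcases h with h | h <;> cases h⟩
  | C2 a' =>
    exact ⟨fun h => absurd (show (3 : ℕ) = 5 from st_eq h) (by decide),
      fun h => by rcases h with h | h <;> cases h⟩
  | C3 a' g' =>
    exact ⟨fun h => absurd (show (3 : ℕ) = 5 from st_eq h) (by decide),
      fun h => by rcases h with h | h <;> cases h⟩
  | C4 d' =>
    exact ⟨fun h => absurd (show (3 : ℕ) = 5 from st_eq h) (by decide),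
      fun h => by rcases h with h | h <;> cases h⟩
  | C5 g' =>
    exact ⟨fun h => absurd (show (3 : ℕ) = 6 from st_eq h) (by decide),
      fun h => by rcases h with h | h <;> cases h⟩
  | C6 g' =>
    exact ⟨fun h => absurd (show (3 : ℕ) = 6 from st_eq h) (by decide),
      fun h => by rcases h with h | h <;> cases h⟩
  | C7 =>
    exact ⟨fun h => absurd (show (3 : ℕ) = 6 from st_eq h) (by decide),
      fun h => by rcases h with h | h <;> cases h⟩
  | C8 d' =>
    exact ⟨fun h => absurd (show (3 : ℕ) = 6 from st_eq h) (by decide),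
      fun h => by rcases h with h | h <;> cases h⟩
  | C9 =>
    exact ⟨fun h => absurd (show (3 : ℕ) = 6 from st_eq h) (by decide),
      fun h => by rcases h with h | h <;> cases h⟩
  | C10 =>
    exact ⟨fun h => absurd (show (3 : ℕ) = 7 from st_eq h) (by decide),
      fun h => by rcases h with h | h <;> cases h⟩
  | C11 d' =>
    exact ⟨fun h => absurd (show (3 : ℕ) = 7 from st_eq h) (by decide),
      fun h => by rcases h with h | h <;> cases h⟩
  | D1 a' b' =>
    exact ⟨fun h => absurd (show (3 : ℕ) = 8 from st_eq h) (by decide),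
      fun h => by rcases h with h | h <;> cases h⟩
  | D2 a' =>
    exact ⟨fun h => absurd (show (3 : ℕ) = 8 from st_eq h) (by decide),
      fun h => by rcases h with h | h <;> cases h⟩
  | E1 =>
    exact ⟨fun h => absurd (show (3 : ℕ) = 8 from st_eq h) (by decide),
      fun h => by rcases h with h | h <;> cases h⟩

theorem iff_C1 (a b : k) (n' : NF k) :
    Conj (character (NF.pair ((.C1 a b) : NF k))) (character n'.pair) ↔ NF.Rule (.C1 a b) n' := by
  cases n' with
  | A1 b' c' =>
    exact ⟨fun h => absurd (show (4 : ℕ) = 0 from st_eq h) (by decide),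
      fun h => by rcases h with ⟨_, _, h, _⟩ <;> cases h⟩
  | A2 b' c' =>
    exact ⟨fun h => absurd (show (4 : ℕ) = 0 from st_eq h) (by decide),
      fun h => by rcases h with ⟨_, _, h, _⟩ <;> cases h⟩
  | A3 b' =>
    exact ⟨fun h => absurd (show (4 : ℕ) = 0 from st_eq h) (by decide),
      fun h => by rcases h with ⟨_, _, h, _⟩ <;> cases h⟩
  | A4 c' =>
    exact ⟨fun h => absurd (show (4 : ℕ) = 0 from st_eq h) (by decide),
      fun h => by rcases h with ⟨_, _, h, _⟩ <;> cases h⟩
  | A5 c' =>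
    exact ⟨fun h => absurd (show (4 : ℕ) = 0 from st_eq h) (by decide),
      fun h => by rcases h with ⟨_, _, h, _⟩ <;> cases h⟩
  | A6 c' =>
    exact ⟨fun h => absurd (show (4 : ℕ) = 0 from st_eq h) (by decide),
      fun h => by rcases h with ⟨_, _, h, _⟩ <;> cases h⟩
  | A7 =>
    exact ⟨fun h => absurd (show (4 : ℕ) = 0 from st_eq h) (by decide),
      fun h => by rcases h with ⟨_, _, h, _⟩ <;> cases h⟩
  | B1 l' c' =>
    exact ⟨fun h => absurd (show (4 : ℕ) = 1 from st_eq h) (by decide),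
      fun h => by rcases h with ⟨_, _, h, _⟩ <;> cases h⟩
  | B2 b' c' =>
    exact ⟨fun h => absurd (show (4 : ℕ) = 1 from st_eq h) (by decide),
      fun h => by rcases h with ⟨_, _, h, _⟩ <;> cases h⟩
  | B3 b' =>
    exact ⟨fun h => absurd (show (4 : ℕ) = 1 from st_eq h) (by decide),
      fun h => by rcases h with ⟨_, _, h, _⟩ <;> cases h⟩
  | B4 d' =>
    exact ⟨fun h => absurd (show (4 : ℕ) = 1 from st_eq h) (by decide),
      fun h => by rcases h with ⟨_, _, h, _⟩ <;> cases h⟩
  | B5 =>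
    exact ⟨fun h => absurd (show (4 : ℕ) = 1 from st_eq h) (by decide),
      fun h => by rcases h with ⟨_, _, h, _⟩ <;> cases h⟩
  | B6 =>
    exact ⟨fun h => absurd (show (4 : ℕ) = 1 from st_eq h) (by decide),
      fun h => by rcases h with ⟨_, _, h, _⟩ <;> cases h⟩
  | B7 c' =>
    exact ⟨fun h => absurd (show (4 : ℕ) = 2 from st_eq h) (by decide),
      fun h => by rcases h with ⟨_, _, h, _⟩ <;> cases h⟩
  | B8 b' =>
    exact ⟨fun h => absurd (show (4 : ℕ) = 3 from st_eq h) (by decide),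
      fun h => by rcases h with ⟨_, _, h, _⟩ <;> cases h⟩
  | B9 d' =>
    exact ⟨fun h => absurd (show (4 : ℕ) = 3 from st_eq h) (by decide),
      fun h => by rcases h with ⟨_, _, h, _⟩ <;> cases h⟩
  | B10 =>
    exact ⟨fun h => absurd (show (4 : ℕ) = 3 from st_eq h) (by decide),
      fun h => by rcases h with ⟨_, _, h, _⟩ <;> cases h⟩
  | B11 c' e' =>
    exact ⟨fun h => absurd (show (4 : ℕ) = 3 from st_eq h) (by decide),
      fun h => by rcases h with ⟨_, _, h, _⟩ <;> cases h⟩
  | C1 a' b' =>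
    rw [pair_C1, pair_C1, conj_iff, r_C1]
    exact ⟨u_C1_C1 _ _ _ _, c_C1 _ _ _ _⟩
  | C2 a' =>
    exact ⟨fun h => absurd (show (4 : ℕ) = 5 from st_eq h) (by decide),
      fun h => by rcases h with ⟨_, _, h, _⟩ <;> cases h⟩
  | C3 a' g' =>
    exact ⟨fun h => absurd (show (4 : ℕ) = 5 from st_eq h) (by decide),
      fun h => by rcases h with ⟨_, _, h, _⟩ <;> cases h⟩
  | C4 d' =>
    exact ⟨fun h => absurd (show (4 : ℕ) = 5 from st_eq h) (by decide),
      fun h => by rcases h with ⟨_, _, h, _⟩ <;> cases h⟩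
  | C5 g' =>
    exact ⟨fun h => absurd (show (4 : ℕ) = 6 from st_eq h) (by decide),
      fun h => by rcases h with ⟨_, _, h, _⟩ <;> cases h⟩
  | C6 g' =>
    exact ⟨fun h => absurd (show (4 : ℕ) = 6 from st_eq h) (by decide),
      fun h => by rcases h with ⟨_, _, h, _⟩ <;> cases h⟩
  | C7 =>
    exact ⟨fun h => absurd (show (4 : ℕ) = 6 from st_eq h) (by decide),
      fun h => by rcases h with ⟨_, _, h, _⟩ <;> cases h⟩
  | C8 d' =>
    exact ⟨fun h => absurd (show (4 : ℕ) = 6 from st_eq h) (by decide),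
      fun h => by rcases h with ⟨_, _, h, _⟩ <;> cases h⟩
  | C9 =>
    exact ⟨fun h => absurd (show (4 : ℕ) = 6 from st_eq h) (by decide),
      fun h => by rcases h with ⟨_, _, h, _⟩ <;> cases h⟩
  | C10 =>
    exact ⟨fun h => absurd (show (4 : ℕ) = 7 from st_eq h) (by decide),
      fun h => by rcases h with ⟨_, _, h, _⟩ <;> cases h⟩
  | C11 d' =>
    exact ⟨fun h => absurd (show (4 : ℕ) = 7 from st_eq h) (by decide),
      fun h => by rcases h with ⟨_, _, h, _⟩ <;> cases h⟩
  | D1 a' b' =>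
    exact ⟨fun h => absurd (show (4 : ℕ) = 8 from st_eq h) (by decide),
      fun h => by rcases h with ⟨_, _, h, _⟩ <;> cases h⟩
  | D2 a' =>
    exact ⟨fun h => absurd (show (4 : ℕ) = 8 from st_eq h) (by decide),
      fun h => by rcases h with ⟨_, _, h, _⟩ <;> cases h⟩
  | E1 =>
    exact ⟨fun h => absurd (show (4 : ℕ) = 8 from st_eq h) (by decide),
      fun h => by rcases h with ⟨_, _, h, _⟩ <;> cases h⟩

theorem iff_C2 (a : k) (n' : NF k) :
    Conj (character (NF.pair ((.C2 a) : NF k))) (character n'.pair) ↔ NF.Rule (.C2 a) n' := by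
  cases n' with
  | A1 b' c' =>
    exact ⟨fun h => absurd (show (5 : ℕ) = 0 from st_eq h) (by decide),
      fun h => by cases h⟩
  | A2 b' c' =>
    exact ⟨fun h => absurd (show (5 : ℕ) = 0 from st_eq h) (by decide),
      fun h => by cases h⟩
  | A3 b' =>
    exact ⟨fun h => absurd (show (5 : ℕ) = 0 from st_eq h) (by decide),
      fun h => by cases h⟩
  | A4 c' =>
    exact ⟨fun h => absurd (show (5 : ℕ) = 0 from st_eq h) (by decide),
      fun h => by cases h⟩
  | A5 c' =>
    exact ⟨fun h => absurd (show (5 : ℕ) = 0 from st_eq h) (by decide),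
      fun h => by cases h⟩
  | A6 c' =>
    exact ⟨fun h => absurd (show (5 : ℕ) = 0 from st_eq h) (by decide),
      fun h => by cases h⟩
  | A7 =>
    exact ⟨fun h => absurd (show (5 : ℕ) = 0 from st_eq h) (by decide),
      fun h => by cases h⟩
  | B1 l' c' =>
    exact ⟨fun h => absurd (show (5 : ℕ) = 1 from st_eq h) (by decide),
      fun h => by cases h⟩
  | B2 b' c' =>
    exact ⟨fun h => absurd (show (5 : ℕ) = 1 from st_eq h) (by decide),
      fun h => by cases h⟩
  | B3 b' =>
    exact ⟨fun h => absurd (show (5 : ℕ) = 1 from st_eq h) (by decide),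
      fun h => by cases h⟩
  | B4 d' =>
    exact ⟨fun h => absurd (show (5 : ℕ) = 1 from st_eq h) (by decide),
      fun h => by cases h⟩
  | B5 =>
    exact ⟨fun h => absurd (show (5 : ℕ) = 1 from st_eq h) (by decide),
      fun h => by cases h⟩
  | B6 =>
    exact ⟨fun h => absurd (show (5 : ℕ) = 1 from st_eq h) (by decide),
      fun h => by cases h⟩
  | B7 c' =>
    exact ⟨fun h => absurd (show (5 : ℕ) = 2 from st_eq h) (by decide),
      fun h => by cases h⟩
  | B8 b' =>
    exact ⟨fun h => absurd (show (5 : ℕ) = 3 from st_eq h) (by decide),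
      fun h => by cases h⟩
  | B9 d' =>
    exact ⟨fun h => absurd (show (5 : ℕ) = 3 from st_eq h) (by decide),
      fun h => by cases h⟩
  | B10 =>
    exact ⟨fun h => absurd (show (5 : ℕ) = 3 from st_eq h) (by decide),
      fun h => by cases h⟩
  | B11 c' e' =>
    exact ⟨fun h => absurd (show (5 : ℕ) = 3 from st_eq h) (by decide),
      fun h => by cases h⟩
  | C1 a' b' =>
    exact ⟨fun h => absurd (show (5 : ℕ) = 4 from st_eq h) (by decide),
      fun h => by cases h⟩
  | C2 a' =>
    rw [pair_C2, pair_C2, conj_iff, r_C2]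
    exact ⟨u_C2_C2 _ _, c_C2 _ _⟩
  | C3 a' g' =>
    rw [pair_C2, pair_C3, conj_iff]
    exact ⟨fun h => (u_C2_C3 _ _ _ h).elim, fun h => by cases h⟩
  | C4 d' =>
    rw [pair_C2, pair_C4, conj_iff]
    exact ⟨fun h => (u_C2_C4 _ _ h).elim, fun h => by cases h⟩
  | C5 g' =>
    exact ⟨fun h => absurd (show (5 : ℕ) = 6 from st_eq h) (by decide),
      fun h => by cases h⟩
  | C6 g' =>
    exact ⟨fun h => absurd (show (5 : ℕ) = 6 from st_eq h) (by decide),
      fun h => by cases h⟩
  | C7 =>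
    exact ⟨fun h => absurd (show (5 : ℕ) = 6 from st_eq h) (by decide),
      fun h => by cases h⟩
  | C8 d' =>
    exact ⟨fun h => absurd (show (5 : ℕ) = 6 from st_eq h) (by decide),
      fun h => by cases h⟩
  | C9 =>
    exact ⟨fun h => absurd (show (5 : ℕ) = 6 from st_eq h) (by decide),
      fun h => by cases h⟩
  | C10 =>
    exact ⟨fun h => absurd (show (5 : ℕ) = 7 from st_eq h) (by decide),
      fun h => by cases h⟩
  | C11 d' =>
    exact ⟨fun h => absurd (show (5 : ℕ) = 7 from st_eq h) (by decide),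
      fun h => by cases h⟩
  | D1 a' b' =>
    exact ⟨fun h => absurd (show (5 : ℕ) = 8 from st_eq h) (by decide),
      fun h => by cases h⟩
  | D2 a' =>
    exact ⟨fun h => absurd (show (5 : ℕ) = 8 from st_eq h) (by decide),
      fun h => by cases h⟩
  | E1 =>
    exact ⟨fun h => absurd (show (5 : ℕ) = 8 from st_eq h) (by decide),
      fun h => by cases h⟩

theorem iff_C3 (a g : k) (n' : NF k) :
    Conj (character (NF.pair ((.C3 a g) : NF k))) (character n'.pair) ↔ NF.Rule (.C3 a g) n' := by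
  cases n' with
  | A1 b' c' =>
    exact ⟨fun h => absurd (show (5 : ℕ) = 0 from st_eq h) (by decide),
      fun h => by cases h⟩
  | A2 b' c' =>
    exact ⟨fun h => absurd (show (5 : ℕ) = 0 from st_eq h) (by decide),
      fun h => by cases h⟩
  | A3 b' =>
    exact ⟨fun h => absurd (show (5 : ℕ) = 0 from st_eq h) (by decide),
      fun h => by cases h⟩
  | A4 c' =>
    exact ⟨fun h => absurd (show (5 : ℕ) = 0 from st_eq h) (by decide),
      fun h => by cases h⟩
  | A5 c' =>
    exact ⟨fun h => absurd (show (5 : ℕ) = 0 from st_eq h) (by decide),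
      fun h => by cases h⟩
  | A6 c' =>
    exact ⟨fun h => absurd (show (5 : ℕ) = 0 from st_eq h) (by decide),
      fun h => by cases h⟩
  | A7 =>
    exact ⟨fun h => absurd (show (5 : ℕ) = 0 from st_eq h) (by decide),
      fun h => by cases h⟩
  | B1 l' c' =>
    exact ⟨fun h => absurd (show (5 : ℕ) = 1 from st_eq h) (by decide),
      fun h => by cases h⟩
  | B2 b' c' =>
    exact ⟨fun h => absurd (show (5 : ℕ) = 1 from st_eq h) (by decide),
      fun h => by cases h⟩
  | B3 b' =>
    exact ⟨fun h => absurd (show (5 : ℕ) = 1 from st_eq h) (by decide),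
      fun h => by cases h⟩
  | B4 d' =>
    exact ⟨fun h => absurd (show (5 : ℕ) = 1 from st_eq h) (by decide),
      fun h => by cases h⟩
  | B5 =>
    exact ⟨fun h => absurd (show (5 : ℕ) = 1 from st_eq h) (by decide),
      fun h => by cases h⟩
  | B6 =>
    exact ⟨fun h => absurd (show (5 : ℕ) = 1 from st_eq h) (by decide),
      fun h => by cases h⟩
  | B7 c' =>
    exact ⟨fun h => absurd (show (5 : ℕ) = 2 from st_eq h) (by decide),
      fun h => by cases h⟩
  | B8 b' =>
    exact ⟨fun h => absurd (show (5 : ℕ) = 3 from st_eq h) (by decide),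
      fun h => by cases h⟩
  | B9 d' =>
    exact ⟨fun h => absurd (show (5 : ℕ) = 3 from st_eq h) (by decide),
      fun h => by cases h⟩
  | B10 =>
    exact ⟨fun h => absurd (show (5 : ℕ) = 3 from st_eq h) (by decide),
      fun h => by cases h⟩
  | B11 c' e' =>
    exact ⟨fun h => absurd (show (5 : ℕ) = 3 from st_eq h) (by decide),
      fun h => by cases h⟩
  | C1 a' b' =>
    exact ⟨fun h => absurd (show (5 : ℕ) = 4 from st_eq h) (by decide),
      fun h => by cases h⟩
  | C2 a' =>
    rw [pair_C3, pair_C2, conj_iff]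
    exact ⟨fun h => (u_C3_C2 _ _ _ h).elim, fun h => by cases h⟩
  | C3 a' g' =>
    rw [pair_C3, pair_C3, conj_iff, r_C3]
    exact ⟨u_C3_C3 _ _ _ _, c_C3 _ _ _ _⟩
  | C4 d' =>
    rw [pair_C3, pair_C4, conj_iff]
    exact ⟨fun h => (u_C3_C4 _ _ _ h).elim, fun h => by cases h⟩
  | C5 g' =>
    exact ⟨fun h => absurd (show (5 : ℕ) = 6 from st_eq h) (by decide),
      fun h => by cases h⟩
  | C6 g' =>
    exact ⟨fun h => absurd (show (5 : ℕ) = 6 from st_eq h) (by decide),
      fun h => by cases h⟩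
  | C7 =>
    exact ⟨fun h => absurd (show (5 : ℕ) = 6 from st_eq h) (by decide),
      fun h => by cases h⟩
  | C8 d' =>
    exact ⟨fun h => absurd (show (5 : ℕ) = 6 from st_eq h) (by decide),
      fun h => by cases h⟩
  | C9 =>
    exact ⟨fun h => absurd (show (5 : ℕ) = 6 from st_eq h) (by decide),
      fun h => by cases h⟩
  | C10 =>
    exact ⟨fun h => absurd (show (5 : ℕ) = 7 from st_eq h) (by decide),
      fun h => by cases h⟩
  | C11 d' =>
    exact ⟨fun h => absurd (show (5 : ℕ) = 7 from st_eq h) (by decide),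
      fun h => by cases h⟩
  | D1 a' b' =>
    exact ⟨fun h => absurd (show (5 : ℕ) = 8 from st_eq h) (by decide),
      fun h => by cases h⟩
  | D2 a' =>
    exact ⟨fun h => absurd (show (5 : ℕ) = 8 from st_eq h) (by decide),
      fun h => by cases h⟩
  | E1 =>
    exact ⟨fun h => absurd (show (5 : ℕ) = 8 from st_eq h) (by decide),
      fun h => by cases h⟩

theorem iff_C4 (d : kˣ) (n' : NF k) :
    Conj (character (NF.pair ((.C4 d) : NF k))) (character n'.pair) ↔ NF.Rule (.C4 d) n' := by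
  cases n' with
  | A1 b' c' =>
    exact ⟨fun h => absurd (show (5 : ℕ) = 0 from st_eq h) (by decide),
      fun h => by cases h⟩
  | A2 b' c' =>
    exact ⟨fun h => absurd (show (5 : ℕ) = 0 from st_eq h) (by decide),
      fun h => by cases h⟩
  | A3 b' =>
    exact ⟨fun h => absurd (show (5 : ℕ) = 0 from st_eq h) (by decide),
      fun h => by cases h⟩
  | A4 c' =>
    exact ⟨fun h => absurd (show (5 : ℕ) = 0 from st_eq h) (by decide),
      fun h => by cases h⟩
  | A5 c' =>
    exact ⟨fun h => absurd (show (5 : ℕ) = 0 from st_eq h) (by decide),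
      fun h => by cases h⟩
  | A6 c' =>
    exact ⟨fun h => absurd (show (5 : ℕ) = 0 from st_eq h) (by decide),
      fun h => by cases h⟩
  | A7 =>
    exact ⟨fun h => absurd (show (5 : ℕ) = 0 from st_eq h) (by decide),
      fun h => by cases h⟩
  | B1 l' c' =>
    exact ⟨fun h => absurd (show (5 : ℕ) = 1 from st_eq h) (by decide),
      fun h => by cases h⟩
  | B2 b' c' =>
    exact ⟨fun h => absurd (show (5 : ℕ) = 1 from st_eq h) (by decide),
      fun h => by cases h⟩
  | B3 b' =>
    exact ⟨fun h => absurd (show (5 : ℕ) = 1 from st_eq h) (by decide),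
      fun h => by cases h⟩
  | B4 d' =>
    exact ⟨fun h => absurd (show (5 : ℕ) = 1 from st_eq h) (by decide),
      fun h => by cases h⟩
  | B5 =>
    exact ⟨fun h => absurd (show (5 : ℕ) = 1 from st_eq h) (by decide),
      fun h => by cases h⟩
  | B6 =>
    exact ⟨fun h => absurd (show (5 : ℕ) = 1 from st_eq h) (by decide),
      fun h => by cases h⟩
  | B7 c' =>
    exact ⟨fun h => absurd (show (5 : ℕ) = 2 from st_eq h) (by decide),
      fun h => by cases h⟩
  | B8 b' =>
    exact ⟨fun h => absurd (show (5 : ℕ) = 3 from st_eq h) (by decide),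
      fun h => by cases h⟩
  | B9 d' =>
    exact ⟨fun h => absurd (show (5 : ℕ) = 3 from st_eq h) (by decide),
      fun h => by cases h⟩
  | B10 =>
    exact ⟨fun h => absurd (show (5 : ℕ) = 3 from st_eq h) (by decide),
      fun h => by cases h⟩
  | B11 c' e' =>
    exact ⟨fun h => absurd (show (5 : ℕ) = 3 from st_eq h) (by decide),
      fun h => by cases h⟩
  | C1 a' b' =>
    exact ⟨fun h => absurd (show (5 : ℕ) = 4 from st_eq h) (by decide),
      fun h => by cases h⟩
  | C2 a' =>
    rw [pair_C4, pair_C2, conj_iff]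
    exact ⟨fun h => (u_C4_C2 _ _ h).elim, fun h => by cases h⟩
  | C3 a' g' =>
    rw [pair_C4, pair_C3, conj_iff]
    exact ⟨fun h => (u_C4_C3 _ _ _ h).elim, fun h => by cases h⟩
  | C4 d' =>
    rw [pair_C4, pair_C4, conj_iff, r_C4]
    exact ⟨u_C4_C4 _ _, c_C4 _ _⟩
  | C5 g' =>
    exact ⟨fun h => absurd (show (5 : ℕ) = 6 from st_eq h) (by decide),
      fun h => by cases h⟩
  | C6 g' =>
    exact ⟨fun h => absurd (show (5 : ℕ) = 6 from st_eq h) (by decide),
      fun h => by cases h⟩
  | C7 =>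
    exact ⟨fun h => absurd (show (5 : ℕ) = 6 from st_eq h) (by decide),
      fun h => by cases h⟩
  | C8 d' =>
    exact ⟨fun h => absurd (show (5 : ℕ) = 6 from st_eq h) (by decide),
      fun h => by cases h⟩
  | C9 =>
    exact ⟨fun h => absurd (show (5 : ℕ) = 6 from st_eq h) (by decide),
      fun h => by cases h⟩
  | C10 =>
    exact ⟨fun h => absurd (show (5 : ℕ) = 7 from st_eq h) (by decide),
      fun h => by cases h⟩
  | C11 d' =>
    exact ⟨fun h => absurd (show (5 : ℕ) = 7 from st_eq h) (by decide),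
      fun h => by cases h⟩
  | D1 a' b' =>
    exact ⟨fun h => absurd (show (5 : ℕ) = 8 from st_eq h) (by decide),
      fun h => by cases h⟩
  | D2 a' =>
    exact ⟨fun h => absurd (show (5 : ℕ) = 8 from st_eq h) (by decide),
      fun h => by cases h⟩
  | E1 =>
    exact ⟨fun h => absurd (show (5 : ℕ) = 8 from st_eq h) (by decide),
      fun h => by cases h⟩

theorem iff_C5 (g : k) (n' : NF k) :
    Conj (character (NF.pair ((.C5 g) : NF k))) (character n'.pair) ↔ NF.Rule (.C5 g) n' := by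
  cases n' with
  | A1 b' c' =>
    exact ⟨fun h => absurd (show (6 : ℕ) = 0 from st_eq h) (by decide),
      fun h => by rcases h with h | h <;> cases h⟩
  | A2 b' c' =>
    exact ⟨fun h => absurd (show (6 : ℕ) = 0 from st_eq h) (by decide),
      fun h => by rcases h with h | h <;> cases h⟩
  | A3 b' =>
    exact ⟨fun h => absurd (show (6 : ℕ) = 0 from st_eq h) (by decide),
      fun h => by rcases h with h | h <;> cases h⟩
  | A4 c' =>
    exact ⟨fun h => absurd (show (6 : ℕ) = 0 from st_eq h) (by decide),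
      fun h => by rcases h with h | h <;> cases h⟩
  | A5 c' =>
    exact ⟨fun h => absurd (show (6 : ℕ) = 0 from st_eq h) (by decide),
      fun h => by rcases h with h | h <;> cases h⟩
  | A6 c' =>
    exact ⟨fun h => absurd (show (6 : ℕ) = 0 from st_eq h) (by decide),
      fun h => by rcases h with h | h <;> cases h⟩
  | A7 =>
    exact ⟨fun h => absurd (show (6 : ℕ) = 0 from st_eq h) (by decide),
      fun h => by rcases h with h | h <;> cases h⟩
  | B1 l' c' =>
    exact ⟨fun h => absurd (show (6 : ℕ) = 1 from st_eq h) (by decide),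
      fun h => by rcases h with h | h <;> cases h⟩
  | B2 b' c' =>
    exact ⟨fun h => absurd (show (6 : ℕ) = 1 from st_eq h) (by decide),
      fun h => by rcases h with h | h <;> cases h⟩
  | B3 b' =>
    exact ⟨fun h => absurd (show (6 : ℕ) = 1 from st_eq h) (by decide),
      fun h => by rcases h with h | h <;> cases h⟩
  | B4 d' =>
    exact ⟨fun h => absurd (show (6 : ℕ) = 1 from st_eq h) (by decide),
      fun h => by rcases h with h | h <;> cases h⟩
  | B5 =>
    exact ⟨fun h => absurd (show (6 : ℕ) = 1 from st_eq h) (by decide),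
      fun h => by rcases h with h | h <;> cases h⟩
  | B6 =>
    exact ⟨fun h => absurd (show (6 : ℕ) = 1 from st_eq h) (by decide),
      fun h => by rcases h with h | h <;> cases h⟩
  | B7 c' =>
    exact ⟨fun h => absurd (show (6 : ℕ) = 2 from st_eq h) (by decide),
      fun h => by rcases h with h | h <;> cases h⟩
  | B8 b' =>
    exact ⟨fun h => absurd (show (6 : ℕ) = 3 from st_eq h) (by decide),
      fun h => by rcases h with h | h <;> cases h⟩
  | B9 d' =>
    exact ⟨fun h => absurd (show (6 : ℕ) = 3 from st_eq h) (by decide),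
      fun h => by rcases h with h | h <;> cases h⟩
  | B10 =>
    exact ⟨fun h => absurd (show (6 : ℕ) = 3 from st_eq h) (by decide),
      fun h => by rcases h with h | h <;> cases h⟩
  | B11 c' e' =>
    exact ⟨fun h => absurd (show (6 : ℕ) = 3 from st_eq h) (by decide),
      fun h => by rcases h with h | h <;> cases h⟩
  | C1 a' b' =>
    exact ⟨fun h => absurd (show (6 : ℕ) = 4 from st_eq h) (by decide),
      fun h => by rcases h with h | h <;> cases h⟩
  | C2 a' =>
    exact ⟨fun h => absurd (show (6 : ℕ) = 5 from st_eq h) (by decide),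
      fun h => by rcases h with h | h <;> cases h⟩
  | C3 a' g' =>
    exact ⟨fun h => absurd (show (6 : ℕ) = 5 from st_eq h) (by decide),
      fun h => by rcases h with h | h <;> cases h⟩
  | C4 d' =>
    exact ⟨fun h => absurd (show (6 : ℕ) = 5 from st_eq h) (by decide),
      fun h => by rcases h with h | h <;> cases h⟩
  | C5 g' =>
    rw [pair_C5, pair_C5, conj_iff, r_C5]
    exact ⟨u_C5_C5 _ _, c_C5 _ _⟩
  | C6 g' =>
    rw [pair_C5, pair_C6, conj_iff]
    exact ⟨fun h => (u_C5_C6 _ _ h).elim, fun h => by rcases h with h | h <;> cases h⟩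
  | C7 =>
    rw [pair_C5, pair_C7, conj_iff]
    exact ⟨fun h => (u_C5_C7 _ h).elim, fun h => by rcases h with h | h <;> cases h⟩
  | C8 d' =>
    rw [pair_C5, pair_C8, conj_iff]
    exact ⟨fun h => (u_C5_C8 _ _ h).elim, fun h => by rcases h with h | h <;> cases h⟩
  | C9 =>
    rw [pair_C5, pair_C9, conj_iff]
    exact ⟨fun h => (u_C5_C9 _ h).elim, fun h => by rcases h with h | h <;> cases h⟩
  | C10 =>
    exact ⟨fun h => absurd (show (6 : ℕ) = 7 from st_eq h) (by decide),
      fun h => by rcases h with h | h <;> cases h⟩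
  | C11 d' =>
    exact ⟨fun h => absurd (show (6 : ℕ) = 7 from st_eq h) (by decide),
      fun h => by rcases h with h | h <;> cases h⟩
  | D1 a' b' =>
    exact ⟨fun h => absurd (show (6 : ℕ) = 8 from st_eq h) (by decide),
      fun h => by rcases h with h | h <;> cases h⟩
  | D2 a' =>
    exact ⟨fun h => absurd (show (6 : ℕ) = 8 from st_eq h) (by decide),
      fun h => by rcases h with h | h <;> cases h⟩
  | E1 =>
    exact ⟨fun h => absurd (show (6 : ℕ) = 8 from st_eq h) (by decide),
      fun h => by rcases h with h | h <;> cases h⟩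

theorem iff_C6 (g : k) (n' : NF k) :
    Conj (character (NF.pair ((.C6 g) : NF k))) (character n'.pair) ↔ NF.Rule (.C6 g) n' := by
  cases n' with
  | A1 b' c' =>
    exact ⟨fun h => absurd (show (6 : ℕ) = 0 from st_eq h) (by decide),
      fun h => by cases h⟩
  | A2 b' c' =>
    exact ⟨fun h => absurd (show (6 : ℕ) = 0 from st_eq h) (by decide),
      fun h => by cases h⟩
  | A3 b' =>
    exact ⟨fun h => absurd (show (6 : ℕ) = 0 from st_eq h) (by decide),
      fun h => by cases h⟩
  | A4 c' =>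
    exact ⟨fun h => absurd (show (6 : ℕ) = 0 from st_eq h) (by decide),
      fun h => by cases h⟩
  | A5 c' =>
    exact ⟨fun h => absurd (show (6 : ℕ) = 0 from st_eq h) (by decide),
      fun h => by cases h⟩
  | A6 c' =>
    exact ⟨fun h => absurd (show (6 : ℕ) = 0 from st_eq h) (by decide),
      fun h => by cases h⟩
  | A7 =>
    exact ⟨fun h => absurd (show (6 : ℕ) = 0 from st_eq h) (by decide),
      fun h => by cases h⟩
  | B1 l' c' =>
    exact ⟨fun h => absurd (show (6 : ℕ) = 1 from st_eq h) (by decide),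
      fun h => by cases h⟩
  | B2 b' c' =>
    exact ⟨fun h => absurd (show (6 : ℕ) = 1 from st_eq h) (by decide),
      fun h => by cases h⟩
  | B3 b' =>
    exact ⟨fun h => absurd (show (6 : ℕ) = 1 from st_eq h) (by decide),
      fun h => by cases h⟩
  | B4 d' =>
    exact ⟨fun h => absurd (show (6 : ℕ) = 1 from st_eq h) (by decide),
      fun h => by cases h⟩
  | B5 =>
    exact ⟨fun h => absurd (show (6 : ℕ) = 1 from st_eq h) (by decide),
      fun h => by cases h⟩
  | B6 =>
    exact ⟨fun h => absurd (show (6 : ℕ) = 1 from st_eq h) (by decide),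
      fun h => by cases h⟩
  | B7 c' =>
    exact ⟨fun h => absurd (show (6 : ℕ) = 2 from st_eq h) (by decide),
      fun h => by cases h⟩
  | B8 b' =>
    exact ⟨fun h => absurd (show (6 : ℕ) = 3 from st_eq h) (by decide),
      fun h => by cases h⟩
  | B9 d' =>
    exact ⟨fun h => absurd (show (6 : ℕ) = 3 from st_eq h) (by decide),
      fun h => by cases h⟩
  | B10 =>
    exact ⟨fun h => absurd (show (6 : ℕ) = 3 from st_eq h) (by decide),
      fun h => by cases h⟩
  | B11 c' e' =>
    exact ⟨fun h => absurd (show (6 : ℕ) = 3 from st_eq h) (by decide),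
      fun h => by cases h⟩
  | C1 a' b' =>
    exact ⟨fun h => absurd (show (6 : ℕ) = 4 from st_eq h) (by decide),
      fun h => by cases h⟩
  | C2 a' =>
    exact ⟨fun h => absurd (show (6 : ℕ) = 5 from st_eq h) (by decide),
      fun h => by cases h⟩
  | C3 a' g' =>
    exact ⟨fun h => absurd (show (6 : ℕ) = 5 from st_eq h) (by decide),
      fun h => by cases h⟩
  | C4 d' =>
    exact ⟨fun h => absurd (show (6 : ℕ) = 5 from st_eq h) (by decide),
      fun h => by cases h⟩
  | C5 g' =>
    rw [pair_C6, pair_C5, conj_iff]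
    exact ⟨fun h => (u_C6_C5 _ _ h).elim, fun h => by cases h⟩
  | C6 g' =>
    rw [pair_C6, pair_C6, conj_iff, r_C6]
    exact ⟨u_C6_C6 _ _, c_C6 _ _⟩
  | C7 =>
    rw [pair_C6, pair_C7, conj_iff]
    exact ⟨fun h => (u_C6_C7 _ h).elim, fun h => by cases h⟩
  | C8 d' =>
    rw [pair_C6, pair_C8, conj_iff]
    exact ⟨fun h => (u_C6_C8 _ _ h).elim, fun h => by cases h⟩
  | C9 =>
    rw [pair_C6, pair_C9, conj_iff]
    exact ⟨fun h => (u_C6_C9 _ h).elim, fun h => by cases h⟩
  | C10 =>
    exact ⟨fun h => absurd (show (6 : ℕ) = 7 from st_eq h) (by decide),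
      fun h => by cases h⟩
  | C11 d' =>
    exact ⟨fun h => absurd (show (6 : ℕ) = 7 from st_eq h) (by decide),
      fun h => by cases h⟩
  | D1 a' b' =>
    exact ⟨fun h => absurd (show (6 : ℕ) = 8 from st_eq h) (by decide),
      fun h => by cases h⟩
  | D2 a' =>
    exact ⟨fun h => absurd (show (6 : ℕ) = 8 from st_eq h) (by decide),
      fun h => by cases h⟩
  | E1 =>
    exact ⟨fun h => absurd (show (6 : ℕ) = 8 from st_eq h) (by decide),
      fun h => by cases h⟩

theorem iff_C7 (n' : NF k) :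
    Conj (character (NF.pair (.C7 : NF k))) (character n'.pair) ↔ NF.Rule .C7 n' := by
  cases n' with
  | A1 b' c' =>
    exact ⟨fun h => absurd (show (6 : ℕ) = 0 from st_eq h) (by decide),
      fun h => by cases h⟩
  | A2 b' c' =>
    exact ⟨fun h => absurd (show (6 : ℕ) = 0 from st_eq h) (by decide),
      fun h => by cases h⟩
  | A3 b' =>
    exact ⟨fun h => absurd (show (6 : ℕ) = 0 from st_eq h) (by decide),
      fun h => by cases h⟩
  | A4 c' =>
    exact ⟨fun h => absurd (show (6 : ℕ) = 0 from st_eq h) (by decide),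
      fun h => by cases h⟩
  | A5 c' =>
    exact ⟨fun h => absurd (show (6 : ℕ) = 0 from st_eq h) (by decide),
      fun h => by cases h⟩
  | A6 c' =>
    exact ⟨fun h => absurd (show (6 : ℕ) = 0 from st_eq h) (by decide),
      fun h => by cases h⟩
  | A7 =>
    exact ⟨fun h => absurd (show (6 : ℕ) = 0 from st_eq h) (by decide),
      fun h => by cases h⟩
  | B1 l' c' =>
    exact ⟨fun h => absurd (show (6 : ℕ) = 1 from st_eq h) (by decide),
      fun h => by cases h⟩
  | B2 b' c' =>
    exact ⟨fun h => absurd (show (6 : ℕ) = 1 from st_eq h) (by decide),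
      fun h => by cases h⟩
  | B3 b' =>
    exact ⟨fun h => absurd (show (6 : ℕ) = 1 from st_eq h) (by decide),
      fun h => by cases h⟩
  | B4 d' =>
    exact ⟨fun h => absurd (show (6 : ℕ) = 1 from st_eq h) (by decide),
      fun h => by cases h⟩
  | B5 =>
    exact ⟨fun h => absurd (show (6 : ℕ) = 1 from st_eq h) (by decide),
      fun h => by cases h⟩
  | B6 =>
    exact ⟨fun h => absurd (show (6 : ℕ) = 1 from st_eq h) (by decide),
      fun h => by cases h⟩
  | B7 c' =>
    exact ⟨fun h => absurd (show (6 : ℕ) = 2 from st_eq h) (by decide),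
      fun h => by cases h⟩
  | B8 b' =>
    exact ⟨fun h => absurd (show (6 : ℕ) = 3 from st_eq h) (by decide),
      fun h => by cases h⟩
  | B9 d' =>
    exact ⟨fun h => absurd (show (6 : ℕ) = 3 from st_eq h) (by decide),
      fun h => by cases h⟩
  | B10 =>
    exact ⟨fun h => absurd (show (6 : ℕ) = 3 from st_eq h) (by decide),
      fun h => by cases h⟩
  | B11 c' e' =>
    exact ⟨fun h => absurd (show (6 : ℕ) = 3 from st_eq h) (by decide),
      fun h => by cases h⟩
  | C1 a' b' =>
    exact ⟨fun h => absurd (show (6 : ℕ) = 4 from st_eq h) (by decide),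
      fun h => by cases h⟩
  | C2 a' =>
    exact ⟨fun h => absurd (show (6 : ℕ) = 5 from st_eq h) (by decide),
      fun h => by cases h⟩
  | C3 a' g' =>
    exact ⟨fun h => absurd (show (6 : ℕ) = 5 from st_eq h) (by decide),
      fun h => by cases h⟩
  | C4 d' =>
    exact ⟨fun h => absurd (show (6 : ℕ) = 5 from st_eq h) (by decide),
      fun h => by cases h⟩
  | C5 g' =>
    rw [pair_C7, pair_C5, conj_iff]
    exact ⟨fun h => (u_C7_C5 _ h).elim, fun h => by cases h⟩
  | C6 g' =>
    rw [pair_C7, pair_C6, conj_iff]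
    exact ⟨fun h => (u_C7_C6 _ h).elim, fun h => by cases h⟩
  | C7 =>
    rw [pair_C7, conj_iff, r_C7]
    exact ⟨u_C7_C7 , c_C7 ⟩
  | C8 d' =>
    rw [pair_C7, pair_C8, conj_iff]
    exact ⟨fun h => (u_C7_C8 _ h).elim, fun h => by cases h⟩
  | C9 =>
    rw [pair_C7, pair_C9, conj_iff]
    exact ⟨fun h => (u_C7_C9  h).elim, fun h => by cases h⟩
  | C10 =>
    exact ⟨fun h => absurd (show (6 : ℕ) = 7 from st_eq h) (by decide),
      fun h => by cases h⟩
  | C11 d' =>
    exact ⟨fun h => absurd (show (6 : ℕ) = 7 from st_eq h) (by decide),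
      fun h => by cases h⟩
  | D1 a' b' =>
    exact ⟨fun h => absurd (show (6 : ℕ) = 8 from st_eq h) (by decide),
      fun h => by cases h⟩
  | D2 a' =>
    exact ⟨fun h => absurd (show (6 : ℕ) = 8 from st_eq h) (by decide),
      fun h => by cases h⟩
  | E1 =>
    exact ⟨fun h => absurd (show (6 : ℕ) = 8 from st_eq h) (by decide),
      fun h => by cases h⟩

theorem iff_C8 (d : k) (n' : NF k) :
    Conj (character (NF.pair ((.C8 d) : NF k))) (character n'.pair) ↔ NF.Rule (.C8 d) n' := by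
  cases n' with
  | A1 b' c' =>
    exact ⟨fun h => absurd (show (6 : ℕ) = 0 from st_eq h) (by decide),
      fun h => by cases h⟩
  | A2 b' c' =>
    exact ⟨fun h => absurd (show (6 : ℕ) = 0 from st_eq h) (by decide),
      fun h => by cases h⟩
  | A3 b' =>
    exact ⟨fun h => absurd (show (6 : ℕ) = 0 from st_eq h) (by decide),
      fun h => by cases h⟩
  | A4 c' =>
    exact ⟨fun h => absurd (show (6 : ℕ) = 0 from st_eq h) (by decide),
      fun h => by cases h⟩
  | A5 c' =>
    exact ⟨fun h => absurd (show (6 : ℕ) = 0 from st_eq h) (by decide),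
      fun h => by cases h⟩
  | A6 c' =>
    exact ⟨fun h => absurd (show (6 : ℕ) = 0 from st_eq h) (by decide),
      fun h => by cases h⟩
  | A7 =>
    exact ⟨fun h => absurd (show (6 : ℕ) = 0 from st_eq h) (by decide),
      fun h => by cases h⟩
  | B1 l' c' =>
    exact ⟨fun h => absurd (show (6 : ℕ) = 1 from st_eq h) (by decide),
      fun h => by cases h⟩
  | B2 b' c' =>
    exact ⟨fun h => absurd (show (6 : ℕ) = 1 from st_eq h) (by decide),
      fun h => by cases h⟩
  | B3 b' =>
    exact ⟨fun h => absurd (show (6 : ℕ) = 1 from st_eq h) (by decide),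
      fun h => by cases h⟩
  | B4 d' =>
    exact ⟨fun h => absurd (show (6 : ℕ) = 1 from st_eq h) (by decide),
      fun h => by cases h⟩
  | B5 =>
    exact ⟨fun h => absurd (show (6 : ℕ) = 1 from st_eq h) (by decide),
      fun h => by cases h⟩
  | B6 =>
    exact ⟨fun h => absurd (show (6 : ℕ) = 1 from st_eq h) (by decide),
      fun h => by cases h⟩
  | B7 c' =>
    exact ⟨fun h => absurd (show (6 : ℕ) = 2 from st_eq h) (by decide),
      fun h => by cases h⟩
  | B8 b' =>
    exact ⟨fun h => absurd (show (6 : ℕ) = 3 from st_eq h) (by decide),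
      fun h => by cases h⟩
  | B9 d' =>
    exact ⟨fun h => absurd (show (6 : ℕ) = 3 from st_eq h) (by decide),
      fun h => by cases h⟩
  | B10 =>
    exact ⟨fun h => absurd (show (6 : ℕ) = 3 from st_eq h) (by decide),
      fun h => by cases h⟩
  | B11 c' e' =>
    exact ⟨fun h => absurd (show (6 : ℕ) = 3 from st_eq h) (by decide),
      fun h => by cases h⟩
  | C1 a' b' =>
    exact ⟨fun h => absurd (show (6 : ℕ) = 4 from st_eq h) (by decide),
      fun h => by cases h⟩
  | C2 a' =>
    exact ⟨fun h => absurd (show (6 : ℕ) = 5 from st_eq h) (by decide),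
      fun h => by cases h⟩
  | C3 a' g' =>
    exact ⟨fun h => absurd (show (6 : ℕ) = 5 from st_eq h) (by decide),
      fun h => by cases h⟩
  | C4 d' =>
    exact ⟨fun h => absurd (show (6 : ℕ) = 5 from st_eq h) (by decide),
      fun h => by cases h⟩
  | C5 g' =>
    rw [pair_C8, pair_C5, conj_iff]
    exact ⟨fun h => (u_C8_C5 _ _ h).elim, fun h => by cases h⟩
  | C6 g' =>
    rw [pair_C8, pair_C6, conj_iff]
    exact ⟨fun h => (u_C8_C6 _ _ h).elim, fun h => by cases h⟩
  | C7 =>
    rw [pair_C8, pair_C7, conj_iff]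
    exact ⟨fun h => (u_C8_C7 _ h).elim, fun h => by cases h⟩
  | C8 d' =>
    rw [pair_C8, pair_C8, conj_iff, r_C8]
    exact ⟨u_C8_C8 _ _, c_C8 _ _⟩
  | C9 =>
    rw [pair_C8, pair_C9, conj_iff]
    exact ⟨fun h => (u_C8_C9 _ h).elim, fun h => by cases h⟩
  | C10 =>
    exact ⟨fun h => absurd (show (6 : ℕ) = 7 from st_eq h) (by decide),
      fun h => by cases h⟩
  | C11 d' =>
    exact ⟨fun h => absurd (show (6 : ℕ) = 7 from st_eq h) (by decide),
      fun h => by cases h⟩
  | D1 a' b' =>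
    exact ⟨fun h => absurd (show (6 : ℕ) = 8 from st_eq h) (by decide),
      fun h => by cases h⟩
  | D2 a' =>
    exact ⟨fun h => absurd (show (6 : ℕ) = 8 from st_eq h) (by decide),
      fun h => by cases h⟩
  | E1 =>
    exact ⟨fun h => absurd (show (6 : ℕ) = 8 from st_eq h) (by decide),
      fun h => by cases h⟩

theorem iff_C9 (n' : NF k) :
    Conj (character (NF.pair (.C9 : NF k))) (character n'.pair) ↔ NF.Rule .C9 n' := by
  cases n' with
  | A1 b' c' =>
    exact ⟨fun h => absurd (show (6 : ℕ) = 0 from st_eq h) (by decide),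
      fun h => by cases h⟩
  | A2 b' c' =>
    exact ⟨fun h => absurd (show (6 : ℕ) = 0 from st_eq h) (by decide),
      fun h => by cases h⟩
  | A3 b' =>
    exact ⟨fun h => absurd (show (6 : ℕ) = 0 from st_eq h) (by decide),
      fun h => by cases h⟩
  | A4 c' =>
    exact ⟨fun h => absurd (show (6 : ℕ) = 0 from st_eq h) (by decide),
      fun h => by cases h⟩
  | A5 c' =>
    exact ⟨fun h => absurd (show (6 : ℕ) = 0 from st_eq h) (by decide),
      fun h => by cases h⟩
  | A6 c' =>
    exact ⟨fun h => absurd (show (6 : ℕ) = 0 from st_eq h) (by decide),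
      fun h => by cases h⟩
  | A7 =>
    exact ⟨fun h => absurd (show (6 : ℕ) = 0 from st_eq h) (by decide),
      fun h => by cases h⟩
  | B1 l' c' =>
    exact ⟨fun h => absurd (show (6 : ℕ) = 1 from st_eq h) (by decide),
      fun h => by cases h⟩
  | B2 b' c' =>
    exact ⟨fun h => absurd (show (6 : ℕ) = 1 from st_eq h) (by decide),
      fun h => by cases h⟩
  | B3 b' =>
    exact ⟨fun h => absurd (show (6 : ℕ) = 1 from st_eq h) (by decide),
      fun h => by cases h⟩
  | B4 d' =>
    exact ⟨fun h => absurd (show (6 : ℕ) = 1 from st_eq h) (by decide),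
      fun h => by cases h⟩
  | B5 =>
    exact ⟨fun h => absurd (show (6 : ℕ) = 1 from st_eq h) (by decide),
      fun h => by cases h⟩
  | B6 =>
    exact ⟨fun h => absurd (show (6 : ℕ) = 1 from st_eq h) (by decide),
      fun h => by cases h⟩
  | B7 c' =>
    exact ⟨fun h => absurd (show (6 : ℕ) = 2 from st_eq h) (by decide),
      fun h => by cases h⟩
  | B8 b' =>
    exact ⟨fun h => absurd (show (6 : ℕ) = 3 from st_eq h) (by decide),
      fun h => by cases h⟩
  | B9 d' =>
    exact ⟨fun h => absurd (show (6 : ℕ) = 3 from st_eq h) (by decide),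
      fun h => by cases h⟩
  | B10 =>
    exact ⟨fun h => absurd (show (6 : ℕ) = 3 from st_eq h) (by decide),
      fun h => by cases h⟩
  | B11 c' e' =>
    exact ⟨fun h => absurd (show (6 : ℕ) = 3 from st_eq h) (by decide),
      fun h => by cases h⟩
  | C1 a' b' =>
    exact ⟨fun h => absurd (show (6 : ℕ) = 4 from st_eq h) (by decide),
      fun h => by cases h⟩
  | C2 a' =>
    exact ⟨fun h => absurd (show (6 : ℕ) = 5 from st_eq h) (by decide),
      fun h => by cases h⟩
  | C3 a' g' =>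
    exact ⟨fun h => absurd (show (6 : ℕ) = 5 from st_eq h) (by decide),
      fun h => by cases h⟩
  | C4 d' =>
    exact ⟨fun h => absurd (show (6 : ℕ) = 5 from st_eq h) (by decide),
      fun h => by cases h⟩
  | C5 g' =>
    rw [pair_C9, pair_C5, conj_iff]
    exact ⟨fun h => (u_C9_C5 _ h).elim, fun h => by cases h⟩
  | C6 g' =>
    rw [pair_C9, pair_C6, conj_iff]
    exact ⟨fun h => (u_C9_C6 _ h).elim, fun h => by cases h⟩
  | C7 =>
    rw [pair_C9, pair_C7, conj_iff]
    exact ⟨fun h => (u_C9_C7  h).elim, fun h => by cases h⟩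
  | C8 d' =>
    rw [pair_C9, pair_C8, conj_iff]
    exact ⟨fun h => (u_C9_C8 _ h).elim, fun h => by cases h⟩
  | C9 =>
    rw [pair_C9, conj_iff, r_C9]
    exact ⟨u_C9_C9 , c_C9 ⟩
  | C10 =>
    exact ⟨fun h => absurd (show (6 : ℕ) = 7 from st_eq h) (by decide),
      fun h => by cases h⟩
  | C11 d' =>
    exact ⟨fun h => absurd (show (6 : ℕ) = 7 from st_eq h) (by decide),
      fun h => by cases h⟩
  | D1 a' b' =>
    exact ⟨fun h => absurd (show (6 : ℕ) = 8 from st_eq h) (by decide),
      fun h => by cases h⟩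
  | D2 a' =>
    exact ⟨fun h => absurd (show (6 : ℕ) = 8 from st_eq h) (by decide),
      fun h => by cases h⟩
  | E1 =>
    exact ⟨fun h => absurd (show (6 : ℕ) = 8 from st_eq h) (by decide),
      fun h => by cases h⟩

theorem iff_C10 (n' : NF k) :
    Conj (character (NF.pair (.C10 : NF k))) (character n'.pair) ↔ NF.Rule .C10 n' := by
  cases n' with
  | A1 b' c' =>
    exact ⟨fun h => absurd (show (7 : ℕ) = 0 from st_eq h) (by decide),
      fun h => by cases h⟩
  | A2 b' c' =>
    exact ⟨fun h => absurd (show (7 : ℕ) = 0 from st_eq h) (by decide),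
      fun h => by cases h⟩
  | A3 b' =>
    exact ⟨fun h => absurd (show (7 : ℕ) = 0 from st_eq h) (by decide),
      fun h => by cases h⟩
  | A4 c' =>
    exact ⟨fun h => absurd (show (7 : ℕ) = 0 from st_eq h) (by decide),
      fun h => by cases h⟩
  | A5 c' =>
    exact ⟨fun h => absurd (show (7 : ℕ) = 0 from st_eq h) (by decide),
      fun h => by cases h⟩
  | A6 c' =>
    exact ⟨fun h => absurd (show (7 : ℕ) = 0 from st_eq h) (by decide),
      fun h => by cases h⟩
  | A7 =>
    exact ⟨fun h => absurd (show (7 : ℕ) = 0 from st_eq h) (by decide),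
      fun h => by cases h⟩
  | B1 l' c' =>
    exact ⟨fun h => absurd (show (7 : ℕ) = 1 from st_eq h) (by decide),
      fun h => by cases h⟩
  | B2 b' c' =>
    exact ⟨fun h => absurd (show (7 : ℕ) = 1 from st_eq h) (by decide),
      fun h => by cases h⟩
  | B3 b' =>
    exact ⟨fun h => absurd (show (7 : ℕ) = 1 from st_eq h) (by decide),
      fun h => by cases h⟩
  | B4 d' =>
    exact ⟨fun h => absurd (show (7 : ℕ) = 1 from st_eq h) (by decide),
      fun h => by cases h⟩
  | B5 =>
    exact ⟨fun h => absurd (show (7 : ℕ) = 1 from st_eq h) (by decide),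
      fun h => by cases h⟩
  | B6 =>
    exact ⟨fun h => absurd (show (7 : ℕ) = 1 from st_eq h) (by decide),
      fun h => by cases h⟩
  | B7 c' =>
    exact ⟨fun h => absurd (show (7 : ℕ) = 2 from st_eq h) (by decide),
      fun h => by cases h⟩
  | B8 b' =>
    exact ⟨fun h => absurd (show (7 : ℕ) = 3 from st_eq h) (by decide),
      fun h => by cases h⟩
  | B9 d' =>
    exact ⟨fun h => absurd (show (7 : ℕ) = 3 from st_eq h) (by decide),
      fun h => by cases h⟩
  | B10 =>
    exact ⟨fun h => absurd (show (7 : ℕ) = 3 from st_eq h) (by decide),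
      fun h => by cases h⟩
  | B11 c' e' =>
    exact ⟨fun h => absurd (show (7 : ℕ) = 3 from st_eq h) (by decide),
      fun h => by cases h⟩
  | C1 a' b' =>
    exact ⟨fun h => absurd (show (7 : ℕ) = 4 from st_eq h) (by decide),
      fun h => by cases h⟩
  | C2 a' =>
    exact ⟨fun h => absurd (show (7 : ℕ) = 5 from st_eq h) (by decide),
      fun h => by cases h⟩
  | C3 a' g' =>
    exact ⟨fun h => absurd (show (7 : ℕ) = 5 from st_eq h) (by decide),
      fun h => by cases h⟩
  | C4 d' =>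
    exact ⟨fun h => absurd (show (7 : ℕ) = 5 from st_eq h) (by decide),
      fun h => by cases h⟩
  | C5 g' =>
    exact ⟨fun h => absurd (show (7 : ℕ) = 6 from st_eq h) (by decide),
      fun h => by cases h⟩
  | C6 g' =>
    exact ⟨fun h => absurd (show (7 : ℕ) = 6 from st_eq h) (by decide),
      fun h => by cases h⟩
  | C7 =>
    exact ⟨fun h => absurd (show (7 : ℕ) = 6 from st_eq h) (by decide),
      fun h => by cases h⟩
  | C8 d' =>
    exact ⟨fun h => absurd (show (7 : ℕ) = 6 from st_eq h) (by decide),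
      fun h => by cases h⟩
  | C9 =>
    exact ⟨fun h => absurd (show (7 : ℕ) = 6 from st_eq h) (by decide),
      fun h => by cases h⟩
  | C10 =>
    rw [pair_C10, conj_iff, r_C10]
    exact ⟨u_C10_C10 , c_C10 ⟩
  | C11 d' =>
    rw [pair_C10, pair_C11, conj_iff]
    exact ⟨fun h => (u_C10_C11 _ h).elim, fun h => by cases h⟩
  | D1 a' b' =>
    exact ⟨fun h => absurd (show (7 : ℕ) = 8 from st_eq h) (by decide),
      fun h => by cases h⟩
  | D2 a' =>
    exact ⟨fun h => absurd (show (7 : ℕ) = 8 from st_eq h) (by decide),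
      fun h => by cases h⟩
  | E1 =>
    exact ⟨fun h => absurd (show (7 : ℕ) = 8 from st_eq h) (by decide),
      fun h => by cases h⟩

theorem iff_C11 (d : k) (n' : NF k) :
    Conj (character (NF.pair ((.C11 d) : NF k))) (character n'.pair) ↔ NF.Rule (.C11 d) n' := by
  cases n' with
  | A1 b' c' =>
    exact ⟨fun h => absurd (show (7 : ℕ) = 0 from st_eq h) (by decide),
      fun h => by cases h⟩
  | A2 b' c' =>
    exact ⟨fun h => absurd (show (7 : ℕ) = 0 from st_eq h) (by decide),
      fun h => by cases h⟩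
  | A3 b' =>
    exact ⟨fun h => absurd (show (7 : ℕ) = 0 from st_eq h) (by decide),
      fun h => by cases h⟩
  | A4 c' =>
    exact ⟨fun h => absurd (show (7 : ℕ) = 0 from st_eq h) (by decide),
      fun h => by cases h⟩
  | A5 c' =>
    exact ⟨fun h => absurd (show (7 : ℕ) = 0 from st_eq h) (by decide),
      fun h => by cases h⟩
  | A6 c' =>
    exact ⟨fun h => absurd (show (7 : ℕ) = 0 from st_eq h) (by decide),
      fun h => by cases h⟩
  | A7 =>
    exact ⟨fun h => absurd (show (7 : ℕ) = 0 from st_eq h) (by decide),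
      fun h => by cases h⟩
  | B1 l' c' =>
    exact ⟨fun h => absurd (show (7 : ℕ) = 1 from st_eq h) (by decide),
      fun h => by cases h⟩
  | B2 b' c' =>
    exact ⟨fun h => absurd (show (7 : ℕ) = 1 from st_eq h) (by decide),
      fun h => by cases h⟩
  | B3 b' =>
    exact ⟨fun h => absurd (show (7 : ℕ) = 1 from st_eq h) (by decide),
      fun h => by cases h⟩
  | B4 d' =>
    exact ⟨fun h => absurd (show (7 : ℕ) = 1 from st_eq h) (by decide),
      fun h => by cases h⟩
  | B5 =>
    exact ⟨fun h => absurd (show (7 : ℕ) = 1 from st_eq h) (by decide),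
      fun h => by cases h⟩
  | B6 =>
    exact ⟨fun h => absurd (show (7 : ℕ) = 1 from st_eq h) (by decide),
      fun h => by cases h⟩
  | B7 c' =>
    exact ⟨fun h => absurd (show (7 : ℕ) = 2 from st_eq h) (by decide),
      fun h => by cases h⟩
  | B8 b' =>
    exact ⟨fun h => absurd (show (7 : ℕ) = 3 from st_eq h) (by decide),
      fun h => by cases h⟩
  | B9 d' =>
    exact ⟨fun h => absurd (show (7 : ℕ) = 3 from st_eq h) (by decide),
      fun h => by cases h⟩
  | B10 =>
    exact ⟨fun h => absurd (show (7 : ℕ) = 3 from st_eq h) (by decide),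
      fun h => by cases h⟩
  | B11 c' e' =>
    exact ⟨fun h => absurd (show (7 : ℕ) = 3 from st_eq h) (by decide),
      fun h => by cases h⟩
  | C1 a' b' =>
    exact ⟨fun h => absurd (show (7 : ℕ) = 4 from st_eq h) (by decide),
      fun h => by cases h⟩
  | C2 a' =>
    exact ⟨fun h => absurd (show (7 : ℕ) = 5 from st_eq h) (by decide),
      fun h => by cases h⟩
  | C3 a' g' =>
    exact ⟨fun h => absurd (show (7 : ℕ) = 5 from st_eq h) (by decide),
      fun h => by cases h⟩
  | C4 d' =>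
    exact ⟨fun h => absurd (show (7 : ℕ) = 5 from st_eq h) (by decide),
      fun h => by cases h⟩
  | C5 g' =>
    exact ⟨fun h => absurd (show (7 : ℕ) = 6 from st_eq h) (by decide),
      fun h => by cases h⟩
  | C6 g' =>
    exact ⟨fun h => absurd (show (7 : ℕ) = 6 from st_eq h) (by decide),
      fun h => by cases h⟩
  | C7 =>
    exact ⟨fun h => absurd (show (7 : ℕ) = 6 from st_eq h) (by decide),
      fun h => by cases h⟩
  | C8 d' =>
    exact ⟨fun h => absurd (show (7 : ℕ) = 6 from st_eq h) (by decide),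
      fun h => by cases h⟩
  | C9 =>
    exact ⟨fun h => absurd (show (7 : ℕ) = 6 from st_eq h) (by decide),
      fun h => by cases h⟩
  | C10 =>
    rw [pair_C11, pair_C10, conj_iff]
    exact ⟨fun h => (u_C11_C10 _ h).elim, fun h => by cases h⟩
  | C11 d' =>
    rw [pair_C11, pair_C11, conj_iff, r_C11]
    exact ⟨u_C11_C11 _ _, c_C11 _ _⟩
  | D1 a' b' =>
    exact ⟨fun h => absurd (show (7 : ℕ) = 8 from st_eq h) (by decide),
      fun h => by cases h⟩
  | D2 a' =>
    exact ⟨fun h => absurd (show (7 : ℕ) = 8 from st_eq h) (by decide),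
      fun h => by cases h⟩
  | E1 =>
    exact ⟨fun h => absurd (show (7 : ℕ) = 8 from st_eq h) (by decide),
      fun h => by cases h⟩

theorem iff_D1 (a b : k) (n' : NF k) :
    Conj (character (NF.pair ((.D1 a b) : NF k))) (character n'.pair) ↔ NF.Rule (.D1 a b) n' := by
  cases n' with
  | A1 b' c' =>
    exact ⟨fun h => absurd (show (8 : ℕ) = 0 from st_eq h) (by decide),
      fun h => by rcases h with h | h <;> cases h⟩
  | A2 b' c' =>
    exact ⟨fun h => absurd (show (8 : ℕ) = 0 from st_eq h) (by decide),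
      fun h => by rcases h with h | h <;> cases h⟩
  | A3 b' =>
    exact ⟨fun h => absurd (show (8 : ℕ) = 0 from st_eq h) (by decide),
      fun h => by rcases h with h | h <;> cases h⟩
  | A4 c' =>
    exact ⟨fun h => absurd (show (8 : ℕ) = 0 from st_eq h) (by decide),
      fun h => by rcases h with h | h <;> cases h⟩
  | A5 c' =>
    exact ⟨fun h => absurd (show (8 : ℕ) = 0 from st_eq h) (by decide),
      fun h => by rcases h with h | h <;> cases h⟩
  | A6 c' =>
    exact ⟨fun h => absurd (show (8 : ℕ) = 0 from st_eq h) (by decide),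
      fun h => by rcases h with h | h <;> cases h⟩
  | A7 =>
    exact ⟨fun h => absurd (show (8 : ℕ) = 0 from st_eq h) (by decide),
      fun h => by rcases h with h | h <;> cases h⟩
  | B1 l' c' =>
    exact ⟨fun h => absurd (show (8 : ℕ) = 1 from st_eq h) (by decide),
      fun h => by rcases h with h | h <;> cases h⟩
  | B2 b' c' =>
    exact ⟨fun h => absurd (show (8 : ℕ) = 1 from st_eq h) (by decide),
      fun h => by rcases h with h | h <;> cases h⟩
  | B3 b' =>
    exact ⟨fun h => absurd (show (8 : ℕ) = 1 from st_eq h) (by decide),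
      fun h => by rcases h with h | h <;> cases h⟩
  | B4 d' =>
    exact ⟨fun h => absurd (show (8 : ℕ) = 1 from st_eq h) (by decide),
      fun h => by rcases h with h | h <;> cases h⟩
  | B5 =>
    exact ⟨fun h => absurd (show (8 : ℕ) = 1 from st_eq h) (by decide),
      fun h => by rcases h with h | h <;> cases h⟩
  | B6 =>
    exact ⟨fun h => absurd (show (8 : ℕ) = 1 from st_eq h) (by decide),
      fun h => by rcases h with h | h <;> cases h⟩
  | B7 c' =>
    exact ⟨fun h => absurd (show (8 : ℕ) = 2 from st_eq h) (by decide),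
      fun h => by rcases h with h | h <;> cases h⟩
  | B8 b' =>
    exact ⟨fun h => absurd (show (8 : ℕ) = 3 from st_eq h) (by decide),
      fun h => by rcases h with h | h <;> cases h⟩
  | B9 d' =>
    exact ⟨fun h => absurd (show (8 : ℕ) = 3 from st_eq h) (by decide),
      fun h => by rcases h with h | h <;> cases h⟩
  | B10 =>
    exact ⟨fun h => absurd (show (8 : ℕ) = 3 from st_eq h) (by decide),
      fun h => by rcases h with h | h <;> cases h⟩
  | B11 c' e' =>
    exact ⟨fun h => absurd (show (8 : ℕ) = 3 from st_eq h) (by decide),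
      fun h => by rcases h with h | h <;> cases h⟩
  | C1 a' b' =>
    exact ⟨fun h => absurd (show (8 : ℕ) = 4 from st_eq h) (by decide),
      fun h => by rcases h with h | h <;> cases h⟩
  | C2 a' =>
    exact ⟨fun h => absurd (show (8 : ℕ) = 5 from st_eq h) (by decide),
      fun h => by rcases h with h | h <;> cases h⟩
  | C3 a' g' =>
    exact ⟨fun h => absurd (show (8 : ℕ) = 5 from st_eq h) (by decide),
      fun h => by rcases h with h | h <;> cases h⟩
  | C4 d' =>
    exact ⟨fun h => absurd (show (8 : ℕ) = 5 from st_eq h) (by decide),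
      fun h => by rcases h with h | h <;> cases h⟩
  | C5 g' =>
    exact ⟨fun h => absurd (show (8 : ℕ) = 6 from st_eq h) (by decide),
      fun h => by rcases h with h | h <;> cases h⟩
  | C6 g' =>
    exact ⟨fun h => absurd (show (8 : ℕ) = 6 from st_eq h) (by decide),
      fun h => by rcases h with h | h <;> cases h⟩
  | C7 =>
    exact ⟨fun h => absurd (show (8 : ℕ) = 6 from st_eq h) (by decide),
      fun h => by rcases h with h | h <;> cases h⟩
  | C8 d' =>
    exact ⟨fun h => absurd (show (8 : ℕ) = 6 from st_eq h) (by decide),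
      fun h => by rcases h with h | h <;> cases h⟩
  | C9 =>
    exact ⟨fun h => absurd (show (8 : ℕ) = 6 from st_eq h) (by decide),
      fun h => by rcases h with h | h <;> cases h⟩
  | C10 =>
    exact ⟨fun h => absurd (show (8 : ℕ) = 7 from st_eq h) (by decide),
      fun h => by rcases h with h | h <;> cases h⟩
  | C11 d' =>
    exact ⟨fun h => absurd (show (8 : ℕ) = 7 from st_eq h) (by decide),
      fun h => by rcases h with h | h <;> cases h⟩
  | D1 a' b' =>
    rw [pair_D1, pair_D1, conj_iff, r_D1]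
    exact ⟨u_D1_D1 _ _ _ _, c_D1 _ _ _ _⟩
  | D2 a' =>
    rw [pair_D1, pair_D2, conj_iff]
    exact ⟨fun h => (u_D1_D2 _ _ _ h).elim, fun h => by rcases h with h | h <;> cases h⟩
  | E1 =>
    rw [pair_D1, pair_E1, conj_iff]
    exact ⟨fun h => (u_D1_E1 _ _ h).elim, fun h => by rcases h with h | h <;> cases h⟩

theorem iff_D2 (a : k) (n' : NF k) :
    Conj (character (NF.pair ((.D2 a) : NF k))) (character n'.pair) ↔ NF.Rule (.D2 a) n' := by
  cases n' with
  | A1 b' c' =>
    exact ⟨fun h => absurd (show (8 : ℕ) = 0 from st_eq h) (by decide),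
      fun h => by cases h⟩
  | A2 b' c' =>
    exact ⟨fun h => absurd (show (8 : ℕ) = 0 from st_eq h) (by decide),
      fun h => by cases h⟩
  | A3 b' =>
    exact ⟨fun h => absurd (show (8 : ℕ) = 0 from st_eq h) (by decide),
      fun h => by cases h⟩
  | A4 c' =>
    exact ⟨fun h => absurd (show (8 : ℕ) = 0 from st_eq h) (by decide),
      fun h => by cases h⟩
  | A5 c' =>
    exact ⟨fun h => absurd (show (8 : ℕ) = 0 from st_eq h) (by decide),
      fun h => by cases h⟩
  | A6 c' =>
    exact ⟨fun h => absurd (show (8 : ℕ) = 0 from st_eq h) (by decide),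
      fun h => by cases h⟩
  | A7 =>
    exact ⟨fun h => absurd (show (8 : ℕ) = 0 from st_eq h) (by decide),
      fun h => by cases h⟩
  | B1 l' c' =>
    exact ⟨fun h => absurd (show (8 : ℕ) = 1 from st_eq h) (by decide),
      fun h => by cases h⟩
  | B2 b' c' =>
    exact ⟨fun h => absurd (show (8 : ℕ) = 1 from st_eq h) (by decide),
      fun h => by cases h⟩
  | B3 b' =>
    exact ⟨fun h => absurd (show (8 : ℕ) = 1 from st_eq h) (by decide),
      fun h => by cases h⟩
  | B4 d' =>
    exact ⟨fun h => absurd (show (8 : ℕ) = 1 from st_eq h) (by decide),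
      fun h => by cases h⟩
  | B5 =>
    exact ⟨fun h => absurd (show (8 : ℕ) = 1 from st_eq h) (by decide),
      fun h => by cases h⟩
  | B6 =>
    exact ⟨fun h => absurd (show (8 : ℕ) = 1 from st_eq h) (by decide),
      fun h => by cases h⟩
  | B7 c' =>
    exact ⟨fun h => absurd (show (8 : ℕ) = 2 from st_eq h) (by decide),
      fun h => by cases h⟩
  | B8 b' =>
    exact ⟨fun h => absurd (show (8 : ℕ) = 3 from st_eq h) (by decide),
      fun h => by cases h⟩
  | B9 d' =>
    exact ⟨fun h => absurd (show (8 : ℕ) = 3 from st_eq h) (by decide),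
      fun h => by cases h⟩
  | B10 =>
    exact ⟨fun h => absurd (show (8 : ℕ) = 3 from st_eq h) (by decide),
      fun h => by cases h⟩
  | B11 c' e' =>
    exact ⟨fun h => absurd (show (8 : ℕ) = 3 from st_eq h) (by decide),
      fun h => by cases h⟩
  | C1 a' b' =>
    exact ⟨fun h => absurd (show (8 : ℕ) = 4 from st_eq h) (by decide),
      fun h => by cases h⟩
  | C2 a' =>
    exact ⟨fun h => absurd (show (8 : ℕ) = 5 from st_eq h) (by decide),
      fun h => by cases h⟩
  | C3 a' g' =>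
    exact ⟨fun h => absurd (show (8 : ℕ) = 5 from st_eq h) (by decide),
      fun h => by cases h⟩
  | C4 d' =>
    exact ⟨fun h => absurd (show (8 : ℕ) = 5 from st_eq h) (by decide),
      fun h => by cases h⟩
  | C5 g' =>
    exact ⟨fun h => absurd (show (8 : ℕ) = 6 from st_eq h) (by decide),
      fun h => by cases h⟩
  | C6 g' =>
    exact ⟨fun h => absurd (show (8 : ℕ) = 6 from st_eq h) (by decide),
      fun h => by cases h⟩
  | C7 =>
    exact ⟨fun h => absurd (show (8 : ℕ) = 6 from st_eq h) (by decide),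
      fun h => by cases h⟩
  | C8 d' =>
    exact ⟨fun h => absurd (show (8 : ℕ) = 6 from st_eq h) (by decide),
      fun h => by cases h⟩
  | C9 =>
    exact ⟨fun h => absurd (show (8 : ℕ) = 6 from st_eq h) (by decide),
      fun h => by cases h⟩
  | C10 =>
    exact ⟨fun h => absurd (show (8 : ℕ) = 7 from st_eq h) (by decide),
      fun h => by cases h⟩
  | C11 d' =>
    exact ⟨fun h => absurd (show (8 : ℕ) = 7 from st_eq h) (by decide),
      fun h => by cases h⟩
  | D1 a' b' =>
    rw [pair_D2, pair_D1, conj_iff]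
    exact ⟨fun h => (u_D2_D1 _ _ _ h).elim, fun h => by cases h⟩
  | D2 a' =>
    rw [pair_D2, pair_D2, conj_iff, r_D2]
    exact ⟨u_D2_D2 _ _, c_D2 _ _⟩
  | E1 =>
    rw [pair_D2, pair_E1, conj_iff]
    exact ⟨fun h => (u_D2_E1 _ h).elim, fun h => by cases h⟩

theorem iff_E1 (n' : NF k) :
    Conj (character (NF.pair (.E1 : NF k))) (character n'.pair) ↔ NF.Rule .E1 n' := by
  cases n' with
  | A1 b' c' =>
    exact ⟨fun h => absurd (show (8 : ℕ) = 0 from st_eq h) (by decide),
      fun h => by cases h⟩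
  | A2 b' c' =>
    exact ⟨fun h => absurd (show (8 : ℕ) = 0 from st_eq h) (by decide),
      fun h => by cases h⟩
  | A3 b' =>
    exact ⟨fun h => absurd (show (8 : ℕ) = 0 from st_eq h) (by decide),
      fun h => by cases h⟩
  | A4 c' =>
    exact ⟨fun h => absurd (show (8 : ℕ) = 0 from st_eq h) (by decide),
      fun h => by cases h⟩
  | A5 c' =>
    exact ⟨fun h => absurd (show (8 : ℕ) = 0 from st_eq h) (by decide),
      fun h => by cases h⟩
  | A6 c' =>
    exact ⟨fun h => absurd (show (8 : ℕ) = 0 from st_eq h) (by decide),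
      fun h => by cases h⟩
  | A7 =>
    exact ⟨fun h => absurd (show (8 : ℕ) = 0 from st_eq h) (by decide),
      fun h => by cases h⟩
  | B1 l' c' =>
    exact ⟨fun h => absurd (show (8 : ℕ) = 1 from st_eq h) (by decide),
      fun h => by cases h⟩
  | B2 b' c' =>
    exact ⟨fun h => absurd (show (8 : ℕ) = 1 from st_eq h) (by decide),
      fun h => by cases h⟩
  | B3 b' =>
    exact ⟨fun h => absurd (show (8 : ℕ) = 1 from st_eq h) (by decide),
      fun h => by cases h⟩
  | B4 d' =>
    exact ⟨fun h => absurd (show (8 : ℕ) = 1 from st_eq h) (by decide),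
      fun h => by cases h⟩
  | B5 =>
    exact ⟨fun h => absurd (show (8 : ℕ) = 1 from st_eq h) (by decide),
      fun h => by cases h⟩
  | B6 =>
    exact ⟨fun h => absurd (show (8 : ℕ) = 1 from st_eq h) (by decide),
      fun h => by cases h⟩
  | B7 c' =>
    exact ⟨fun h => absurd (show (8 : ℕ) = 2 from st_eq h) (by decide),
      fun h => by cases h⟩
  | B8 b' =>
    exact ⟨fun h => absurd (show (8 : ℕ) = 3 from st_eq h) (by decide),
      fun h => by cases h⟩
  | B9 d' =>
    exact ⟨fun h => absurd (show (8 : ℕ) = 3 from st_eq h) (by decide),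
      fun h => by cases h⟩
  | B10 =>
    exact ⟨fun h => absurd (show (8 : ℕ) = 3 from st_eq h) (by decide),
      fun h => by cases h⟩
  | B11 c' e' =>
    exact ⟨fun h => absurd (show (8 : ℕ) = 3 from st_eq h) (by decide),
      fun h => by cases h⟩
  | C1 a' b' =>
    exact ⟨fun h => absurd (show (8 : ℕ) = 4 from st_eq h) (by decide),
      fun h => by cases h⟩
  | C2 a' =>
    exact ⟨fun h => absurd (show (8 : ℕ) = 5 from st_eq h) (by decide),
      fun h => by cases h⟩
  | C3 a' g' =>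
    exact ⟨fun h => absurd (show (8 : ℕ) = 5 from st_eq h) (by decide),
      fun h => by cases h⟩
  | C4 d' =>
    exact ⟨fun h => absurd (show (8 : ℕ) = 5 from st_eq h) (by decide),
      fun h => by cases h⟩
  | C5 g' =>
    exact ⟨fun h => absurd (show (8 : ℕ) = 6 from st_eq h) (by decide),
      fun h => by cases h⟩
  | C6 g' =>
    exact ⟨fun h => absurd (show (8 : ℕ) = 6 from st_eq h) (by decide),
      fun h => by cases h⟩
  | C7 =>
    exact ⟨fun h => absurd (show (8 : ℕ) = 6 from st_eq h) (by decide),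
      fun h => by cases h⟩
  | C8 d' =>
    exact ⟨fun h => absurd (show (8 : ℕ) = 6 from st_eq h) (by decide),
      fun h => by cases h⟩
  | C9 =>
    exact ⟨fun h => absurd (show (8 : ℕ) = 6 from st_eq h) (by decide),
      fun h => by cases h⟩
  | C10 =>
    exact ⟨fun h => absurd (show (8 : ℕ) = 7 from st_eq h) (by decide),
      fun h => by cases h⟩
  | C11 d' =>
    exact ⟨fun h => absurd (show (8 : ℕ) = 7 from st_eq h) (by decide),
      fun h => by cases h⟩
  | D1 a' b' =>
    rw [pair_E1, pair_D1, conj_iff]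
    exact ⟨fun h => (u_E1_D1 _ _ h).elim, fun h => by cases h⟩
  | D2 a' =>
    rw [pair_E1, pair_D2, conj_iff]
    exact ⟨fun h => (u_E1_D2 _ h).elim, fun h => by cases h⟩
  | E1 =>
    rw [pair_E1, conj_iff, r_E1]
    exact ⟨u_E1_E1 , c_E1 ⟩

theorem conj_iff_rule (n n' : NF k) :
    Conj (character n.pair) (character n'.pair) ↔ n.Rule n' := by
  cases n with
  | A1 b c => exact iff_A1 ..
  | A2 b c => exact iff_A2 ..
  | A3 b => exact iff_A3 ..
  | A4 c => exact iff_A4 ..
  | A5 c => exact iff_A5 ..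
  | A6 c => exact iff_A6 ..
  | A7 => exact iff_A7 ..
  | B1 l c => exact iff_B1 ..
  | B2 b c => exact iff_B2 ..
  | B3 b => exact iff_B3 ..
  | B4 d => exact iff_B4 ..
  | B5 => exact iff_B5 ..
  | B6 => exact iff_B6 ..
  | B7 c => exact iff_B7 ..
  | B8 b => exact iff_B8 ..
  | B9 d => exact iff_B9 ..
  | B10 => exact iff_B10 ..
  | B11 c e => exact iff_B11 ..
  | C1 a b => exact iff_C1 ..
  | C2 a => exact iff_C2 ..
  | C3 a g => exact iff_C3 ..
  | C4 d => exact iff_C4 ..
  | C5 g => exact iff_C5 ..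
  | C6 g => exact iff_C6 ..
  | C7 => exact iff_C7 ..
  | C8 d => exact iff_C8 ..
  | C9 => exact iff_C9 ..
  | C10 => exact iff_C10 ..
  | C11 d => exact iff_C11 ..
  | D1 a b => exact iff_D1 ..
  | D2 a => exact iff_D2 ..
  | E1 => exact iff_E1 ..

theorem exists_nf (χ : Module.Dual k (W k)) : ∃ n : NF k, Conj χ (character n.pair) := by
  obtain ⟨_, _, _, _, _, _, _, _, _, _, _, _, _, _, _, _, _, _, rfl⟩ := character_surj χ
  exact has_all ..

end Pool.Agent.W23
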