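import Pool.Agent.P.MP_c9b50d_al.Main

/-!
W(2,1) is perfect, so the classification passes to its second derived algebra.
-/

namespace Pool.Agent.W23

variable {k : Type*} [Field k] [CharP k 3]

theorem G_eq_top : G k = ⊤ := by
  apply LieIdeal.derivedSeries_eq_top
  rw [eq_top_iff]
  intro E _
  obtain ⟨p00, p10, p01, p20, p11, p02, p21, p12, p22, q00, q10, q01, q20, q11, q02, q21, q12,
    q22, rfl⟩ := dm_surj E
  have h : dm p00 p10 p01 p20 p11 p02 p21 p12 p22 q00 q10 q01 q20 q11 q02 q21 q12 q22 =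
      ⁅(dm 1 0 0 0 0 0 0 0 0 0 0 0 0 0 0 0 0 0 : W k),
        dm 0 p00 0 (-p10) p01 0 (-p11) p02 (-p12) 0 q00 0 (-q10) q01 0 (-q11) q02 (-q12)⁆ +
      ⁅(dm 0 1 0 0 0 0 0 0 0 0 0 0 0 0 0 0 0 0 : W k),
        dm 0 0 0 p20 0 0 p21 0 p22 0 0 0 (-q20) 0 0 (-q21) 0 (-q22)⁆ := by
    rw [br_dm, br_dm, dm_add, dm_inj]
    simp
  rw [h]
  have m : ∀ A B : W k, ⁅A, B⁆ ∈ LieAlgebra.derivedSeries k (W k) 1 := fun A B =>
    LieSubmodule.lie_mem_lie (LieSubmodule.mem_top A) (LieSubmodule.mem_top B)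
  exact add_mem (m _ _) (m _ _)

/-- The inclusion of the second derived algebra is an isomorphism. -/
noncomputable def eG : G k ≃ₗ⁅k⁆ W k :=
  LieEquiv.ofBijective (G k).incl ⟨Subtype.val_injective, fun E =>
    ⟨⟨E, by rw [G_eq_top]; exact LieSubmodule.mem_top E⟩, rfl⟩⟩

theorem conj_comp (χ χ' : Module.Dual k (W k)) :
    Conjugate (G k) (χ.comp (G k).incl.toLinearMap) (χ'.comp (G k).incl.toLinearMap) ↔ Conj χ χ' := by
  constructor
  · rintro ⟨φ, h⟩
    refine ⟨((eG (k := k)).symm.trans φ).trans (eG (k := k)), fun E => ?_⟩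
    have := h ((eG (k := k)).symm E)
    change χ' ((eG (k := k)) ((eG (k := k)).symm E)) = χ ((eG (k := k)) (φ.symm ((eG (k := k)).symm E))) at this
    rw [LieEquiv.apply_symm_apply] at this
    exact this
  · rintro ⟨φ, h⟩
    refine ⟨((eG (k := k)).trans φ).trans (eG (k := k)).symm, fun E => ?_⟩
    change χ' ((eG (k := k)) E) = χ ((eG (k := k)) ((eG (k := k)).symm (φ.symm ((eG (k := k)) E))))
    rw [LieEquiv.apply_symm_apply]
    exact h _

theorem comp_surj (χ : Module.Dual k (G k)) :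
    ∃ χ' : Module.Dual k (W k), χ = χ'.comp (G k).incl.toLinearMap := by
  refine ⟨χ.comp (eG (k := k)).symm.toLinearEquiv.toLinearMap, ?_⟩
  ext E
  change χ E = χ ((eG (k := k)).symm ((eG (k := k)) E))
  rw [LieEquiv.symm_apply_apply]

end Pool.Agent.W23
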